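import Pool.Agent.Lib.MP_df0165_co.Ap.Stmts
import Pool.Agent.Lib.GHApprox.DynMain

set_option autoImplicit false
set_option linter.unusedSectionVars false

/-!
# Approximate Graham-Haggkvist: adapter

The dynamic part (`Lib/GHApprox/Dyn*.lean`) applied to the static theorem: `StMain` follows from
`StWt`, `StStatic` and `StNum`.
-/

namespace Pool.Agent.Lib.GHA

open Finset Classical

section conv

variable {U V : Type} [Fintype U] [Fintype V]

lemma deg_eq (H : SimpleGraph V) (v : V) : GHApprox.deg H v = (nb H v).card := rfl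

lemma use_eq (T : SimpleGraph U) (w : (U → V) → ℝ) (x y : V) :
    GHApprox.use T w x y = ∑ φ : U → V, w φ * cov T φ x y := by
  unfold GHApprox.use cov GHApprox.Hit
  apply sum_congr rfl
  intro φ _
  split_ifs <;> simp

lemma both_eq (T : SimpleGraph U) (w : (U → V) → ℝ) (u v x : V) :
    GHApprox.both T w u v x = ∑ φ : U → V, w φ * (cov T φ u x * cov T φ v x) := by
  unfold GHApprox.both cov
  apply sum_congr rfl
  intro φ _
  by_cases h1 : GHApprox.Hit T φ u x <;> by_cases h2 : GHApprox.Hit T φ v x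
  all_goals
    have h1' := h1
    have h2' := h2
    unfold GHApprox.Hit at h1' h2'
    simp [h1, h2, h1', h2']

lemma deg_ncard (T : SimpleGraph U) (u : U) : (T.neighborSet u).ncard = GHApprox.deg T u := by
  rw [GHApprox.deg, GHApprox.nb, ← Set.ncard_coe_finset]
  congr 1
  ext x
  simp

lemma card_of_tree {T : SimpleGraph U} (hT : T.IsTree) :
    Fintype.card U = T.edgeSet.ncard + 1 := by
  have h := hT.card_edgeFinset
  rw [← h, Set.ncard_eq_toFinset_card', SimpleGraph.edgeFinset]

end conv

theorem staticThm_of (hWt : StWt) (hSt : StStatic) (hNum : StNum) : GHApprox.StaticThm := by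
  intro ε η hε hη
  obtain ⟨c, α, hc, hα, hQ⟩ := hNum (min ε (1 / 2)) (η / (1 + η)) (lt_min hε (by norm_num))
    (lt_of_le_of_lt (min_le_right _ _) (by norm_num)) (by positivity)
    (by rw [div_lt_one (by positivity)]; linarith)
  refine ⟨α, hα, fun P => ?_⟩
  obtain ⟨κ, hκ, hP⟩ := hQ P
  refine ⟨κ, hκ, ?_⟩
  intro U _ T m Δ d hTree hT hm1 hΔ hηd hlog V _ H hdeg
  have hmR : (1 : ℝ) ≤ m := by exact_mod_cast hm1
  have hmd : (m : ℝ) ≤ (1 - η / (1 + η)) * d := by
    have h1 : (1 - η / (1 + η)) = 1 / (1 + η) := by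
      field_simp
      ring
    rw [h1, one_div, inv_mul_eq_div, le_div_iff₀ (by positivity)]
    linarith
  have hd1 : 1 ≤ d := by
    have : (0 : ℝ) < d := by nlinarith
    exact_mod_cast this
  have hΔ1 : 1 ≤ Δ := by
    by_contra hcon
    have h0 : Δ = 0 := by omega
    have h1 := GHApprox.sum_deg T
    rw [sum_eq_zero (fun u _ => by have := hΔ u; omega), hT] at h1
    omega
  have hcardU : Fintype.card U = m + 1 := by rw [card_of_tree hTree, hT]
  have hw := hWt U V T H c m Δ hc hTree hcardU hm1 hΔ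
  refine ⟨WW T H c, hw.nonneg, hw.hom, ?_, ?_, ?_⟩
  · intro z y h
    rw [use_eq]
    exact hw.use z y h
  · intro u v x huv hu hv
    have h1 := hw.cherry u x v huv hu hv
    have h2 : (1 : ℝ) < (nb H x).card := by
      have : 1 < (nb H x).card := by
        rw [Finset.one_lt_card]
        exact ⟨u, by simp [nb, hu.symm], v, by simp [nb, hv.symm], huv⟩
      exact_mod_cast this
    rw [both_eq, deg_eq, le_div_iff₀ (by linarith), mul_comm]
    exact h1
  · intro γ B hγ hγ1 hgood
    obtain ⟨Pr, e1, e2, e3, e4, e5, e6, hok, hphi⟩ := hP d m Δ γ hm1 hmd hΔ1 hlog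
      ((min_le_left _ _).trans hγ) hγ1
    have hG : Good Pr H B := by
      refine ⟨?_, ?_, ?_⟩
      · intro v
        rw [e1]
        exact hdeg v
      · intro v hv
        rw [e1, e4, e5]
        exact hgood.1 v hv
      · intro u v hu hv huv
        rw [e1, e4, e5]
        exact hgood.2 u v huv hu hv
    have h1 := hSt U V Pr T H B hok hG hTree (by rw [e2]; exact hcardU) (by rw [e2]; exact hm1)
      (fun u => by rw [e3]; exact hΔ u)
    rw [e1, e2, e6] at h1
    have h2 : ∑ z : V, ∑ y ∈ GHApprox.nb H z, (1 - GHApprox.use T (WW T H c) z y / (2 * m)) =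
        ∑ v : V, fv T m H (WW T H c) v := by
      apply sum_congr rfl
      intro v _
      unfold fv MM
      apply sum_congr rfl
      intro x _
      rw [use_eq]
    rw [h2]
    refine h1.trans ?_
    have h3 : (d : ℝ) * Pr.phi0 ≤ d * (((d : ℝ) + 1) ^ P)⁻¹ := by
      have hx : (0 : ℝ) < ((d : ℝ) + 1) ^ P := by positivity
      have h4 : (d : ℝ) * Pr.phi0 ≤ (((d : ℝ) + 1) ^ P)⁻¹ := by
        rw [← one_div, le_div_iff₀ hx]
        exact hphi
      refine h4.trans (le_mul_of_one_le_left (by positivity) ?_)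
      exact_mod_cast hd1
    have h5 := mul_le_mul_of_nonneg_left h3 (Nat.cast_nonneg (α := ℝ) (Fintype.card V))
    rw [mul_assoc]
    linarith

theorem stMain_of_mainThm (h : GHApprox.MainThm) : StMain := by
  intro ε η hε hη
  obtain ⟨c, hc, hmain⟩ := h ε η hε hη
  refine ⟨c, hc, ?_⟩
  intro U _ T hTree hpos V _ G _ d hG hηd hlog
  have : Nonempty U := hTree.connected.nonempty
  obtain ⟨u0, -, hu0⟩ := exists_max_image univ (fun u => GHApprox.deg T u) univ_nonempty
  have hGd : ∀ v, GHApprox.deg G v = d := by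
    intro v
    rw [← hG v, ← SimpleGraph.card_neighborFinset_eq_degree, GHApprox.deg, GHApprox.nb]
    congr 1
    ext x
    simp
  obtain ⟨k, f, hf1, hf2, hf3⟩ := hmain U T T.edgeSet.ncard (GHApprox.deg T u0) d hTree rfl hpos
    (fun u => hu0 u (mem_univ u)) hηd (by
      have := hlog u0
      rwa [deg_ncard] at this) V G hGd
  refine ⟨k, fun i => ⟨f i, fun {a b} hab => (hf1 i).2 a b hab⟩, fun i => (hf1 i).1, ?_, ?_⟩
  · intro e
    rintro ⟨i, p⟩ ⟨hp, hpe⟩ ⟨j, q⟩ ⟨hq, hqe⟩
    simp only at hp hpe hq hqe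
    have hij : i = j := by
      by_contra hne
      induction p using Sym2.ind with
      | _ a b =>
        induction q using Sym2.ind with
        | _ a' b' =>
          rw [SimpleGraph.mem_edgeSet] at hp hq
          rw [Sym2.map_mk] at hpe hqe
          have h1 : GHApprox.Hit T (f i) (f i a) (f i b) := ⟨a, b, hp, rfl, rfl⟩
          apply hf2 i j hne _ _ h1
          rw [← hqe] at hpe
          rcases Sym2.eq_iff.1 hpe with ⟨h3, h4⟩ | ⟨h3, h4⟩
          · exact ⟨a', b', hq, h3.symm, h4.symm⟩
          · exact ⟨b', a', hq.symm, h3.symm, h4.symm⟩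
    subst hij
    have : p = q := Sym2.map.injective (hf1 i).1 (hpe.trans hqe.symm)
    rw [this]
  · have h1 : (Fintype.card V * d : ℝ) = 2 * G.edgeSet.ncard := by
      have h2 := GHApprox.sum_deg G
      rw [sum_congr rfl fun v _ => hGd v, sum_const, card_univ, smul_eq_mul] at h2
      exact_mod_cast h2
    rw [h1] at hf3
    linarith

/-- **The main theorem from the static modules.** -/
theorem stMain_of (hWt : StWt) (hSt : StStatic) (hNum : StNum) : StMain :=
  stMain_of_mainThm (GHApprox.dyn (staticThm_of hWt hSt hNum))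

end Pool.Agent.Lib.GHA
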