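import Mathlib

set_option autoImplicit false
set_option linter.unusedSectionVars false

/-!
# Approximate Graham-Haggkvist: definitions

See the note `gh_approx_helper37.md` (team store). `T` is a tree on `U`, `H` a host graph on `V`.
-/

namespace Pool.Agent.Lib.GHA

open Finset Classical

variable {U V : Type} [Fintype U] [Fintype V]

/-- Adjacency indicator of the host graph. -/
noncomputable def rr (H : SimpleGraph V) (x y : V) : ℝ := if H.Adj x y then 1 else 0

/-- Neighbourhood as a finset. -/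
noncomputable def nb (H : SimpleGraph V) (v : V) : Finset V := univ.filter (fun x => H.Adj v x)

/-- Adding `t` to the broadcast time of the tree vertex `p`. -/
noncomputable def bump (τ : U → ℝ) (p : U) (t : ℝ) : U → ℝ :=
  fun u => τ u + if u = p then t else 0

/-- Iterated integral over the cube: one variable in `[0,1]` for each entry of the list. -/
noncomputable def LI : List U → ((U → ℝ) → ℝ) → (U → ℝ) → ℝ
  | [], F, τ => F τ
  | p :: qs, F, τ => ∫ t in (0 : ℝ)..1, LI qs F (bump τ p t)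

/-- `Grow T D l D'`: the list `l` of steps (new vertex, parent) enlarges the set `D` of tree
vertices to `D'`; at each step the parent is the only old `T`-neighbour of the new vertex. -/
def Grow (T : SimpleGraph U) : Finset U → List (U × U) → Finset U → Prop
  | D, [], D' => D = D'
  | D, s :: l, D' => s.1 ∉ D ∧ s.2 ∈ D ∧ (∀ u ∈ D, T.Adj u s.1 ↔ u = s.2) ∧
      Grow T (insert s.1 D) l D'

/-- Exposure of the host vertex `x`. -/
noncomputable def Ex (H : SimpleGraph V) (D : Finset U) (ψ : U → V) (τ : U → ℝ) (x : V) : ℝ :=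
  ∑ u ∈ D, τ u * rr H (ψ u) x

/-- Residual threshold of the host vertex `x`. -/
noncomputable def av (H : SimpleGraph V) (D : Finset U) (ψ : U → V) (τ : U → ℝ) (x : V) : ℝ :=
  1 - Ex H D ψ τ x

/-- Exposure of `ψ w` by broadcasters which are not `T`-neighbours of `w`. -/
noncomputable def Exn (T : SimpleGraph U) (H : SimpleGraph V) (D : Finset U) (ψ : U → V)
    (τ : U → ℝ) (w : U) : ℝ :=
  ∑ u ∈ D.filter (fun u => ¬ T.Adj u w), τ u * rr H (ψ u) (ψ w)

/-- Continuous cut-off: `1` for `s ≤ 1 - c`, `0` for `s ≥ 1`. -/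
noncomputable def cut (c s : ℝ) : ℝ := max 0 (min 1 ((1 - s) / c))

/-- Survival product of the vertices which are not captured. -/
noncomputable def PP (H : SimpleGraph V) (D : Finset U) (ψ : U → V) (τ : U → ℝ) : ℝ :=
  ∏ x ∈ (D.image ψ)ᶜ, max 0 (av H D ψ τ x)

/-- Cut-off factor; `E` is the set of exempt tree vertices. -/
noncomputable def CC (T : SimpleGraph U) (H : SimpleGraph V) (c : ℝ) (E D : Finset U)
    (ψ : U → V) (τ : U → ℝ) : ℝ :=
  ∏ w ∈ D \ E, ∏ p ∈ D.filter (fun p => T.Adj p w), cut c (Exn T H D ψ τ w + τ p)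

/-- The integrand of the weight of a (partial) copy. -/
noncomputable def FF (T : SimpleGraph U) (H : SimpleGraph V) (c : ℝ) (E D : Finset U)
    (ψ : U → V) (τ : U → ℝ) : ℝ :=
  PP H D ψ τ * CC T H c E D ψ τ

/-- Maps which are injective on `D'`, equal to `ψ` on `D` and to `v0` outside `D'`. -/
noncomputable def Ext (v0 : V) (D' D : Finset U) (ψ : U → V) : Finset (U → V) :=
  univ.filter (fun φ => Set.InjOn φ D' ∧ (∀ u ∈ D, φ u = ψ u) ∧ ∀ u, u ∉ D' → φ u = v0)

/-- Product of the adjacency indicators along the steps of a growth list. -/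
noncomputable def prr (H : SimpleGraph V) (φ : U → V) (l : List (U × U)) : ℝ :=
  (l.map (fun s => rr H (φ s.2) (φ s.1))).prod

/-- General mass of the growth process with terminal functional `Fn`. -/
noncomputable def gm (H : SimpleGraph V) (Fn : (U → V) → (U → ℝ) → ℝ) (v0 : V) (D' : Finset U)
    (l : List (U × U)) (D : Finset U) (ψ : U → V) (τ : U → ℝ) : ℝ :=
  ∑ φ ∈ Ext v0 D' D ψ, prr H φ l * LI (l.map Prod.snd) (Fn φ) τ

/-- The map with `a ↦ z`, `b ↦ y` and `v0` elsewhere. -/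
noncomputable def rt (v0 : V) (a b : U) (z y : V) : U → V :=
  fun u => if u = a then z else if u = b then y else v0

/-- Mass of hitting the bad set `B` during the growth. -/
noncomputable def hit (T : SimpleGraph U) (H : SimpleGraph V) (c : ℝ) (B : Finset V) :
    List (U × U) → Finset U → (U → V) → (U → ℝ) → ℝ
  | [], _, _, _ => 0
  | s :: l, D, ψ, τ => ∫ t in (0 : ℝ)..1, ∑ y ∈ (D.image ψ)ᶜ, rr H (ψ s.2) y *
      ((if y ∈ B then FF T H c {s.1} (insert s.1 D) (Function.update ψ s.1 y) (bump τ s.2 t)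
        else 0)
        + hit T H c B l (insert s.1 D) (Function.update ψ s.1 y) (bump τ s.2 t))

/-! ## The weight of a copy and its use of edges -/

/-- List in which `u` occurs `deg u - 1` times. -/
noncomputable def can (T : SimpleGraph U) : List U :=
  (Finset.univ : Finset U).toList.flatMap
    (fun u => List.replicate ((nb T u).card - 1) u)

/-- The weight of a map `φ : U → V` (zero unless it is an injective homomorphism). -/
noncomputable def WW (T : SimpleGraph U) (H : SimpleGraph V) (c : ℝ) (φ : U → V) : ℝ :=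
  if Function.Injective φ ∧ ∀ a b, T.Adj a b → H.Adj (φ a) (φ b) then
    LI (can T) (FF T H c ∅ univ φ) (fun _ => 0) else 0

/-- `1` if the pair `x,y` is the image of an edge of `T`. -/
noncomputable def cov (T : SimpleGraph U) (φ : U → V) (x y : V) : ℝ :=
  if ∃ a b, T.Adj a b ∧ φ a = x ∧ φ b = y then 1 else 0

/-- Removing the edges of the copy `φ`. -/
def del (T : SimpleGraph U) (H : SimpleGraph V) (φ : U → V) : SimpleGraph V where
  Adj x y := H.Adj x y ∧ ¬ ∃ a b, T.Adj a b ∧ φ a = x ∧ φ b = y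
  symm := ⟨by
    rintro x y ⟨h1, h2⟩
    refine ⟨h1.symm, ?_⟩
    rintro ⟨a, b, hab, ha, hb⟩
    exact h2 ⟨b, a, hab.symm, hb, ha⟩⟩
  loopless := ⟨fun x h => H.loopless.irrefl x h.1⟩

/-! ## The static potential -/

/-- Excess of the compensated count. -/
noncomputable def hv (H : SimpleGraph V) (D : Finset U) (ψ : U → V) (τ : U → ℝ) (y : V) : ℝ :=
  if y ∈ D.image ψ then -1 else 1 / av H D ψ τ y - 1

noncomputable def eb (H : SimpleGraph V) (D : Finset U) (ψ : U → V) (τ : U → ℝ) (y : V) : ℝ :=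
  if y ∈ D.image ψ then 1 else 1 - av H D ψ τ y

/-- One exponential term for a set `A` of host vertices, sign `s`. -/
noncomputable def At (H : SimpleGraph V) (s e1 ka : ℝ) (A : Finset V) (D : Finset U)
    (ψ : U → V) (τ : U → ℝ) : ℝ :=
  Real.exp (s * e1 * ∑ y ∈ A, hv H D ψ τ y - ka * ∑ y ∈ A, eb H D ψ τ y)

/-- The group of `A`-terms. -/
noncomputable def AP (H : SimpleGraph V) (B : Finset V) (e1 ka K1 : ℝ) (D : Finset U)
    (ψ : U → V) (τ : U → ℝ) : ℝ :=
  ∑ v ∈ Bᶜ, (At H (-1) e1 ka (nb H v \ B) D ψ τ - 1)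
    + ∑ v ∈ Bᶜ, ∑ x ∈ Bᶜ.erase v, (At H 1 e1 ka ((nb H v ∩ nb H x) \ B) D ψ τ - 1) + K1

/-- `u` is not a `T`-neighbour of a captured tree vertex located at `x`. -/
def okk (T : SimpleGraph U) (D : Finset U) (ψ : U → V) (u : U) (x : V) : Prop :=
  ∀ w ∈ D, ψ w = x → ¬ T.Adj u w

/-- Counted exposure of `x`. -/
noncomputable def Qx (T : SimpleGraph U) (H : SimpleGraph V) (D : Finset U) (ψ : U → V)
    (τ : U → ℝ) (x : V) : ℝ :=
  ∑ u ∈ D.filter (fun u => okk T D ψ u x), τ u * rr H (ψ u) x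

/-- Number of pending broadcasts towards `x`. -/
noncomputable def pend (T : SimpleGraph U) (H : SimpleGraph V) (l : List (U × U)) (D : Finset U)
    (ψ : U → V) (x : V) : ℕ :=
  l.countP (fun s => decide (s.2 ∈ D ∧ okk T D ψ s.2 x ∧ H.Adj (ψ s.2) x))

/-- Number of remaining steps whose parent is not captured yet. -/
noncomputable def rest (l : List (U × U)) (D : Finset U) : ℕ :=
  l.countP (fun s => decide (s.2 ∉ D))

/-- Number of remaining steps with parent `u`. -/
noncomputable def rem (l : List (U × U)) (u : U) : ℕ :=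
  l.countP (fun s => decide (s.2 = u))

def act (H : SimpleGraph V) (D : Finset U) (ψ : U → V) (x : V) : Prop :=
  x ∈ D.image ψ ∨ ∃ u ∈ D, H.Adj (ψ u) x

/-- Exposure term. -/
noncomputable def P3 (T : SimpleGraph U) (H : SimpleGraph V) (e2 ρ ρ' : ℝ) (l : List (U × U))
    (D : Finset U) (ψ : U → V) (τ : U → ℝ) (x : V) : ℝ :=
  if act H D ψ x then
    Real.exp (e2 * (Qx T H D ψ τ x + ρ * (pend T H l D ψ x : ℝ) + ρ' * (rest l D : ℝ))) else 0

/-- Broadcast time term. -/
noncomputable def P4 (e2 ρ : ℝ) (l : List (U × U)) (τ : U → ℝ) (u : U) : ℝ :=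
  Real.exp (e2 * (τ u + ρ * (rem l u : ℝ)))

/-- Numerical parameters of the static part. `d` = degree bound of the host, `Δ` = bound for the
number of children in the tree, `m` = number of edges of the tree. -/
structure Par where
  d : ℕ
  Δ : ℕ
  m : ℕ
  γ : ℝ
  α : ℝ
  δ : ℝ
  c : ℝ
  d1 : ℝ
  e2 : ℝ

namespace Par

variable (P : Par)

noncomputable def e1 : ℝ := P.δ * P.c ^ 3 / 4
noncomputable def ka : ℝ := P.e1 ^ 2 / P.c ^ 3
noncomputable def c2 : ℝ := P.δ * P.e1 / 2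
noncomputable def ρ : ℝ := (1 + P.d1) / (P.γ * P.d)
noncomputable def ρ' : ℝ := P.γ * (1 + P.d1) * P.ρ
noncomputable def K1 : ℝ := (P.m + 1) * (P.d + 1) * (P.d + P.d ^ 2)
noncomputable def I3 : ℝ := Real.exp (P.e2 * (2 * P.ρ * P.Δ + P.ρ' * P.m))
noncomputable def I4 : ℝ := Real.exp (2 * (P.e2 * P.ρ) * P.Δ)
noncomputable def w1 : ℝ := Real.exp (-(P.c2 * P.d))
noncomputable def w3 : ℝ := Real.exp (-(P.e2 * (1 - 2 * P.c)))
noncomputable def w4 : ℝ := Real.exp (-(P.e2 * P.c))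

/-- The inequalities between the parameters. -/
structure Ok : Prop where
  d_pos : 1 ≤ P.d
  Δ_pos : 1 ≤ P.Δ
  m_le : P.m ≤ P.d
  γ_pos : 0 < P.γ
  γ_le : P.γ ≤ 1
  α_nonneg : 0 ≤ P.α
  δ_pos : 0 < P.δ
  c_pos : 0 < P.c
  c_le : P.c ≤ 1 / 8
  d1_pos : 0 < P.d1
  d1_le : P.d1 ≤ 1 / 8
  small : 6 * (P.α + P.δ) ≤ P.d1 * P.γ ^ 2
  e2_nonneg : 0 ≤ P.e2
  theta : P.e2 * P.ρ * P.Δ ≤ P.c * P.d1 * P.γ ^ 2 / 8

end Par

/-- The group of exposure terms. -/
noncomputable def G3 (P : Par) (T : SimpleGraph U) (H : SimpleGraph V) (B : Finset V)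
    (l : List (U × U)) (D : Finset U) (ψ : U → V) (τ : U → ℝ) : ℝ :=
  ∑ x ∈ Bᶜ, P3 T H P.e2 P.ρ P.ρ' l D ψ τ x + P.d * P.I3 * (l.length : ℝ)

/-- The group of broadcast time terms. -/
noncomputable def G4 (P : Par) (l : List (U × U)) (D : Finset U) (τ : U → ℝ) : ℝ :=
  ∑ u ∈ D, P4 P.e2 P.ρ l τ u + P.I4 * (l.length : ℝ)

/-- The static potential. -/
noncomputable def PHI (P : Par) (T : SimpleGraph U) (H : SimpleGraph V) (B : Finset V)
    (l : List (U × U)) (D : Finset U) (ψ : U → V) (τ : U → ℝ) : ℝ :=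
  P.w1 * AP H B P.e1 P.ka P.K1 D ψ τ + P.w3 * G3 P T H B l D ψ τ + P.w4 * G4 P l D τ

/-- The host graph is good outside `B`. -/
structure Good (P : Par) (H : SimpleGraph V) (B : Finset V) : Prop where
  deg_le : ∀ v, (nb H v).card ≤ P.d
  deg : ∀ v, v ∉ B → (P.γ - P.α) * P.d ≤ (nb H v).card
  codeg : ∀ u v, u ∉ B → v ∉ B → u ≠ v →
    ((nb H u ∩ nb H v).card : ℝ) ≤ (P.γ ^ 2 + P.α) * P.d

/-- Invariants of a state of the growth process (with remaining list `l`). -/
structure Inv (P : Par) (T : SimpleGraph U) (H : SimpleGraph V) (B : Finset V)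
    (l : List (U × U)) (D : Finset U) (ψ : U → V) (τ : U → ℝ) : Prop where
  grow : Grow T D l univ
  card : D.card + l.length = P.m + 1
  nbr : ∀ u ∈ D, ∃ w ∈ D, T.Adj u w
  inj : Set.InjOn ψ D
  hom : ∀ u ∈ D, ∀ w ∈ D, T.Adj u w → H.Adj (ψ u) (ψ w)
  disj : ∀ u ∈ D, ψ u ∉ B
  rem_le : ∀ u, rem l u ≤ P.Δ
  nonneg : ∀ u, 0 ≤ τ u
  zero : ∀ u, u ∉ D → τ u = 0

/-! ## Dynamics -/

/-- Average use of the edge `xy` (normalised by `2m`). -/
noncomputable def MM (T : SimpleGraph U) (m : ℕ) (W : (U → V) → ℝ) (x y : V) : ℝ :=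
  (∑ φ : U → V, W φ * cov T φ x y) / (2 * m)

/-- Average use of both edges `ux`, `vx`. -/
noncomputable def bb (T : SimpleGraph U) (m : ℕ) (W : (U → V) → ℝ) (u x v : V) : ℝ :=
  (∑ φ : U → V, W φ * (cov T φ u x * cov T φ v x)) / (2 * m)

noncomputable def fv (T : SimpleGraph U) (m : ℕ) (H : SimpleGraph V) (W : (U → V) → ℝ) (v : V) :
    ℝ :=
  ∑ x ∈ nb H v, (1 - MM T m W v x)

noncomputable def f2 (T : SimpleGraph U) (m : ℕ) (H : SimpleGraph V) (W : (U → V) → ℝ)
    (u v : V) : ℝ :=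
  ∑ x ∈ nb H u ∩ nb H v, ((1 - MM T m W u x) + (1 - MM T m W v x) + bb T m W u x v)

/-- Properties of a system of weights on the copies of `T` in `H`. -/
structure Wt (T : SimpleGraph U) (m Δ : ℕ) (H : SimpleGraph V) (W : (U → V) → ℝ) : Prop where
  nonneg : ∀ φ, 0 ≤ W φ
  hom : ∀ φ, W φ ≠ 0 → Function.Injective φ ∧ ∀ a b, T.Adj a b → H.Adj (φ a) (φ b)
  use : ∀ x y, H.Adj x y → ∑ φ : U → V, W φ * cov T φ x y ≤ 2 * m
  cherry : ∀ u x v, u ≠ v → H.Adj u x → H.Adj v x →
    (((nb H x).card : ℝ) - 1) * ∑ φ : U → V, W φ * (cov T φ u x * cov T φ v x) ≤ 2 * m * Δ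

/-- The potential of the dynamics. -/
noncomputable def Xi (d : ℕ) (e g : ℝ) (Pr : Finset (V × V)) (H : SimpleGraph V)
    (A : V → ℝ) (A2 : V → V → ℝ) : ℝ :=
  ∑ v : V, (Real.exp (e * ((nb H v).card / g - A v - d))
      + Real.exp (-(e * ((nb H v).card / g - A v - d))))
    + ∑ p ∈ Pr, Real.exp (e * ((nb H p.1 ∩ nb H p.2).card / g ^ 2 - A2 p.1 p.2 - d))

/-- A chain of graphs obtained by removing copies of `T`. -/
structure Chain (T : SimpleGraph U) (G : SimpleGraph V) (N : ℕ) (Hs : ℕ → SimpleGraph V) :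
    Prop where
  zero : Hs 0 = G
  step : ∀ k, k < N → Hs (k + 1) = Hs k ∨ ∃ φ : U → V, Function.Injective φ ∧
    (∀ a b, T.Adj a b → (Hs k).Adj (φ a) (φ b)) ∧ Hs (k + 1) = del T (Hs k) φ

/-- Accumulated compensators along a sequence of graphs. -/
noncomputable def cA (T : SimpleGraph U) (m : ℕ) (W : SimpleGraph V → (U → V) → ℝ) (lam : ℝ)
    (Hs : ℕ → SimpleGraph V) (k : ℕ) (v : V) : ℝ :=
  ∑ i ∈ range k, lam * fv T m (Hs i) (W (Hs i)) v / (1 - lam) ^ (i + 1)

noncomputable def cA2 (T : SimpleGraph U) (m : ℕ) (W : SimpleGraph V → (U → V) → ℝ) (lam : ℝ)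
    (Hs : ℕ → SimpleGraph V) (k : ℕ) (u v : V) : ℝ :=
  ∑ i ∈ range k, lam * f2 T m (Hs i) (W (Hs i)) u v / ((1 - lam) ^ (i + 1)) ^ 2

end Pool.Agent.Lib.GHA
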