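import Mathlib
import Pool.Agent.Lib.MP_df0165_co.Ap.Defs

set_option autoImplicit false
set_option linter.unusedSectionVars false

/-!
# Approximate Graham-Haggkvist: statements of the modules

See the note `gh_approx_helper37.md` (team store).
-/

namespace Pool.Agent.Lib.GHA

open Finset Classical

/-! ## Measure part -/

/-- (M1) permutation invariance of the iterated integral. -/
def StPerm : Prop :=
  ∀ (U : Type) [Fintype U] (F : (U → ℝ) → ℝ), Continuous F →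
    ∀ l₁ l₂ : List U, l₁.Perm l₂ → ∀ τ : U → ℝ, LI l₁ F τ = LI l₂ F τ

/-- (M1) continuity of the iterated integral. -/
def StCont : Prop :=
  ∀ (U : Type) [Fintype U] (F : (U → ℝ) → ℝ), Continuous F →
    ∀ l : List U, Continuous (fun τ : U → ℝ => LI l F τ)

/-- (M2) the recursion of the growth process. -/
def StCons : Prop :=
  ∀ (U V : Type) [Fintype U] [Fintype V] (H : SimpleGraph V) (Fn : (U → V) → (U → ℝ) → ℝ)
    (v0 : V) (D' : Finset U) (w p : U) (l : List (U × U)) (D : Finset U) (ψ : U → V) (τ : U → ℝ),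
    (∀ φ, Continuous (Fn φ)) → w ∉ D → p ∈ D → w ∈ D' → D ⊆ D' →
    gm H Fn v0 D' ((w, p) :: l) D ψ τ = ∫ t in (0 : ℝ)..1, ∑ y ∈ (D.image ψ)ᶜ,
      rr H (ψ p) y * gm H Fn v0 D' l (insert w D) (Function.update ψ w y) (bump τ p t)

/-- (M3) upper bound of the mass. -/
def StUpper : Prop :=
  ∀ (U V : Type) [Fintype U] [Fintype V] (T : SimpleGraph U) (H : SimpleGraph V) (c : ℝ) (v0 : V)
    (E D' : Finset U) (l : List (U × U)) (D : Finset U) (ψ : U → V) (τ : U → ℝ),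
    0 < c → Grow T D l D' → Set.InjOn ψ D → (∀ u, 0 ≤ τ u) → (∀ u, u ∉ D → τ u = 0) →
    (∀ s ∈ l, s.1 ∉ E) →
    gm H (FF T H c E D') v0 D' l D ψ τ ≤ PP H D ψ τ

/-- (M4) growth lists can be rerooted at every edge of the tree grown so far. -/
def StReroot : Prop :=
  ∀ (U : Type) [Fintype U] (T : SimpleGraph U) (a b : U) (l : List (U × U)) (D' : Finset U)
    (p w : U), T.Adj a b → Grow T {a, b} l D' → T.Adj p w → p ∈ D' → w ∈ D' →
    ∃ l' : List (U × U), Grow T {p, w} l' D'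

/-- (M4) any two growth lists of the same set use the same edges and the same parents. -/
def StSame : Prop :=
  ∀ (U : Type) [Fintype U] (T : SimpleGraph U) (a b : U) (l : List (U × U)) (D' : Finset U)
    (p w : U) (l' : List (U × U)), T.Adj a b → Grow T {a, b} l D' → T.Adj p w →
    Grow T {p, w} l' D' →
    (l.map Prod.snd).Perm (l'.map Prod.snd) ∧
    ∀ f : U → U → ℝ, (∀ x y, f x y = f y x) →
      f a b * (l.map (fun s => f s.2 s.1)).prod = f p w * (l'.map (fun s => f s.2 s.1)).prod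

/-- (M5) existence of growth lists for trees, also with a prescribed first step. -/
def StGrowEx : Prop :=
  ∀ (U : Type) [Fintype U] (T : SimpleGraph U), T.IsTree →
    (∀ a b : U, T.Adj a b → ∃ l : List (U × U), Grow T {a, b} l univ) ∧
    (∀ a b c : U, T.Adj a b → T.Adj b c → c ≠ a →
      ∃ l : List (U × U), Grow T {a, b} ((c, b) :: l) univ)

/-- (M5) the number of steps with parent `u`. -/
def StCount : Prop :=
  ∀ (U : Type) [Fintype U] (T : SimpleGraph U) (a b : U) (l : List (U × U)) (D' : Finset U),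
    T.Adj a b → Grow T {a, b} l D' →
    l.length + 2 = D'.card ∧ (∀ s ∈ l, s.1 ∈ D' ∧ s.2 ∈ D') ∧
    ∀ u ∈ D', (l.map Prod.snd).count u + 1 = ((nb T u) ∩ D').card

/-- (M6) change of the root edge. -/
def StRootChange : Prop :=
  ∀ (U V : Type) [Fintype U] [Fintype V] (T : SimpleGraph U) (H : SimpleGraph V)
    (Fn : (U → V) → (U → ℝ) → ℝ) (v0 : V) (D' : Finset U) (a b : U) (l : List (U × U))
    (p w : U) (l' : List (U × U)), (∀ φ, Continuous (Fn φ)) →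
    T.Adj a b → Grow T {a, b} l D' → T.Adj p w → Grow T {p, w} l' D' →
    ∑ z : V, ∑ y : V, rr H z y * gm H Fn v0 D' l {a, b} (rt v0 a b z y) (fun _ => 0)
      = ∑ z : V, ∑ y : V, rr H z y * gm H Fn v0 D' l' {p, w} (rt v0 p w z y) (fun _ => 0)

/-- (M6) use of an edge by the weighted copies, as a sum over the darts of the tree. -/
def StUse : Prop :=
  ∀ (U V : Type) [Fintype U] [Fintype V] (T : SimpleGraph U) (H : SimpleGraph V) (c : ℝ) (v0 : V)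
    (L : T.Dart → List (U × U)), 0 < c → (∀ δ : T.Dart, Grow T {δ.fst, δ.snd} (L δ) univ) →
    ∀ z y : V, H.Adj z y →
    ∑ φ : U → V, WW T H c φ * cov T φ z y
      = ∑ δ : T.Dart, gm H (FF T H c ∅ univ) v0 univ (L δ) {δ.fst, δ.snd}
          (rt v0 δ.fst δ.snd z y) (fun _ => 0)

/-- (M7) total hit mass. -/
def StHit : Prop :=
  ∀ (U V : Type) [Fintype U] [Fintype V] (T : SimpleGraph U) (H : SimpleGraph V) (c : ℝ) (v0 : V)
    (B : Finset V) (d : ℕ) (a b : U) (l : List (U × U)) (D' : Finset U), 0 < c →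
    (∀ v, (nb H v).card ≤ d) → T.Adj a b → Grow T {a, b} l D' →
    ∑ z : V, ∑ y : V, rr H z y * hit T H c B l {a, b} (rt v0 a b z y) (fun _ => 0)
      ≤ l.length * (B.card * d : ℝ)

/-- (M8) the weights of the copies have the properties needed for the dynamics. -/
def StWt : Prop :=
  ∀ (U V : Type) [Fintype U] [Fintype V] (T : SimpleGraph U) (H : SimpleGraph V) (c : ℝ)
    (m Δ : ℕ), 0 < c → T.IsTree → Fintype.card U = m + 1 → 1 ≤ m →
    (∀ u, (nb T u).card ≤ Δ) → Wt T m Δ H (WW T H c)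

/-! ## Static part -/

/-- (S1) the step lemma (pure calculus). `f` is the potential along the broadcast, `g y` the
potential after the capture of `y`, `S` the integrand of the recursion. -/
def StStep : Prop :=
  ∀ (V : Type) [Fintype V] (X B : Finset V) (a r : V → ℝ) (f : ℝ → ℝ) (g : V → ℝ → ℝ)
    (S : ℝ → ℝ),
    (∀ x ∈ X, 0 ≤ a x) → (∀ x ∈ X, a x ≤ 1) → (∀ x, r x = 0 ∨ r x = 1) →
    (∃ y ∈ X, r y = 1) → (∀ t ∈ Set.Icc (0 : ℝ) 1, 0 ≤ f t) →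
    ContinuousOn f {t : ℝ | t ∈ Set.Icc (0 : ℝ) 1 ∧ ∀ x ∈ X, 0 < a x - t * r x} →
    Continuous S → (∀ t ∈ Set.Icc (0 : ℝ) 1, 0 ≤ S t) →
    (∀ t ∈ Set.Icc (0 : ℝ) 1, (∀ x ∈ X, 0 < a x - t * r x) → f t < 1 →
      ∃ f' : ℝ, HasDerivAt f f' t ∧
        f' + ∑ y ∈ X \ B, r y / (a y - t * r y) * (g y t - f t)
          - ∑ y ∈ X ∩ B, r y / (a y - t * r y) * f t ≤ 0) →
    (∀ t ∈ Set.Icc (0 : ℝ) 1, (∀ x ∈ X, 0 < a x - t * r x) → f t < 1 →
      ∑ y ∈ X \ B, r y * (∏ x ∈ X.erase y, (a x - t * r x)) * (1 - g y t)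
        + ∑ y ∈ X ∩ B, r y * (∏ x ∈ X.erase y, (a x - t * r x)) ≤ S t) →
    (∏ x ∈ X, a x) * (1 - f 0) ≤ ∫ t in (0 : ℝ)..1, S t

/-- Consequences of `PHI < 1` in a state. -/
structure GS (P : Par) {U V : Type} [Fintype U] [Fintype V] (T : SimpleGraph U)
    (H : SimpleGraph V) (B : Finset V) (D : Finset U) (ψ : U → V) (τ : U → ℝ) : Prop where
  q_le : ∀ x, x ∉ B → Qx T H D ψ τ x ≤ 1 - 2 * P.c
  tau_le : ∀ u ∈ D, τ u ≤ P.c
  av_ge : ∀ y, y ∉ B → y ∉ D.image ψ → 2 * P.c ≤ av H D ψ τ y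
  R_ge : ∀ v ∈ D.image ψ, (P.γ - P.α - P.δ) * P.d ≤
    ∑ y ∈ (nb H v \ B) \ D.image ψ, 1 / av H D ψ τ y + ((nb H v ∩ B).card : ℝ)
  Rx_le : ∀ v ∈ D.image ψ, ∀ x, x ∉ B → x ≠ v →
    ∑ y ∈ ((nb H v ∩ nb H x) \ B) \ D.image ψ, 1 / av H D ψ τ y
      ≤ (P.γ ^ 2 + P.α + P.δ) * P.d

/-- (S2) the potential is nonnegative (each group is) and `PHI < 1` implies the good
inequalities. -/
def StGS : Prop :=
  ∀ (U V : Type) [Fintype U] [Fintype V] (P : Par) (T : SimpleGraph U) (H : SimpleGraph V)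
    (B : Finset V) (l : List (U × U)) (D : Finset U) (ψ : U → V) (τ : U → ℝ),
    P.Ok → Good P H B → Inv P T H B l D ψ τ →
    (0 ≤ AP H B P.e1 P.ka P.K1 D ψ τ ∧ 0 ≤ G3 P T H B l D ψ τ ∧ 0 ≤ G4 P l D τ) ∧
    (PHI P T H B l D ψ τ < 1 → GS P T H B D ψ τ)

/-- (S3) generator of the `A`-terms. -/
def StGenA : Prop :=
  ∀ (U V : Type) [Fintype U] [Fintype V] (P : Par) (T : SimpleGraph U) (H : SimpleGraph V)
    (B : Finset V) (w p : U) (l : List (U × U)) (D : Finset U) (ψ : U → V) (τ : U → ℝ),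
    P.Ok → Good P H B → Inv P T H B ((w, p) :: l) D ψ τ →
    (∀ y, y ∉ B → y ∉ D.image ψ → P.c ≤ av H D ψ τ y) →
    ∃ g' : ℝ, HasDerivAt (fun t => AP H B P.e1 P.ka P.K1 D ψ (bump τ p t)) g' 0 ∧
      g' + ∑ y ∈ (nb H (ψ p) \ B) \ D.image ψ, 1 / av H D ψ τ y *
        (AP H B P.e1 P.ka P.K1 (insert w D) (Function.update ψ w y) τ
          - AP H B P.e1 P.ka P.K1 D ψ τ) ≤ 0

/-- (S4) generator of the exposure terms. -/
def StGen3 : Prop :=
  ∀ (U V : Type) [Fintype U] [Fintype V] (P : Par) (T : SimpleGraph U) (H : SimpleGraph V)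
    (B : Finset V) (w p : U) (l : List (U × U)) (D : Finset U) (ψ : U → V) (τ : U → ℝ),
    P.Ok → Good P H B → Inv P T H B ((w, p) :: l) D ψ τ → GS P T H B D ψ τ →
    ∃ g' : ℝ, HasDerivAt (fun t => G3 P T H B ((w, p) :: l) D ψ (bump τ p t)) g' 0 ∧
      g' + ∑ y ∈ (nb H (ψ p) \ B) \ D.image ψ, 1 / av H D ψ τ y *
        (G3 P T H B l (insert w D) (Function.update ψ w y) τ
          - G3 P T H B ((w, p) :: l) D ψ τ)
        - ((nb H (ψ p) ∩ B).card : ℝ) * G3 P T H B ((w, p) :: l) D ψ τ ≤ 0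

/-- (S5) generator of the broadcast time terms. -/
def StGen4 : Prop :=
  ∀ (U V : Type) [Fintype U] [Fintype V] (P : Par) (T : SimpleGraph U) (H : SimpleGraph V)
    (B : Finset V) (w p : U) (l : List (U × U)) (D : Finset U) (ψ : U → V) (τ : U → ℝ),
    P.Ok → Good P H B → Inv P T H B ((w, p) :: l) D ψ τ → GS P T H B D ψ τ →
    ∃ g' : ℝ, HasDerivAt (fun t => G4 P ((w, p) :: l) D (bump τ p t)) g' 0 ∧
      g' + ∑ y ∈ (nb H (ψ p) \ B) \ D.image ψ, 1 / av H D ψ τ y *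
        (G4 P l (insert w D) τ - G4 P ((w, p) :: l) D τ)
        - ((nb H (ψ p) ∩ B).card : ℝ) * G4 P ((w, p) :: l) D τ ≤ 0

/-- (S6) lower bound for mass plus hits. -/
def StLow : Prop :=
  ∀ (U V : Type) [Fintype U] [Fintype V] (P : Par) (T : SimpleGraph U) (H : SimpleGraph V)
    (B : Finset V) (v0 : V) (l : List (U × U)) (D : Finset U) (ψ : U → V) (τ : U → ℝ),
    P.Ok → Good P H B → Inv P T H B l D ψ τ → (∀ y, y ∉ D.image ψ → 0 ≤ av H D ψ τ y) →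
    PP H D ψ τ * (1 - PHI P T H B l D ψ τ)
      ≤ gm H (FF T H P.c ∅ univ) v0 univ l D ψ τ + hit T H P.c B l D ψ τ

/-- The bound for the potential at a root edge. -/
noncomputable def Par.phi0 (P : Par) : ℝ :=
  P.w1 * (2 * P.K1) + P.w3 * P.I3 * (2 * P.d + 2 + P.d * P.m) + P.w4 * P.I4 * (P.m + 2)

/-- (S7) the initial value of the potential. -/
def StInit : Prop :=
  ∀ (U V : Type) [Fintype U] [Fintype V] (P : Par) (T : SimpleGraph U) (H : SimpleGraph V)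
    (B : Finset V) (v0 : V) (a b : U) (l : List (U × U)) (z y : V),
    P.Ok → Good P H B → T.Adj a b → Grow T {a, b} l univ → Fintype.card U = P.m + 1 →
    (∀ u, (nb T u).card ≤ P.Δ) → H.Adj z y → z ∉ B → y ∉ B →
    Inv P T H B l {a, b} (rt v0 a b z y) (fun _ => 0) ∧
    PHI P T H B l {a, b} (rt v0 a b z y) (fun _ => 0) ≤ P.phi0

/-- (S8) the static theorem. -/
def StStatic : Prop :=
  ∀ (U V : Type) [Fintype U] [Fintype V] (P : Par) (T : SimpleGraph U) (H : SimpleGraph V)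
    (B : Finset V), P.Ok → Good P H B → T.IsTree → Fintype.card U = P.m + 1 → 1 ≤ P.m →
    (∀ u, (nb T u).card ≤ P.Δ) →
    ∑ v : V, fv T P.m H (WW T H P.c) v
      ≤ Fintype.card V * (P.d * P.phi0) + (P.m + 1) * P.d * (B.card : ℝ)

/-- (S9) choice of the numerical parameters. -/
def StNum : Prop :=
  ∀ ε η : ℝ, 0 < ε → ε < 1 → 0 < η → η < 1 → ∃ c α : ℝ, 0 < c ∧ 0 < α ∧
    ∀ Q : ℕ, ∃ κ : ℝ, 0 < κ ∧ ∀ (d m Δ : ℕ) (γ : ℝ), 1 ≤ m → (m : ℝ) ≤ (1 - η) * d → 1 ≤ Δ →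
      (Δ : ℝ) * Real.log (d + 1) ≤ κ * d → ε ≤ γ → γ ≤ 1 →
      ∃ P : Par, P.d = d ∧ P.m = m ∧ P.Δ = Δ ∧ P.γ = γ ∧ P.α = α ∧ P.c = c ∧ P.Ok ∧
        (d : ℝ) * P.phi0 * ((d : ℝ) + 1) ^ Q ≤ 1

/-! ## Dynamic part -/

/-- The static estimate as used by the dynamics. -/
def Stat {U V : Type} [Fintype U] [Fintype V] (T : SimpleGraph U) (m d : ℕ) (H : SimpleGraph V)
    (W : (U → V) → ℝ) (ε0 γ α : ℝ) : Prop :=
  ∀ B : Finset V, (∀ v, v ∉ B → (γ - α) * d ≤ (nb H v).card) →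
    (∀ u v, u ∉ B → v ∉ B → u ≠ v → ((nb H u ∩ nb H v).card : ℝ) ≤ (γ ^ 2 + α) * d) →
    ∑ v : V, fv T m H W v ≤ Fintype.card V * ε0 + ((d : ℝ) + 1) ^ 2 * B.card

/-- (D1) one step of the dynamics. -/
def StOne : Prop :=
  ∀ (U V : Type) [Fintype U] [Fintype V] (T : SimpleGraph U) (m Δ d : ℕ) (H : SimpleGraph V)
    (W : (U → V) → ℝ) (Pr : Finset (V × V)) (A : V → ℝ) (A2 : V → V → ℝ) (g e lam : ℝ),
    Wt T m Δ H W → T.IsTree → Fintype.card U = m + 1 → 1 ≤ m → m ≤ d → d + 1 ≤ Fintype.card V →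
    (∀ u, (nb T u).card ≤ Δ) → 1 ≤ Δ → (∀ v, (nb H v).card ≤ d) →
    lam = 2 * m / (d * Fintype.card V) → lam ≤ 1 / 2 → 0 < g → g ≤ 1 → 0 ≤ e →
    e * (2 * Δ + 4) ≤ (g * (1 - lam)) ^ 2 →
    ∑ φ : U → V, W φ / (d * Fintype.card V) ≤ 1 ∧
    ∑ φ : U → V, W φ / (d * Fintype.card V) *
        Xi d e (g * (1 - lam)) Pr (del T H φ)
          (fun v => A v + lam * fv T m H W v / (g * (1 - lam)))
          (fun u v => A2 u v + lam * f2 T m H W u v / (g * (1 - lam)) ^ 2)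
      + (1 - ∑ φ : U → V, W φ / (d * Fintype.card V)) *
        Xi d e (g * (1 - lam)) Pr H
          (fun v => A v + lam * fv T m H W v / (g * (1 - lam)))
          (fun u v => A2 u v + lam * f2 T m H W u v / (g * (1 - lam)) ^ 2)
      ≤ (1 + 4 * (e / (g * (1 - lam)) ^ 2) ^ 2 * lam * Δ * d) * Xi d e g Pr H A A2

/-- (D2) existence of the sequence of graphs. -/
def StSeq : Prop :=
  ∀ (U V : Type) [Fintype U] [Fintype V] (T : SimpleGraph U) (m Δ d N : ℕ) (G : SimpleGraph V)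
    (W : SimpleGraph V → (U → V) → ℝ) (Pr : Finset (V × V)) (ε e lam : ℝ),
    (∀ H, H ≤ G → Wt T m Δ H (W H)) → T.IsTree → Fintype.card U = m + 1 → 1 ≤ m → m ≤ d →
    d + 1 ≤ Fintype.card V → (∀ u, (nb T u).card ≤ Δ) → 1 ≤ Δ → (∀ v, (nb G v).card ≤ d) →
    lam = 2 * m / (d * Fintype.card V) → lam ≤ 1 / 2 → 0 < ε → ε ≤ (1 - lam) ^ N → 0 ≤ e →
    e * (2 * Δ + 4) ≤ ε ^ 2 →
    ∃ Hs : ℕ → SimpleGraph V, Chain T G N Hs ∧ ∀ k, k ≤ N →
      Xi d e ((1 - lam) ^ k) Pr (Hs k) (cA T m W lam Hs k) (cA2 T m W lam Hs k)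
        ≤ (1 + 4 * (e / ε ^ 2) ^ 2 * lam * Δ * d) ^ k * Xi d e 1 Pr G (fun _ => 0) (fun _ _ => 0)

/-- (D3) a chain yields edge-disjoint copies. -/
def StPack : Prop :=
  ∀ (U V : Type) [Fintype U] [Fintype V] (T : SimpleGraph U) (G : SimpleGraph V) (N : ℕ)
    (Hs : ℕ → SimpleGraph V), Chain T G N Hs →
    ∃ (k : ℕ) (f : Fin k → (T →g G)), (∀ i, Function.Injective (f i)) ∧
      (∀ e : Sym2 V, {q : Fin k × Sym2 U |
        q.2 ∈ T.edgeSet ∧ Sym2.map (⇑(f q.1)) q.2 = e}.Subsingleton) ∧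
      k * T.edgeSet.ncard + (Hs N).edgeSet.ncard = G.edgeSet.ncard

/-- (D4) the dynamic theorem. -/
def StDyn : Prop :=
  ∀ ε α : ℝ, 0 < ε → ε ≤ 1 / 8 → 0 < α → ∃ (Q : ℕ) (κ : ℝ), 0 < κ ∧
    ∀ (U V : Type) [Fintype U] [Fintype V] (T : SimpleGraph U) (m Δ d : ℕ) (G : SimpleGraph V)
      (W : SimpleGraph V → (U → V) → ℝ),
      (∀ H, H ≤ G → Wt T m Δ H (W H)) → T.IsTree → Fintype.card U = m + 1 → 1 ≤ m → m ≤ d →
      (∀ u, (nb T u).card ≤ Δ) → 1 ≤ Δ → (∀ v, (nb G v).card = d) → Nonempty V →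
      (Δ : ℝ) * Real.log (d + 1) ≤ κ * d →
      (∀ H, H ≤ G → ∀ γ ε0 : ℝ, ε ≤ γ → γ ≤ 1 → ε0 * ((d : ℝ) + 1) ^ Q = 1 →
        Stat T m d H (W H) ε0 γ α) →
      ∃ (N : ℕ) (Hs : ℕ → SimpleGraph V), Chain T G N Hs ∧
        ∑ v : V, ((nb (Hs N) v).card : ℝ) ≤ 4 * ε * (Fintype.card V * d)

/-! ## The theorem -/

/-- The final theorem. -/
def StMain : Prop :=
  ∀ ε η : ℝ, 0 < ε → 0 < η → ∃ c : ℝ, 0 < c ∧
    ∀ (U : Type) [Fintype U] (T : SimpleGraph U), T.IsTree → 0 < T.edgeSet.ncard →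
      ∀ (V : Type) [Fintype V] (G : SimpleGraph V) [DecidableRel G.Adj] (d : ℕ),
        G.IsRegularOfDegree d → (1 + η) * (T.edgeSet.ncard : ℝ) ≤ d →
        (∀ u : U, ((T.neighborSet u).ncard : ℝ) * Real.log (d + 1) ≤ c * d) →
        ∃ (k : ℕ) (f : Fin k → (T →g G)), (∀ i, Function.Injective (f i)) ∧
          (∀ e : Sym2 V, {q : Fin k × Sym2 U |
            q.2 ∈ T.edgeSet ∧ Sym2.map (⇑(f q.1)) q.2 = e}.Subsingleton) ∧
          (1 - ε) * (G.edgeSet.ncard : ℝ) ≤ k * T.edgeSet.ncard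

end Pool.Agent.Lib.GHA
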