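import Mathlib
import Pool.Agent.Lib.MP_df0165_co.Ap.Stmts

set_option autoImplicit false
set_option linter.unusedSectionVars false

/-!
# Approximate Graham-Haggkvist: simple lemmas
-/

namespace Pool.Agent.Lib.GHA

open Finset Classical MeasureTheory intervalIntegral

variable {U V : Type} [Fintype U] [Fintype V]

/-! ## Adjacency indicator -/

lemma rr_nonneg (H : SimpleGraph V) (x y : V) : 0 ≤ rr H x y := by
  unfold rr; split_ifs <;> norm_num

lemma rr_le_one (H : SimpleGraph V) (x y : V) : rr H x y ≤ 1 := by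
  unfold rr; split_ifs <;> norm_num

lemma rr_zero_or_one (H : SimpleGraph V) (x y : V) : rr H x y = 0 ∨ rr H x y = 1 := by
  unfold rr; split_ifs <;> simp

lemma rr_of_adj {H : SimpleGraph V} {x y : V} (h : H.Adj x y) : rr H x y = 1 := by
  unfold rr; rw [if_pos h]

lemma rr_of_not_adj {H : SimpleGraph V} {x y : V} (h : ¬ H.Adj x y) : rr H x y = 0 := by
  unfold rr; rw [if_neg h]

lemma rr_symm (H : SimpleGraph V) (x y : V) : rr H x y = rr H y x := by
  unfold rr; simp only [H.adj_comm]

lemma rr_self (H : SimpleGraph V) (x : V) : rr H x x = 0 := rr_of_not_adj (H.loopless.irrefl x)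

lemma mem_nb {H : SimpleGraph V} {v x : V} : x ∈ nb H v ↔ H.Adj v x := by simp [nb]

/-! ## Broadcast times -/

lemma bump_apply (τ : U → ℝ) (p : U) (t : ℝ) (u : U) :
    bump τ p t u = τ u + if u = p then t else 0 := rfl

lemma bump_self (τ : U → ℝ) (p : U) (t : ℝ) : bump τ p t p = τ p + t := by simp [bump]

lemma bump_of_ne (τ : U → ℝ) (p : U) (t : ℝ) {u : U} (h : u ≠ p) : bump τ p t u = τ u := by
  simp [bump, h]

lemma bump_zero (τ : U → ℝ) (p : U) : bump τ p 0 = τ := by funext u; simp [bump]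

lemma bump_bump (τ : U → ℝ) (p : U) (t s : ℝ) : bump (bump τ p t) p s = bump τ p (t + s) := by
  funext u; by_cases h : u = p <;> simp [bump, h, add_assoc]

lemma bump_comm (τ : U → ℝ) (p q : U) (t s : ℝ) :
    bump (bump τ p t) q s = bump (bump τ q s) p t := by
  funext u; simp only [bump]; ring

lemma le_bump (τ : U → ℝ) (p : U) (t : ℝ) (ht : 0 ≤ t) (u : U) : τ u ≤ bump τ p t u := by
  unfold bump; split_ifs <;> linarith

lemma bump_nonneg {τ : U → ℝ} (hτ : ∀ u, 0 ≤ τ u) (p : U) {t : ℝ} (ht : 0 ≤ t) (u : U) :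
    0 ≤ bump τ p t u := (hτ u).trans (le_bump τ p t ht u)

lemma continuous_bump (τ : U → ℝ) (p : U) : Continuous (fun t : ℝ => bump τ p t) := by
  unfold bump
  refine continuous_pi (fun u => ?_)
  by_cases h : u = p
  · simp only [h, if_true]; fun_prop
  · simp only [h, if_false]; fun_prop

lemma continuous_bump2 (p : U) : Continuous (fun q : (U → ℝ) × ℝ => bump q.1 p q.2) := by
  unfold bump
  refine continuous_pi (fun u => ?_)
  by_cases h : u = p
  · simp only [h, if_true]; fun_prop
  · simp only [h, if_false]; fun_prop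

/-! ## Exposures -/

lemma Ex_nonneg {H : SimpleGraph V} {D : Finset U} {ψ : U → V} {τ : U → ℝ}
    (hτ : ∀ u, 0 ≤ τ u) (x : V) : 0 ≤ Ex H D ψ τ x :=
  Finset.sum_nonneg (fun u _ => mul_nonneg (hτ u) (rr_nonneg H _ _))

lemma av_le_one {H : SimpleGraph V} {D : Finset U} {ψ : U → V} {τ : U → ℝ}
    (hτ : ∀ u, 0 ≤ τ u) (x : V) : av H D ψ τ x ≤ 1 := by
  unfold av; linarith [Ex_nonneg (H := H) (D := D) (ψ := ψ) hτ x]

lemma Exn_nonneg {T : SimpleGraph U} {H : SimpleGraph V} {D : Finset U} {ψ : U → V} {τ : U → ℝ}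
    (hτ : ∀ u, 0 ≤ τ u) (w : U) : 0 ≤ Exn T H D ψ τ w :=
  Finset.sum_nonneg (fun u _ => mul_nonneg (hτ u) (rr_nonneg H _ _))

lemma Ex_bump (H : SimpleGraph V) (D : Finset U) (ψ : U → V) (τ : U → ℝ) {p : U} (hp : p ∈ D)
    (t : ℝ) (x : V) : Ex H D ψ (bump τ p t) x = Ex H D ψ τ x + t * rr H (ψ p) x := by
  unfold Ex bump
  have h : ∀ u ∈ D, (τ u + if u = p then t else 0) * rr H (ψ u) x
      = τ u * rr H (ψ u) x + if u = p then t * rr H (ψ p) x else 0 := by
    intro u _
    by_cases hu : u = p
    · subst hu; simp [add_mul]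
    · simp [hu]
  rw [Finset.sum_congr rfl h, Finset.sum_add_distrib, Finset.sum_ite_eq' D p, if_pos hp]

lemma av_bump (H : SimpleGraph V) (D : Finset U) (ψ : U → V) (τ : U → ℝ) {p : U} (hp : p ∈ D)
    (t : ℝ) (x : V) : av H D ψ (bump τ p t) x = av H D ψ τ x - t * rr H (ψ p) x := by
  unfold av; rw [Ex_bump H D ψ τ hp]; ring

lemma av_root (H : SimpleGraph V) (D : Finset U) (ψ : U → V) (x : V) :
    av H D ψ (fun _ => 0) x = 1 := by
  simp [av, Ex]

/-! ## The next state -/

lemma image_update {D : Finset U} {ψ : U → V} {w : U} (hw : w ∉ D) (y : V) :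
    (insert w D).image (Function.update ψ w y) = insert y (D.image ψ) := by
  rw [Finset.image_insert, Function.update_self]
  congr 1
  apply Finset.image_congr
  intro u hu
  have hu' : u ≠ w := fun h => hw (h ▸ hu)
  simp [Function.update_of_ne hu']

lemma compl_image_update {D : Finset U} {ψ : U → V} {w : U} (hw : w ∉ D) (y : V) :
    ((insert w D).image (Function.update ψ w y))ᶜ = (D.image ψ)ᶜ.erase y := by
  rw [image_update hw]
  ext v
  simp only [Finset.mem_compl, Finset.mem_insert, Finset.mem_erase]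
  tauto

lemma injOn_update {D : Finset U} {ψ : U → V} {w : U} (hw : w ∉ D) {y : V}
    (hψ : Set.InjOn ψ D) (hy : y ∉ D.image ψ) :
    Set.InjOn (Function.update ψ w y) (insert w D : Finset U) := by
  have hy' : ∀ u ∈ D, ψ u ≠ y := fun u hu h => hy (h ▸ Finset.mem_image_of_mem ψ hu)
  intro u hu v hv huv
  rw [Finset.mem_coe, Finset.mem_insert] at hu hv
  rcases hu with rfl | hu
  · rcases hv with rfl | hv
    · rfl
    · have hv' : v ≠ u := fun h => hw (h ▸ hv)
      rw [Function.update_self, Function.update_of_ne hv'] at huv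
      exact absurd huv.symm (hy' v hv)
  · have hu' : u ≠ w := fun h => hw (h ▸ hu)
    rcases hv with rfl | hv
    · rw [Function.update_self, Function.update_of_ne hu'] at huv
      exact absurd huv (hy' u hu)
    · have hv' : v ≠ w := fun h => hw (h ▸ hv)
      rw [Function.update_of_ne hu', Function.update_of_ne hv'] at huv
      exact hψ hu hv huv

lemma Ex_next (H : SimpleGraph V) {D : Finset U} (ψ : U → V) {τ : U → ℝ} {w : U} (hw : w ∉ D)
    (hτ : τ w = 0) (y x : V) :
    Ex H (insert w D) (Function.update ψ w y) τ x = Ex H D ψ τ x := by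
  unfold Ex
  rw [Finset.sum_insert hw, hτ, zero_mul, zero_add]
  apply Finset.sum_congr rfl
  intro u hu
  rw [Function.update_of_ne (fun h : u = w => hw (h ▸ hu))]

lemma av_next (H : SimpleGraph V) {D : Finset U} (ψ : U → V) {τ : U → ℝ} {w : U} (hw : w ∉ D)
    (hτ : τ w = 0) (y x : V) :
    av H (insert w D) (Function.update ψ w y) τ x = av H D ψ τ x := by
  unfold av; rw [Ex_next H ψ hw hτ]

lemma Exn_next (T : SimpleGraph U) (H : SimpleGraph V) {D : Finset U} (ψ : U → V) {τ : U → ℝ}
    {w : U} (hw : w ∉ D) (hτ : τ w = 0) (y : V) {v : U} (hv : v ∈ D) :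
    Exn T H (insert w D) (Function.update ψ w y) τ v = Exn T H D ψ τ v := by
  unfold Exn
  have hv' : v ≠ w := fun h => hw (h ▸ hv)
  have hfil : (insert w D).filter (fun u => ¬ T.Adj u v)
      = if ¬ T.Adj w v then insert w (D.filter (fun u => ¬ T.Adj u v))
        else D.filter (fun u => ¬ T.Adj u v) := by
    rw [Finset.filter_insert]
  have hcongr : ∑ u ∈ D.filter (fun u => ¬ T.Adj u v),
      τ u * rr H (Function.update ψ w y u) (Function.update ψ w y v)
      = ∑ u ∈ D.filter (fun u => ¬ T.Adj u v), τ u * rr H (ψ u) (ψ v) := by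
    apply Finset.sum_congr rfl
    intro u hu
    rw [Function.update_of_ne (fun h : u = w => hw (h ▸ (Finset.mem_filter.mp hu).1)),
      Function.update_of_ne hv']
  rw [hfil]
  by_cases h : T.Adj w v
  · rw [if_neg (by simpa using h), hcongr]
  · rw [if_pos h, Finset.sum_insert (fun h' => hw (Finset.mem_filter.mp h').1), hτ, zero_mul,
      zero_add, hcongr]

/-! ## Cut-off -/

lemma cut_nonneg (c s : ℝ) : 0 ≤ cut c s := le_max_left _ _

lemma cut_le_one (c s : ℝ) : cut c s ≤ 1 := max_le zero_le_one (min_le_left _ _)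

lemma cut_eq_zero {c s : ℝ} (hc : 0 < c) (hs : 1 ≤ s) : cut c s = 0 := by
  unfold cut
  apply max_eq_left
  apply (min_le_right _ _).trans
  exact div_nonpos_of_nonpos_of_nonneg (by linarith) hc.le

lemma cut_eq_one {c s : ℝ} (hc : 0 < c) (hs : s ≤ 1 - c) : cut c s = 1 := by
  unfold cut
  have h : 1 ≤ (1 - s) / c := by rw [le_div_iff₀ hc]; linarith
  rw [min_eq_left h, max_eq_right zero_le_one]

lemma continuous_cut (c : ℝ) : Continuous (cut c) := by
  unfold cut; fun_prop

lemma continuous_Ex (H : SimpleGraph V) (D : Finset U) (ψ : U → V) (x : V) :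
    Continuous (fun τ : U → ℝ => Ex H D ψ τ x) := by
  unfold Ex; fun_prop

lemma continuous_av (H : SimpleGraph V) (D : Finset U) (ψ : U → V) (x : V) :
    Continuous (fun τ : U → ℝ => av H D ψ τ x) := by
  unfold av; exact continuous_const.sub (continuous_Ex H D ψ x)

lemma continuous_Exn (T : SimpleGraph U) (H : SimpleGraph V) (D : Finset U) (ψ : U → V) (w : U) :
    Continuous (fun τ : U → ℝ => Exn T H D ψ τ w) := by
  unfold Exn; fun_prop

lemma PP_nonneg (H : SimpleGraph V) (D : Finset U) (ψ : U → V) (τ : U → ℝ) :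
    0 ≤ PP H D ψ τ := Finset.prod_nonneg (fun _ _ => le_max_left _ _)

lemma CC_nonneg (T : SimpleGraph U) (H : SimpleGraph V) (c : ℝ) (E D : Finset U) (ψ : U → V)
    (τ : U → ℝ) : 0 ≤ CC T H c E D ψ τ :=
  Finset.prod_nonneg (fun _ _ => Finset.prod_nonneg (fun _ _ => cut_nonneg _ _))

lemma CC_le_one (T : SimpleGraph U) (H : SimpleGraph V) (c : ℝ) (E D : Finset U) (ψ : U → V)
    (τ : U → ℝ) : CC T H c E D ψ τ ≤ 1 :=
  Finset.prod_le_one (fun _ _ => Finset.prod_nonneg (fun _ _ => cut_nonneg _ _))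
    (fun _ _ => Finset.prod_le_one (fun _ _ => cut_nonneg _ _) (fun _ _ => cut_le_one _ _))

lemma FF_nonneg (T : SimpleGraph U) (H : SimpleGraph V) (c : ℝ) (E D : Finset U) (ψ : U → V)
    (τ : U → ℝ) : 0 ≤ FF T H c E D ψ τ := mul_nonneg (PP_nonneg _ _ _ _) (CC_nonneg _ _ _ _ _ _ _)

lemma FF_le_PP (T : SimpleGraph U) (H : SimpleGraph V) (c : ℝ) (E D : Finset U) (ψ : U → V)
    (τ : U → ℝ) : FF T H c E D ψ τ ≤ PP H D ψ τ := by
  unfold FF
  have h1 := PP_nonneg H D ψ τ
  have h2 := CC_le_one T H c E D ψ τ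
  nlinarith

lemma continuous_PP (H : SimpleGraph V) (D : Finset U) (ψ : U → V) :
    Continuous (fun τ : U → ℝ => PP H D ψ τ) := by
  unfold PP
  exact continuous_finsetProd _ (fun x _ => continuous_const.max (continuous_av H D ψ x))

lemma continuous_CC (T : SimpleGraph U) (H : SimpleGraph V) (c : ℝ) (E D : Finset U)
    (ψ : U → V) : Continuous (fun τ : U → ℝ => CC T H c E D ψ τ) := by
  unfold CC
  refine continuous_finsetProd _ (fun w _ => continuous_finsetProd _ (fun p _ => ?_))
  exact (continuous_cut c).comp ((continuous_Exn T H D ψ w).add (continuous_apply p))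

lemma continuous_FF (T : SimpleGraph U) (H : SimpleGraph V) (c : ℝ) (E D : Finset U)
    (ψ : U → V) : Continuous (FF T H c E D ψ) := by
  unfold FF
  exact (continuous_PP H D ψ).mul (continuous_CC T H c E D ψ)

lemma Ex_congr (H : SimpleGraph V) {D : Finset U} {φ ψ : U → V} (h : ∀ u ∈ D, φ u = ψ u)
    (τ : U → ℝ) (x : V) : Ex H D φ τ x = Ex H D ψ τ x := by
  unfold Ex; exact Finset.sum_congr rfl (fun u hu => by rw [h u hu])

lemma Exn_congr (T : SimpleGraph U) (H : SimpleGraph V) {D : Finset U} {φ ψ : U → V}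
    (h : ∀ u ∈ D, φ u = ψ u) (τ : U → ℝ) {w : U} (hw : w ∈ D) :
    Exn T H D φ τ w = Exn T H D ψ τ w := by
  unfold Exn
  exact Finset.sum_congr rfl (fun u hu => by rw [h u (Finset.mem_filter.mp hu).1, h w hw])

lemma PP_congr (H : SimpleGraph V) {D : Finset U} {φ ψ : U → V} (h : ∀ u ∈ D, φ u = ψ u)
    (τ : U → ℝ) : PP H D φ τ = PP H D ψ τ := by
  unfold PP av
  rw [Finset.image_congr (fun u hu => h u hu)]
  exact Finset.prod_congr rfl (fun x _ => by rw [Ex_congr H h])

lemma FF_congr (T : SimpleGraph U) (H : SimpleGraph V) (c : ℝ) (E : Finset U) {D : Finset U}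
    {φ ψ : U → V} (h : ∀ u ∈ D, φ u = ψ u) (τ : U → ℝ) :
    FF T H c E D φ τ = FF T H c E D ψ τ := by
  unfold FF
  rw [PP_congr H h]
  congr 1
  unfold CC
  refine Finset.prod_congr rfl (fun w hw => Finset.prod_congr rfl (fun p _ => ?_))
  rw [Exn_congr T H h τ (Finset.mem_sdiff.mp hw).1]

/-- Survival product along a broadcast, written with the residual thresholds. -/
lemma PP_next (H : SimpleGraph V) {D : Finset U} (ψ : U → V) {τ : U → ℝ} {w : U} (hw : w ∉ D)
    (hτ : τ w = 0) (y : V) :
    PP H (insert w D) (Function.update ψ w y) τ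
      = ∏ x ∈ (D.image ψ)ᶜ.erase y, max 0 (av H D ψ τ x) := by
  unfold PP
  rw [compl_image_update hw]
  exact Finset.prod_congr rfl (fun x _ => by rw [av_next H ψ hw hτ])

/-! ## The iterated integral -/

lemma continuous_LI (F : (U → ℝ) → ℝ) (hF : Continuous F) (l : List U) :
    Continuous (fun τ : U → ℝ => LI l F τ) := by
  induction l with
  | nil => simpa only [LI] using hF
  | cons p qs ih =>
    simp only [LI]
    apply intervalIntegral.continuous_parametric_intervalIntegral_of_continuous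
      (f := fun (τ : U → ℝ) (t : ℝ) => LI qs F (bump τ p t))
    · have : (Function.uncurry fun (τ : U → ℝ) (t : ℝ) => LI qs F (bump τ p t))
          = (fun τ => LI qs F τ) ∘ (fun q : (U → ℝ) × ℝ => bump q.1 p q.2) := by
        funext q; rfl
      rw [this]
      exact ih.comp (continuous_bump2 p)
    · exact continuous_const

theorem stCont : StCont := by
  intro U _ F hF l
  exact continuous_LI F hF l

lemma continuous_LI_bump (F : (U → ℝ) → ℝ) (hF : Continuous F) (l : List U) (τ : U → ℝ) (p : U) :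
    Continuous (fun t : ℝ => LI l F (bump τ p t)) :=
  (continuous_LI F hF l).comp (continuous_bump τ p)

lemma LI_nonneg (F : (U → ℝ) → ℝ) (l : List U) : ∀ τ : U → ℝ,
    (∀ σ : U → ℝ, (∀ u, τ u ≤ σ u) → 0 ≤ F σ) → 0 ≤ LI l F τ := by
  induction l with
  | nil => intro τ h; exact h τ (fun _ => le_refl _)
  | cons p qs ih =>
    intro τ h
    simp only [LI]
    apply intervalIntegral.integral_nonneg zero_le_one
    intro t ht
    exact ih _ (fun σ hσ => h σ (fun u => (le_bump τ p t ht.1 u).trans (hσ u)))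

lemma LI_eq_zero (F : (U → ℝ) → ℝ) (l : List U) : ∀ τ : U → ℝ,
    (∀ σ : U → ℝ, (∀ u, τ u ≤ σ u) → F σ = 0) → LI l F τ = 0 := by
  induction l with
  | nil => intro τ h; exact h τ (fun _ => le_refl _)
  | cons p qs ih =>
    intro τ h
    simp only [LI]
    rw [intervalIntegral.integral_congr (g := fun _ => (0 : ℝ))]
    · simp
    · intro t ht
      rw [Set.uIcc_of_le zero_le_one] at ht
      exact ih _ (fun σ hσ => h σ (fun u => (le_bump τ p t ht.1 u).trans (hσ u)))

theorem LI_perm (F : (U → ℝ) → ℝ) (hF : Continuous F) {l₁ l₂ : List U} (h : l₁.Perm l₂) :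
    ∀ τ : U → ℝ, LI l₁ F τ = LI l₂ F τ := by
  induction h with
  | nil => intro τ; rfl
  | cons q _ ih =>
    intro τ
    simp only [LI]
    apply intervalIntegral.integral_congr
    intro t _
    exact ih _
  | swap q q' l =>
    intro τ
    simp only [LI]
    have hc : Continuous (Function.uncurry fun (t s : ℝ) => LI l F (bump (bump τ q' t) q s)) := by
      have : (Function.uncurry fun (t s : ℝ) => LI l F (bump (bump τ q' t) q s))
          = (fun σ => LI l F σ) ∘ (fun x : ℝ × ℝ => bump (bump τ q' x.1) q x.2) := by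
        funext x; rfl
      rw [this]
      apply (continuous_LI F hF l).comp
      exact (continuous_bump2 q).comp
        (((continuous_bump τ q').comp continuous_fst).prodMk continuous_snd)
    have hswap : ∫ t in (0 : ℝ)..1, ∫ s in (0 : ℝ)..1, LI l F (bump (bump τ q' t) q s)
        = ∫ s in (0 : ℝ)..1, ∫ t in (0 : ℝ)..1, LI l F (bump (bump τ q' t) q s) := by
      apply intervalIntegral_intervalIntegral_swap
      have hK : IsCompact (Set.uIcc (0 : ℝ) 1 ×ˢ Set.uIcc (0 : ℝ) 1) :=
        isCompact_uIcc.prod isCompact_uIcc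
      exact (hc.continuousOn.integrableOn_compact hK).mono_set
        (Set.prod_mono Set.uIoc_subset_uIcc Set.uIoc_subset_uIcc)
    rw [hswap]
    apply intervalIntegral.integral_congr
    intro s _
    apply intervalIntegral.integral_congr
    intro t _
    simp only
    rw [bump_comm]
  | trans _ _ ih₁ ih₂ => intro τ; rw [ih₁, ih₂]

theorem stPerm : StPerm := by
  intro U _ F hF l₁ l₂ h τ
  exact LI_perm F hF h τ

/-! ## Extensions and the general mass -/

lemma mem_Ext {v0 : V} {D' D : Finset U} {ψ φ : U → V} :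
    φ ∈ Ext v0 D' D ψ ↔ Set.InjOn φ D' ∧ (∀ u ∈ D, φ u = ψ u) ∧ ∀ u, u ∉ D' → φ u = v0 := by
  simp [Ext]

lemma Ext_fibre (v0 : V) (D' D : Finset U) (ψ : U → V) {w : U} (hw : w ∉ D) (y : V) :
    (Ext v0 D' D ψ).filter (fun φ => φ w = y)
      = Ext v0 D' (insert w D) (Function.update ψ w y) := by
  ext φ
  simp only [Finset.mem_filter, mem_Ext, Finset.mem_insert]
  constructor
  · rintro ⟨⟨h1, h2, h4⟩, h3⟩
    refine ⟨h1, ?_, h4⟩
    rintro u (rfl | hu)
    · rw [Function.update_self, h3]
    · rw [Function.update_of_ne (fun h : u = w => hw (h ▸ hu)), h2 u hu]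
  · rintro ⟨h1, h2, h4⟩
    refine ⟨⟨h1, ?_, h4⟩, ?_⟩
    · intro u hu
      rw [h2 u (Or.inr hu), Function.update_of_ne (fun h : u = w => hw (h ▸ hu))]
    · rw [h2 w (Or.inl rfl), Function.update_self]

lemma prr_cons (H : SimpleGraph V) (φ : U → V) (s : U × U) (l : List (U × U)) :
    prr H φ (s :: l) = rr H (φ s.2) (φ s.1) * prr H φ l := by
  unfold prr; rw [List.map_cons, List.prod_cons]

lemma prr_nil (H : SimpleGraph V) (φ : U → V) : prr H φ ([] : List (U × U)) = 1 := rfl

lemma prr_nonneg (H : SimpleGraph V) (φ : U → V) (l : List (U × U)) : 0 ≤ prr H φ l := by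
  unfold prr
  apply List.prod_nonneg
  intro x hx
  rw [List.mem_map] at hx
  obtain ⟨s, _, rfl⟩ := hx
  exact rr_nonneg _ _ _

lemma gm_cons (H : SimpleGraph V) (Fn : (U → V) → (U → ℝ) → ℝ) (hFn : ∀ φ, Continuous (Fn φ))
    (v0 : V) (D' : Finset U) (w p : U) (l : List (U × U)) (D : Finset U) (ψ : U → V) (τ : U → ℝ)
    (hw : w ∉ D) (hp : p ∈ D) (hwD : w ∈ D') (hD : D ⊆ D') :
    gm H Fn v0 D' ((w, p) :: l) D ψ τ = ∫ t in (0 : ℝ)..1, ∑ y ∈ (D.image ψ)ᶜ,
      rr H (ψ p) y * gm H Fn v0 D' l (insert w D) (Function.update ψ w y) (bump τ p t) := by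
  have hmaps : ∀ φ ∈ Ext v0 D' D ψ, φ w ∈ (D.image ψ)ᶜ := by
    intro φ hφ
    rw [mem_Ext] at hφ
    rw [Finset.mem_compl, Finset.mem_image]
    rintro ⟨u, hu, h⟩
    rw [← hφ.2.1 u hu] at h
    have := hφ.1 (Finset.mem_coe.mpr (hD hu)) (Finset.mem_coe.mpr hwD) h
    exact hw (this ▸ hu)
  unfold gm
  rw [← Finset.sum_fiberwise_of_maps_to hmaps, intervalIntegral.integral_finsetSum]
  · apply Finset.sum_congr rfl
    intro y _
    rw [Ext_fibre v0 D' D ψ hw y]
    simp_rw [Finset.mul_sum]
    rw [intervalIntegral.integral_finsetSum]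
    · apply Finset.sum_congr rfl
      intro φ hφ
      rw [mem_Ext] at hφ
      have h1 : φ w = y := by
        rw [hφ.2.1 w (Finset.mem_insert_self _ _), Function.update_self]
      have h2 : φ p = ψ p := by
        rw [hφ.2.1 p (Finset.mem_insert_of_mem hp),
          Function.update_of_ne (fun h : p = w => hw (h ▸ hp))]
      rw [prr_cons]
      simp only [List.map_cons, LI, h1, h2]
      rw [intervalIntegral.integral_const_mul, intervalIntegral.integral_const_mul]
      ring
    · intro φ _
      apply Continuous.intervalIntegrable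
      have := continuous_LI_bump (Fn φ) (hFn φ) (l.map Prod.snd) τ p
      fun_prop
  · intro y _
    apply Continuous.intervalIntegrable
    apply Continuous.mul continuous_const
    apply continuous_finsetSum
    intro φ _
    have := continuous_LI_bump (Fn φ) (hFn φ) (l.map Prod.snd) τ p
    fun_prop

theorem stCons : StCons := by
  intro U V _ _ H Fn v0 D' w p l D ψ τ hFn hw hp hwD hD
  exact gm_cons H Fn hFn v0 D' w p l D ψ τ hw hp hwD hD

lemma continuous_gm (H : SimpleGraph V) (Fn : (U → V) → (U → ℝ) → ℝ)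
    (hFn : ∀ φ, Continuous (Fn φ)) (v0 : V) (D' : Finset U) (l : List (U × U)) (D : Finset U)
    (ψ : U → V) : Continuous (fun τ : U → ℝ => gm H Fn v0 D' l D ψ τ) := by
  unfold gm
  apply continuous_finsetSum
  intro φ _
  exact continuous_const.mul (continuous_LI (Fn φ) (hFn φ) _)

lemma gm_nonneg (H : SimpleGraph V) (Fn : (U → V) → (U → ℝ) → ℝ)
    (h0 : ∀ φ σ, 0 ≤ Fn φ σ) (v0 : V) (D' : Finset U) (l : List (U × U)) (D : Finset U)
    (ψ : U → V) (τ : U → ℝ) : 0 ≤ gm H Fn v0 D' l D ψ τ := by
  unfold gm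
  apply Finset.sum_nonneg
  intro φ _
  exact mul_nonneg (prr_nonneg _ _ _) (LI_nonneg _ _ _ (fun σ _ => h0 φ σ))

/-- The mass of a finished growth. -/
lemma gm_nil (H : SimpleGraph V) (Fn : (U → V) → (U → ℝ) → ℝ) (v0 : V) (D : Finset U)
    (ψ : U → V) (τ : U → ℝ) (hψ : Set.InjOn ψ D) :
    gm H Fn v0 D [] D ψ τ = Fn (fun u => if u ∈ D then ψ u else v0) τ := by
  have hE : Ext v0 D D ψ = {fun u => if u ∈ D then ψ u else v0} := by
    ext φ
    rw [mem_Ext, Finset.mem_singleton]
    constructor
    · rintro ⟨_, h2, h3⟩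
      funext u
      by_cases hu : u ∈ D
      · rw [if_pos hu]; exact h2 u hu
      · rw [if_neg hu]; exact h3 u hu
    · rintro rfl
      refine ⟨?_, fun u hu => if_pos hu, fun u hu => if_neg hu⟩
      intro u hu v hv h
      rw [Finset.mem_coe] at hu hv
      simp only [if_pos hu, if_pos hv] at h
      exact hψ hu hv h
  unfold gm
  rw [hE, Finset.sum_singleton]
  simp [prr, LI]

/-! ## Hit mass -/

lemma continuous_hit (T : SimpleGraph U) (H : SimpleGraph V) (c : ℝ) (B : Finset V) :
    ∀ (l : List (U × U)) (D : Finset U) (ψ : U → V),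
      Continuous (fun τ : U → ℝ => hit T H c B l D ψ τ) := by
  intro l
  induction l with
  | nil => intro D ψ; simp only [hit]; exact continuous_const
  | cons s l ih =>
    intro D ψ
    simp only [hit]
    apply intervalIntegral.continuous_parametric_intervalIntegral_of_continuous
      (f := fun (τ : U → ℝ) (t : ℝ) => ∑ y ∈ (D.image ψ)ᶜ, rr H (ψ s.2) y *
        ((if y ∈ B then FF T H c {s.1} (insert s.1 D) (Function.update ψ s.1 y) (bump τ s.2 t)
          else 0)
          + hit T H c B l (insert s.1 D) (Function.update ψ s.1 y) (bump τ s.2 t)))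
    · apply continuous_finsetSum
      intro y _
      apply continuous_const.mul
      apply Continuous.add
      · by_cases hy : y ∈ B
        · simp only [hy, if_true]
          exact (continuous_FF T H c _ _ _).comp (continuous_bump2 s.2)
        · simp only [hy, if_false]
          exact continuous_const
      · exact (ih _ _).comp (continuous_bump2 s.2)
    · exact continuous_const

lemma hit_nonneg (T : SimpleGraph U) (H : SimpleGraph V) (c : ℝ) (B : Finset V) :
    ∀ (l : List (U × U)) (D : Finset U) (ψ : U → V) (τ : U → ℝ), 0 ≤ hit T H c B l D ψ τ := by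
  intro l
  induction l with
  | nil => intro D ψ τ; simp [hit]
  | cons s l ih =>
    intro D ψ τ
    simp only [hit]
    apply intervalIntegral.integral_nonneg zero_le_one
    intro t _
    apply Finset.sum_nonneg
    intro y _
    apply mul_nonneg (rr_nonneg _ _ _)
    apply add_nonneg _ (ih _ _ _)
    split_ifs
    · exact FF_nonneg _ _ _ _ _ _ _
    · exact le_refl _

/-! ## Growth lists -/

lemma Grow.subset {T : SimpleGraph U} : ∀ {l : List (U × U)} {D D' : Finset U},
    Grow T D l D' → D ⊆ D' := by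
  intro l
  induction l with
  | nil => intro D D' h; exact (show D = D' from h) ▸ Finset.Subset.refl _
  | cons s l ih =>
    intro D D' h
    exact (Finset.subset_insert _ _).trans (ih h.2.2.2)

lemma Grow.adj {T : SimpleGraph U} {D D' : Finset U} {s : U × U} {l : List (U × U)}
    (h : Grow T D (s :: l) D') : T.Adj s.2 s.1 := (h.2.2.1 s.2 h.2.1).2 rfl

lemma Grow.card {T : SimpleGraph U} : ∀ {l : List (U × U)} {D D' : Finset U},
    Grow T D l D' → D.card + l.length = D'.card := by
  intro l
  induction l with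
  | nil => intro D D' h; rw [show D = D' from h]; simp
  | cons s l ih =>
    intro D D' h
    have := ih h.2.2.2
    rw [Finset.card_insert_of_notMem h.1] at this
    rw [List.length_cons]
    omega

lemma Grow.notMem {T : SimpleGraph U} : ∀ {l : List (U × U)} {D D' : Finset U},
    Grow T D l D' → ∀ s ∈ l, s.1 ∉ D := by
  intro l
  induction l with
  | nil => intro D D' _ s hs; simp at hs
  | cons s l ih =>
    intro D D' h t ht
    rw [List.mem_cons] at ht
    rcases ht with rfl | ht
    · exact h.1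
    · exact fun hD => ih h.2.2.2 t ht (Finset.mem_insert_of_mem hD)

lemma rem_cons_self (w p : U) (l : List (U × U)) : rem ((w, p) :: l) p = rem l p + 1 := by
  unfold rem; rw [List.countP_cons]; simp

lemma rem_cons_of_ne (w p : U) (l : List (U × U)) {u : U} (h : u ≠ p) :
    rem ((w, p) :: l) u = rem l u := by
  unfold rem; rw [List.countP_cons]; simp [Ne.symm h]

lemma rem_le_cons (s : U × U) (l : List (U × U)) (u : U) : rem l u ≤ rem (s :: l) u := by
  unfold rem; rw [List.countP_cons]; omega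

/-! ## Parameters -/

lemma Par.Ok.ρ_pos {P : Par} (h : P.Ok) : 0 < P.ρ := by
  unfold Par.ρ
  have h1 := h.d1_pos
  have h2 := h.γ_pos
  have h3 : (0 : ℝ) < P.d := by exact_mod_cast h.d_pos
  positivity

lemma Par.Ok.ρ'_pos {P : Par} (h : P.Ok) : 0 < P.ρ' := by
  unfold Par.ρ'
  have h1 := h.d1_pos
  have h2 := h.γ_pos
  have h3 := h.ρ_pos
  positivity

lemma Par.Ok.e1_pos {P : Par} (h : P.Ok) : 0 < P.e1 := by
  unfold Par.e1
  have h1 := h.δ_pos
  have h2 := h.c_pos
  positivity

lemma Par.Ok.ka_pos {P : Par} (h : P.Ok) : 0 < P.ka := by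
  unfold Par.ka
  have h1 := h.e1_pos
  have h2 := h.c_pos
  positivity

/-- (S5') continuity of the potential along a broadcast, as long as all residual thresholds are
positive. -/
def StPhiCont : Prop :=
  ∀ (U V : Type) [Fintype U] [Fintype V] (P : Par) (T : SimpleGraph U) (H : SimpleGraph V)
    (B : Finset V) (w p : U) (l : List (U × U)) (D : Finset U) (ψ : U → V) (τ : U → ℝ),
    p ∈ D →
    ContinuousOn (fun t : ℝ => PHI P T H B ((w, p) :: l) D ψ (bump τ p t))
      {t : ℝ | ∀ y, y ∉ D.image ψ → 0 < av H D ψ τ y - t * rr H (ψ p) y}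

/-- The invariants are inherited by the next state. -/
lemma Inv.next {P : Par} {T : SimpleGraph U} {H : SimpleGraph V} {B : Finset V} {w p : U}
    {l : List (U × U)} {D : Finset U} {ψ : U → V} {τ : U → ℝ}
    (h : Inv P T H B ((w, p) :: l) D ψ τ) {t : ℝ} (ht : 0 ≤ t) {y : V} (hy : y ∉ D.image ψ)
    (hB : y ∉ B) (hadj : H.Adj (ψ p) y) :
    Inv P T H B l (insert w D) (Function.update ψ w y) (bump τ p t) := by
  obtain ⟨hw, hp, hu, hg⟩ := h.grow
  simp only at hw hp hu hg
  have hTp : T.Adj p w := (hu p hp).2 rfl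
  have hne : ∀ u ∈ D, u ≠ w := fun u hu h => hw (h ▸ hu)
  refine ⟨hg, ?_, ?_, injOn_update hw h.inj hy, ?_, ?_, ?_, ?_, ?_⟩
  · have := h.card
    rw [Finset.card_insert_of_notMem hw]
    rw [List.length_cons] at this
    omega
  · intro u hu'
    rw [Finset.mem_insert] at hu'
    rcases hu' with rfl | hu'
    · exact ⟨p, Finset.mem_insert_of_mem hp, hTp.symm⟩
    · obtain ⟨v, hv, huv⟩ := h.nbr u hu'
      exact ⟨v, Finset.mem_insert_of_mem hv, huv⟩
  · intro u hu' v hv huv
    rw [Finset.mem_insert] at hu' hv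
    rcases hu' with rfl | hu'
    · rcases hv with rfl | hv
      · exact absurd huv (T.loopless.irrefl _)
      · have := (hu v hv).1 huv.symm
        subst this
        rw [Function.update_self, Function.update_of_ne (hne v hv)]
        exact hadj.symm
    · rcases hv with rfl | hv
      · have := (hu u hu').1 huv
        subst this
        rw [Function.update_self, Function.update_of_ne (hne u hu')]
        exact hadj
      · rw [Function.update_of_ne (hne u hu'), Function.update_of_ne (hne v hv)]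
        exact h.hom u hu' v hv huv
  · intro u hu'
    rw [Finset.mem_insert] at hu'
    rcases hu' with rfl | hu'
    · rw [Function.update_self]; exact hB
    · rw [Function.update_of_ne (hne u hu')]; exact h.disj u hu'
  · intro u
    exact (rem_le_cons (w, p) l u).trans (h.rem_le u)
  · exact fun u => bump_nonneg h.nonneg p ht u
  · intro u hu'
    rw [Finset.mem_insert, not_or] at hu'
    have : u ≠ p := fun h' => hu'.2 (h' ▸ hp)
    rw [bump_of_ne _ _ _ this]
    exact h.zero u hu'.2

lemma Inv.bump {P : Par} {T : SimpleGraph U} {H : SimpleGraph V} {B : Finset V} {w p : U}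
    {l : List (U × U)} {D : Finset U} {ψ : U → V} {τ : U → ℝ}
    (h : Inv P T H B ((w, p) :: l) D ψ τ) {t : ℝ} (ht : 0 ≤ t) :
    Inv P T H B ((w, p) :: l) D ψ (GHA.bump τ p t) := by
  refine ⟨h.grow, h.card, h.nbr, h.inj, h.hom, h.disj, h.rem_le, ?_, ?_⟩
  · exact fun u => bump_nonneg h.nonneg p ht u
  · intro u hu
    have : u ≠ p := fun h' => hu (h' ▸ h.grow.2.1)
    rw [bump_of_ne _ _ _ this]
    exact h.zero u hu

end Pool.Agent.Lib.GHA
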