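import Mathlib
import Pool.Agent.Lib.MP_df0165_co.Ap.Base

set_option autoImplicit false
set_option linter.unusedSectionVars false

/-!
# Approximate Graham-Haggkvist: generator of the exposure terms
-/

namespace Pool.Agent.Lib.GHA.Gen3

open Finset Classical Pool.Agent.Lib.GHA

variable {U V : Type} [Fintype U] [Fintype V]

/-- Indicator of the darts from `ψ p` which count for `x`. -/
noncomputable def iq (T : SimpleGraph U) (H : SimpleGraph V) (D : Finset U) (ψ : U → V) (p : U)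
    (x : V) : ℝ := if okk T D ψ p x ∧ H.Adj (ψ p) x then 1 else 0

lemma iq_zero_or_one (T : SimpleGraph U) (H : SimpleGraph V) (D : Finset U) (ψ : U → V) (p : U)
    (x : V) : iq T H D ψ p x = 0 ∨ iq T H D ψ p x = 1 := by
  unfold iq; split_ifs <;> simp

lemma iq_self (T : SimpleGraph U) (H : SimpleGraph V) (D : Finset U) (ψ : U → V) (p : U) :
    iq T H D ψ p (ψ p) = 0 := by
  unfold iq
  rw [if_neg]
  exact fun h => H.loopless.irrefl _ h.2

lemma Qx_bump (T : SimpleGraph U) (H : SimpleGraph V) (D : Finset U) (ψ : U → V) (τ : U → ℝ)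
    {p : U} (hp : p ∈ D) (t : ℝ) (x : V) :
    Qx T H D ψ (bump τ p t) x = Qx T H D ψ τ x + t * iq T H D ψ p x := by
  unfold Qx
  have h : ∀ u ∈ D.filter (fun u => okk T D ψ u x), bump τ p t u * rr H (ψ u) x
      = τ u * rr H (ψ u) x + if u = p then t * rr H (ψ p) x else 0 := by
    intro u _
    by_cases hu : u = p
    · subst hu; simp [bump, add_mul]
    · simp [bump, hu]
  rw [Finset.sum_congr rfl h, Finset.sum_add_distrib, Finset.sum_ite_eq']
  congr 1
  unfold iq rr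
  by_cases h1 : okk T D ψ p x
  · by_cases h2 : H.Adj (ψ p) x <;> simp [h1, h2, hp]
  · simp [h1]

lemma okk_next {T : SimpleGraph U} {D : Finset U} {ψ : U → V} {w : U} (hw : w ∉ D) {y : V}
    {u : U} {x : V} (h : okk T (insert w D) (Function.update ψ w y) u x) : okk T D ψ u x := by
  intro v hv hvx
  have hne : v ≠ w := fun h' => hw (h' ▸ hv)
  exact h v (Finset.mem_insert_of_mem hv) (by rw [Function.update_of_ne hne]; exact hvx)

lemma Qx_next_le (T : SimpleGraph U) (H : SimpleGraph V) {D : Finset U} (ψ : U → V) {τ : U → ℝ}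
    {w : U} (hw : w ∉ D) (hτw : τ w = 0) (hτ : ∀ u, 0 ≤ τ u) (y x : V) :
    Qx T H (insert w D) (Function.update ψ w y) τ x ≤ Qx T H D ψ τ x := by
  unfold Qx
  have h1 : ∑ u ∈ (insert w D).filter (fun u => okk T (insert w D) (Function.update ψ w y) u x),
      τ u * rr H (Function.update ψ w y u) x
      = ∑ u ∈ D.filter (fun u => okk T (insert w D) (Function.update ψ w y) u x),
        τ u * rr H (ψ u) x := by
    rw [Finset.filter_insert]
    have h2 : ∑ u ∈ D.filter (fun u => okk T (insert w D) (Function.update ψ w y) u x),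
        τ u * rr H (Function.update ψ w y u) x
        = ∑ u ∈ D.filter (fun u => okk T (insert w D) (Function.update ψ w y) u x),
        τ u * rr H (ψ u) x := by
      apply Finset.sum_congr rfl
      intro u hu
      rw [Function.update_of_ne (fun h : u = w => hw (h ▸ (Finset.mem_filter.mp hu).1))]
    split_ifs
    · rw [Finset.sum_insert (fun h' => hw (Finset.mem_filter.mp h').1), hτw, zero_mul, zero_add]
      exact h2
    · exact h2
  rw [h1]
  apply Finset.sum_le_sum_of_subset_of_nonneg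
  · intro u hu
    rw [Finset.mem_filter] at hu ⊢
    exact ⟨hu.1, okk_next hw hu.2⟩
  · intro u _ _
    exact mul_nonneg (hτ u) (rr_nonneg _ _ _)

lemma pend_cons (T : SimpleGraph U) (H : SimpleGraph V) {D : Finset U} (ψ : U → V) (w : U)
    {p : U} (hp : p ∈ D) (l : List (U × U)) (x : V) :
    (pend T H ((w, p) :: l) D ψ x : ℝ) = (pend T H l D ψ x : ℝ) + iq T H D ψ p x := by
  unfold pend iq
  rw [List.countP_cons]
  by_cases h : okk T D ψ p x ∧ H.Adj (ψ p) x
  · simp [hp, h.1, h.2]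
  · rw [if_neg h, if_neg]
    · simp
    · simp only [decide_eq_true_eq]
      exact fun h' => h h'.2

lemma countP_le_add {α : Type} (q q1 q2 : α → Bool) (h : ∀ a, q a = true → q1 a = true ∨ q2 a = true)
    (l : List α) : l.countP q ≤ l.countP q1 + l.countP q2 := by
  induction l with
  | nil => simp
  | cons a l ih =>
    rw [List.countP_cons, List.countP_cons, List.countP_cons]
    have := h a
    by_cases h0 : q a = true
    · rcases this h0 with h1 | h1
      · simp only [h0, h1, if_true]; omega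
      · simp only [h0, h1, if_true]; omega
    · simp only [h0]; simp only [Bool.false_eq_true, if_false]; omega

lemma pend_next_le (T : SimpleGraph U) (H : SimpleGraph V) {D : Finset U} (ψ : U → V) {w : U}
    (hw : w ∉ D) (l : List (U × U)) (y x : V) :
    (pend T H l (insert w D) (Function.update ψ w y) x : ℝ)
      ≤ (pend T H l D ψ x : ℝ) + (rem l w : ℝ) * rr H y x := by
  by_cases hyx : H.Adj y x
  · rw [rr_of_adj hyx, mul_one]
    have : pend T H l (insert w D) (Function.update ψ w y) x ≤ pend T H l D ψ x + rem l w := by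
      unfold pend rem
      apply countP_le_add
      intro s hs
      simp only [decide_eq_true_eq] at hs ⊢
      obtain ⟨h1, h2, h3⟩ := hs
      rw [Finset.mem_insert] at h1
      by_cases hsw : s.2 = w
      · exact Or.inr hsw
      · left
        rw [Function.update_of_ne hsw] at h3
        exact ⟨h1.resolve_left hsw, okk_next hw h2, h3⟩
    exact_mod_cast this
  · rw [rr_of_not_adj hyx, mul_zero, add_zero]
    have : pend T H l (insert w D) (Function.update ψ w y) x ≤ pend T H l D ψ x := by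
      unfold pend
      apply List.countP_mono_left
      intro s _ hs
      simp only [decide_eq_true_eq] at hs ⊢
      obtain ⟨h1, h2, h3⟩ := hs
      rw [Finset.mem_insert] at h1
      by_cases hsw : s.2 = w
      · rw [hsw, Function.update_self] at h3
        exact absurd h3 hyx
      · rw [Function.update_of_ne hsw] at h3
        exact ⟨h1.resolve_left hsw, okk_next hw h2, h3⟩
    exact_mod_cast this

/-- At the broadcasting vertex itself the new children do not count. -/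
lemma pend_next_self (T : SimpleGraph U) (H : SimpleGraph V) {D : Finset U} (ψ : U → V)
    {w p : U} (hw : w ∉ D) (hp : p ∈ D) (hT : T.Adj p w) (l : List (U × U)) (y : V) :
    (pend T H l (insert w D) (Function.update ψ w y) (ψ p) : ℝ)
      ≤ (pend T H l D ψ (ψ p) : ℝ) := by
  have : pend T H l (insert w D) (Function.update ψ w y) (ψ p) ≤ pend T H l D ψ (ψ p) := by
    unfold pend
    apply List.countP_mono_left
    intro s _ hs
    simp only [decide_eq_true_eq] at hs ⊢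
    obtain ⟨h1, h2, h3⟩ := hs
    rw [Finset.mem_insert] at h1
    by_cases hsw : s.2 = w
    · exfalso
      rw [hsw] at h2
      refine h2 p (Finset.mem_insert_of_mem hp) ?_ hT.symm
      rw [Function.update_of_ne (fun h : p = w => hw (h ▸ hp))]
    · rw [Function.update_of_ne hsw] at h3
      exact ⟨h1.resolve_left hsw, okk_next hw h2, h3⟩
  exact_mod_cast this

lemma rest_next {D : Finset U} {w : U} (hw : w ∉ D) (l : List (U × U)) :
    (rest l (insert w D) : ℝ) = (rest l D : ℝ) - (rem l w : ℝ) := by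
  have : rest l (insert w D) + rem l w = rest l D := by
    unfold rest rem
    induction l with
    | nil => simp
    | cons s l ih =>
      rw [List.countP_cons, List.countP_cons, List.countP_cons]
      by_cases hsw : s.2 = w
      · have h1 : decide (s.2 ∉ insert w D) = false := by simp [hsw]
        have h2 : decide (s.2 = w) = true := by simp [hsw]
        have h3 : decide (s.2 ∉ D) = true := by simp [hsw, hw]
        rw [h1, h2, h3]
        simp only [Bool.false_eq_true, if_false, if_true]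
        omega
      · have h2 : decide (s.2 = w) = false := by simp [hsw]
        by_cases hD : s.2 ∈ D
        · have h1 : decide (s.2 ∉ insert w D) = false := by simp [hD]
          have h3 : decide (s.2 ∉ D) = false := by simp [hD]
          rw [h1, h2, h3]
          simp only [Bool.false_eq_true, if_false]
          omega
        · have h1 : decide (s.2 ∉ insert w D) = true := by simp [hD, hsw]
          have h3 : decide (s.2 ∉ D) = true := by simp [hD]
          rw [h1, h2, h3]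
          simp only [Bool.false_eq_true, if_false, if_true]
          omega
  have h2 : ((rest l (insert w D) + rem l w : ℕ) : ℝ) = (rest l D : ℝ) := by exact_mod_cast this
  push_cast at h2
  linarith

lemma rest_cons {D : Finset U} (w : U) {p : U} (hp : p ∈ D) (l : List (U × U)) :
    rest ((w, p) :: l) D = rest l D := by
  unfold rest
  rw [List.countP_cons]
  simp [hp]

lemma exp_quad {z : ℝ} (h : |z| ≤ 1) : Real.exp z ≤ 1 + z + z ^ 2 := by
  have := Real.abs_exp_sub_one_sub_id_le h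
  have h2 := abs_le.mp this
  linarith [h2.2]


lemma sq_bound (i k β : ℝ) (hi : i = 0 ∨ i = 1) (h1 : -(9 / 8) ≤ β) (h2 : β ≤ 1) :
    (-i + k * β) ^ 2 ≤ 2 * i + 4 * k ^ 2 := by
  have h3 : β ^ 2 ≤ 2 := by nlinarith
  have h4 : (k * β) ^ 2 ≤ 2 * k ^ 2 := by
    rw [mul_pow]
    have := mul_le_mul_of_nonneg_left h3 (sq_nonneg k)
    linarith
  have h5 : (-i + k * β) ^ 2 ≤ 2 * i ^ 2 + 2 * (k * β) ^ 2 := by
    have := sq_nonneg (i + k * β)
    have e1 : (i + k * β) ^ 2 = i ^ 2 + 2 * i * (k * β) + (k * β) ^ 2 := by ring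
    have e2 : (-i + k * β) ^ 2 = i ^ 2 - 2 * i * (k * β) + (k * β) ^ 2 := by ring
    linarith
  have h6 : i ^ 2 = i := by rcases hi with h | h <;> rw [h] <;> norm_num
  linarith

lemma abs_bound (θ i k β : ℝ) (hθ : 0 ≤ θ) (hi : i = 0 ∨ i = 1) (hk : 0 ≤ k)
    (h1 : -(9 / 8) ≤ β) (h2 : β ≤ 1) (hθ1 : θ ≤ 1 / 512) (hθk : θ * k ≤ 1 / 512) :
    |θ * (-i + k * β)| ≤ 1 := by
  have hik : 0 ≤ θ * k := mul_nonneg hθ hk
  have e : θ * (-i + k * β) = -(θ * i) + (θ * k) * β := by ring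
  have h3 : 0 ≤ θ * i ∧ θ * i ≤ 1 / 512 := by
    rcases hi with h | h <;> rw [h] <;> constructor <;> linarith
  have h4 : (θ * k) * β ≤ θ * k := by
    have := mul_le_mul_of_nonneg_left h2 hik
    linarith
  have h5 : -(9 / 8) * (θ * k) ≤ (θ * k) * β := by
    have := mul_le_mul_of_nonneg_left h1 hik
    linarith
  rw [abs_le, e]
  constructor <;> linarith [h3.1, h3.2]

/-- The pointwise bound. -/
lemma point (c θ i k g r a : ℝ) (hc : 0 < c) (hθ : 0 ≤ θ) (hi : i = 0 ∨ i = 1) (hk : 0 ≤ k)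
    (hg0 : 0 < g) (hg1 : g ≤ 9 / 8) (hr : r = 0 ∨ r = 1) (hθ1 : θ ≤ 1 / 512)
    (hθk : θ * k ≤ 1 / 512) (ha : 2 * c ≤ a) :
    1 / a * (Real.exp (θ * (-i + k * (r - g))) - 1)
      ≤ θ * (-i) * (1 / a) + θ * k * (1 / a * r) - θ * k * g * (1 / a)
        + θ ^ 2 * (i + 2 * k ^ 2) / c := by
  have hay0 : 0 < a := by linarith
  have h1a : 0 < 1 / a := by positivity
  have h1a' : 1 / a ≤ 1 / (2 * c) := one_div_le_one_div_of_le (by positivity) ha
  have hβ : -(9 / 8) ≤ r - g ∧ r - g ≤ 1 := by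
    rcases hr with h | h <;> rw [h] <;> constructor <;> linarith
  have hi0 : 0 ≤ i := by rcases hi with h | h <;> rw [h] <;> norm_num
  have hz := abs_bound θ i k (r - g) hθ hi hk hβ.1 hβ.2 hθ1 hθk
  have h2 := exp_quad hz
  have hsq := sq_bound i k (r - g) hi hβ.1 hβ.2
  have hz2 : (θ * (-i + k * (r - g))) ^ 2 ≤ θ ^ 2 * (2 * i + 4 * k ^ 2) := by
    rw [mul_pow]; exact mul_le_mul_of_nonneg_left hsq (sq_nonneg _)
  have hs0 : 0 ≤ θ ^ 2 * (2 * i + 4 * k ^ 2) := by positivity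
  calc 1 / a * (Real.exp (θ * (-i + k * (r - g))) - 1)
      ≤ 1 / a * (θ * (-i + k * (r - g)) + θ ^ 2 * (2 * i + 4 * k ^ 2)) := by
        apply mul_le_mul_of_nonneg_left _ h1a.le
        linarith
    _ = θ * (-i) * (1 / a) + θ * k * (1 / a * r) - θ * k * g * (1 / a)
        + 1 / a * (θ ^ 2 * (2 * i + 4 * k ^ 2)) := by ring
    _ ≤ θ * (-i) * (1 / a) + θ * k * (1 / a * r) - θ * k * g * (1 / a)
        + θ ^ 2 * (i + 2 * k ^ 2) / c := by
        have h5 : 1 / a * (θ ^ 2 * (2 * i + 4 * k ^ 2))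
            ≤ 1 / (2 * c) * (θ ^ 2 * (2 * i + 4 * k ^ 2)) :=
          mul_le_mul_of_nonneg_right h1a' hs0
        have h6 : 1 / (2 * c) * (θ ^ 2 * (2 * i + 4 * k ^ 2))
            = θ ^ 2 * (i + 2 * k ^ 2) / c := by field_simp; ring
        linarith

/-- The final numerical inequality, in plain variables. -/
lemma fin_ineq (c θ i k g R Rx b d γ α δ d1 e2 S n : ℝ) (hc : 0 < c) (hθ : 0 ≤ θ)
    (hi : i = 0 ∨ i = 1) (hk : 0 ≤ k) (hγ : 0 < γ) (hγ1 : γ ≤ 1) (hd1 : 0 < d1)
    (hd1' : d1 ≤ 1 / 8) (hα : 0 ≤ α) (hδ : 0 < δ) (hd : 1 ≤ d) (hg : g = γ * (1 + d1))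
    (hθ1 : θ ≤ c * d1 * γ ^ 2 / 8) (hθk : θ * k ≤ c * d1 * γ ^ 2 / 8)
    (hcd : c * d1 * γ ^ 2 / 8 ≤ 1 / 512) (he2 : e2 * (1 + d1) = θ * γ * d)
    (hsm : 6 * (α + δ) ≤ d1 * γ ^ 2) (hb : 0 ≤ b) (hn : n ≤ d)
    (hR : (γ - α - δ) * d ≤ R + b) (hRx : Rx ≤ (γ ^ 2 + α + δ) * d)
    (hS : S ≤ θ * (-i) * R + θ * k * Rx - θ * k * g * R + n * (θ ^ 2 * (i + 2 * k ^ 2) / c)) :
    e2 * i + S - b ≤ 0 := by
  have hθk0 : 0 ≤ θ * k := mul_nonneg hθ hk
  have hi0 : 0 ≤ i := by rcases hi with h | h <;> rw [h] <;> norm_num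
  have hi1 : i ≤ 1 := by rcases hi with h | h <;> rw [h] <;> norm_num
  have hg0 : 0 < g := by rw [hg]; positivity
  have hγd : γ * d1 ≤ 1 / 8 := by
    have := mul_le_mul_of_nonneg_right hγ1 hd1.le
    linarith
  have hg1 : g ≤ 9 / 8 := by
    rw [hg]
    have : γ * (1 + d1) = γ + γ * d1 := by ring
    linarith
  have hcard : n * (θ ^ 2 * (i + 2 * k ^ 2) / c) ≤ d * (θ ^ 2 * (i + 2 * k ^ 2) / c) :=
    mul_le_mul_of_nonneg_right hn (by positivity)
  have hq1 : θ ^ 2 / c ≤ θ * (d1 * γ ^ 2 / 8) := by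
    rw [div_le_iff₀ hc]
    have := mul_le_mul_of_nonneg_left hθ1 hθ
    have e : θ * (c * d1 * γ ^ 2 / 8) = θ * (d1 * γ ^ 2 / 8) * c := by ring
    have e' : θ ^ 2 = θ * θ := by ring
    linarith
  have hq2 : θ ^ 2 * k ^ 2 / c ≤ θ * k * (d1 * γ ^ 2 / 8) := by
    rw [div_le_iff₀ hc]
    have := mul_le_mul_of_nonneg_left hθk hθk0
    have e : θ * k * (c * d1 * γ ^ 2 / 8) = θ * k * (d1 * γ ^ 2 / 8) * c := by ring
    have e' : θ ^ 2 * k ^ 2 = θ * k * (θ * k) := by ring
    linarith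
  have hq : θ ^ 2 * (i + 2 * k ^ 2) / c
      ≤ θ * i * (d1 * γ ^ 2 / 8) + 2 * (θ * k * (d1 * γ ^ 2 / 8)) := by
    have e : θ ^ 2 * (i + 2 * k ^ 2) / c = θ ^ 2 / c * i + 2 * (θ ^ 2 * k ^ 2 / c) := by
      field_simp
    have h1 := mul_le_mul_of_nonneg_right hq1 hi0
    have e' : θ * (d1 * γ ^ 2 / 8) * i = θ * i * (d1 * γ ^ 2 / 8) := by ring
    rw [e]
    linarith
  have hq' : d * (θ ^ 2 * (i + 2 * k ^ 2) / c)
      ≤ d * (θ * i * (d1 * γ ^ 2 / 8) + 2 * (θ * k * (d1 * γ ^ 2 / 8))) :=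
    mul_le_mul_of_nonneg_left hq (by linarith)
  have hb1 : θ * i * b + θ * k * g * b ≤ b := by
    have h0 : θ * i ≤ 1 / 512 := by
      have := mul_le_mul_of_nonneg_left hi1 hθ
      linarith
    have h2 : θ * k * g ≤ 1 / 512 * (9 / 8) :=
      mul_le_mul (hθk.trans hcd) hg1 hg0.le (by norm_num)
    have h1 : θ * i + θ * k * g ≤ 1 := by linarith
    have := mul_le_mul_of_nonneg_right h1 hb
    have e : (θ * i + θ * k * g) * b = θ * i * b + θ * k * g * b := by ring
    linarith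
  have he2' : e2 * i ≤ θ * i * d * (γ - γ * d1 * (8 / 9)) := by
    have h1 : e2 ≤ θ * d * (γ - γ * d1 * (8 / 9)) := by
      have h2 : e2 * (1 + d1) ≤ (θ * d * (γ - γ * d1 * (8 / 9))) * (1 + d1) := by
        rw [he2]
        have h3 : γ ≤ (γ - γ * d1 * (8 / 9)) * (1 + d1) := by
          have h5 : 0 ≤ γ * d1 * (1 / 9 - 8 / 9 * d1) := by
            apply mul_nonneg (by positivity); linarith
          have e : (γ - γ * d1 * (8 / 9)) * (1 + d1) = γ + γ * d1 * (1 / 9 - 8 / 9 * d1) := by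
            ring
          linarith
        have h4 : 0 ≤ θ * d := mul_nonneg hθ (by linarith)
        have := mul_le_mul_of_nonneg_left h3 h4
        have e1 : θ * γ * d = θ * d * γ := by ring
        have e2 : θ * d * (γ - γ * d1 * (8 / 9)) * (1 + d1)
            = θ * d * ((γ - γ * d1 * (8 / 9)) * (1 + d1)) := by ring
        linarith
      exact le_of_mul_le_mul_right h2 (by linarith)
    calc e2 * i ≤ (θ * d * (γ - γ * d1 * (8 / 9))) * i := mul_le_mul_of_nonneg_right h1 hi0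
      _ = _ := by ring
  have hRb1 : θ * i * ((γ - α - δ) * d) ≤ θ * i * (R + b) :=
    mul_le_mul_of_nonneg_left hR (mul_nonneg hθ hi0)
  have hRb2 : θ * k * g * ((γ - α - δ) * d) ≤ θ * k * g * (R + b) :=
    mul_le_mul_of_nonneg_left hR (mul_nonneg hθk0 hg0.le)
  have hRx2 : θ * k * Rx ≤ θ * k * ((γ ^ 2 + α + δ) * d) :=
    mul_le_mul_of_nonneg_left hRx hθk0
  have hγ2 : d1 * γ ^ 2 ≤ d1 * γ := by
    have h1 : γ ^ 2 ≤ γ := by
      have := mul_le_mul_of_nonneg_left hγ1 hγ.le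
      have e : γ ^ 2 = γ * γ := by ring
      linarith
    exact mul_le_mul_of_nonneg_left h1 hd1.le
  have hbr1 : (γ - γ * d1 * (8 / 9)) - (γ - α - δ) + d1 * γ ^ 2 / 8 ≤ 0 := by
    have e : γ * d1 * (8 / 9) = d1 * γ * (8 / 9) := by ring
    have h0 : 0 ≤ d1 * γ := by positivity
    rw [e]
    linarith
  have hbr2 : (γ ^ 2 + α + δ) - g * (γ - α - δ) + 2 * (d1 * γ ^ 2 / 8) ≤ 0 := by
    have h1 : g * (α + δ) ≤ 9 / 8 * (α + δ) :=
      mul_le_mul_of_nonneg_right hg1 (by linarith)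
    have h2 : g * γ = γ ^ 2 + d1 * γ ^ 2 := by rw [hg]; ring
    have e : g * (γ - α - δ) = g * γ - g * (α + δ) := by ring
    have h0 : 0 ≤ d1 * γ ^ 2 := by positivity
    rw [e, h2]
    linarith
  have hfin1 : θ * i * d * ((γ - γ * d1 * (8 / 9)) - (γ - α - δ) + d1 * γ ^ 2 / 8) ≤ 0 :=
    mul_nonpos_of_nonneg_of_nonpos (by positivity) hbr1
  have hfin2 : θ * k * d * ((γ ^ 2 + α + δ) - g * (γ - α - δ) + 2 * (d1 * γ ^ 2 / 8)) ≤ 0 :=
    mul_nonpos_of_nonneg_of_nonpos (mul_nonneg hθk0 (by linarith)) hbr2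
  linarith

/-- The numerical inequality. -/
lemma key {P : Par} (hP : P.Ok) (Y : Finset V) (a r : V → ℝ) (b i : ℝ) (k : ℕ)
    (hi : i = 0 ∨ i = 1) (hk : k ≤ P.Δ) (hb : 0 ≤ b)
    (ha : ∀ y ∈ Y, 2 * P.c ≤ a y) (hr : ∀ y, r y = 0 ∨ r y = 1) (hY : Y.card ≤ P.d)
    (hR : (P.γ - P.α - P.δ) * P.d ≤ ∑ y ∈ Y, 1 / a y + b)
    (hRx : ∑ y ∈ Y, 1 / a y * r y ≤ (P.γ ^ 2 + P.α + P.δ) * P.d) :
    P.e2 * i + ∑ y ∈ Y, 1 / a y *
      (Real.exp (P.e2 * P.ρ * (-i + k * (r y - P.γ * (1 + P.d1)))) - 1) - b ≤ 0 := by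
  have hc := hP.c_pos
  have hγ := hP.γ_pos
  have hγ1 := hP.γ_le
  have hd1 := hP.d1_pos
  have hd1' := hP.d1_le
  have hd : (1 : ℝ) ≤ P.d := by exact_mod_cast hP.d_pos
  have hΔ : (1 : ℝ) ≤ P.Δ := by exact_mod_cast hP.Δ_pos
  have hk' : (k : ℝ) ≤ P.Δ := by exact_mod_cast hk
  have hk0 : (0 : ℝ) ≤ k := Nat.cast_nonneg _
  have hρ := hP.ρ_pos
  have hθ0 : 0 ≤ P.e2 * P.ρ := mul_nonneg hP.e2_nonneg hρ.le
  have hθΔ : P.e2 * P.ρ * P.Δ ≤ P.c * P.d1 * P.γ ^ 2 / 8 := hP.theta
  have hθ1 : P.e2 * P.ρ ≤ P.c * P.d1 * P.γ ^ 2 / 8 := by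
    have := mul_le_mul_of_nonneg_left hΔ hθ0
    linarith
  have hθk : P.e2 * P.ρ * k ≤ P.c * P.d1 * P.γ ^ 2 / 8 := by
    have := mul_le_mul_of_nonneg_left hk' hθ0
    linarith
  have hcd : P.c * P.d1 * P.γ ^ 2 / 8 ≤ 1 / 512 := by
    have h1 : P.c * P.d1 ≤ 1 / 8 * (1 / 8) := mul_le_mul hP.c_le hd1' hd1.le (by norm_num)
    have h0 : 0 ≤ P.c * P.d1 := by positivity
    have h2 : P.γ ^ 2 ≤ 1 := pow_le_one₀ hγ.le hγ1
    have h3 : P.c * P.d1 * P.γ ^ 2 ≤ P.c * P.d1 := by
      have := mul_le_mul_of_nonneg_left h2 h0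
      linarith
    linarith
  have he2 : P.e2 * (1 + P.d1) = P.e2 * P.ρ * P.γ * P.d := by
    unfold Par.ρ
    have h1 : P.γ ≠ 0 := hγ.ne'
    have h2 : (P.d : ℝ) ≠ 0 := by linarith
    field_simp
  have hg0 : 0 < P.γ * (1 + P.d1) := by positivity
  have hg1 : P.γ * (1 + P.d1) ≤ 9 / 8 := by
    have h1 : P.γ * (1 + P.d1) ≤ 1 * (1 + 1 / 8) :=
      mul_le_mul hγ1 (by linarith) (by linarith) (by norm_num)
    linarith
  have hpt : ∀ y ∈ Y, 1 / a y *
      (Real.exp (P.e2 * P.ρ * (-i + k * (r y - P.γ * (1 + P.d1)))) - 1)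
      ≤ P.e2 * P.ρ * (-i) * (1 / a y) + P.e2 * P.ρ * k * (1 / a y * r y)
        - P.e2 * P.ρ * k * (P.γ * (1 + P.d1)) * (1 / a y)
        + (P.e2 * P.ρ) ^ 2 * (i + 2 * (k : ℝ) ^ 2) / P.c := fun y hy =>
    point P.c (P.e2 * P.ρ) i k (P.γ * (1 + P.d1)) (r y) (a y) hc hθ0 hi hk0 hg0 hg1 (hr y)
      (hθ1.trans hcd) (hθk.trans hcd) (ha y hy)
  have hsum := Finset.sum_le_sum hpt
  rw [Finset.sum_add_distrib, Finset.sum_sub_distrib, Finset.sum_add_distrib, ← Finset.mul_sum,
    ← Finset.mul_sum, ← Finset.mul_sum, Finset.sum_const, nsmul_eq_mul] at hsum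
  exact fin_ineq P.c (P.e2 * P.ρ) i k (P.γ * (1 + P.d1)) (∑ y ∈ Y, 1 / a y)
    (∑ y ∈ Y, 1 / a y * r y) b P.d P.γ P.α P.δ P.d1 P.e2 _ (Y.card : ℝ) hc hθ0 hi hk0 hγ hγ1
    hd1 hd1' hP.α_nonneg hP.δ_pos hd rfl hθ1 hθk hcd he2 hP.small hb (by exact_mod_cast hY)
    hR hRx hsum


lemma rest_le_length (l : List (U × U)) (D : Finset U) : rest l D ≤ l.length := by
  unfold rest
  exact List.countP_le_length

lemma P3_nonneg (T : SimpleGraph U) (H : SimpleGraph V) (e2 ρ ρ' : ℝ) (l : List (U × U))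
    (D : Finset U) (ψ : U → V) (τ : U → ℝ) (x : V) : 0 ≤ P3 T H e2 ρ ρ' l D ψ τ x := by
  unfold P3
  split_ifs
  · exact (Real.exp_pos _).le
  · exact le_refl _

/-- Derivative of one exposure term. -/
lemma P3_deriv (T : SimpleGraph U) (H : SimpleGraph V) (e2 ρ ρ' : ℝ) (l : List (U × U))
    {D : Finset U} (ψ : U → V) (τ : U → ℝ) {p : U} (hp : p ∈ D) (x : V) :
    HasDerivAt (fun t : ℝ => P3 T H e2 ρ ρ' l D ψ (bump τ p t) x)
      (P3 T H e2 ρ ρ' l D ψ τ x * (e2 * iq T H D ψ p x)) 0 := by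
  unfold P3
  by_cases h : act H D ψ x
  · simp only [h, if_true]
    have h1 : HasDerivAt (fun t : ℝ => e2 * (Qx T H D ψ (bump τ p t) x
        + ρ * (pend T H l D ψ x : ℝ) + ρ' * (rest l D : ℝ))) (e2 * iq T H D ψ p x) 0 := by
      have h2 : (fun t : ℝ => e2 * (Qx T H D ψ (bump τ p t) x
          + ρ * (pend T H l D ψ x : ℝ) + ρ' * (rest l D : ℝ)))
          = fun t : ℝ => (e2 * iq T H D ψ p x) * t + e2 * (Qx T H D ψ τ x
          + ρ * (pend T H l D ψ x : ℝ) + ρ' * (rest l D : ℝ)) := by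
        funext t
        rw [Qx_bump T H D ψ τ hp t x]
        ring
      rw [h2]
      have h3 := ((hasDerivAt_id (0 : ℝ)).const_mul (e2 * iq T H D ψ p x)).add_const
        (e2 * (Qx T H D ψ τ x + ρ * (pend T H l D ψ x : ℝ) + ρ' * (rest l D : ℝ)))
      simpa using h3
    have h4 := h1.exp
    have h5 : Qx T H D ψ (bump τ p 0) x = Qx T H D ψ τ x := by
      rw [Qx_bump T H D ψ τ hp 0 x]; ring
    simp only [h5] at h4
    exact h4
  · simp only [h, if_false, zero_mul]
    exact hasDerivAt_const _ _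

/-- The exposure term of an active vertex in the next state. -/
lemma P3_next_le {P : Par} (hP : P.Ok) (T : SimpleGraph U) (H : SimpleGraph V) {D : Finset U}
    (ψ : U → V) {τ : U → ℝ} {w p : U} (hw : w ∉ D) (hp : p ∈ D) (hτw : τ w = 0)
    (hτ : ∀ u, 0 ≤ τ u) (l : List (U × U)) (y x : V) (hx : act H D ψ x) :
    P3 T H P.e2 P.ρ P.ρ' l (insert w D) (Function.update ψ w y) τ x
      ≤ P3 T H P.e2 P.ρ P.ρ' ((w, p) :: l) D ψ τ x
        * Real.exp (P.e2 * P.ρ * (-iq T H D ψ p x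
          + (rem l w : ℝ) * (rr H y x - P.γ * (1 + P.d1)))) := by
  have h1 : P3 T H P.e2 P.ρ P.ρ' ((w, p) :: l) D ψ τ x
      = Real.exp (P.e2 * (Qx T H D ψ τ x + P.ρ * ((pend T H l D ψ x : ℝ) + iq T H D ψ p x)
        + P.ρ' * (rest l D : ℝ))) := by
    unfold P3
    rw [if_pos hx, pend_cons T H ψ w hp l x, rest_cons w hp l]
  rw [h1, ← Real.exp_add]
  by_cases h2 : act H (insert w D) (Function.update ψ w y) x
  · unfold P3
    rw [if_pos h2]
    apply Real.exp_le_exp.mpr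
    rw [rest_next hw l]
    have h3 := Qx_next_le T H ψ hw hτw hτ y x
    have h4 := pend_next_le T H ψ hw l y x
    have h5 : P.ρ * (pend T H l (insert w D) (Function.update ψ w y) x : ℝ)
        ≤ P.ρ * ((pend T H l D ψ x : ℝ) + (rem l w : ℝ) * rr H y x) :=
      mul_le_mul_of_nonneg_left h4 hP.ρ_pos.le
    have h6 : P.ρ' = P.γ * (1 + P.d1) * P.ρ := rfl
    have h7 : Qx T H (insert w D) (Function.update ψ w y) τ x
        + P.ρ * (pend T H l (insert w D) (Function.update ψ w y) x : ℝ)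
        + P.ρ' * ((rest l D : ℝ) - (rem l w : ℝ))
        ≤ (Qx T H D ψ τ x + P.ρ * ((pend T H l D ψ x : ℝ) + iq T H D ψ p x)
        + P.ρ' * (rest l D : ℝ)) + P.ρ * (-iq T H D ψ p x
          + (rem l w : ℝ) * (rr H y x - P.γ * (1 + P.d1))) := by
      rw [h6]
      linarith
    have h8 := mul_le_mul_of_nonneg_left h7 hP.e2_nonneg
    linarith
  · unfold P3
    rw [if_neg h2]
    exact (Real.exp_pos _).le

/-- The exposure term of the broadcasting vertex in the next state. -/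
lemma P3_next_self {P : Par} (hP : P.Ok) (T : SimpleGraph U) (H : SimpleGraph V) {D : Finset U}
    (ψ : U → V) {τ : U → ℝ} {w p : U} (hw : w ∉ D) (hp : p ∈ D) (hT : T.Adj p w)
    (hτw : τ w = 0) (hτ : ∀ u, 0 ≤ τ u) (l : List (U × U)) (y : V) :
    P3 T H P.e2 P.ρ P.ρ' l (insert w D) (Function.update ψ w y) τ (ψ p)
      ≤ P3 T H P.e2 P.ρ P.ρ' ((w, p) :: l) D ψ τ (ψ p) := by
  have hx : act H D ψ (ψ p) := Or.inl (Finset.mem_image_of_mem _ hp)
  have h1 : P3 T H P.e2 P.ρ P.ρ' ((w, p) :: l) D ψ τ (ψ p)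
      = Real.exp (P.e2 * (Qx T H D ψ τ (ψ p) + P.ρ * (pend T H l D ψ (ψ p) : ℝ)
        + P.ρ' * (rest l D : ℝ))) := by
    unfold P3
    rw [if_pos hx, pend_cons T H ψ w hp l (ψ p), rest_cons w hp l, iq_self, add_zero]
  rw [h1]
  unfold P3
  split_ifs
  · apply Real.exp_le_exp.mpr
    rw [rest_next hw l]
    have h3 := Qx_next_le T H ψ hw hτw hτ y (ψ p)
    have h4 := mul_le_mul_of_nonneg_left (pend_next_self T H ψ hw hp hT l y) hP.ρ_pos.le
    have h5 : 0 ≤ P.ρ' * (rem l w : ℝ) := mul_nonneg hP.ρ'_pos.le (Nat.cast_nonneg _)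
    apply mul_le_mul_of_nonneg_left _ hP.e2_nonneg
    linarith
  · exact (Real.exp_pos _).le

/-- The exposure term of a newly activated vertex. -/
lemma P3_new {P : Par} (hP : P.Ok) (T : SimpleGraph U) (H : SimpleGraph V) {D : Finset U}
    (ψ : U → V) {τ : U → ℝ} {w p : U} (hw : w ∉ D) (hp : p ∈ D) (hτw : τ w = 0)
    (hτ : ∀ u, 0 ≤ τ u) (l : List (U × U)) (hk : rem l w ≤ P.Δ) (hl : l.length ≤ P.m)
    (y x : V) (hy : H.Adj (ψ p) y) (hx : ¬ act H D ψ x) :
    P3 T H P.e2 P.ρ P.ρ' l (insert w D) (Function.update ψ w y) τ x ≤ rr H y x * P.I3 := by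
  have hnadj : ∀ u ∈ D, ¬ H.Adj (ψ u) x := fun u hu h => hx (Or.inr ⟨u, hu, h⟩)
  by_cases h2 : act H (insert w D) (Function.update ψ w y) x
  · have hyx : H.Adj y x := by
      rcases h2 with h2 | ⟨u, hu, h2⟩
      · rw [Finset.mem_image] at h2
        obtain ⟨u, hu, h2⟩ := h2
        rw [Finset.mem_insert] at hu
        by_cases huw : u = w
        · rw [huw, Function.update_self] at h2
          exact absurd (h2 ▸ hy) (hnadj p hp)
        · rw [Function.update_of_ne huw] at h2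
          exact absurd (Or.inl (Finset.mem_image.mpr ⟨u, hu.resolve_left huw, h2⟩)) hx
      · rw [Finset.mem_insert] at hu
        by_cases huw : u = w
        · rw [huw, Function.update_self] at h2
          exact h2
        · rw [Function.update_of_ne huw] at h2
          exact absurd h2 (hnadj u (hu.resolve_left huw))
    unfold P3
    rw [if_pos h2, rr_of_adj hyx, one_mul]
    unfold Par.I3
    apply Real.exp_le_exp.mpr
    apply mul_le_mul_of_nonneg_left _ hP.e2_nonneg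
    have hQ0 : Qx T H D ψ τ x = 0 := by
      unfold Qx
      apply Finset.sum_eq_zero
      intro u hu
      rw [rr_of_not_adj (hnadj u (Finset.mem_filter.mp hu).1), mul_zero]
    have hp0 : pend T H l D ψ x = 0 := by
      unfold pend
      rw [List.countP_eq_zero]
      intro s _ hs
      simp only [decide_eq_true_eq] at hs
      exact hnadj _ hs.1 hs.2.2
    have h3 := Qx_next_le T H ψ hw hτw hτ y x
    have h4 := pend_next_le T H ψ hw l y x
    rw [hp0, rr_of_adj hyx] at h4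
    rw [hQ0] at h3
    have hk' : (rem l w : ℝ) ≤ P.Δ := by exact_mod_cast hk
    have h5 : (pend T H l (insert w D) (Function.update ψ w y) x : ℝ) ≤ P.Δ := by
      push_cast at h4
      linarith
    have h6 : (rest l (insert w D) : ℝ) ≤ P.m := by
      exact_mod_cast (rest_le_length l (insert w D)).trans hl
    have h7 := mul_le_mul_of_nonneg_left h5 hP.ρ_pos.le
    have h8 := mul_le_mul_of_nonneg_left h6 hP.ρ'_pos.le
    have h9 : 0 ≤ P.ρ * (P.Δ : ℝ) := mul_nonneg hP.ρ_pos.le (Nat.cast_nonneg _)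
    linarith
  · have h3 : P3 T H P.e2 P.ρ P.ρ' l (insert w D) (Function.update ψ w y) τ x = 0 := by
      unfold P3
      rw [if_neg h2]
    rw [h3]
    exact mul_nonneg (rr_nonneg _ _ _) (Real.exp_pos _).le

end Pool.Agent.Lib.GHA.Gen3

namespace Pool.Agent.Lib.GHA

open Finset Classical Gen3

theorem stGen3 : StGen3 := by
  intro U V _ _ P T H B w p l D ψ τ hP hG h hGS
  obtain ⟨hw, hp, hu, hgr⟩ := h.grow
  simp only at hw hp hu hgr
  have hT : T.Adj p w := (hu p hp).2 rfl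
  have hτw : τ w = 0 := h.zero w hw
  have hqS : ψ p ∈ D.image ψ := Finset.mem_image_of_mem _ hp
  have hqB : ψ p ∉ B := h.disj p hp
  have hk : rem l w ≤ P.Δ := (rem_le_cons (w, p) l w).trans (h.rem_le w)
  have hl : l.length ≤ P.m := by
    have h1 := h.card
    rw [List.length_cons] at h1
    omega
  set Y : Finset V := (nb H (ψ p) \ B) \ D.image ψ with hY
  have hYadj : ∀ y ∈ Y, H.Adj (ψ p) y := by
    intro y hy
    rw [hY, Finset.mem_sdiff, Finset.mem_sdiff] at hy
    have := hy.1.1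
    unfold nb at this
    exact (Finset.mem_filter.mp this).2
  have hYcard : Y.card ≤ P.d := by
    refine le_trans (Finset.card_le_card ?_) (hG.deg_le (ψ p))
    exact Finset.sdiff_subset.trans Finset.sdiff_subset
  have ha : ∀ y ∈ Y, 2 * P.c ≤ av H D ψ τ y := by
    intro y hy
    rw [hY, Finset.mem_sdiff, Finset.mem_sdiff] at hy
    exact hGS.av_ge y hy.1.2 hy.2
  have hc := hP.c_pos
  have h1a : ∀ y ∈ Y, 0 < 1 / av H D ψ τ y := by
    intro y hy
    have := ha y hy
    have h0 : 0 < av H D ψ τ y := by linarith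
    positivity
  have hI3 : 0 < P.I3 := Real.exp_pos _
  set b : ℝ := ((nb H (ψ p) ∩ B).card : ℝ) with hb
  have hb0 : 0 ≤ b := Nat.cast_nonneg _
  -- the terms
  set N : V → ℝ := fun x => P3 T H P.e2 P.ρ P.ρ' ((w, p) :: l) D ψ τ x with hN
  set M : V → V → ℝ := fun y x =>
    P3 T H P.e2 P.ρ P.ρ' l (insert w D) (Function.update ψ w y) τ x with hM
  have hN0 : ∀ x, 0 ≤ N x := fun x => P3_nonneg _ _ _ _ _ _ _ _ _ _
  have hterm : ∀ x ∈ Bᶜ, N x * (P.e2 * iq T H D ψ p x)
      + ∑ y ∈ Y, 1 / av H D ψ τ y * (M y x - N x) - b * N x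
      ≤ ∑ y ∈ Y, 1 / av H D ψ τ y * (rr H y x * P.I3) := by
    intro x hx
    rw [Finset.mem_compl] at hx
    have hrhs : 0 ≤ ∑ y ∈ Y, 1 / av H D ψ τ y * (rr H y x * P.I3) :=
      Finset.sum_nonneg (fun y hy => mul_nonneg (h1a y hy).le
        (mul_nonneg (rr_nonneg _ _ _) hI3.le))
    by_cases hact : act H D ψ x
    · refine le_trans ?_ hrhs
      by_cases hxq : x = ψ p
      · subst hxq
        rw [iq_self]
        have h1 : ∑ y ∈ Y, 1 / av H D ψ τ y * (M y (ψ p) - N (ψ p)) ≤ 0 := by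
          apply Finset.sum_nonpos
          intro y hy
          have := P3_next_self hP T H ψ hw hp hT hτw h.nonneg l y
          exact mul_nonpos_of_nonneg_of_nonpos (h1a y hy).le (sub_nonpos.mpr this)
        have h2 := mul_nonneg hb0 (hN0 (ψ p))
        linarith
      · have hsum1 : ∑ y ∈ Y, 1 / av H D ψ τ y * rr H y x
            = ∑ y ∈ ((nb H (ψ p) ∩ nb H x) \ B) \ D.image ψ, 1 / av H D ψ τ y := by
          have hfil : ((nb H (ψ p) ∩ nb H x) \ B) \ D.image ψ = Y.filter (fun y => H.Adj y x) := by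
            ext y
            rw [hY]
            simp only [Finset.mem_sdiff, Finset.mem_inter, Finset.mem_filter, nb,
              Finset.mem_univ, true_and]
            constructor
            · rintro ⟨⟨⟨h1, h2⟩, h3⟩, h4⟩
              exact ⟨⟨⟨h1, h3⟩, h4⟩, h2.symm⟩
            · rintro ⟨⟨⟨h1, h3⟩, h4⟩, h2⟩
              exact ⟨⟨⟨h1, h2.symm⟩, h3⟩, h4⟩
          rw [hfil, Finset.sum_filter]
          apply Finset.sum_congr rfl
          intro y _
          unfold rr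
          split_ifs <;> simp
        have hkey := key hP Y (fun y => av H D ψ τ y) (fun y => rr H y x) b
          (iq T H D ψ p x) (rem l w) (iq_zero_or_one _ _ _ _ _ _) hk hb0 ha
          (fun y => rr_zero_or_one _ _ _) hYcard (hGS.R_ge (ψ p) hqS)
          (by rw [hsum1]; exact hGS.Rx_le (ψ p) hqS x hx hxq)
        have h2 : ∑ y ∈ Y, 1 / av H D ψ τ y * (M y x - N x)
            ≤ N x * ∑ y ∈ Y, 1 / av H D ψ τ y *
              (Real.exp (P.e2 * P.ρ * (-iq T H D ψ p x
                + (rem l w : ℝ) * (rr H y x - P.γ * (1 + P.d1)))) - 1) := by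
          rw [Finset.mul_sum]
          apply Finset.sum_le_sum
          intro y hy
          have h3 := P3_next_le hP T H ψ hw hp hτw h.nonneg l y x hact
          have h4 := mul_le_mul_of_nonneg_left (sub_le_sub_right h3 (N x)) (h1a y hy).le
          refine h4.trans (le_of_eq ?_)
          simp only [hN]
          ring
        have h5 := mul_le_mul_of_nonneg_left hkey (hN0 x)
        rw [mul_zero] at h5
        have h6 : N x * (P.e2 * iq T H D ψ p x + ∑ y ∈ Y, 1 / av H D ψ τ y *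
              (Real.exp (P.e2 * P.ρ * (-iq T H D ψ p x
                + (rem l w : ℝ) * (rr H y x - P.γ * (1 + P.d1)))) - 1) - b)
            = N x * (P.e2 * iq T H D ψ p x) + N x * ∑ y ∈ Y, 1 / av H D ψ τ y *
              (Real.exp (P.e2 * P.ρ * (-iq T H D ψ p x
                + (rem l w : ℝ) * (rr H y x - P.γ * (1 + P.d1)))) - 1) - b * N x := by ring
        linarith
    · have hNx : N x = 0 := by
        simp only [hN]
        unfold P3
        rw [if_neg hact]
      rw [hNx]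
      have h1 : ∑ y ∈ Y, 1 / av H D ψ τ y * (M y x - 0)
          ≤ ∑ y ∈ Y, 1 / av H D ψ τ y * (rr H y x * P.I3) := by
        apply Finset.sum_le_sum
        intro y hy
        rw [sub_zero]
        exact mul_le_mul_of_nonneg_left
          (P3_new hP T H ψ hw hp hτw h.nonneg l hk hl y x (hYadj y hy) hact) (h1a y hy).le
      linarith
  -- sum over `x`
  have hrow : ∀ y, ∑ x ∈ Bᶜ, rr H y x ≤ P.d := by
    intro y
    have h1 : ∑ x ∈ Bᶜ, rr H y x ≤ ∑ x : V, rr H y x :=
      Finset.sum_le_sum_of_subset_of_nonneg (Finset.subset_univ _)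
        (fun _ _ _ => rr_nonneg _ _ _)
    have h2 : ∑ x : V, rr H y x = ((nb H y).card : ℝ) := by
      unfold rr nb
      rw [← Finset.sum_filter, Finset.sum_const, nsmul_eq_mul, mul_one]
    rw [h2] at h1
    exact h1.trans (by exact_mod_cast hG.deg_le y)
  have hsumx := Finset.sum_le_sum hterm
  have hrhs2 : ∑ x ∈ Bᶜ, ∑ y ∈ Y, 1 / av H D ψ τ y * (rr H y x * P.I3)
      ≤ ∑ y ∈ Y, 1 / av H D ψ τ y * (P.d * P.I3) := by
    rw [Finset.sum_comm]
    apply Finset.sum_le_sum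
    intro y hy
    rw [← Finset.mul_sum, ← Finset.sum_mul]
    exact mul_le_mul_of_nonneg_left (mul_le_mul_of_nonneg_right (hrow y) hI3.le) (h1a y hy).le
  refine ⟨∑ x ∈ Bᶜ, N x * (P.e2 * iq T H D ψ p x), ?_, ?_⟩
  · unfold G3
    have h1 : HasDerivAt (fun t : ℝ => ∑ x ∈ Bᶜ,
        P3 T H P.e2 P.ρ P.ρ' ((w, p) :: l) D ψ (bump τ p t) x)
        (∑ x ∈ Bᶜ, N x * (P.e2 * iq T H D ψ p x)) 0 :=
      HasDerivAt.fun_sum (fun x _ => P3_deriv T H P.e2 P.ρ P.ρ' ((w, p) :: l) ψ τ hp x)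
    exact h1.add_const _
  · have hG3 : ∀ y, G3 P T H B l (insert w D) (Function.update ψ w y) τ
        - G3 P T H B ((w, p) :: l) D ψ τ = ∑ x ∈ Bᶜ, (M y x - N x) - P.d * P.I3 := by
      intro y
      unfold G3
      rw [List.length_cons, Finset.sum_sub_distrib]
      push_cast
      simp only [hN, hM]
      ring
    have hG3' : G3 P T H B ((w, p) :: l) D ψ τ
        = ∑ x ∈ Bᶜ, N x + P.d * P.I3 * ((l.length : ℝ) + 1) := by
      unfold G3
      rw [List.length_cons]
      push_cast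
      simp only [hN]
    have e1 : ∑ y ∈ Y, 1 / av H D ψ τ y *
        (G3 P T H B l (insert w D) (Function.update ψ w y) τ - G3 P T H B ((w, p) :: l) D ψ τ)
        = ∑ x ∈ Bᶜ, ∑ y ∈ Y, 1 / av H D ψ τ y * (M y x - N x)
          - ∑ y ∈ Y, 1 / av H D ψ τ y * (P.d * P.I3) := by
      rw [Finset.sum_comm, ← Finset.sum_sub_distrib]
      apply Finset.sum_congr rfl
      intro y _
      rw [hG3 y, mul_sub, Finset.mul_sum]
    rw [e1, hG3']
    rw [Finset.sum_sub_distrib, Finset.sum_add_distrib, ← Finset.mul_sum] at hsumx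
    have h9 : 0 ≤ b * (P.d * P.I3 * ((l.length : ℝ) + 1)) := by positivity
    have e2 : b * (∑ x ∈ Bᶜ, N x + P.d * P.I3 * ((l.length : ℝ) + 1))
        = b * ∑ x ∈ Bᶜ, N x + b * (P.d * P.I3 * ((l.length : ℝ) + 1)) := by ring
    rw [e2]
    linarith

end Pool.Agent.Lib.GHA
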