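import Mathlib
import Pool.Agent.Lib.MP_df0165_co.Ap.Base

set_option autoImplicit false
set_option linter.unusedSectionVars false

/-!
# Approximate Graham-Haggkvist: generator of the broadcast time terms (S5)
-/

namespace Pool.Agent.Lib.GHA

open Finset Classical

namespace Gen4

lemma exp_neg_le {x : ℝ} (hx : 0 ≤ x) (hx1 : x ≤ 1) : Real.exp (-x) - 1 ≤ -(x - x ^ 2) := by
  have h1 : 1 + x ≤ Real.exp x := by linarith [Real.add_one_le_exp x]
  have h2 : Real.exp (-x) ≤ 1 / (1 + x) := by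
    rw [Real.exp_neg, ← one_div]
    exact one_div_le_one_div_of_le (by linarith) h1
  have h3 : 1 / (1 + x) ≤ 1 - x + x ^ 2 := by
    rw [div_le_iff₀ (by linarith)]
    nlinarith [pow_nonneg hx 3]
  linarith

lemma num {P : Par} (h : P.Ok) {R b : ℝ} (hR : 0 ≤ R) (hb : 0 ≤ b)
    (hRb : (P.γ - P.α - P.δ) * P.d ≤ R + b) :
    0 ≤ P.e2 * P.ρ ∧ P.e2 * P.ρ ≤ 1 ∧
    P.e2 + R * (-(P.e2 * P.ρ - (P.e2 * P.ρ) ^ 2)) - b ≤ 0 := by
  have hρ := h.ρ_pos
  have hd : (1 : ℝ) ≤ P.d := by exact_mod_cast h.d_pos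
  have hd0 : (0 : ℝ) < P.d := by linarith
  have hΔ : (1 : ℝ) ≤ P.Δ := by exact_mod_cast h.Δ_pos
  have he2 := h.e2_nonneg
  have hγ := h.γ_pos
  have hγ1 := h.γ_le
  have hα := h.α_nonneg
  have hδ := h.δ_pos
  have hc := h.c_pos
  have hc8 := h.c_le
  have hd1 := h.d1_pos
  have hd18 := h.d1_le
  set θ := P.e2 * P.ρ with hθ
  have hθ0 : 0 ≤ θ := mul_nonneg he2 hρ.le
  have hθle : θ ≤ P.d1 * P.γ ^ 2 / 64 := by
    have h1 : θ ≤ θ * P.Δ := by nlinarith
    have h2 := h.theta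
    have h3 : P.c * P.d1 * P.γ ^ 2 / 8 ≤ P.d1 * P.γ ^ 2 / 64 := by
      have : 0 ≤ P.d1 * P.γ ^ 2 := by positivity
      nlinarith
    linarith
  have hγ2 : P.γ ^ 2 ≤ P.γ := by nlinarith
  have hγ2' : P.d1 * P.γ ^ 2 ≤ P.d1 * P.γ := by nlinarith
  have hd1γ : P.d1 * P.γ ≤ P.d1 := by nlinarith
  have hθd : θ ≤ P.d1 / 64 := by linarith
  have hθ1 : θ ≤ 1 := by linarith
  refine ⟨hθ0, hθ1, ?_⟩
  have he2eq : P.e2 * (1 + P.d1) = θ * (P.γ * P.d) := by
    rw [hθ]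
    unfold Par.ρ
    field_simp
  have hsm : P.α + P.δ ≤ P.d1 * P.γ / 6 := by linarith [h.small]
  have hq : 0 ≤ θ - θ ^ 2 := by nlinarith
  have hq1 : θ - θ ^ 2 ≤ 1 := by nlinarith
  have h5 : (θ - θ ^ 2) * ((P.γ - P.α - P.δ) * P.d) ≤ (θ - θ ^ 2) * R + b := by
    have h6 := mul_le_mul_of_nonneg_left hRb hq
    have h7 : (θ - θ ^ 2) * b ≤ b := by nlinarith
    nlinarith
  have h8 : P.e2 ≤ (θ - θ ^ 2) * ((P.γ - P.α - P.δ) * P.d) := by
    have h9 : P.γ ≤ (1 + P.d1) * ((1 - θ) * (P.γ - P.α - P.δ)) := by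
      have h10 : P.γ * (1 - P.d1 / 6) ≤ P.γ - P.α - P.δ := by linarith
      have h11 : (1 - P.d1 / 64) * (P.γ * (1 - P.d1 / 6)) ≤ (1 - θ) * (P.γ - P.α - P.δ) := by
        apply mul_le_mul (by linarith) h10
        · apply mul_nonneg hγ.le; linarith
        · linarith
      have h12 : 1 ≤ (1 + P.d1) * ((1 - P.d1 / 64) * (1 - P.d1 / 6)) := by
        nlinarith [mul_pos hd1 hd1, mul_pos (mul_pos hd1 hd1) hd1]
      calc P.γ = P.γ * 1 := by ring
        _ ≤ P.γ * ((1 + P.d1) * ((1 - P.d1 / 64) * (1 - P.d1 / 6))) :=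
            mul_le_mul_of_nonneg_left h12 hγ.le
        _ = (1 + P.d1) * ((1 - P.d1 / 64) * (P.γ * (1 - P.d1 / 6))) := by ring
        _ ≤ (1 + P.d1) * ((1 - θ) * (P.γ - P.α - P.δ)) :=
            mul_le_mul_of_nonneg_left h11 (by linarith)
    have h13 : P.e2 * (1 + P.d1)
        ≤ (1 + P.d1) * ((θ - θ ^ 2) * ((P.γ - P.α - P.δ) * P.d)) := by
      rw [he2eq]
      calc θ * (P.γ * P.d) = (θ * P.d) * P.γ := by ring
        _ ≤ (θ * P.d) * ((1 + P.d1) * ((1 - θ) * (P.γ - P.α - P.δ))) :=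
            mul_le_mul_of_nonneg_left h9 (mul_nonneg hθ0 hd0.le)
        _ = (1 + P.d1) * ((θ - θ ^ 2) * ((P.γ - P.α - P.δ) * P.d)) := by ring
    have h14 : 0 < 1 + P.d1 := by linarith
    nlinarith
  linarith

end Gen4

theorem stGen4 : StGen4 := by
  intro U V _ _ P T H B w p l D ψ τ hok _ hinv hgs
  obtain ⟨hwD, hpD, -, -⟩ := hinv.grow
  simp only at hwD hpD
  -- notation
  set L : List (U × U) := (w, p) :: l with hL
  set pp : ℝ := P4 P.e2 P.ρ L τ p with hpp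
  have hpp0 : 0 < pp := Real.exp_pos _
  refine ⟨P.e2 * pp, ?_, ?_⟩
  · -- derivative
    have hfun : (fun t => G4 P L D (bump τ p t))
        = fun t => (∑ u ∈ D.erase p, P4 P.e2 P.ρ L τ u + P.I4 * (L.length : ℝ))
            + Real.exp (P.e2 * (τ p + t + P.ρ * (rem L p : ℝ))) := by
      funext t
      unfold G4
      rw [← Finset.add_sum_erase D _ hpD]
      have h1 : ∑ u ∈ D.erase p, P4 P.e2 P.ρ L (bump τ p t) u
          = ∑ u ∈ D.erase p, P4 P.e2 P.ρ L τ u := by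
        apply Finset.sum_congr rfl
        intro u hu
        unfold P4
        rw [bump_of_ne _ _ _ (Finset.ne_of_mem_erase hu)]
      rw [h1]
      have h2 : P4 P.e2 P.ρ L (bump τ p t) p
          = Real.exp (P.e2 * (τ p + t + P.ρ * (rem L p : ℝ))) := by
        unfold P4; rw [bump_self]
      rw [h2]
      ring
    rw [hfun]
    have h3 : HasDerivAt (fun t : ℝ => P.e2 * (τ p + t + P.ρ * (rem L p : ℝ))) (P.e2 * 1) 0 := by
      apply HasDerivAt.const_mul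
      have := ((hasDerivAt_id (0 : ℝ)).const_add (τ p)).add_const (P.ρ * (rem L p : ℝ))
      simpa using this
    have h4 := (h3.exp).const_add (∑ u ∈ D.erase p, P4 P.e2 P.ρ L τ u + P.I4 * (L.length : ℝ))
    refine h4.congr_deriv ?_
    rw [hpp]
    unfold P4
    simp only [add_zero, mul_one]
    ring
  · -- inequality
    set R : ℝ := ∑ y ∈ (nb H (ψ p) \ B) \ D.image ψ, 1 / av H D ψ τ y with hR
    set b : ℝ := ((nb H (ψ p) ∩ B).card : ℝ) with hb
    have hR0 : 0 ≤ R := by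
      apply Finset.sum_nonneg
      intro y hy
      rw [Finset.mem_sdiff, Finset.mem_sdiff] at hy
      have := hgs.av_ge y hy.1.2 hy.2
      have hc := hok.c_pos
      apply one_div_nonneg.mpr
      linarith
    have hb0 : 0 ≤ b := Nat.cast_nonneg _
    have hRb := hgs.R_ge (ψ p) (Finset.mem_image_of_mem ψ hpD)
    obtain ⟨hθ0, hθ1, hnum⟩ := Gen4.num hok hR0 hb0 hRb
    -- the jump
    have hjump : G4 P l (insert w D) τ - G4 P L D τ
        ≤ pp * (-(P.e2 * P.ρ - (P.e2 * P.ρ) ^ 2)) := by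
      have hremp : (rem L p : ℝ) = (rem l p : ℝ) + 1 := by
        rw [hL, rem_cons_self]; push_cast; ring
      have hlen : (L.length : ℝ) = (l.length : ℝ) + 1 := by
        rw [hL, List.length_cons]; push_cast; ring
      have h5 : ∑ u ∈ D.erase p, P4 P.e2 P.ρ l τ u = ∑ u ∈ D.erase p, P4 P.e2 P.ρ L τ u := by
        apply Finset.sum_congr rfl
        intro u hu
        unfold P4
        rw [hL, rem_cons_of_ne _ _ _ (Finset.ne_of_mem_erase hu)]
      have h6 : P4 P.e2 P.ρ l τ p = pp * Real.exp (-(P.e2 * P.ρ)) := by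
        rw [hpp]
        unfold P4
        rw [← Real.exp_add, hremp]
        congr 1
        ring
      have h7 : P4 P.e2 P.ρ l τ w ≤ P.I4 := by
        unfold P4 Par.I4
        apply Real.exp_le_exp.mpr
        rw [hinv.zero w hwD, zero_add]
        have h8 : (rem l w : ℝ) ≤ (P.Δ : ℝ) := by
          exact_mod_cast (rem_le_cons (w, p) l w).trans (hinv.rem_le w)
        have h9 : (0 : ℝ) ≤ P.Δ := Nat.cast_nonneg _
        have h10 : P.e2 * P.ρ * (rem l w : ℝ) ≤ P.e2 * P.ρ * P.Δ :=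
          mul_le_mul_of_nonneg_left h8 hθ0
        have h11 : 0 ≤ P.e2 * P.ρ * P.Δ := mul_nonneg hθ0 h9
        nlinarith
      have h12 := Gen4.exp_neg_le hθ0 hθ1
      unfold G4
      rw [Finset.sum_insert hwD, ← Finset.add_sum_erase D _ hpD,
        ← Finset.add_sum_erase D (fun u => P4 P.e2 P.ρ L τ u) hpD, h5, h6, hlen, ← hpp]
      have h13 : pp * (Real.exp (-(P.e2 * P.ρ)) - 1)
          ≤ pp * (-(P.e2 * P.ρ - (P.e2 * P.ρ) ^ 2)) := mul_le_mul_of_nonneg_left h12 hpp0.le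
      linarith
    have hG : pp ≤ G4 P L D τ := by
      unfold G4
      rw [← Finset.add_sum_erase D _ hpD, ← hpp]
      have h14 : 0 ≤ ∑ u ∈ D.erase p, P4 P.e2 P.ρ L τ u :=
        Finset.sum_nonneg (fun u _ => (Real.exp_pos _).le)
      have h15 : 0 ≤ P.I4 * (L.length : ℝ) :=
        mul_nonneg (Real.exp_pos _).le (Nat.cast_nonneg _)
      linarith
    have h16 : ∑ y ∈ (nb H (ψ p) \ B) \ D.image ψ, 1 / av H D ψ τ y *
        (G4 P l (insert w D) τ - G4 P L D τ)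
        ≤ R * (pp * (-(P.e2 * P.ρ - (P.e2 * P.ρ) ^ 2))) := by
      rw [← Finset.sum_mul, ← hR]
      exact mul_le_mul_of_nonneg_left hjump hR0
    have h17 : b * pp ≤ b * G4 P L D τ := mul_le_mul_of_nonneg_left hG hb0
    have h18 : pp * (P.e2 + R * (-(P.e2 * P.ρ - (P.e2 * P.ρ) ^ 2)) - b) ≤ 0 :=
      mul_nonpos_of_nonneg_of_nonpos hpp0.le hnum
    have h19 : pp * (P.e2 + R * (-(P.e2 * P.ρ - (P.e2 * P.ρ) ^ 2)) - b)
        = P.e2 * pp + R * (pp * (-(P.e2 * P.ρ - (P.e2 * P.ρ) ^ 2))) - b * pp := by ring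
    linarith

end Pool.Agent.Lib.GHA
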