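import Mathlib
import Pool.Agent.Lib.MP_df0165_co.Ap.Base

set_option autoImplicit false
set_option linter.unusedSectionVars false

/-!
# Approximate Graham-Haggkvist: generator of the `A`-terms
-/

namespace Pool.Agent.Lib.GHA.GenA

open Finset Classical

variable {U V : Type} [Fintype U] [Fintype V]

/-- `f` is a functional along the broadcast, `g y` its value after the capture of `y`; the
generator of the functional is not positive. -/
def Sup (Y : Finset V) (a : V → ℝ) (f : ℝ → ℝ) (g : V → ℝ) : Prop :=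
  ∃ d : ℝ, HasDerivAt f d 0 ∧ d + ∑ y ∈ Y, 1 / a y * (g y - f 0) ≤ 0

lemma Sup.add {Y : Finset V} {a : V → ℝ} {f f' : ℝ → ℝ} {g g' : V → ℝ}
    (h : Sup Y a f g) (h' : Sup Y a f' g') :
    Sup Y a (fun t => f t + f' t) (fun y => g y + g' y) := by
  obtain ⟨d, hd, hs⟩ := h
  obtain ⟨d', hd', hs'⟩ := h'
  refine ⟨d + d', hd.add hd', ?_⟩
  have e : ∑ y ∈ Y, 1 / a y * (g y + g' y - (f 0 + f' 0))
      = ∑ y ∈ Y, 1 / a y * (g y - f 0) + ∑ y ∈ Y, 1 / a y * (g' y - f' 0) := by
    rw [← Finset.sum_add_distrib]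
    exact Finset.sum_congr rfl (fun y _ => by ring)
  rw [e]
  linarith

lemma Sup.const {Y : Finset V} {a : V → ℝ} (k : ℝ) :
    Sup Y a (fun _ => k) (fun _ => k) := by
  refine ⟨0, hasDerivAt_const _ _, ?_⟩
  simp

lemma Sup.sum {ι : Type} {Y : Finset V} {a : V → ℝ} (I : Finset ι) {f : ι → ℝ → ℝ}
    {g : ι → V → ℝ} (h : ∀ i ∈ I, Sup Y a (f i) (g i)) :
    Sup Y a (fun t => ∑ i ∈ I, f i t) (fun y => ∑ i ∈ I, g i y) := by
  induction I using Finset.induction_on with
  | empty => simpa using Sup.const (Y := Y) (a := a) 0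
  | insert i I hi ih =>
    simp only [Finset.sum_insert hi]
    exact (h i (Finset.mem_insert_self _ _)).add
      (ih (fun j hj => h j (Finset.mem_insert_of_mem hj)))

lemma Sup.sub_const {Y : Finset V} {a : V → ℝ} {f : ℝ → ℝ} {g : V → ℝ} (h : Sup Y a f g)
    (k : ℝ) : Sup Y a (fun t => f t - k) (fun y => g y - k) := by
  simpa only [sub_eq_add_neg] using h.add (Sup.const (-k))

/-- The numerical inequality for one host vertex. -/
lemma num {s e1 ka c a : ℝ} (hs : s = 1 ∨ s = -1) (he : 0 < e1) (hc : 0 < c) (hec : e1 ≤ c)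
    (hka : ka = e1 ^ 2 / c ^ 3) (ha : c ≤ a) :
    s * e1 * (1 / a ^ 2) - ka + 1 / a * (Real.exp (-(s * e1 / a) - ka * a) - 1) ≤ 0 := by
  have ha0 : 0 < a := hc.trans_le ha
  have hka0 : 0 ≤ ka := by rw [hka]; positivity
  set z : ℝ := e1 / a with hz
  have hz0 : 0 ≤ z := by positivity
  have hz1 : z ≤ 1 := by rw [hz, div_le_one ha0]; exact hec.trans ha
  have hse : s * e1 / a = s * z := by rw [hz]; ring
  have hsabs : |-(s * z)| ≤ 1 := by
    rcases hs with rfl | rfl
    · rw [abs_neg, one_mul, abs_of_nonneg hz0]; exact hz1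
    · rw [abs_neg, neg_one_mul, abs_neg, abs_of_nonneg hz0]; exact hz1
  have hs2 : s ^ 2 = 1 := by rcases hs with rfl | rfl <;> norm_num
  have h1 : Real.exp (-(s * e1 / a) - ka * a) ≤ Real.exp (-(s * z)) := by
    apply Real.exp_le_exp.mpr
    rw [hse]
    have : 0 ≤ ka * a := by positivity
    linarith
  have h2 : Real.exp (-(s * z)) ≤ 1 - s * z + z ^ 2 := by
    have h := Real.abs_exp_sub_one_sub_id_le hsabs
    have h' := (abs_le.mp h).2
    have e : (-(s * z)) ^ 2 = z ^ 2 := by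
      rw [neg_sq, mul_pow, hs2, one_mul]
    rw [e] at h'
    linarith
  have h3 : 1 / a * (Real.exp (-(s * e1 / a) - ka * a) - 1) ≤ 1 / a * (-(s * z) + z ^ 2) := by
    apply mul_le_mul_of_nonneg_left _ (by positivity)
    linarith
  have h4 : 1 / a * (-(s * z) + z ^ 2) = -(s * e1 * (1 / a ^ 2)) + e1 ^ 2 / a ^ 3 := by
    rw [hz]; field_simp
  have h5 : e1 ^ 2 / a ^ 3 ≤ ka := by
    rw [hka]
    apply div_le_div_of_nonneg_left (by positivity) (by positivity)
    exact pow_le_pow_left₀ hc.le ha 3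
  linarith

lemma hv_deriv (H : SimpleGraph V) (D : Finset U) (ψ : U → V) (τ : U → ℝ) {p : U} (hp : p ∈ D)
    (y : V) (hy : y ∉ D.image ψ → 0 < av H D ψ τ y) :
    HasDerivAt (fun t => hv H D ψ (bump τ p t) y)
      (if y ∈ D.image ψ then 0 else rr H (ψ p) y * (1 / av H D ψ τ y ^ 2)) 0 := by
  by_cases h : y ∈ D.image ψ
  · simp only [hv, if_pos h]
    exact hasDerivAt_const _ _
  · simp only [hv, if_neg h]
    simp_rw [av_bump H D ψ τ hp]
    have ha := hy h
    have h1 : HasDerivAt (fun t : ℝ => av H D ψ τ y - t * rr H (ψ p) y) (-(rr H (ψ p) y)) 0 := by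
      simpa using ((hasDerivAt_id (0 : ℝ)).mul_const (rr H (ψ p) y)).const_sub (av H D ψ τ y)
    have h2 := (h1.fun_inv (by simpa using ha.ne')).sub_const 1
    have e : (fun t : ℝ => 1 / (av H D ψ τ y - t * rr H (ψ p) y) - 1)
        = fun t : ℝ => (av H D ψ τ y - t * rr H (ψ p) y)⁻¹ - 1 := by
      funext t; rw [one_div]
    rw [e]
    have e2 : (if y ∈ D.image ψ then (0 : ℝ) else rr H (ψ p) y * (1 / av H D ψ τ y ^ 2))
        = -(-(rr H (ψ p) y)) / (av H D ψ τ y - 0 * rr H (ψ p) y) ^ 2 := by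
      rw [if_neg h]
      ring
    rw [if_neg h] at e2
    rw [e2]
    exact h2

lemma eb_deriv (H : SimpleGraph V) (D : Finset U) (ψ : U → V) (τ : U → ℝ) {p : U} (hp : p ∈ D)
    (y : V) :
    HasDerivAt (fun t => eb H D ψ (bump τ p t) y)
      (if y ∈ D.image ψ then 0 else rr H (ψ p) y) 0 := by
  by_cases h : y ∈ D.image ψ
  · simp only [eb, if_pos h]
    exact hasDerivAt_const _ _
  · simp only [eb, if_neg h]
    simp_rw [av_bump H D ψ τ hp]
    have h1 : HasDerivAt (fun t : ℝ => av H D ψ τ y - t * rr H (ψ p) y) (-(rr H (ψ p) y)) 0 := by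
      simpa using ((hasDerivAt_id (0 : ℝ)).mul_const (rr H (ψ p) y)).const_sub (av H D ψ τ y)
    simpa using h1.const_sub 1

lemma hv_next (H : SimpleGraph V) {D : Finset U} (ψ : U → V) {τ : U → ℝ} {w : U} (hw : w ∉ D)
    (hτ : τ w = 0) {y : V} (hy : y ∉ D.image ψ) (z : V) :
    hv H (insert w D) (Function.update ψ w y) τ z
      = hv H D ψ τ z + if z = y then -(1 / av H D ψ τ y) else 0 := by
  unfold hv
  rw [image_update hw, av_next H ψ hw hτ]
  by_cases hz : z = y
  · subst hz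
    rw [if_pos (Finset.mem_insert_self _ _), if_neg hy, if_pos rfl]
    ring
  · rw [if_neg hz, add_zero]
    by_cases h : z ∈ D.image ψ
    · rw [if_pos (Finset.mem_insert_of_mem h), if_pos h]
    · rw [if_neg (by rw [Finset.mem_insert, not_or]; exact ⟨hz, h⟩), if_neg h]

lemma eb_next (H : SimpleGraph V) {D : Finset U} (ψ : U → V) {τ : U → ℝ} {w : U} (hw : w ∉ D)
    (hτ : τ w = 0) {y : V} (hy : y ∉ D.image ψ) (z : V) :
    eb H (insert w D) (Function.update ψ w y) τ z
      = eb H D ψ τ z + if z = y then av H D ψ τ y else 0 := by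
  unfold eb
  rw [image_update hw, av_next H ψ hw hτ]
  by_cases hz : z = y
  · subst hz
    rw [if_pos (Finset.mem_insert_self _ _), if_neg hy, if_pos rfl]
    ring
  · rw [if_neg hz, add_zero]
    by_cases h : z ∈ D.image ψ
    · rw [if_pos (Finset.mem_insert_of_mem h), if_pos h]
    · rw [if_neg (by rw [Finset.mem_insert, not_or]; exact ⟨hz, h⟩), if_neg h]

lemma At_next (H : SimpleGraph V) (s e1 ka : ℝ) (A : Finset V) {D : Finset U} (ψ : U → V)
    {τ : U → ℝ} {w : U} (hw : w ∉ D) (hτ : τ w = 0) {y : V} (hy : y ∉ D.image ψ) :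
    At H s e1 ka A (insert w D) (Function.update ψ w y) τ
      = At H s e1 ka A D ψ τ * (if y ∈ A then
          Real.exp (-(s * e1 / av H D ψ τ y) - ka * av H D ψ τ y) else 1) := by
  unfold At
  have h1 : ∑ z ∈ A, hv H (insert w D) (Function.update ψ w y) τ z
      = ∑ z ∈ A, hv H D ψ τ z + if y ∈ A then -(1 / av H D ψ τ y) else 0 := by
    rw [Finset.sum_congr rfl (fun z _ => hv_next H ψ hw hτ hy z), Finset.sum_add_distrib,
      Finset.sum_ite_eq' A y]
  have h2 : ∑ z ∈ A, eb H (insert w D) (Function.update ψ w y) τ z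
      = ∑ z ∈ A, eb H D ψ τ z + if y ∈ A then av H D ψ τ y else 0 := by
    rw [Finset.sum_congr rfl (fun z _ => eb_next H ψ hw hτ hy z), Finset.sum_add_distrib,
      Finset.sum_ite_eq' A y]
  rw [h1, h2]
  by_cases h : y ∈ A
  · rw [if_pos h, if_pos h, if_pos h, ← Real.exp_add]
    congr 1
    ring
  · rw [if_neg h, if_neg h, if_neg h, add_zero, add_zero, mul_one]

/-- The generator of one exponential term is not positive. -/
lemma At_sup (P : Par) (H : SimpleGraph V) (B : Finset V) {w p : U} {D : Finset U} {ψ : U → V}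
    {τ : U → ℝ} (hP : P.Ok) (hw : w ∉ D) (hp : p ∈ D) (hτ : τ w = 0)
    (hav : ∀ y, y ∉ B → y ∉ D.image ψ → P.c ≤ av H D ψ τ y) {s : ℝ} (hs : s = 1 ∨ s = -1)
    {A : Finset V} (hA : ∀ y ∈ A, y ∉ B) :
    Sup ((nb H (ψ p) \ B) \ D.image ψ) (fun y => av H D ψ τ y)
      (fun t => At H s P.e1 P.ka A D ψ (bump τ p t))
      (fun y => At H s P.e1 P.ka A (insert w D) (Function.update ψ w y) τ) := by
  have hc := hP.c_pos
  have hec : P.e1 ≤ P.c := by
    unfold Par.e1
    have h1 := hP.small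
    have h2 := hP.α_nonneg
    have h3 := hP.d1_le
    have h4 : P.γ ^ 2 ≤ 1 := pow_le_one₀ hP.γ_pos.le hP.γ_le
    have h5 := hP.δ_pos
    have h6 : P.d1 * P.γ ^ 2 ≤ 1 := by
      have := hP.d1_pos
      have h7 : 0 ≤ P.γ ^ 2 := sq_nonneg _
      nlinarith
    have h8 : P.δ ≤ 1 := by linarith
    have h9 : P.c ^ 2 ≤ 1 := pow_le_one₀ hc.le (by linarith [hP.c_le])
    have h10 : P.δ * P.c ^ 2 ≤ 1 := by
      have : 0 ≤ P.c ^ 2 := sq_nonneg _
      nlinarith
    have e : P.δ * P.c ^ 3 / 4 = P.c * (P.δ * P.c ^ 2) / 4 := by ring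
    rw [e]
    nlinarith
  have hd1 : HasDerivAt (fun t => ∑ y ∈ A, hv H D ψ (bump τ p t) y)
      (∑ y ∈ A, if y ∈ D.image ψ then 0 else rr H (ψ p) y * (1 / av H D ψ τ y ^ 2)) 0 :=
    HasDerivAt.fun_sum (fun y hy => hv_deriv H D ψ τ hp y
      (fun h => hc.trans_le (hav y (hA y hy) h)))
  have hd2 : HasDerivAt (fun t => ∑ y ∈ A, eb H D ψ (bump τ p t) y)
      (∑ y ∈ A, if y ∈ D.image ψ then 0 else rr H (ψ p) y) 0 :=
    HasDerivAt.fun_sum (fun y _ => eb_deriv H D ψ τ hp y)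
  have hd := ((hd1.const_mul (s * P.e1)).fun_sub (hd2.const_mul P.ka)).exp
  refine ⟨_, hd, ?_⟩
  simp only [bump_zero]
  change At H s P.e1 P.ka A D ψ τ * _ + _ ≤ 0
  set M := At H s P.e1 P.ka A D ψ τ with hM
  have hM0 : 0 ≤ M := (Real.exp_pos _).le
  -- the jump part as a sum over `A`
  have hj : ∑ y ∈ (nb H (ψ p) \ B) \ D.image ψ, 1 / av H D ψ τ y *
        (At H s P.e1 P.ka A (insert w D) (Function.update ψ w y) τ - M)
      = M * ∑ y ∈ A, if y ∈ D.image ψ then 0 else rr H (ψ p) y * (1 / av H D ψ τ y *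
          (Real.exp (-(s * P.e1 / av H D ψ τ y) - P.ka * av H D ψ τ y) - 1)) := by
    have e1 : ∀ y ∈ (nb H (ψ p) \ B) \ D.image ψ, 1 / av H D ψ τ y *
        (At H s P.e1 P.ka A (insert w D) (Function.update ψ w y) τ - M)
        = if y ∈ A then M * (1 / av H D ψ τ y *
          (Real.exp (-(s * P.e1 / av H D ψ τ y) - P.ka * av H D ψ τ y) - 1)) else 0 := by
      intro y hy
      rw [At_next H s P.e1 P.ka A ψ hw hτ (Finset.mem_sdiff.mp hy).2, ← hM]
      by_cases h : y ∈ A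
      · rw [if_pos h, if_pos h]; ring
      · rw [if_neg h, if_neg h]; ring
    rw [Finset.sum_congr rfl e1, Finset.mul_sum, ← Finset.sum_filter]
    have e2 : ∀ y ∈ A, (M * if y ∈ D.image ψ then 0 else rr H (ψ p) y * (1 / av H D ψ τ y *
          (Real.exp (-(s * P.e1 / av H D ψ τ y) - P.ka * av H D ψ τ y) - 1)))
        = if y ∉ D.image ψ ∧ H.Adj (ψ p) y then M * (1 / av H D ψ τ y *
          (Real.exp (-(s * P.e1 / av H D ψ τ y) - P.ka * av H D ψ τ y) - 1)) else 0 := by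
      intro y _
      by_cases h : y ∈ D.image ψ
      · rw [if_pos h, if_neg (fun h' => h'.1 h), mul_zero]
      · rw [if_neg h]
        by_cases h' : H.Adj (ψ p) y
        · rw [if_pos ⟨h, h'⟩, rr_of_adj h', one_mul]
        · rw [if_neg (fun h'' => h' h''.2), rr_of_not_adj h', zero_mul, mul_zero]
    rw [Finset.sum_congr rfl e2, ← Finset.sum_filter]
    apply Finset.sum_congr _ (fun _ _ => rfl)
    ext y
    simp only [Finset.mem_filter, Finset.mem_sdiff, mem_nb]
    constructor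
    · rintro ⟨⟨⟨h1, _⟩, h3⟩, h4⟩
      exact ⟨h4, h3, h1⟩
    · rintro ⟨h4, h3, h1⟩
      exact ⟨⟨⟨h1, hA y h4⟩, h3⟩, h4⟩
  rw [hj, ← mul_add]
  apply mul_nonpos_of_nonneg_of_nonpos hM0
  rw [Finset.mul_sum, Finset.mul_sum, ← Finset.sum_sub_distrib, ← Finset.sum_add_distrib]
  apply Finset.sum_nonpos
  intro y hy
  by_cases h : y ∈ D.image ψ
  · simp [h]
  · rw [if_neg h, if_neg h, if_neg h]
    have hn := num (s := s) (e1 := P.e1) (ka := P.ka) (c := P.c) (a := av H D ψ τ y) hs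
      hP.e1_pos hc hec rfl (hav y (hA y hy) h)
    rcases rr_zero_or_one H (ψ p) y with hr | hr
    · rw [hr]; simp
    · rw [hr]
      simpa using hn

end Pool.Agent.Lib.GHA.GenA

namespace Pool.Agent.Lib.GHA

open Finset Classical

/-- (S3) generator of the `A`-terms. -/
theorem stGenA : StGenA := by
  intro U V _ _ P T H B w p l D ψ τ hP _ hI hav
  obtain ⟨hw, hp, -, -⟩ := hI.grow
  simp only at hw hp
  have hτ : τ w = 0 := hI.zero w hw
  have key : GenA.Sup ((nb H (ψ p) \ B) \ D.image ψ) (fun y => av H D ψ τ y)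
      (fun t => AP H B P.e1 P.ka P.K1 D ψ (bump τ p t))
      (fun y => AP H B P.e1 P.ka P.K1 (insert w D) (Function.update ψ w y) τ) := by
    unfold AP
    refine ((GenA.Sup.sum _ fun v _ => ?_).add (GenA.Sup.sum _ fun v _ =>
      GenA.Sup.sum _ fun x _ => ?_)).add (GenA.Sup.const _)
    · exact (GenA.At_sup P H B hP hw hp hτ hav (Or.inr rfl)
        (fun y hy => (Finset.mem_sdiff.mp hy).2)).sub_const 1
    · exact (GenA.At_sup P H B hP hw hp hτ hav (Or.inl rfl)
        (fun y hy => (Finset.mem_sdiff.mp hy).2)).sub_const 1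
  obtain ⟨g', h1, h2⟩ := key
  refine ⟨g', h1, ?_⟩
  simpa only [bump_zero] using h2

end Pool.Agent.Lib.GHA
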