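import Pool.Agent.Lib.MP_df0165_co.Ap.Stmts

set_option autoImplicit false
set_option linter.unusedSectionVars false

/-!
# Existence of growth lists and the number of steps with a given parent (M5)
-/

namespace Pool.Agent.Lib.GHA

open Finset Classical

namespace GrowEx

variable {U : Type} [Fintype U] {T : SimpleGraph U}

/-- `D` is connected inside `T` -/
def Con (T : SimpleGraph U) (D : Finset U) : Prop :=
  ∀ x ∈ D, ∀ y ∈ D, ∃ q : T.Walk x y, ∀ z ∈ q.support, z ∈ D

lemma con_pair {a b : U} (h : T.Adj a b) : Con T {a, b} := by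
  intro x hx y hy
  rw [mem_insert, mem_singleton] at hx hy
  rcases hx with rfl | rfl <;> rcases hy with rfl | rfl
  · exact ⟨SimpleGraph.Walk.nil, by simp⟩
  · exact ⟨h.toWalk, by simp⟩
  · exact ⟨h.symm.toWalk, by simp⟩
  · exact ⟨SimpleGraph.Walk.nil, by simp⟩

lemma Con.insert {D : Finset U} (hD : Con T D) {w p : U} (hp : p ∈ D) (h : T.Adj p w) :
    Con T (insert w D) := by
  intro x hx y hy
  rw [mem_insert] at hx hy
  rcases hx with rfl | hx <;> rcases hy with rfl | hy
  · exact ⟨SimpleGraph.Walk.nil, by simp⟩
  · obtain ⟨q, hq⟩ := hD p hp y hy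
    refine ⟨SimpleGraph.Walk.cons h.symm q, ?_⟩
    intro z hz
    rw [SimpleGraph.Walk.support_cons, List.mem_cons] at hz
    rcases hz with rfl | hz
    · exact mem_insert_self _ _
    · exact mem_insert_of_mem (hq z hz)
  · obtain ⟨q, hq⟩ := hD p hp x hx
    refine ⟨(SimpleGraph.Walk.cons h.symm q).reverse, ?_⟩
    intro z hz
    rw [SimpleGraph.Walk.support_reverse, List.mem_reverse, SimpleGraph.Walk.support_cons,
      List.mem_cons] at hz
    rcases hz with rfl | hz
    · exact mem_insert_self _ _
    · exact mem_insert_of_mem (hq z hz)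
  · obtain ⟨q, hq⟩ := hD x hx y hy
    exact ⟨q, fun z hz => mem_insert_of_mem (hq z hz)⟩

lemma uniq (hT : T.IsAcyclic) {D : Finset U} (hD : Con T D) {w p : U} (hw : w ∉ D)
    (hp : p ∈ D) (h : T.Adj p w) : ∀ u ∈ D, T.Adj u w ↔ u = p := by
  intro u hu
  constructor
  · intro huw
    by_contra hne
    obtain ⟨q, hq⟩ := hD u hu p hp
    have h1 : (SimpleGraph.Walk.cons huw (SimpleGraph.Walk.cons h.symm
        SimpleGraph.Walk.nil)).IsPath := by
      rw [SimpleGraph.Walk.isPath_def]
      simp only [SimpleGraph.Walk.support_cons, SimpleGraph.Walk.support_nil, List.nodup_cons,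
        List.mem_cons, List.not_mem_nil, or_false, not_or, not_false_eq_true, List.nodup_nil,
        and_true]
      exact ⟨⟨huw.ne, hne⟩, h.symm.ne⟩
    have h2 := hT.path_unique ⟨_, h1⟩ q.toPath
    have h3 := congrArg (fun r : T.Path u p => (r : T.Walk u p).support) h2
    have h4 : w ∈ (q.toPath : T.Walk u p).support := by
      rw [← h3]
      simp
    exact hw (hq w (SimpleGraph.Walk.support_toPath_subset q h4))
  · rintro rfl
    exact h

lemma exists_grow (hT : T.IsTree) : ∀ (n : ℕ) (D : Finset U), (univ \ D).card = n → D.Nonempty →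
    Con T D → ∃ l : List (U × U), Grow T D l univ := by
  intro n
  induction n with
  | zero =>
    intro D hn _ _
    refine ⟨[], ?_⟩
    rw [card_eq_zero, sdiff_eq_empty_iff_subset] at hn
    exact subset_antisymm (subset_univ _) hn
  | succ n ih =>
    intro D hn hne hD
    obtain ⟨x, hx⟩ := hne
    obtain ⟨y, hy⟩ : (univ \ D).Nonempty := by
      rw [← card_pos]
      omega
    rw [mem_sdiff] at hy
    obtain ⟨q⟩ := hT.1.preconnected x y
    obtain ⟨δ, _, h1, h2⟩ := q.exists_boundary_dart (D : Set U) hx hy.2
    have h1' : δ.fst ∈ D := h1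
    have h2' : δ.snd ∉ D := h2
    obtain ⟨l, hl⟩ := ih (insert δ.snd D) (by
      have h3 : univ \ insert δ.snd D = (univ \ D).erase δ.snd := by
        ext z
        simp only [mem_sdiff, mem_univ, true_and, mem_insert, not_or, mem_erase]
      rw [h3, card_erase_of_mem (by simp [h2']), hn]
      rfl) ⟨_, mem_insert_self _ _⟩ (hD.insert h1' δ.adj)
    exact ⟨(δ.snd, δ.fst) :: l, h2', h1', uniq hT.2 hD h2' h1' δ.adj, hl⟩

/-- The count for a general start. -/
lemma count_gen : ∀ (l : List (U × U)) (D D' : Finset U), Grow T D l D' →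
    D ⊆ D' ∧ l.length + D.card = D'.card ∧ (∀ s ∈ l, s.1 ∈ D' ∧ s.2 ∈ D') ∧
    (∀ u ∈ D, (l.map Prod.snd).count u + ((nb T u) ∩ D).card = ((nb T u) ∩ D').card) ∧
    ∀ u ∈ D', u ∉ D → (l.map Prod.snd).count u + 1 = ((nb T u) ∩ D').card := by
  intro l
  induction l with
  | nil =>
    intro D D' h
    have h' : D = D' := h
    subst h'
    refine ⟨Subset.rfl, by simp, by simp, by simp, ?_⟩
    intro u hu hu'
    exact absurd hu hu'
  | cons s l ih =>
    intro D D' h
    obtain ⟨h1, h2, h3, h4⟩ := h
    obtain ⟨i1, i2, i3, i4, i5⟩ := ih _ _ h4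
    have hsub : D ⊆ D' := (subset_insert _ _).trans i1
    have hs1 : s.1 ∈ D' := i1 (mem_insert_self _ _)
    have hs2 : s.2 ∈ D' := hsub h2
    have hcount : ∀ u, ((s :: l).map Prod.snd).count u = (l.map Prod.snd).count u +
        if s.2 = u then 1 else 0 := by
      intro u
      rw [List.map_cons, List.count_cons]
      congr 1
      by_cases hu : s.2 = u <;> simp [hu]
    refine ⟨hsub, ?_, ?_, ?_, ?_⟩
    · rw [card_insert_of_notMem h1] at i2
      rw [List.length_cons]
      omega
    · intro t ht
      rcases List.mem_cons.1 ht with rfl | ht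
      · exact ⟨hs1, hs2⟩
      · exact i3 t ht
    · intro u hu
      have h5 := i4 u (mem_insert_of_mem hu)
      rw [hcount]
      by_cases hus : s.2 = u
      · have hadj : T.Adj u s.1 := (h3 u hu).2 hus.symm
        have h6 : nb T u ∩ insert s.1 D = insert s.1 (nb T u ∩ D) := by
          rw [inter_insert_of_mem]
          simp [nb, hadj]
        rw [h6, card_insert_of_notMem (by simp [h1])] at h5
        rw [if_pos hus]
        omega
      · have hadj : ¬ T.Adj u s.1 := fun h7 => hus ((h3 u hu).1 h7).symm
        have h6 : nb T u ∩ insert s.1 D = nb T u ∩ D := by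
          rw [inter_insert_of_notMem]
          simp [nb, hadj]
        rw [h6] at h5
        rw [if_neg hus]
        omega
    · intro u hu hu'
      rw [hcount, if_neg (by rintro rfl; exact hu' h2), add_zero]
      by_cases hus : u = s.1
      · subst hus
        have h5 := i4 s.1 (mem_insert_self _ _)
        have h6 : nb T s.1 ∩ insert s.1 D = {s.2} := by
          ext z
          simp only [nb, mem_inter, mem_filter, mem_univ, true_and, mem_insert, mem_singleton]
          constructor
          · rintro ⟨h7, h8⟩
            rcases h8 with h8 | h8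
            · rw [h8] at h7
              exact absurd h7 (T.loopless.irrefl _)
            · exact (h3 z h8).1 h7.symm
          · rintro rfl
            exact ⟨((h3 _ h2).2 rfl).symm, Or.inr h2⟩
        rw [h6, card_singleton] at h5
        exact h5
      · exact i5 u hu (by
          rw [mem_insert, not_or]
          exact ⟨hus, hu'⟩)

end GrowEx

open GrowEx

theorem stGrowEx : StGrowEx := by
  intro U _ T hT
  constructor
  · intro a b hab
    exact exists_grow hT _ _ rfl ⟨a, mem_insert_self _ _⟩ (con_pair hab)
  · intro a b c hab hbc hca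
    have hc : c ∉ ({a, b} : Finset U) := by
      rw [mem_insert, mem_singleton, not_or]
      exact ⟨hca, hbc.symm.ne⟩
    have hb : b ∈ ({a, b} : Finset U) := by simp
    obtain ⟨l, hl⟩ := exists_grow hT _ (insert c {a, b}) rfl ⟨c, mem_insert_self _ _⟩
      ((con_pair hab).insert hb hbc)
    exact ⟨l, hc, hb, uniq hT.2 (con_pair hab) hc hb hbc, hl⟩

theorem stCount : StCount := by
  intro U _ T a b l D' hab h
  obtain ⟨h1, h2, h3, h4, h5⟩ := count_gen l _ _ h
  have hne : a ≠ b := hab.ne
  rw [card_pair hne] at h2
  refine ⟨h2, h3, ?_⟩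
  intro u hu
  by_cases hu' : u ∈ ({a, b} : Finset U)
  · have h6 := h4 u hu'
    have h7 : (nb T u ∩ {a, b}).card = 1 := by
      rw [mem_insert, mem_singleton] at hu'
      rw [card_eq_one]
      rcases hu' with rfl | rfl
      · refine ⟨b, ?_⟩
        ext z
        simp only [nb, mem_inter, mem_filter, mem_univ, true_and, mem_insert, mem_singleton]
        constructor
        · rintro ⟨h7, rfl | h8⟩
          · exact absurd h7 (T.loopless.irrefl _)
          · exact h8
        · rintro rfl
          exact ⟨hab, Or.inr rfl⟩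
      · refine ⟨a, ?_⟩
        ext z
        simp only [nb, mem_inter, mem_filter, mem_univ, true_and, mem_insert, mem_singleton]
        constructor
        · rintro ⟨h7, h8 | rfl⟩
          · exact h8
          · exact absurd h7 (T.loopless.irrefl _)
        · rintro rfl
          exact ⟨hab.symm, Or.inl rfl⟩
    omega
  · exact h5 u hu hu'

end Pool.Agent.Lib.GHA
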