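import Mathlib
import Pool.Agent.Lib.MP_df0165_co.Ap.Base

set_option autoImplicit false
set_option linter.unusedSectionVars false

/-!
# Approximate Graham-Haggkvist: total hit mass

The hit mass is unrolled along the initial parts of the growth list, and each part is rerooted at
its last step.
-/

namespace Pool.Agent.Lib.GHA

open Finset Classical MeasureTheory intervalIntegral

namespace Hit

variable {U V : Type} [Fintype U] [Fintype V]

/-- The nonempty initial parts of a growth list, with the last new vertex and the set grown. -/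
noncomputable def pre : List (U × U) → Finset U → List (U × Finset U × List (U × U))
  | [], _ => []
  | s :: l, D => (s.1, insert s.1 D, [s]) ::
      (pre l (insert s.1 D)).map (fun x => (x.1, x.2.1, s :: x.2.2))

/-- Terminal functional of a hit at the vertex `w`. -/
noncomputable def Fh (T : SimpleGraph U) (H : SimpleGraph V) (c : ℝ) (B : Finset V) (w : U)
    (D : Finset U) (φ : U → V) (τ : U → ℝ) : ℝ :=
  if φ w ∈ B then FF T H c {w} D φ τ else 0

lemma continuous_Fh (T : SimpleGraph U) (H : SimpleGraph V) (c : ℝ) (B : Finset V) (w : U)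
    (D : Finset U) (φ : U → V) : Continuous (Fh T H c B w D φ) := by
  unfold Fh
  by_cases h : φ w ∈ B
  · simp only [h, if_true]
    exact continuous_FF T H c {w} D φ
  · simp only [h, if_false]
    exact continuous_const

lemma pre_length : ∀ (l : List (U × U)) (D : Finset U), (pre l D).length = l.length := by
  intro l
  induction l with
  | nil => intro D; rfl
  | cons s l ih =>
    intro D
    simp only [pre, List.length_cons, List.length_map, ih]

lemma pre_spec (T : SimpleGraph U) : ∀ (l : List (U × U)) (D D' : Finset U), Grow T D l D' →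
    ∀ x ∈ pre l D, D ⊆ x.2.1 ∧ Grow T D x.2.2 x.2.1 ∧ x.1 ∈ x.2.1 ∧ ∃ p ∈ x.2.1, T.Adj p x.1 := by
  intro l
  induction l with
  | nil =>
    intro D D' _ x hx
    simp [pre] at hx
  | cons s l ih =>
    intro D D' h x hx
    rw [pre, List.mem_cons] at hx
    rcases hx with rfl | hx
    · refine ⟨Finset.subset_insert _ _, ⟨h.1, h.2.1, h.2.2.1, rfl⟩, Finset.mem_insert_self _ _,
        s.2, Finset.mem_insert_of_mem h.2.1, h.adj⟩
    · rw [List.mem_map] at hx
      obtain ⟨y, hy, rfl⟩ := hx
      obtain ⟨h1, h2, h3, h4⟩ := ih _ _ h.2.2.2 y hy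
      exact ⟨(Finset.subset_insert _ _).trans h1, ⟨h.1, h.2.1, h.2.2.1, h2⟩, h3, h4⟩

lemma integral_list {ι : Type} (L : List ι) (f : ι → ℝ → ℝ) (hf : ∀ x ∈ L, Continuous (f x)) :
    (L.map (fun x => ∫ t in (0 : ℝ)..1, f x t)).sum
      = ∫ t in (0 : ℝ)..1, (L.map (fun x => f x t)).sum := by
  have key : (L.map (fun x => ∫ t in (0 : ℝ)..1, f x t)).sum
      = ∫ t in (0 : ℝ)..1, (L.map (fun x => f x t)).sum ∧
      Continuous (fun t => (L.map (fun x => f x t)).sum) := by
    induction L with
    | nil => simp only [List.map_nil, List.sum_nil, intervalIntegral.integral_zero, true_and]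
             exact continuous_const
    | cons x L ih =>
      obtain ⟨h1, h2⟩ := ih (fun y hy => hf y (List.mem_cons_of_mem _ hy))
      have h3 := hf x List.mem_cons_self
      simp only [List.map_cons, List.sum_cons]
      refine ⟨?_, h3.add h2⟩
      rw [h1, intervalIntegral.integral_add (h3.intervalIntegrable _ _)
        (h2.intervalIntegrable _ _)]
  exact key.1

lemma sum_list {ι κ : Type} (L : List ι) (S : Finset κ) (r : κ → ℝ) (g : ι → κ → ℝ) :
    ∑ y ∈ S, r y * (L.map (fun x => g x y)).sum
      = (L.map (fun x => ∑ y ∈ S, r y * g x y)).sum := by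
  induction L with
  | nil => simp
  | cons x L ih =>
    simp only [List.map_cons, List.sum_cons]
    rw [← ih, ← Finset.sum_add_distrib]
    exact Finset.sum_congr rfl (fun y _ => by ring)

lemma unroll (T : SimpleGraph U) (H : SimpleGraph V) (c : ℝ) (B : Finset V) (v0 : V) :
    ∀ (l : List (U × U)) (D D' : Finset U) (ψ : U → V) (τ : U → ℝ), Grow T D l D' →
      Set.InjOn ψ D →
      hit T H c B l D ψ τ =
        ((pre l D).map (fun x => gm H (Fh T H c B x.1 x.2.1) v0 x.2.1 x.2.2 D ψ τ)).sum := by
  intro l
  induction l with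
  | nil =>
    intro D D' ψ τ _ _
    simp [hit, pre]
  | cons s l ih =>
    intro D D' ψ τ h hψ
    obtain ⟨w, p⟩ := s
    obtain ⟨hw, hp, hu, hg⟩ := h
    simp only at hw hp hu hg
    have hfirst : gm H (Fh T H c B w (insert w D)) v0 (insert w D) [(w, p)] D ψ τ
        = ∫ t in (0 : ℝ)..1, ∑ y ∈ (D.image ψ)ᶜ, rr H (ψ p) y *
          (if y ∈ B then FF T H c {w} (insert w D) (Function.update ψ w y) (bump τ p t)
            else 0) := by
      rw [gm_cons H _ (continuous_Fh T H c B w (insert w D)) v0 (insert w D) w p [] D ψ τ hw hp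
        (Finset.mem_insert_self _ _) (Finset.subset_insert _ _)]
      apply intervalIntegral.integral_congr
      intro t _
      simp only
      apply Finset.sum_congr rfl
      intro y hy
      rw [Finset.mem_compl] at hy
      rw [gm_nil H _ v0 (insert w D) _ _ (injOn_update hw hψ hy)]
      congr 1
      unfold Fh
      have h1 : (fun u => if u ∈ insert w D then Function.update ψ w y u else v0) w = y := by
        simp only
        rw [if_pos (Finset.mem_insert_self _ _), Function.update_self]
      rw [h1]
      by_cases hyB : y ∈ B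
      · rw [if_pos hyB, if_pos hyB]
        exact FF_congr T H c {w} (fun u hu => if_pos hu) _
      · rw [if_neg hyB, if_neg hyB]
    have hrest : ((pre l (insert w D)).map (fun x =>
        gm H (Fh T H c B x.1 x.2.1) v0 x.2.1 ((w, p) :: x.2.2) D ψ τ)).sum
        = ∫ t in (0 : ℝ)..1, ∑ y ∈ (D.image ψ)ᶜ, rr H (ψ p) y *
          hit T H c B l (insert w D) (Function.update ψ w y) (bump τ p t) := by
      have h1 : (pre l (insert w D)).map (fun x =>
          gm H (Fh T H c B x.1 x.2.1) v0 x.2.1 ((w, p) :: x.2.2) D ψ τ)
          = (pre l (insert w D)).map (fun x => ∫ t in (0 : ℝ)..1, ∑ y ∈ (D.image ψ)ᶜ,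
            rr H (ψ p) y * gm H (Fh T H c B x.1 x.2.1) v0 x.2.1 x.2.2 (insert w D)
              (Function.update ψ w y) (bump τ p t)) := by
        apply List.map_congr_left
        intro x hx
        obtain ⟨h2, _, _, _⟩ := pre_spec T l _ _ hg x hx
        exact gm_cons H _ (continuous_Fh T H c B x.1 x.2.1) v0 x.2.1 w p x.2.2 D ψ τ hw hp
          (h2 (Finset.mem_insert_self _ _)) ((Finset.subset_insert _ _).trans h2)
      rw [h1, integral_list]
      · apply intervalIntegral.integral_congr
        intro t _
        simp only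
        rw [← sum_list]
        apply Finset.sum_congr rfl
        intro y hy
        rw [Finset.mem_compl] at hy
        rw [ih (insert w D) D' (Function.update ψ w y) (bump τ p t) hg (injOn_update hw hψ hy)]
      · intro x _
        apply continuous_finsetSum
        intro y _
        apply continuous_const.mul
        exact (continuous_gm H _ (continuous_Fh T H c B x.1 x.2.1) v0 x.2.1 x.2.2 _ _).comp
          (continuous_bump τ p)
    simp only [pre, List.map_cons, List.sum_cons, List.map_map]
    have hcomp : ((fun x : U × Finset U × List (U × U) =>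
        gm H (Fh T H c B x.1 x.2.1) v0 x.2.1 x.2.2 D ψ τ) ∘
          fun x : U × Finset U × List (U × U) => (x.1, x.2.1, (w, p) :: x.2.2))
        = fun x => gm H (Fh T H c B x.1 x.2.1) v0 x.2.1 ((w, p) :: x.2.2) D ψ τ := rfl
    rw [hcomp, hfirst, hrest, ← intervalIntegral.integral_add]
    · simp only [hit]
      apply intervalIntegral.integral_congr
      intro t _
      simp only
      rw [← Finset.sum_add_distrib]
      exact Finset.sum_congr rfl (fun y _ => by ring)
    · apply Continuous.intervalIntegrable
      apply continuous_finsetSum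
      intro y _
      apply continuous_const.mul
      by_cases hy : y ∈ B
      · simp only [hy, if_true]
        exact (continuous_FF T H c _ _ _).comp (continuous_bump τ p)
      · simp only [hy, if_false]
        exact continuous_const
    · apply Continuous.intervalIntegrable
      apply continuous_finsetSum
      intro y _
      apply continuous_const.mul
      exact (continuous_hit T H c B l _ _).comp (continuous_bump τ p)

lemma injOn_rt (v0 : V) {a b : U} (hab : a ≠ b) {z y : V} (hzy : z ≠ y) :
    Set.InjOn (rt v0 a b z y) (({a, b} : Finset U) : Set U) := by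
  intro u hu v hv h
  rw [Finset.mem_coe, Finset.mem_insert, Finset.mem_singleton] at hu hv
  unfold rt at h
  rcases hu with rfl | rfl <;> rcases hv with rfl | rfl
  · rfl
  · rw [if_pos rfl, if_neg hab.symm, if_pos rfl] at h
    exact absurd h hzy
  · rw [if_neg hab.symm, if_pos rfl, if_pos rfl] at h
    exact absurd h.symm hzy
  · rfl

/-- The rerooted part: a hit means that the second root vertex lies in `B`. -/
lemma bound (hU : StUpper) (T : SimpleGraph U) (H : SimpleGraph V) {c : ℝ} (hc : 0 < c)
    (B : Finset V) (v0 : V) (d : ℕ) (hd : ∀ v, (nb H v).card ≤ d) {p w : U}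
    (hadj : T.Adj p w) {l' : List (U × U)} {D' : Finset U} (hg : Grow T {p, w} l' D') :
    ∑ z : V, ∑ y : V, rr H z y *
      gm H (Fh T H c B w D') v0 D' l' {p, w} (rt v0 p w z y) (fun _ => 0)
      ≤ (B.card * d : ℝ) := by
  have hpw : p ≠ w := hadj.ne
  have h1 : ∀ z y : V, rr H z y *
      gm H (Fh T H c B w D') v0 D' l' {p, w} (rt v0 p w z y) (fun _ => 0)
      ≤ if y ∈ B then rr H z y else 0 := by
    intro z y
    rcases rr_zero_or_one H z y with h0 | h1
    · rw [h0, zero_mul]
      split_ifs <;> exact le_refl _
    · have hzy : z ≠ y := by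
        rintro rfl
        rw [rr_self] at h1
        exact zero_ne_one h1
      have hval : ∀ φ ∈ Ext v0 D' {p, w} (rt v0 p w z y), φ w = y := by
        intro φ hφ
        rw [mem_Ext] at hφ
        rw [hφ.2.1 w (by simp)]
        unfold rt
        rw [if_neg hpw.symm, if_pos rfl]
      rw [h1, one_mul]
      by_cases hy : y ∈ B
      · rw [if_pos hy]
        have h2 : gm H (Fh T H c B w D') v0 D' l' {p, w} (rt v0 p w z y) (fun _ => 0)
            = gm H (FF T H c {w} D') v0 D' l' {p, w} (rt v0 p w z y) (fun _ => 0) := by
          unfold gm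
          apply Finset.sum_congr rfl
          intro φ hφ
          have h3 : Fh T H c B w D' φ = FF T H c {w} D' φ := by
            funext τ
            unfold Fh
            rw [hval φ hφ, if_pos hy]
          rw [h3]
        rw [h2]
        refine (hU U V T H c v0 {w} D' l' {p, w} (rt v0 p w z y) (fun _ => 0) hc hg
          (injOn_rt v0 hpw hzy) (fun _ => le_refl _) (fun _ _ => rfl) ?_).trans ?_
        · intro s hs h3
          rw [Finset.mem_singleton] at h3
          exact hg.notMem s hs (by rw [h3]; simp)
        · unfold PP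
          apply le_of_eq
          apply Finset.prod_eq_one
          intro x _
          rw [av_root]
          exact max_eq_right zero_le_one
      · rw [if_neg hy]
        apply le_of_eq
        unfold gm
        apply Finset.sum_eq_zero
        intro φ hφ
        rw [LI_eq_zero, mul_zero]
        intro σ _
        unfold Fh
        rw [hval φ hφ, if_neg hy]
  calc ∑ z : V, ∑ y : V, rr H z y *
        gm H (Fh T H c B w D') v0 D' l' {p, w} (rt v0 p w z y) (fun _ => 0)
      ≤ ∑ z : V, ∑ y : V, if y ∈ B then rr H z y else 0 :=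
        Finset.sum_le_sum (fun z _ => Finset.sum_le_sum (fun y _ => h1 z y))
    _ = ∑ y ∈ B, ∑ z : V, rr H z y := by
        rw [Finset.sum_comm]
        have h2 : ∀ y : V, ∑ z : V, (if y ∈ B then rr H z y else 0)
            = if y ∈ B then ∑ z : V, rr H z y else 0 := by
          intro y
          split_ifs
          · rfl
          · simp
        simp_rw [h2]
        rw [Finset.sum_ite_mem, Finset.univ_inter]
    _ ≤ ∑ y ∈ B, (d : ℝ) := by
        apply Finset.sum_le_sum
        intro y _
        have h2 : ∑ z : V, rr H z y = ((nb H y).card : ℝ) := by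
          unfold rr nb
          rw [Finset.sum_ite, Finset.sum_const_zero, add_zero, Finset.sum_const, nsmul_eq_mul,
            mul_one]
          congr 2
          ext z
          simp [H.adj_comm]
        rw [h2]
        exact_mod_cast hd y
    _ = (B.card * d : ℝ) := by
        rw [Finset.sum_const, nsmul_eq_mul]

end Hit

open Hit in
theorem stHit (hU : StUpper) (hR : StReroot) (hRC : StRootChange) : StHit := by
  intro U V _ _ T H c v0 B d a b l D' hc hd hab hg
  have h1 : ∀ z y : V, rr H z y * hit T H c B l {a, b} (rt v0 a b z y) (fun _ => 0)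
      = rr H z y * ((pre l {a, b}).map (fun x => gm H (Fh T H c B x.1 x.2.1) v0 x.2.1 x.2.2 {a, b}
          (rt v0 a b z y) (fun _ => 0))).sum := by
    intro z y
    rcases rr_zero_or_one H z y with h0 | h1
    · rw [h0, zero_mul, zero_mul]
    · have hzy : z ≠ y := by
        rintro rfl
        rw [rr_self] at h1
        exact zero_ne_one h1
      rw [unroll T H c B v0 l {a, b} D' (rt v0 a b z y) (fun _ => 0) hg
        (injOn_rt v0 hab.ne hzy)]
  have h2 : ∑ z : V, ∑ y : V, rr H z y * hit T H c B l {a, b} (rt v0 a b z y) (fun _ => 0)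
      = ((pre l {a, b}).map (fun x => ∑ z : V, ∑ y : V, rr H z y *
          gm H (Fh T H c B x.1 x.2.1) v0 x.2.1 x.2.2 {a, b}
            (rt v0 a b z y) (fun _ => 0))).sum := by
    simp_rw [h1]
    have h3 : ∀ z : V, ∑ y : V, rr H z y * ((pre l {a, b}).map (fun x =>
        gm H (Fh T H c B x.1 x.2.1) v0 x.2.1 x.2.2 {a, b}
          (rt v0 a b z y) (fun _ => 0))).sum
        = (1 : ℝ) * ((pre l {a, b}).map (fun x => ∑ y : V, rr H z y *
          gm H (Fh T H c B x.1 x.2.1) v0 x.2.1 x.2.2 {a, b}
            (rt v0 a b z y) (fun _ => 0))).sum := by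
      intro z
      rw [one_mul, ← sum_list]
    simp_rw [h3]
    rw [sum_list]
    simp only [one_mul]
  rw [h2]
  have h4 := List.sum_le_card_nsmul ((pre l {a, b}).map (fun x => ∑ z : V, ∑ y : V, rr H z y *
          gm H (Fh T H c B x.1 x.2.1) v0 x.2.1 x.2.2 {a, b}
            (rt v0 a b z y) (fun _ => 0))) (B.card * d : ℝ) (by
    intro r hr
    rw [List.mem_map] at hr
    obtain ⟨x, hx, rfl⟩ := hr
    obtain ⟨_, hgx, hmem, p, hp, hadj⟩ := pre_spec T l _ _ hg x hx
    obtain ⟨l', hl'⟩ := hR U T a b x.2.2 x.2.1 p x.1 hab hgx hadj hp hmem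
    rw [hRC U V T H (Fh T H c B x.1 x.2.1) v0 x.2.1 a b x.2.2 p x.1 l'
      (continuous_Fh T H c B x.1 x.2.1) hab hgx hadj hl']
    exact bound hU T H hc B v0 d hd hadj hl')
  rw [List.length_map, pre_length, nsmul_eq_mul] at h4
  exact h4

end Pool.Agent.Lib.GHA
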