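import Mathlib
import Pool.Agent.Lib.MP_df0165_co.Ap.Base

set_option autoImplicit false
set_option linter.unusedSectionVars false

/-!
# Approximate Graham-Haggkvist: the initial value of the potential
-/

namespace Pool.Agent.Lib.GHA

open Finset Classical

namespace Init

variable {U V : Type} [Fintype U] [Fintype V]

lemma rem_eq_count (l : List (U × U)) (u : U) : rem l u = (l.map Prod.snd).count u := by
  unfold rem
  rw [List.count, List.countP_map]
  apply List.countP_congr
  intro s _
  simp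

lemma rt_left (v0 : V) (a b : U) (z y : V) : rt v0 a b z y a = z := by simp [rt]

lemma rt_right (v0 : V) {a b : U} (h : a ≠ b) (z y : V) : rt v0 a b z y b = y := by
  simp [rt, Ne.symm h]

lemma image_rt (v0 : V) {a b : U} (h : a ≠ b) (z y : V) :
    ({a, b} : Finset U).image (rt v0 a b z y) = {z, y} := by
  rw [Finset.image_insert, Finset.image_singleton, rt_left, rt_right v0 h]

lemma e1_small {P : Par} (h : P.Ok) : Real.exp (2 * P.e1) ≤ 2 := by
  have h1 : P.e1 ≤ 1 / 8 := by
    unfold Par.e1
    have hc := h.c_pos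
    have hc2 := h.c_le
    have hδ : P.δ ≤ 1 := by
      have h2 := h.small
      have h3 := h.α_nonneg
      have h4 := h.d1_le
      have h5 := h.γ_le
      have h6 := h.γ_pos
      have h7 := h.d1_pos
      have h8 : P.γ ^ 2 ≤ 1 := by nlinarith
      have h9 : P.d1 * P.γ ^ 2 ≤ 1 := by nlinarith [sq_nonneg P.γ]
      linarith
    have hc3 : P.c ^ 3 ≤ 1 / 2 := by
      have : P.c ^ 3 ≤ (1 / 8) ^ 3 := pow_le_pow_left₀ hc.le hc2 3
      linarith [this, show ((1 : ℝ) / 8) ^ 3 ≤ 1 / 2 by norm_num]
    have hδ0 := h.δ_pos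
    have hc0 : 0 ≤ P.c ^ 3 := by positivity
    nlinarith
  have h2 : Real.exp (2 * P.e1) ≤ Real.exp (1 / 4) := Real.exp_le_exp.2 (by linarith)
  have h3 : Real.exp (1 / 4) ≤ 2 := by
    have h4 : Real.exp (1 / 4) ≤ Real.exp (Real.log 2) := by
      apply Real.exp_le_exp.2
      have := Real.log_two_gt_d9
      linarith
    rwa [Real.exp_log (by norm_num)] at h4
  linarith

/-- the exponential terms at the initial state -/
lemma At_eq (H : SimpleGraph V) (s e1 ka : ℝ) (A : Finset V) (v0 : V) {a b : U} (h : a ≠ b)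
    (z y : V) : At H s e1 ka A {a, b} (rt v0 a b z y) (fun _ => 0) =
      Real.exp (-(s * e1 + ka) * ((A ∩ {z, y}).card : ℝ)) := by
  unfold At
  have h1 : ∑ x ∈ A, hv H {a, b} (rt v0 a b z y) (fun _ => 0) x = -((A ∩ {z, y}).card : ℝ) := by
    unfold hv
    simp only [image_rt v0 h, av_root]
    rw [Finset.sum_ite, Finset.sum_const, Finset.sum_const, Finset.filter_mem_eq_inter]
    simp
  have h2 : ∑ x ∈ A, eb H {a, b} (rt v0 a b z y) (fun _ => 0) x = ((A ∩ {z, y}).card : ℝ) := by
    unfold eb
    simp only [image_rt v0 h, av_root]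
    rw [Finset.sum_ite, Finset.sum_const, Finset.sum_const, Finset.filter_mem_eq_inter]
    simp
  rw [h1, h2]
  congr 1
  ring

lemma At_neg_le {P : Par} (hP : P.Ok) (H : SimpleGraph V) (A : Finset V) (v0 : V) {a b : U}
    (h : a ≠ b) (z y : V) : At H (-1) P.e1 P.ka A {a, b} (rt v0 a b z y) (fun _ => 0) - 1 ≤
      if (A ∩ {z, y}).Nonempty then 1 else 0 := by
  rw [At_eq H _ _ _ A v0 h]
  split_ifs with hne
  · have h1 : ((A ∩ {z, y}).card : ℝ) ≤ 2 := by
      have : (A ∩ {z, y}).card ≤ 2 :=
        (Finset.card_le_card Finset.inter_subset_right).trans Finset.card_le_two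
      exact_mod_cast this
    have h2 : (0 : ℝ) ≤ ((A ∩ {z, y}).card : ℝ) := Nat.cast_nonneg _
    have h3 := hP.e1_pos
    have h4 := hP.ka_pos
    have h5 : -(-1 * P.e1 + P.ka) * ((A ∩ {z, y}).card : ℝ) ≤ 2 * P.e1 := by nlinarith
    have h6 := Real.exp_le_exp.2 h5
    have h7 := e1_small hP
    linarith
  · rw [Finset.not_nonempty_iff_eq_empty] at hne
    rw [hne]
    simp

lemma At_pos_le {P : Par} (hP : P.Ok) (H : SimpleGraph V) (A : Finset V) (v0 : V) {a b : U}
    (h : a ≠ b) (z y : V) : At H 1 P.e1 P.ka A {a, b} (rt v0 a b z y) (fun _ => 0) - 1 ≤ 0 := by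
  rw [At_eq H _ _ _ A v0 h]
  have h2 : (0 : ℝ) ≤ ((A ∩ {z, y}).card : ℝ) := Nat.cast_nonneg _
  have h3 := hP.e1_pos
  have h4 := hP.ka_pos
  have h5 : -(1 * P.e1 + P.ka) * ((A ∩ {z, y}).card : ℝ) ≤ 0 := by nlinarith
  have h6 : Real.exp (-(1 * P.e1 + P.ka) * ((A ∩ {z, y}).card : ℝ)) ≤ 1 :=
    Real.exp_le_one_iff.2 h5
  linarith

lemma AP_le {P : Par} (hP : P.Ok) {H : SimpleGraph V} {B : Finset V} (hG : Good P H B) (v0 : V)
    {a b : U} (h : a ≠ b) (z y : V) :
    AP H B P.e1 P.ka P.K1 {a, b} (rt v0 a b z y) (fun _ => 0) ≤ 2 * P.K1 := by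
  unfold AP
  have h1 : ∑ v ∈ Bᶜ, (At H (-1) P.e1 P.ka (nb H v \ B) {a, b} (rt v0 a b z y) (fun _ => 0) - 1)
      ≤ 2 * P.d := by
    refine (Finset.sum_le_sum fun v _ => At_neg_le hP H (nb H v \ B) v0 h z y).trans ?_
    rw [← Finset.sum_filter, Finset.sum_const, nsmul_eq_mul, mul_one]
    have h2 : (Bᶜ.filter fun v => ((nb H v \ B) ∩ {z, y}).Nonempty) ⊆ nb H z ∪ nb H y := by
      intro v hv
      rw [Finset.mem_filter] at hv
      obtain ⟨x, hx⟩ := hv.2
      rw [Finset.mem_inter, Finset.mem_sdiff, Finset.mem_insert, Finset.mem_singleton] at hx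
      obtain ⟨⟨hx1, _⟩, hx2⟩ := hx
      rw [mem_nb] at hx1
      rw [Finset.mem_union, mem_nb, mem_nb]
      rcases hx2 with rfl | rfl
      · exact Or.inl hx1.symm
      · exact Or.inr hx1.symm
    have h3 := (Finset.card_le_card h2).trans (Finset.card_union_le _ _)
    have h4 := hG.deg_le z
    have h5 := hG.deg_le y
    have h6 : (Bᶜ.filter fun v => ((nb H v \ B) ∩ {z, y}).Nonempty).card ≤ 2 * P.d := by omega
    exact_mod_cast h6
  have h2 : ∑ v ∈ Bᶜ, ∑ x ∈ Bᶜ.erase v, (At H 1 P.e1 P.ka ((nb H v ∩ nb H x) \ B) {a, b}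
      (rt v0 a b z y) (fun _ => 0) - 1) ≤ 0 :=
    Finset.sum_nonpos fun v _ => Finset.sum_nonpos fun x _ => At_pos_le hP H _ v0 h z y
  have h3 : (2 * P.d : ℝ) ≤ P.K1 := by
    unfold Par.K1
    have hd : (1 : ℝ) ≤ P.d := by exact_mod_cast hP.d_pos
    have hm : (0 : ℝ) ≤ P.m := Nat.cast_nonneg _
    have e1 : (1 : ℝ) ≤ (P.m + 1) := by linarith
    have e2 : (2 : ℝ) ≤ (P.m + 1) * (P.d + 1) := by nlinarith
    have e3 : (P.d : ℝ) ≤ P.d + P.d ^ 2 := by nlinarith
    nlinarith
  linarith

lemma Qx_zero (T : SimpleGraph U) (H : SimpleGraph V) (D : Finset U) (ψ : U → V) (x : V) :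
    Qx T H D ψ (fun _ => 0) x = 0 := by
  unfold Qx
  exact Finset.sum_eq_zero fun u _ => by ring

lemma pend_le (T : SimpleGraph U) (H : SimpleGraph V) (l : List (U × U)) (a b : U)
    (ψ : U → V) (x : V) : pend T H l {a, b} ψ x ≤ rem l a + rem l b := by
  unfold pend rem
  induction l with
  | nil => simp
  | cons s l ih =>
    rw [List.countP_cons, List.countP_cons, List.countP_cons]
    have h1 : (if decide (s.2 ∈ ({a, b} : Finset U) ∧ okk T {a, b} ψ s.2 x ∧ H.Adj (ψ s.2) x) = true
        then 1 else 0) ≤ (if decide (s.2 = a) = true then 1 else 0) +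
          (if decide (s.2 = b) = true then 1 else 0 : ℕ) := by
      by_cases h : s.2 ∈ ({a, b} : Finset U) ∧ okk T {a, b} ψ s.2 x ∧ H.Adj (ψ s.2) x
      · have h2 := h.1
        rw [Finset.mem_insert, Finset.mem_singleton] at h2
        rcases h2 with h2 | h2
        · have e1 : decide (s.2 = a) = true := by simpa using h2
          rw [if_pos e1]
          split_ifs <;> omega
        · have e1 : decide (s.2 = b) = true := by simpa using h2
          rw [if_pos e1]
          split_ifs <;> omega
      · have e1 : ¬ (decide (s.2 ∈ ({a, b} : Finset U) ∧ okk T {a, b} ψ s.2 x ∧ H.Adj (ψ s.2) x)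
            = true) := by simpa using h
        rw [if_neg e1]
        omega
    omega

end Init

theorem stInit (hC : StCount) : StInit := by
  intro U V _ _ P T H B v0 a b l z y hP hG hab hgrow hcard hdeg hzy hzB hyB
  obtain ⟨hlen, -, hcnt⟩ := hC U T a b l univ hab hgrow
  have hne : a ≠ b := hab.ne
  have hzy' : z ≠ y := hzy.ne
  have hl := Init.rt_left v0 a b z y
  have hr := Init.rt_right v0 hne z y
  have hrem : ∀ u, rem l u + 1 ≤ P.Δ := by
    intro u
    rw [Init.rem_eq_count, hcnt u (Finset.mem_univ u), Finset.inter_univ]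
    exact hdeg u
  have hlen' : l.length + 2 = P.m + 1 := by
    rw [hlen, Finset.card_univ, hcard]
  refine ⟨⟨hgrow, ?_, ?_, ?_, ?_, ?_, ?_, ?_, ?_⟩, ?_⟩
  · rw [Finset.card_pair hne]
    omega
  · intro u hu
    rw [Finset.mem_insert, Finset.mem_singleton] at hu
    rcases hu with rfl | rfl
    · exact ⟨b, by simp, hab⟩
    · exact ⟨a, by simp, hab.symm⟩
  · intro u hu v hv huv
    rw [Finset.mem_coe, Finset.mem_insert, Finset.mem_singleton] at hu hv
    rcases hu with rfl | rfl
    · rcases hv with rfl | rfl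
      · rfl
      · rw [hl, hr] at huv
        exact absurd huv hzy'
    · rcases hv with rfl | rfl
      · rw [hl, hr] at huv
        exact absurd huv.symm hzy'
      · rfl
  · intro u hu v hv huv
    rw [Finset.mem_insert, Finset.mem_singleton] at hu hv
    rcases hu with rfl | rfl
    · rcases hv with rfl | rfl
      · exact absurd rfl huv.ne
      · rw [hl, hr]
        exact hzy
    · rcases hv with rfl | rfl
      · rw [hl, hr]
        exact hzy.symm
      · exact absurd rfl huv.ne
  · intro u hu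
    rw [Finset.mem_insert, Finset.mem_singleton] at hu
    rcases hu with rfl | rfl
    · rw [hl]
      exact hzB
    · rw [hr]
      exact hyB
  · intro u
    have := hrem u
    omega
  · intro u
    exact le_refl _
  · intro u _
    rfl
  · have hAP := Init.AP_le hP hG v0 hne z y
    have hρ := hP.ρ_pos
    have hρ' := hP.ρ'_pos
    have he2 := hP.e2_nonneg
    have hΔ : ∀ u, (rem l u : ℝ) ≤ P.Δ := fun u => by
      have := hrem u
      exact_mod_cast (by omega : rem l u ≤ P.Δ)
    have hlenR : (l.length : ℝ) ≤ P.m := by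
      exact_mod_cast (by omega : l.length ≤ P.m)
    have hI3 : 0 < P.I3 := Real.exp_pos _
    have hI4 : 0 < P.I4 := Real.exp_pos _
    have hd0 : (0 : ℝ) ≤ P.d := Nat.cast_nonneg _
    -- the exposure terms
    have hG3 : G3 P T H B l {a, b} (rt v0 a b z y) (fun _ => 0) ≤
        P.I3 * (2 * P.d + 2 + P.d * P.m) := by
      unfold G3
      have h1 : ∀ x ∈ Bᶜ, P3 T H P.e2 P.ρ P.ρ' l {a, b} (rt v0 a b z y) (fun _ => 0) x ≤
          if act H {a, b} (rt v0 a b z y) x then P.I3 else 0 := by
        intro x _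
        unfold P3
        split_ifs with hact
        · unfold Par.I3
          apply Real.exp_le_exp.2
          rw [Init.Qx_zero]
          have h2 : (pend T H l {a, b} (rt v0 a b z y) x : ℝ) ≤ 2 * P.Δ := by
            have h3 := Init.pend_le T H l a b (rt v0 a b z y) x
            have h4 := hrem a
            have h5 := hrem b
            exact_mod_cast (by omega : pend T H l {a, b} (rt v0 a b z y) x ≤ 2 * P.Δ)
          have h3 : (rest l {a, b} : ℝ) ≤ P.m := by
            have h4 : rest l {a, b} ≤ l.length := List.countP_le_length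
            have h5 : (rest l {a, b} : ℝ) ≤ l.length := by exact_mod_cast h4
            linarith
          apply mul_le_mul_of_nonneg_left _ he2
          nlinarith
        · exact le_refl _
      have h2 : ((Bᶜ.filter fun x => act H {a, b} (rt v0 a b z y) x).card : ℝ) ≤ 2 * P.d + 2 := by
        have h3 : (Bᶜ.filter fun x => act H {a, b} (rt v0 a b z y) x) ⊆
            {z, y} ∪ (nb H z ∪ nb H y) := by
          intro x hx
          rw [Finset.mem_filter] at hx
          have hx2 := hx.2
          unfold act at hx2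
          rw [Init.image_rt v0 hne] at hx2
          rw [Finset.mem_union, Finset.mem_union, mem_nb, mem_nb]
          rcases hx2 with hx2 | ⟨u, hu, hx2⟩
          · exact Or.inl hx2
          · rw [Finset.mem_insert, Finset.mem_singleton] at hu
            rcases hu with rfl | rfl
            · rw [hl] at hx2
              exact Or.inr (Or.inl hx2)
            · rw [hr] at hx2
              exact Or.inr (Or.inr hx2)
        have h4 := Finset.card_le_card h3
        have h5 := Finset.card_union_le ({z, y} : Finset V) (nb H z ∪ nb H y)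
        have h6 := Finset.card_union_le (nb H z) (nb H y)
        have h7 : ({z, y} : Finset V).card ≤ 2 := Finset.card_le_two
        have h8 := hG.deg_le z
        have h9 := hG.deg_le y
        exact_mod_cast (by omega :
          (Bᶜ.filter fun x => act H {a, b} (rt v0 a b z y) x).card ≤ 2 * P.d + 2)
      have h3 := Finset.sum_le_sum h1
      rw [← Finset.sum_filter, Finset.sum_const, nsmul_eq_mul] at h3
      have h4 : ((Bᶜ.filter fun x => act H {a, b} (rt v0 a b z y) x).card : ℝ) * P.I3 ≤
          (2 * P.d + 2) * P.I3 := mul_le_mul_of_nonneg_right h2 hI3.le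
      have h5 : P.d * P.I3 * (l.length : ℝ) ≤ P.d * P.I3 * P.m :=
        mul_le_mul_of_nonneg_left hlenR (mul_nonneg hd0 hI3.le)
      linarith
    -- the broadcast time terms
    have hG4 : G4 P l {a, b} (fun _ => 0) ≤ P.I4 * (P.m + 2) := by
      unfold G4
      have h1 : ∀ u, P4 P.e2 P.ρ l (fun _ => 0) u ≤ P.I4 := by
        intro u
        unfold P4 Par.I4
        apply Real.exp_le_exp.2
        have h2 := hΔ u
        have h3 : 0 ≤ P.e2 * P.ρ := mul_nonneg he2 hρ.le
        have h4 : P.e2 * P.ρ * (rem l u : ℝ) ≤ P.e2 * P.ρ * P.Δ :=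
          mul_le_mul_of_nonneg_left h2 h3
        have h5 : 0 ≤ P.e2 * P.ρ * (P.Δ : ℝ) := mul_nonneg h3 (Nat.cast_nonneg _)
        nlinarith
      rw [Finset.sum_pair hne]
      have h2 := h1 a
      have h3 := h1 b
      have h4 : P.I4 * (l.length : ℝ) ≤ P.I4 * P.m := mul_le_mul_of_nonneg_left hlenR hI4.le
      linarith
    unfold PHI Par.phi0
    have w1 : 0 ≤ P.w1 := (Real.exp_pos _).le
    have w3 : 0 ≤ P.w3 := (Real.exp_pos _).le
    have w4 : 0 ≤ P.w4 := (Real.exp_pos _).le
    have q1 := mul_le_mul_of_nonneg_left hAP w1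
    have q3 := mul_le_mul_of_nonneg_left hG3 w3
    have q4 := mul_le_mul_of_nonneg_left hG4 w4
    linarith

end Pool.Agent.Lib.GHA
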