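import Mathlib
import Pool.Agent.Lib.MP_df0165_co.Ap.Base

set_option autoImplicit false
set_option linter.unusedSectionVars false

/-!
# Approximate Graham-Haggkvist: lower bound for mass plus hits (module Low)
-/

namespace Pool.Agent.Lib.GHA

open Finset Classical MeasureTheory intervalIntegral

namespace Low

variable {U V : Type} [Fintype U] [Fintype V]

/-- In a good state the exposure of a captured vertex by strangers is small. -/
lemma exn_le {P : Par} {T : SimpleGraph U} {H : SimpleGraph V} {B : Finset V} {D : Finset U}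
    {ψ : U → V} {τ : U → ℝ} (hinj : Set.InjOn ψ D) (hdisj : ∀ u ∈ D, ψ u ∉ B)
    (hGS : GS P T H B D ψ τ) {w : U} (hw : w ∈ D) : Exn T H D ψ τ w ≤ 1 - 2 * P.c := by
  have h1 : Exn T H D ψ τ w = Qx T H D ψ τ (ψ w) := by
    unfold Exn Qx
    apply Finset.sum_congr _ (fun _ _ => rfl)
    apply Finset.filter_congr
    intro u _
    constructor
    · intro h v hv hvw
      rw [hinj (Finset.mem_coe.2 hv) (Finset.mem_coe.2 hw) hvw]
      exact h
    · intro h
      exact h w hw rfl
  rw [h1]
  exact hGS.q_le _ (hdisj w hw)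

lemma phi_eq (P : Par) (T : SimpleGraph U) (H : SimpleGraph V) (B : Finset V)
    (l : List (U × U)) (D : Finset U) (ψ : U → V) (τ : U → ℝ) :
    PHI P T H B l D ψ τ =
      P.w1 * AP H B P.e1 P.ka P.K1 D ψ τ + P.w3 * G3 P T H B l D ψ τ + P.w4 * G4 P l D τ := rfl

lemma w1_pos (P : Par) : 0 < P.w1 := Real.exp_pos _
lemma w3_pos (P : Par) : 0 < P.w3 := Real.exp_pos _
lemma w4_pos (P : Par) : 0 < P.w4 := Real.exp_pos _

/-- the survival product when all residual thresholds are nonnegative -/
lemma PP_eq {H : SimpleGraph V} {D : Finset U} {ψ : U → V} {τ : U → ℝ}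
    (h : ∀ y, y ∉ D.image ψ → 0 ≤ av H D ψ τ y) :
    PP H D ψ τ = ∏ x ∈ (D.image ψ)ᶜ, av H D ψ τ x := by
  unfold PP
  refine Finset.prod_congr rfl (fun x hx => ?_)
  rw [Finset.mem_compl] at hx
  exact max_eq_right (h x hx)

/-- the case of the empty list -/
lemma nil_case (hGS : StGS) (P : Par) (T : SimpleGraph U) (H : SimpleGraph V)
    (B : Finset V) (v0 : V) (D : Finset U) (ψ : U → V) (τ : U → ℝ)
    (hP : P.Ok) (hG : Good P H B) (hI : Inv P T H B [] D ψ τ) :
    PP H D ψ τ * (1 - PHI P T H B [] D ψ τ)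
      ≤ gm H (FF T H P.c ∅ univ) v0 univ [] D ψ τ + hit T H P.c B [] D ψ τ := by
  have hD : D = univ := hI.grow
  subst hD
  rw [gm_nil H _ v0 univ ψ τ hI.inj]
  have h1 : (fun u => if u ∈ (univ : Finset U) then ψ u else v0) = ψ := by
    funext u; simp
  rw [h1]
  simp only [hit, add_zero]
  obtain ⟨⟨a1, a2, a3⟩, hgs⟩ := hGS U V P T H B [] univ ψ τ hP hG hI
  have hpp := PP_nonneg H univ ψ τ
  by_cases hphi : PHI P T H B [] univ ψ τ < 1
  · have hg := hgs hphi
    have hcc : CC T H P.c ∅ univ ψ τ = 1 := by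
      unfold CC
      refine Finset.prod_eq_one (fun w _ => Finset.prod_eq_one (fun p hp => ?_))
      apply cut_eq_one hP.c_pos
      have e1 := exn_le hI.inj hI.disj hg (Finset.mem_univ w)
      have e2 := hg.tau_le p (Finset.mem_univ p)
      linarith
    have hphi0 : 0 ≤ PHI P T H B [] univ ψ τ := by
      rw [phi_eq]
      have := w1_pos P
      have := w3_pos P
      have := w4_pos P
      positivity
    unfold FF
    rw [hcc]
    nlinarith
  · have h2 := FF_nonneg T H P.c ∅ univ ψ τ
    have h3 : 1 - PHI P T H B [] univ ψ τ ≤ 0 := by linarith [not_lt.1 hphi]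
    exact (mul_nonpos_of_nonneg_of_nonpos hpp h3).trans h2

/-- the integrand of the recursion -/
noncomputable def SS (T : SimpleGraph U) (H : SimpleGraph V) (c : ℝ) (B : Finset V) (v0 : V)
    (w p : U) (l : List (U × U)) (D : Finset U) (ψ : U → V) (τ : U → ℝ) (t : ℝ) : ℝ :=
  ∑ y ∈ (D.image ψ)ᶜ, rr H (ψ p) y *
      gm H (FF T H c ∅ univ) v0 univ l (insert w D) (Function.update ψ w y) (bump τ p t)
    + ∑ y ∈ (D.image ψ)ᶜ, rr H (ψ p) y *
      ((if y ∈ B then FF T H c {w} (insert w D) (Function.update ψ w y) (bump τ p t) else 0)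
        + hit T H c B l (insert w D) (Function.update ψ w y) (bump τ p t))

lemma cont1 (T : SimpleGraph U) (H : SimpleGraph V) (c : ℝ) (v0 : V)
    (w p : U) (l : List (U × U)) (D : Finset U) (ψ : U → V) (τ : U → ℝ) :
    Continuous (fun t : ℝ => ∑ y ∈ (D.image ψ)ᶜ, rr H (ψ p) y *
      gm H (FF T H c ∅ univ) v0 univ l (insert w D) (Function.update ψ w y) (bump τ p t)) := by
  apply continuous_finsetSum
  intro y _
  exact continuous_const.mul ((continuous_gm H _ (fun φ => continuous_FF T H c ∅ univ φ) v0 univ l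
    (insert w D) (Function.update ψ w y)).comp (continuous_bump τ p))

lemma cont2 (T : SimpleGraph U) (H : SimpleGraph V) (c : ℝ) (B : Finset V)
    (w p : U) (l : List (U × U)) (D : Finset U) (ψ : U → V) (τ : U → ℝ) :
    Continuous (fun t : ℝ => ∑ y ∈ (D.image ψ)ᶜ, rr H (ψ p) y *
      ((if y ∈ B then FF T H c {w} (insert w D) (Function.update ψ w y) (bump τ p t) else 0)
        + hit T H c B l (insert w D) (Function.update ψ w y) (bump τ p t))) := by
  apply continuous_finsetSum
  intro y _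
  apply continuous_const.mul
  apply Continuous.add
  · by_cases hy : y ∈ B
    · simp only [hy, if_true]
      exact (continuous_FF T H c _ _ _).comp (continuous_bump τ p)
    · simp only [hy, if_false]
      exact continuous_const
  · exact (continuous_hit T H c B _ _ _).comp (continuous_bump τ p)

lemma SS_cont (T : SimpleGraph U) (H : SimpleGraph V) (c : ℝ) (B : Finset V) (v0 : V)
    (w p : U) (l : List (U × U)) (D : Finset U) (ψ : U → V) (τ : U → ℝ) :
    Continuous (SS T H c B v0 w p l D ψ τ) :=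
  (cont1 T H c v0 w p l D ψ τ).add (cont2 T H c B w p l D ψ τ)

lemma SS_nonneg (T : SimpleGraph U) (H : SimpleGraph V) (c : ℝ) (B : Finset V) (v0 : V)
    (w p : U) (l : List (U × U)) (D : Finset U) (ψ : U → V) (τ : U → ℝ) (t : ℝ) :
    0 ≤ SS T H c B v0 w p l D ψ τ t := by
  unfold SS
  apply add_nonneg
  · exact Finset.sum_nonneg fun y _ => mul_nonneg (rr_nonneg _ _ _)
      (gm_nonneg H _ (fun φ σ => FF_nonneg T H c ∅ univ φ σ) _ _ _ _ _ _)
  · refine Finset.sum_nonneg fun y _ => mul_nonneg (rr_nonneg _ _ _) (add_nonneg ?_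
      (hit_nonneg _ _ _ _ _ _ _ _))
    split_ifs
    · exact FF_nonneg _ _ _ _ _ _ _
    · exact le_rfl

/-- the right hand side is the integral of the integrand -/
lemma rhs_eq (T : SimpleGraph U) (H : SimpleGraph V) (c : ℝ) (B : Finset V) (v0 : V)
    (w p : U) (l : List (U × U)) (D : Finset U) (ψ : U → V) (τ : U → ℝ) (hw : w ∉ D)
    (hp : p ∈ D) :
    gm H (FF T H c ∅ univ) v0 univ ((w, p) :: l) D ψ τ + hit T H c B ((w, p) :: l) D ψ τ
      = ∫ t in (0 : ℝ)..1, SS T H c B v0 w p l D ψ τ t := by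
  rw [gm_cons H _ (fun φ => continuous_FF T H c ∅ univ φ) v0 univ w p l D ψ τ hw hp
    (Finset.mem_univ _) (Finset.subset_univ _)]
  simp only [hit]
  unfold SS
  rw [intervalIntegral.integral_add]
  · exact (cont1 T H c v0 w p l D ψ τ).intervalIntegrable _ _
  · exact (cont2 T H c B w p l D ψ τ).intervalIntegrable _ _

lemma sum_out (H : SimpleGraph V) (v : V) (I B : Finset V) (a F : V → ℝ) :
    ∑ y ∈ Iᶜ \ B, rr H v y / a y * F y = ∑ y ∈ (nb H v \ B) \ I, 1 / a y * F y := by
  have h : (nb H v \ B) \ I = (Iᶜ \ B).filter (fun y => H.Adj v y) := by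
    ext y
    simp only [Finset.mem_sdiff, Finset.mem_filter, Finset.mem_compl, mem_nb]
    tauto
  rw [h, Finset.sum_filter]
  refine Finset.sum_congr rfl (fun y _ => ?_)
  by_cases hy : H.Adj v y
  · rw [rr_of_adj hy, if_pos hy]
  · rw [rr_of_not_adj hy, if_neg hy]; simp

lemma sum_in (H : SimpleGraph V) (v : V) (I B : Finset V) (a : V → ℝ) (hI : ∀ y ∈ I, y ∉ B)
    (ha : ∀ y, y ∉ I → 0 < a y) (ha1 : ∀ y, y ∉ I → a y ≤ 1) {f g : ℝ} (hfg : g ≤ f)
    (hg : 0 ≤ g) :
    ((nb H v ∩ B).card : ℝ) * g ≤ ∑ y ∈ Iᶜ ∩ B, rr H v y / a y * f := by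
  have h : nb H v ∩ B = (Iᶜ ∩ B).filter (fun y => H.Adj v y) := by
    ext y
    simp only [Finset.mem_inter, Finset.mem_filter, Finset.mem_compl, mem_nb]
    constructor
    · rintro ⟨h1, h2⟩
      exact ⟨⟨fun h3 => hI y h3 h2, h2⟩, h1⟩
    · rintro ⟨⟨-, h2⟩, h1⟩
      exact ⟨h1, h2⟩
  rw [h, ← nsmul_eq_mul, ← Finset.sum_const, Finset.sum_filter]
  refine Finset.sum_le_sum (fun y hy => ?_)
  rw [Finset.mem_inter, Finset.mem_compl] at hy
  have a0 := ha y hy.1
  have a1 := ha1 y hy.1
  by_cases hy2 : H.Adj v y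
  · rw [if_pos hy2, rr_of_adj hy2]
    have : 1 ≤ 1 / a y := by rw [le_div_iff₀ a0]; linarith
    have hf : 0 ≤ f := hg.trans hfg
    nlinarith
  · rw [if_neg hy2, rr_of_not_adj hy2]; simp

lemma deriv_shift {F : ℝ → ℝ} {t g' : ℝ} (h : HasDerivAt (fun s => F (t + s)) g' 0) :
    HasDerivAt F g' t := by
  have h1 : HasDerivAt (fun s => F (t + s)) g' (-t + t) := by simpa using h
  have h2 := h1.comp_const_add (-t) t
  simpa using h2

/-- the generator inequality at time `t` -/
lemma gen_ineq (hGS : StGS) (hA : StGenA) (h3 : StGen3) (h4 : StGen4)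
    (P : Par) (T : SimpleGraph U) (H : SimpleGraph V) (B : Finset V) (w p : U)
    (l : List (U × U)) (D : Finset U) (ψ : U → V) (τ : U → ℝ)
    (hP : P.Ok) (hG : Good P H B) (hI : Inv P T H B ((w, p) :: l) D ψ τ) {t : ℝ} (ht : 0 ≤ t)
    (hpos : ∀ y, y ∉ D.image ψ → 0 < av H D ψ τ y - t * rr H (ψ p) y)
    (hlt : PHI P T H B ((w, p) :: l) D ψ (bump τ p t) < 1) :
    ∃ f' : ℝ, HasDerivAt (fun s => PHI P T H B ((w, p) :: l) D ψ (bump τ p s)) f' t ∧
      f' + ∑ y ∈ (D.image ψ)ᶜ \ B, rr H (ψ p) y / (av H D ψ τ y - t * rr H (ψ p) y) *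
          (PHI P T H B l (insert w D) (Function.update ψ w y) (bump τ p t)
            - PHI P T H B ((w, p) :: l) D ψ (bump τ p t))
        - ∑ y ∈ (D.image ψ)ᶜ ∩ B, rr H (ψ p) y / (av H D ψ τ y - t * rr H (ψ p) y) *
            PHI P T H B ((w, p) :: l) D ψ (bump τ p t) ≤ 0 := by
  have hp : p ∈ D := hI.grow.2.1
  have hI' := hI.bump ht
  obtain ⟨⟨a1, a2, a3⟩, hgs⟩ := hGS U V P T H B ((w, p) :: l) D ψ (bump τ p t) hP hG hI'
  have hg := hgs hlt
  have hc := hP.c_pos
  obtain ⟨A', dA, iA⟩ := hA U V P T H B w p l D ψ (bump τ p t) hP hG hI'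
    (fun y h1 h2 => by have := hg.av_ge y h1 h2; linarith)
  obtain ⟨B', dB, iB⟩ := h3 U V P T H B w p l D ψ (bump τ p t) hP hG hI' hg
  obtain ⟨C', dC, iC⟩ := h4 U V P T H B w p l D ψ (bump τ p t) hP hG hI' hg
  simp only [bump_bump] at dA dB dC
  have dA' := deriv_shift (F := fun s => AP H B P.e1 P.ka P.K1 D ψ (bump τ p s)) dA
  have dB' := deriv_shift (F := fun s => G3 P T H B ((w, p) :: l) D ψ (bump τ p s)) dB
  have dC' := deriv_shift (F := fun s => G4 P ((w, p) :: l) D (bump τ p s)) dC
  have q1 := w1_pos P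
  have q3 := w3_pos P
  have q4 := w4_pos P
  refine ⟨P.w1 * A' + P.w3 * B' + P.w4 * C', ?_, ?_⟩
  · exact ((dA'.const_mul P.w1).add (dB'.const_mul P.w3)).add (dC'.const_mul P.w4)
  · have hav : ∀ y, av H D ψ τ y - t * rr H (ψ p) y = av H D ψ (bump τ p t) y :=
      fun y => (av_bump H D ψ τ hp t y).symm
    simp only [hav] at hpos ⊢
    rw [sum_out]
    have hin := sum_in H (ψ p) (D.image ψ) B (av H D ψ (bump τ p t))
      (fun y hy => by
        obtain ⟨u, hu, rfl⟩ := Finset.mem_image.1 hy
        exact hI.disj u hu) hpos (fun y _ => av_le_one hI'.nonneg y)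
      (f := PHI P T H B ((w, p) :: l) D ψ (bump τ p t))
      (g := P.w3 * G3 P T H B ((w, p) :: l) D ψ (bump τ p t)
        + P.w4 * G4 P ((w, p) :: l) D (bump τ p t))
      (by
        rw [phi_eq]
        have := mul_nonneg q1.le a1
        linarith) (by positivity)
    have hsplit : ∑ y ∈ (nb H (ψ p) \ B) \ D.image ψ, 1 / av H D ψ (bump τ p t) y *
          (PHI P T H B l (insert w D) (Function.update ψ w y) (bump τ p t)
            - PHI P T H B ((w, p) :: l) D ψ (bump τ p t)) =
        P.w1 * (∑ y ∈ (nb H (ψ p) \ B) \ D.image ψ, 1 / av H D ψ (bump τ p t) y *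
          (AP H B P.e1 P.ka P.K1 (insert w D) (Function.update ψ w y) (bump τ p t)
            - AP H B P.e1 P.ka P.K1 D ψ (bump τ p t)))
        + P.w3 * (∑ y ∈ (nb H (ψ p) \ B) \ D.image ψ, 1 / av H D ψ (bump τ p t) y *
          (G3 P T H B l (insert w D) (Function.update ψ w y) (bump τ p t)
            - G3 P T H B ((w, p) :: l) D ψ (bump τ p t)))
        + P.w4 * (∑ y ∈ (nb H (ψ p) \ B) \ D.image ψ, 1 / av H D ψ (bump τ p t) y *
          (G4 P l (insert w D) (bump τ p t) - G4 P ((w, p) :: l) D (bump τ p t))) := by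
      rw [Finset.mul_sum, Finset.mul_sum, Finset.mul_sum, ← Finset.sum_add_distrib,
        ← Finset.sum_add_distrib]
      refine Finset.sum_congr rfl (fun y _ => ?_)
      rw [phi_eq, phi_eq]
      ring
    rw [hsplit]
    have m1 := mul_nonpos_of_nonneg_of_nonpos q1.le iA
    have m3 := mul_nonpos_of_nonneg_of_nonpos q3.le iB
    have m4 := mul_nonpos_of_nonneg_of_nonpos q4.le iC
    have e1 : ((nb H (ψ p) ∩ B).card : ℝ) *
        (P.w3 * G3 P T H B ((w, p) :: l) D ψ (bump τ p t)
        + P.w4 * G4 P ((w, p) :: l) D (bump τ p t)) =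
        P.w3 * (((nb H (ψ p) ∩ B).card : ℝ) * G3 P T H B ((w, p) :: l) D ψ (bump τ p t))
        + P.w4 * (((nb H (ψ p) ∩ B).card : ℝ) * G4 P ((w, p) :: l) D (bump τ p t)) := by ring
    rw [e1] at hin
    rw [mul_add] at m1
    rw [mul_sub, mul_add] at m3 m4
    linarith

/-- a vertex of `B` captured: the survival product is the hit integrand -/
lemma hitB (P : Par) (T : SimpleGraph U) (H : SimpleGraph V) (B : Finset V)
    (w p : U) (l : List (U × U)) (D : Finset U) (ψ : U → V) (τ : U → ℝ)
    (hP : P.Ok) (hI : Inv P T H B ((w, p) :: l) D ψ τ)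
    (hg : GS P T H B D ψ τ) (y : V) :
    FF T H P.c {w} (insert w D) (Function.update ψ w y) τ
      = PP H (insert w D) (Function.update ψ w y) τ := by
  have hw : w ∉ D := hI.grow.1
  have hτw : τ w = 0 := hI.zero w hw
  have hcc : CC T H P.c {w} (insert w D) (Function.update ψ w y) τ = 1 := by
    unfold CC
    refine Finset.prod_eq_one (fun v hv => Finset.prod_eq_one (fun q hq => ?_))
    have hv' : v ∈ D := by
      rw [Finset.mem_sdiff, Finset.mem_insert, Finset.mem_singleton] at hv
      tauto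
    apply cut_eq_one hP.c_pos
    rw [Exn_next T H ψ hw hτw y hv']
    have e1 := exn_le hI.inj hI.disj hg hv'
    have e2 : τ q ≤ P.c := by
      rw [Finset.mem_filter, Finset.mem_insert] at hq
      rcases hq.1 with rfl | h
      · rw [hτw]; exact hP.c_pos.le
      · exact hg.tau_le q h
    linarith
  unfold FF
  rw [hcc, mul_one]

end Low

open Low in
theorem stLow (hStep : StStep) (hGS : StGS) (hA : StGenA) (h3 : StGen3) (h4 : StGen4)
    (hCont : StPhiCont) : StLow := by
  intro U V _ _ P T H B v0 l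
  induction l with
  | nil =>
    intro D ψ τ hP hG hI _
    exact nil_case hGS P T H B v0 D ψ τ hP hG hI
  | cons s l ih =>
    obtain ⟨w, p⟩ := s
    intro D ψ τ hP hG hI hav
    have hw : w ∉ D := hI.grow.1
    have hp : p ∈ D := hI.grow.2.1
    have hSS := rhs_eq T H P.c B v0 w p l D ψ τ hw hp
    by_cases hphi : PHI P T H B ((w, p) :: l) D ψ τ < 1
    swap
    · have h1 : 0 ≤ gm H (FF T H P.c ∅ univ) v0 univ ((w, p) :: l) D ψ τ :=
        gm_nonneg H _ (fun φ σ => FF_nonneg T H P.c ∅ univ φ σ) _ _ _ _ _ _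
      have h2 := hit_nonneg T H P.c B ((w, p) :: l) D ψ τ
      have h3' := PP_nonneg H D ψ τ
      have h4' : 1 - PHI P T H B ((w, p) :: l) D ψ τ ≤ 0 := by linarith [not_lt.1 hphi]
      have := mul_nonpos_of_nonneg_of_nonpos h3' h4'
      linarith
    -- the step lemma
    have hX : ∀ y, y ∈ (D.image ψ)ᶜ ↔ y ∉ D.image ψ := fun y => Finset.mem_compl
    obtain ⟨-, hgs0⟩ := hGS U V P T H B ((w, p) :: l) D ψ τ hP hG hI
    have hg0 := hgs0 hphi
    have hex : ∃ y ∈ (D.image ψ)ᶜ, rr H (ψ p) y = 1 := by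
      by_contra hcon
      push Not at hcon
      have hpim : ψ p ∈ D.image ψ := Finset.mem_image_of_mem ψ hp
      have hR := hg0.R_ge (ψ p) hpim
      have e1 : (nb H (ψ p) \ B) \ D.image ψ = ∅ := by
        rw [Finset.eq_empty_iff_forall_notMem]
        intro y hy
        rw [Finset.mem_sdiff, Finset.mem_sdiff, mem_nb] at hy
        exact hcon y ((hX y).2 hy.2) (rr_of_adj hy.1.1)
      have e2 : nb H (ψ p) ∩ B = ∅ := by
        rw [Finset.eq_empty_iff_forall_notMem]
        intro y hy
        rw [Finset.mem_inter, mem_nb] at hy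
        refine hcon y ((hX y).2 fun h => ?_) (rr_of_adj hy.1)
        obtain ⟨u, hu, rfl⟩ := Finset.mem_image.1 h
        exact hI.disj u hu hy.2
      rw [e1, e2] at hR
      simp only [Finset.sum_empty, Finset.card_empty, Nat.cast_zero, add_zero] at hR
      have g1 := hP.γ_pos
      have g2 := hP.small
      have g3 : (1 : ℝ) ≤ P.d := by exact_mod_cast hP.d_pos
      have g4 := hP.d1_le
      have g5 := hP.γ_le
      have g6 := hP.d1_pos
      have g7 : P.d1 * P.γ ^ 2 ≤ P.γ := by nlinarith [mul_pos g1 g1]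
      have g8 : 0 < P.γ - P.α - P.δ := by linarith
      nlinarith
    have key := hStep V (D.image ψ)ᶜ B (fun x => av H D ψ τ x) (fun x => rr H (ψ p) x)
      (fun t => PHI P T H B ((w, p) :: l) D ψ (bump τ p t))
      (fun y t => PHI P T H B l (insert w D) (Function.update ψ w y) (bump τ p t))
      (SS T H P.c B v0 w p l D ψ τ)
      (fun x hx => hav x ((hX x).1 hx)) (fun x _ => av_le_one hI.nonneg x)
      (fun x => rr_zero_or_one H _ _) hex
      (fun t ht => by
        obtain ⟨⟨a1, a2, a3⟩, -⟩ := hGS U V P T H B ((w, p) :: l) D ψ (bump τ p t) hP hG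
          (hI.bump ht.1)
        have q1 := w1_pos P
        have q3 := w3_pos P
        have q4 := w4_pos P
        rw [phi_eq]
        positivity)
      ((hCont U V P T H B w p l D ψ τ hp).mono (fun t ht y hy => ht.2 y ((hX y).2 hy)))
      (SS_cont T H P.c B v0 w p l D ψ τ) (fun t _ => SS_nonneg T H P.c B v0 w p l D ψ τ t)
      (fun t ht hpos hlt => gen_ineq hGS hA h3 h4 P T H B w p l D ψ τ hP hG hI ht.1
        (fun y hy => hpos y ((hX y).2 hy)) hlt)
      ?_
    · simp only [bump_zero] at key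
      rw [hSS, PP_eq hav]
      exact key
    · intro t ht hpos hlt
      have hI' := hI.bump ht.1
      obtain ⟨-, hgs⟩ := hGS U V P T H B ((w, p) :: l) D ψ (bump τ p t) hP hG hI'
      have hg := hgs hlt
      have hτw : bump τ p t w = 0 := hI'.zero w hw
      -- the product
      have hprod : ∀ y, PP H (insert w D) (Function.update ψ w y) (bump τ p t)
          = ∏ x ∈ (D.image ψ)ᶜ.erase y, (av H D ψ τ x - t * rr H (ψ p) x) := by
        intro y
        rw [PP_next H ψ hw hτw]
        refine Finset.prod_congr rfl (fun x hx => ?_)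
        rw [av_bump H D ψ τ hp]
        exact max_eq_right (hpos x (Finset.mem_of_mem_erase hx)).le
      have hmain : ∀ y ∈ (D.image ψ)ᶜ \ B, rr H (ψ p) y *
          (∏ x ∈ (D.image ψ)ᶜ.erase y, (av H D ψ τ x - t * rr H (ψ p) x)) *
          (1 - PHI P T H B l (insert w D) (Function.update ψ w y) (bump τ p t)) ≤
          rr H (ψ p) y *
            gm H (FF T H P.c ∅ univ) v0 univ l (insert w D) (Function.update ψ w y) (bump τ p t)
          + rr H (ψ p) y *
            ((if y ∈ B then FF T H P.c {w} (insert w D) (Function.update ψ w y) (bump τ p t)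
              else 0)
              + hit T H P.c B l (insert w D) (Function.update ψ w y) (bump τ p t)) := by
        intro y hy
        rw [Finset.mem_sdiff, hX] at hy
        rcases rr_zero_or_one H (ψ p) y with hr | hr
        · rw [hr]; simp
        · have hadj : H.Adj (ψ p) y := by
            by_contra h
            rw [rr_of_not_adj h] at hr
            norm_num at hr
          have hn := hI.next ht.1 hy.1 hy.2 hadj
          have hih := ih (insert w D) (Function.update ψ w y) (bump τ p t) hP hG hn (by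
            intro x hx
            rw [av_next H ψ hw hτw, av_bump H D ψ τ hp]
            rw [image_update hw, Finset.mem_insert, not_or] at hx
            exact (hpos x ((hX x).2 hx.2)).le)
          rw [hr, if_neg hy.2, ← hprod y]
          linarith
      have hmainB : ∀ y ∈ (D.image ψ)ᶜ ∩ B, rr H (ψ p) y *
          (∏ x ∈ (D.image ψ)ᶜ.erase y, (av H D ψ τ x - t * rr H (ψ p) x)) ≤
          rr H (ψ p) y *
            gm H (FF T H P.c ∅ univ) v0 univ l (insert w D) (Function.update ψ w y) (bump τ p t)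
          + rr H (ψ p) y *
            ((if y ∈ B then FF T H P.c {w} (insert w D) (Function.update ψ w y) (bump τ p t)
              else 0)
              + hit T H P.c B l (insert w D) (Function.update ψ w y) (bump τ p t)) := by
        intro y hy
        rw [Finset.mem_inter, hX] at hy
        have hF := hitB P T H B w p l D ψ (bump τ p t) hP hI' hg y
        rw [if_pos hy.2, hF, hprod y, ← mul_add]
        refine mul_le_mul_of_nonneg_left ?_ (rr_nonneg _ _ _)
        have g1 : 0 ≤ gm H (FF T H P.c ∅ univ) v0 univ l (insert w D) (Function.update ψ w y)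
          (bump τ p t) := gm_nonneg H _ (fun φ σ => FF_nonneg T H P.c ∅ univ φ σ) _ _ _ _ _ _
        have g2 := hit_nonneg T H P.c B l (insert w D) (Function.update ψ w y) (bump τ p t)
        linarith
      have hsum := add_le_add (Finset.sum_le_sum hmain) (Finset.sum_le_sum hmainB)
      refine hsum.trans (le_of_eq ?_)
      unfold SS
      rw [← Finset.sum_add_distrib, add_comm]
      exact Finset.sum_inter_add_sum_sdiff _ _ _

end Pool.Agent.Lib.GHA
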