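import Mathlib
import Pool.Agent.Lib.MP_df0165_co.Ap.Base

set_option autoImplicit false
set_option linter.unusedSectionVars false

/-!
# Approximate Graham-Haggkvist: continuity of the potential along a broadcast
-/

namespace Pool.Agent.Lib.GHA.PhiCont

open Finset Classical

variable {U V : Type} [Fintype U] [Fintype V]

/-- The set of admissible broadcast times. -/
def SS (H : SimpleGraph V) (D : Finset U) (ψ : U → V) (τ : U → ℝ) (p : U) : Set ℝ :=
  {t : ℝ | ∀ y, y ∉ D.image ψ → 0 < av H D ψ τ y - t * rr H (ψ p) y}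

lemma hv_cont (H : SimpleGraph V) (D : Finset U) (ψ : U → V) (τ : U → ℝ) {p : U} (hp : p ∈ D)
    (y : V) : ContinuousOn (fun t : ℝ => hv H D ψ (bump τ p t) y) (SS H D ψ τ p) := by
  unfold hv
  by_cases hy : y ∈ D.image ψ
  · simp only [hy, if_true]
    exact continuousOn_const
  · simp only [hy, if_false]
    simp_rw [av_bump H D ψ τ hp]
    apply ContinuousOn.sub _ continuousOn_const
    apply ContinuousOn.div continuousOn_const
    · fun_prop
    · intro t ht
      exact (ht y hy).ne'

lemma eb_cont (H : SimpleGraph V) (D : Finset U) (ψ : U → V) (τ : U → ℝ) {p : U} (hp : p ∈ D)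
    (y : V) : ContinuousOn (fun t : ℝ => eb H D ψ (bump τ p t) y) (SS H D ψ τ p) := by
  unfold eb
  by_cases hy : y ∈ D.image ψ
  · simp only [hy, if_true]
    exact continuousOn_const
  · simp only [hy, if_false]
    simp_rw [av_bump H D ψ τ hp]
    fun_prop

lemma At_cont (H : SimpleGraph V) (D : Finset U) (ψ : U → V) (τ : U → ℝ) {p : U} (hp : p ∈ D)
    (s e1 ka : ℝ) (A : Finset V) :
    ContinuousOn (fun t : ℝ => At H s e1 ka A D ψ (bump τ p t)) (SS H D ψ τ p) := by
  unfold At
  apply ContinuousOn.rexp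
  apply ContinuousOn.sub
  · apply ContinuousOn.mul continuousOn_const
    apply continuousOn_finsetSum
    intro y _
    exact hv_cont H D ψ τ hp y
  · apply ContinuousOn.mul continuousOn_const
    apply continuousOn_finsetSum
    intro y _
    exact eb_cont H D ψ τ hp y

lemma AP_cont (H : SimpleGraph V) (B : Finset V) (e1 ka K1 : ℝ) (D : Finset U) (ψ : U → V)
    (τ : U → ℝ) {p : U} (hp : p ∈ D) :
    ContinuousOn (fun t : ℝ => AP H B e1 ka K1 D ψ (bump τ p t)) (SS H D ψ τ p) := by
  unfold AP
  apply ContinuousOn.add _ continuousOn_const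
  apply ContinuousOn.add
  · apply continuousOn_finsetSum
    intro v _
    exact (At_cont H D ψ τ hp _ _ _ _).sub continuousOn_const
  · apply continuousOn_finsetSum
    intro v _
    apply continuousOn_finsetSum
    intro x _
    exact (At_cont H D ψ τ hp _ _ _ _).sub continuousOn_const

lemma Qx_cont (T : SimpleGraph U) (H : SimpleGraph V) (D : Finset U) (ψ : U → V) (x : V) :
    Continuous (fun τ : U → ℝ => Qx T H D ψ τ x) := by
  unfold Qx; fun_prop

lemma P3_cont (T : SimpleGraph U) (H : SimpleGraph V) (e2 ρ ρ' : ℝ) (l : List (U × U))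
    (D : Finset U) (ψ : U → V) (x : V) :
    Continuous (fun τ : U → ℝ => P3 T H e2 ρ ρ' l D ψ τ x) := by
  unfold P3
  have h := Qx_cont T H D ψ x
  by_cases hx : act H D ψ x
  · simp only [hx, if_true]; fun_prop
  · simp only [hx, if_false]; fun_prop

lemma G3_cont (P : Par) (T : SimpleGraph U) (H : SimpleGraph V) (B : Finset V)
    (l : List (U × U)) (D : Finset U) (ψ : U → V) :
    Continuous (fun τ : U → ℝ => G3 P T H B l D ψ τ) := by
  unfold G3
  have h := fun x => P3_cont T H P.e2 P.ρ P.ρ' l D ψ x
  fun_prop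

lemma G4_cont (P : Par) (l : List (U × U)) (D : Finset U) :
    Continuous (fun τ : U → ℝ => G4 P l D τ) := by
  unfold G4 P4; fun_prop

theorem main : StPhiCont := by
  intro U V _ _ P T H B w p l D ψ τ hp
  unfold PHI
  have h1 := AP_cont H B P.e1 P.ka P.K1 D ψ τ hp
  have h3 := ((G3_cont P T H B ((w, p) :: l) D ψ).comp (continuous_bump τ p)).continuousOn
    (s := SS H D ψ τ p)
  have h4 := ((G4_cont P ((w, p) :: l) D).comp (continuous_bump τ p)).continuousOn
    (s := SS H D ψ τ p)
  exact ((continuousOn_const.mul h1).add (continuousOn_const.mul h3)).add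
    (continuousOn_const.mul h4)

end Pool.Agent.Lib.GHA.PhiCont

namespace Pool.Agent.Lib.GHA

theorem stPhiCont : StPhiCont := PhiCont.main

end Pool.Agent.Lib.GHA
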