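import Mathlib
import Pool.Agent.Lib.MP_df0165_co.Ap.Stmts

set_option autoImplicit false
set_option linter.unusedSectionVars false

/-!
# Approximate Graham-Haggkvist: rerooting of growth lists
-/

namespace Pool.Agent.Lib.GHA

open Finset Classical

namespace Reroot

variable {U : Type} [Fintype U]

theorem grow_append (T : SimpleGraph U) (l l' : List (U × U)) :
    ∀ D D'' : Finset U, Grow T D (l ++ l') D'' ↔ ∃ D', Grow T D l D' ∧ Grow T D' l' D'' := by
  induction l with
  | nil =>
    intro D D''
    constructor
    · intro h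
      exact ⟨D, rfl, h⟩
    · rintro ⟨D', h1, h2⟩
      have h1' : D = D' := h1
      subst h1'
      exact h2
  | cons s l ih =>
    intro D D''
    constructor
    · intro h
      obtain ⟨h1, h2, h3, h4⟩ := h
      obtain ⟨D', h5, h6⟩ := (ih _ _).1 h4
      exact ⟨D', ⟨h1, h2, h3, h5⟩, h6⟩
    · rintro ⟨D', ⟨h1, h2, h3, h5⟩, h6⟩
      exact ⟨h1, h2, h3, (ih _ _).2 ⟨D', h5, h6⟩⟩

theorem grow_subset (T : SimpleGraph U) (l : List (U × U)) :
    ∀ D D' : Finset U, Grow T D l D' → D ⊆ D' := by
  induction l with
  | nil =>
    intro D D' h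
    have h' : D = D' := h
    rw [h']
  | cons s l ih =>
    intro D D' h
    obtain ⟨h1, h2, h3, h4⟩ := h
    exact (Finset.subset_insert _ _).trans (ih _ _ h4)

/-- a pendant vertex can be added in advance. -/
theorem grow_insert (T : SimpleGraph U) (w1 p1 : U) (l : List (U × U)) :
    ∀ D D1 : Finset U, Grow T D l D1 → w1 ∉ D1 → p1 ∈ D →
      (∀ u ∈ D1, T.Adj u w1 → u = p1) → Grow T (insert w1 D) l (insert w1 D1) := by
  induction l with
  | nil =>
    intro D D1 h _ _ _
    have h' : D = D1 := h
    rw [h']
    rfl
  | cons s l ih =>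
    intro D D1 h hw hp hu
    obtain ⟨h1, h2, h3, h4⟩ := h
    have hsub := grow_subset T l _ _ h4
    have hs1 : s.1 ∈ D1 := hsub (Finset.mem_insert_self _ _)
    have hs2 : s.2 ∈ D1 := hsub (Finset.mem_insert_of_mem h2)
    refine ⟨?_, Finset.mem_insert_of_mem h2, ?_, ?_⟩
    · rw [Finset.mem_insert]
      rintro (h | h)
      · exact hw (h ▸ hs1)
      · exact h1 h
    · intro u hu'
      rw [Finset.mem_insert] at hu'
      rcases hu' with rfl | hu'
      · constructor
        · intro hadj
          have := hu s.1 hs1 hadj.symm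
          exact absurd (this ▸ hp) h1
        · intro h
          exact absurd (h ▸ hs2) hw
      · exact h3 u hu'
    · rw [Finset.insert_comm]
      exact ih _ _ h4 hw (Finset.mem_insert_of_mem hp) hu

theorem grow_nbr (T : SimpleGraph U) (l : List (U × U)) :
    ∀ D D' : Finset U, Grow T D l D' → (∀ u ∈ D, ∃ v ∈ D, T.Adj u v) →
      ∀ u ∈ D', ∃ v ∈ D', T.Adj u v := by
  induction l with
  | nil =>
    intro D D' h hn
    have h' : D = D' := h
    rw [← h']
    exact hn
  | cons s l ih =>
    intro D D' h hn
    obtain ⟨h1, h2, h3, h4⟩ := h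
    refine ih _ _ h4 ?_
    intro u hu
    rw [Finset.mem_insert] at hu
    rcases hu with rfl | hu
    · exact ⟨s.2, Finset.mem_insert_of_mem h2, ((h3 s.2 h2).2 rfl).symm⟩
    · obtain ⟨v, hv, hadj⟩ := hn u hu
      exact ⟨v, Finset.mem_insert_of_mem hv, hadj⟩

theorem pair_nbr (T : SimpleGraph U) (a b : U) (hab : T.Adj a b) :
    ∀ u ∈ ({a, b} : Finset U), ∃ v ∈ ({a, b} : Finset U), T.Adj u v := by
  intro u hu
  rw [Finset.mem_insert, Finset.mem_singleton] at hu
  rcases hu with rfl | rfl
  · exact ⟨b, by simp, hab⟩
  · exact ⟨a, by simp, hab.symm⟩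

theorem reroot (T : SimpleGraph U) (a b : U) (hab : T.Adj a b) (l : List (U × U)) :
    ∀ (D' : Finset U) (p w : U), Grow T {a, b} l D' → T.Adj p w → p ∈ D' → w ∈ D' →
      ∃ l' : List (U × U), Grow T {p, w} l' D' := by
  induction l using List.reverseRecOn with
  | nil =>
    intro D' p w h hpw hp hw
    have h' : ({a, b} : Finset U) = D' := h
    subst h'
    refine ⟨[], ?_⟩
    change ({p, w} : Finset U) = {a, b}
    rw [Finset.mem_insert, Finset.mem_singleton] at hp hw
    have hne : p ≠ w := hpw.ne
    rcases hp with rfl | rfl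
    · rcases hw with rfl | rfl
      · exact absurd rfl hne
      · rfl
    · rcases hw with rfl | rfl
      · exact Finset.pair_comm _ _
      · exact absurd rfl hne
  | append_singleton l0 s ih =>
    intro D' p w h hpw hp hw
    obtain ⟨D1, hD1, hs⟩ := (grow_append T l0 [s] _ _).1 h
    obtain ⟨h1, h2, h3, h4⟩ := hs
    have h4' : insert s.1 D1 = D' := h4
    subst h4'
    by_cases hp1 : p ∈ D1
    · by_cases hw1 : w ∈ D1
      · obtain ⟨l'', hl''⟩ := ih D1 p w hD1 hpw hp1 hw1
        exact ⟨l'' ++ [s], (grow_append T l'' [s] _ _).2 ⟨D1, hl'', h1, h2, h3, rfl⟩⟩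
      · have hws : w = s.1 := by
          rw [Finset.mem_insert] at hw
          rcases hw with h | h
          · exact h
          · exact absurd h hw1
        have hps : p = s.2 := (h3 p hp1).1 (hws ▸ hpw)
        obtain ⟨p2, hp2, hadj⟩ := grow_nbr T l0 _ _ hD1 (pair_nbr T a b hab) s.2 h2
        obtain ⟨l'', hl''⟩ := ih D1 s.2 p2 hD1 hadj h2 hp2
        refine ⟨(p2, s.2) :: l'', ?_, ?_, ?_, ?_⟩
        · rw [Finset.mem_insert, Finset.mem_singleton]
          rintro (h | h)
          · change p2 = p at h
            rw [hps] at h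
            exact hadj.ne h.symm
          · change p2 = w at h
            rw [hws] at h
            exact h1 (h ▸ hp2)
        · change s.2 ∈ ({p, w} : Finset U)
          rw [hps]
          simp
        · intro u hu
          change T.Adj u p2 ↔ u = s.2
          rw [Finset.mem_insert, Finset.mem_singleton] at hu
          rcases hu with rfl | rfl
          · rw [hps]
            exact ⟨fun _ => rfl, fun _ => hadj⟩
          · constructor
            · intro hadj2
              rw [hws] at hadj2
              have := (h3 p2 hp2).1 hadj2.symm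
              exact absurd this.symm hadj.ne
            · intro h
              rw [hws] at h
              exact absurd (h ▸ h2) h1
        · change Grow T (insert p2 {p, w}) l'' (insert s.1 D1)
          have e : (insert p2 {p, w} : Finset U) = insert s.1 {s.2, p2} := by
            rw [hps, hws]
            ext x
            simp only [Finset.mem_insert, Finset.mem_singleton]
            tauto
          rw [e]
          exact grow_insert T s.1 s.2 l'' _ _ hl'' h1 (by simp)
            (fun u hu hadj => (h3 u hu).1 hadj)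
    · have hps : p = s.1 := by
        rw [Finset.mem_insert] at hp
        rcases hp with h | h
        · exact h
        · exact absurd h hp1
      have hw1 : w ∈ D1 := by
        rw [Finset.mem_insert] at hw
        rcases hw with h | h
        · exact absurd (hps.trans h.symm) hpw.ne
        · exact h
      have hws : w = s.2 := (h3 w hw1).1 (hps ▸ hpw.symm)
      obtain ⟨p2, hp2, hadj⟩ := grow_nbr T l0 _ _ hD1 (pair_nbr T a b hab) s.2 h2
      obtain ⟨l'', hl''⟩ := ih D1 s.2 p2 hD1 hadj h2 hp2
      refine ⟨(p2, s.2) :: l'', ?_, ?_, ?_, ?_⟩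
      · rw [Finset.mem_insert, Finset.mem_singleton]
        rintro (h | h)
        · change p2 = p at h
          rw [hps] at h
          exact h1 (h ▸ hp2)
        · change p2 = w at h
          rw [hws] at h
          exact hadj.ne h.symm
      · change s.2 ∈ ({p, w} : Finset U)
        rw [hws]
        simp
      · intro u hu
        change T.Adj u p2 ↔ u = s.2
        rw [Finset.mem_insert, Finset.mem_singleton] at hu
        rcases hu with rfl | rfl
        · constructor
          · intro hadj2
            rw [hps] at hadj2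
            have := (h3 p2 hp2).1 hadj2.symm
            exact absurd this.symm hadj.ne
          · intro h
            rw [hps] at h
            exact absurd (h ▸ h2) h1
        · rw [hws]
          exact ⟨fun _ => rfl, fun _ => hadj⟩
      · change Grow T (insert p2 {p, w}) l'' (insert s.1 D1)
        have e : (insert p2 {p, w} : Finset U) = insert s.1 {s.2, p2} := by
          rw [hps, hws]
          ext x
          simp only [Finset.mem_insert, Finset.mem_singleton]
          tauto
        rw [e]
        exact grow_insert T s.1 s.2 l'' _ _ hl'' h1 (by simp)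
          (fun u hu hadj => (h3 u hu).1 hadj)

/-! ### Counting parents -/

/-- Number of neighbours of `u` in `D`. -/
noncomputable def dg (T : SimpleGraph U) (D : Finset U) (u : U) : ℕ :=
  (D.filter (fun x => T.Adj u x)).card

theorem dg_insert (T : SimpleGraph U) (D : Finset U) (u w : U) (hw : w ∉ D) :
    dg T (insert w D) u = dg T D u + if T.Adj u w then 1 else 0 := by
  unfold dg
  rw [Finset.filter_insert]
  split_ifs with h
  · rw [Finset.card_insert_of_notMem]
    intro h'
    exact hw (Finset.mem_filter.1 h').1
  · rfl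

theorem count_lemma (T : SimpleGraph U) (l : List (U × U)) :
    ∀ D D' : Finset U, Grow T D l D' → ∀ u ∈ D',
      (l.map Prod.snd).count u + (if u ∈ D then dg T D u else 1) = dg T D' u := by
  induction l with
  | nil =>
    intro D D' h u hu
    have h' : D = D' := h
    subst h'
    simp [hu]
  | cons s l ih =>
    intro D D' h u hu
    obtain ⟨h1, h2, h3, h4⟩ := h
    have hI := ih _ _ h4 u hu
    rw [← hI, List.map_cons, List.count_cons]
    by_cases huD : u ∈ D
    · rw [if_pos huD, if_pos (Finset.mem_insert_of_mem huD), dg_insert T D u s.1 h1]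
      have e : (if (s.2 == u) = true then 1 else 0) = (if T.Adj u s.1 then 1 else 0 : ℕ) := by
        by_cases h : T.Adj u s.1
        · rw [if_pos h, if_pos]
          rw [beq_iff_eq]
          exact ((h3 u huD).1 h).symm
        · rw [if_neg h, if_neg]
          rw [beq_iff_eq]
          intro h'
          exact h ((h3 u huD).2 h'.symm)
      rw [e]
      ring
    · have hne : ¬ ((s.2 == u) = true) := by
        rw [beq_iff_eq]
        intro h'
        exact huD (h' ▸ h2)
      rw [if_neg huD, if_neg hne]
      by_cases hus : u = s.1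
      · subst hus
        rw [if_pos (Finset.mem_insert_self _ _), dg_insert T D _ _ h1,
          if_neg (T.loopless.irrefl _)]
        have e : dg T D s.1 = 1 := by
          unfold dg
          rw [Finset.card_eq_one]
          refine ⟨s.2, ?_⟩
          ext x
          rw [Finset.mem_filter, Finset.mem_singleton]
          constructor
          · rintro ⟨hx, hadj⟩
            exact (h3 x hx).1 hadj.symm
          · rintro rfl
            exact ⟨h2, ((h3 _ h2).2 rfl).symm⟩
        rw [e]
      · rw [if_neg]
        rw [Finset.mem_insert]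
        rintro (h | h)
        · exact hus h
        · exact huD h

theorem snd_mem (T : SimpleGraph U) (l : List (U × U)) :
    ∀ D D' : Finset U, Grow T D l D' → ∀ s ∈ l, s.1 ∈ D' ∧ s.2 ∈ D' := by
  induction l with
  | nil =>
    intro D D' _ s hs
    exact absurd hs List.not_mem_nil
  | cons t l ih =>
    intro D D' h s hs
    obtain ⟨h1, h2, h3, h4⟩ := h
    have hsub := grow_subset T l _ _ h4
    rw [List.mem_cons] at hs
    rcases hs with rfl | hs
    · exact ⟨hsub (Finset.mem_insert_self _ _), hsub (Finset.mem_insert_of_mem h2)⟩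
    · exact ih _ _ h4 s hs

theorem dg_pair (T : SimpleGraph U) (a b : U) (hab : T.Adj a b) (u : U)
    (hu : u ∈ ({a, b} : Finset U)) : dg T {a, b} u = 1 := by
  unfold dg
  rw [Finset.card_eq_one]
  rw [Finset.mem_insert, Finset.mem_singleton] at hu
  rcases hu with rfl | rfl
  · refine ⟨b, ?_⟩
    ext x
    rw [Finset.mem_filter, Finset.mem_singleton, Finset.mem_insert, Finset.mem_singleton]
    constructor
    · rintro ⟨rfl | rfl, h⟩
      · exact absurd rfl h.ne
      · rfl
    · rintro rfl
      exact ⟨Or.inr rfl, hab⟩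
  · refine ⟨a, ?_⟩
    ext x
    rw [Finset.mem_filter, Finset.mem_singleton, Finset.mem_insert, Finset.mem_singleton]
    constructor
    · rintro ⟨rfl | rfl, h⟩
      · rfl
      · exact absurd rfl h.ne
    · rintro rfl
      exact ⟨Or.inl rfl, hab.symm⟩

theorem count_pair (T : SimpleGraph U) (a b : U) (hab : T.Adj a b) (l : List (U × U))
    (D' : Finset U) (h : Grow T {a, b} l D') (u : U) (hu : u ∈ D') :
    (l.map Prod.snd).count u + 1 = dg T D' u := by
  have h1 := count_lemma T l _ _ h u hu
  rw [← h1]
  by_cases huD : u ∈ ({a, b} : Finset U)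
  · rw [if_pos huD, dg_pair T a b hab u huD]
  · rw [if_neg huD]

theorem count_zero (T : SimpleGraph U) (D D' : Finset U) (l : List (U × U))
    (h : Grow T D l D') (u : U) (hu : u ∉ D') : (l.map Prod.snd).count u = 0 := by
  rw [List.count_eq_zero]
  intro hm
  rw [List.mem_map] at hm
  obtain ⟨s, hs, rfl⟩ := hm
  exact hu (snd_mem T l _ _ h s hs).2

/-! ### Product over the edges -/

/-- Edges of `T` inside `D`. -/
noncomputable def pe (T : SimpleGraph U) (D : Finset U) : Finset (Sym2 U) :=
  univ.filter (fun e => e ∈ T.edgeSet ∧ ∀ x ∈ e, x ∈ D)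

theorem pe_insert (T : SimpleGraph U) (D : Finset U) (w p : U) (hp : p ∈ D)
    (h : ∀ u ∈ D, T.Adj u w ↔ u = p) : pe T (insert w D) = insert s(p, w) (pe T D) := by
  ext e
  induction e using Sym2.ind with
  | _ x y =>
    simp only [pe, Finset.mem_filter, Finset.mem_univ, true_and, Finset.mem_insert,
      SimpleGraph.mem_edgeSet, Sym2.mem_iff, forall_eq_or_imp, forall_eq, Sym2.eq_iff]
    constructor
    · rintro ⟨hadj, hx, hy⟩
      rcases hx with rfl | hx
      · rcases hy with rfl | hy
        · exact absurd rfl hadj.ne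
        · have := (h y hy).1 hadj.symm
          exact Or.inl (Or.inr ⟨rfl, this⟩)
      · rcases hy with rfl | hy
        · have := (h x hx).1 hadj
          exact Or.inl (Or.inl ⟨this, rfl⟩)
        · exact Or.inr ⟨hadj, hx, hy⟩
    · rintro ((⟨rfl, rfl⟩ | ⟨rfl, rfl⟩) | ⟨hadj, hx, hy⟩)
      · exact ⟨(h _ hp).2 rfl, Or.inr hp, Or.inl rfl⟩
      · exact ⟨((h _ hp).2 rfl).symm, Or.inl rfl, Or.inr hp⟩
      · exact ⟨hadj, Or.inr hx, Or.inr hy⟩

theorem notMem_pe (T : SimpleGraph U) (D : Finset U) (w p : U) (hw : w ∉ D) :
    s(p, w) ∉ pe T D := by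
  simp only [pe, Finset.mem_filter, Finset.mem_univ, true_and]
  rintro ⟨_, h⟩
  exact hw (h w (Sym2.mem_mk_right _ _))

theorem prod_lemma (T : SimpleGraph U) (F : Sym2 U → ℝ) (l : List (U × U)) :
    ∀ D D' : Finset U, Grow T D l D' →
      (∏ e ∈ pe T D, F e) * (l.map (fun s => F s(s.2, s.1))).prod = ∏ e ∈ pe T D', F e := by
  induction l with
  | nil =>
    intro D D' h
    have h' : D = D' := h
    subst h'
    simp
  | cons s l ih =>
    intro D D' h
    obtain ⟨h1, h2, h3, h4⟩ := h
    rw [← ih _ _ h4, pe_insert T D s.1 s.2 h2 h3,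
      Finset.prod_insert (notMem_pe T D s.1 s.2 h1), List.map_cons, List.prod_cons]
    ring

theorem pe_pair (T : SimpleGraph U) (a b : U) (hab : T.Adj a b) :
    pe T {a, b} = {s(a, b)} := by
  ext e
  induction e using Sym2.ind with
  | _ x y =>
    simp only [pe, Finset.mem_filter, Finset.mem_univ, true_and, Finset.mem_insert,
      Finset.mem_singleton,
      SimpleGraph.mem_edgeSet, Sym2.mem_iff, forall_eq_or_imp, forall_eq, Sym2.eq_iff]
    constructor
    · rintro ⟨hadj, rfl | rfl, rfl | rfl⟩
      · exact absurd rfl hadj.ne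
      · exact Or.inl ⟨rfl, rfl⟩
      · exact Or.inr ⟨rfl, rfl⟩
      · exact absurd rfl hadj.ne
    · rintro (⟨rfl, rfl⟩ | ⟨rfl, rfl⟩)
      · exact ⟨hab, Or.inl rfl, Or.inr rfl⟩
      · exact ⟨hab.symm, Or.inr rfl, Or.inl rfl⟩

theorem prod_pair (T : SimpleGraph U) (a b : U) (hab : T.Adj a b) (l : List (U × U))
    (D' : Finset U) (h : Grow T {a, b} l D') (f : U → U → ℝ) (hf : ∀ x y, f x y = f y x) :
    f a b * (l.map (fun s => f s.2 s.1)).prod
      = ∏ e ∈ pe T D', Sym2.lift ⟨f, hf⟩ e := by
  have h1 := prod_lemma T (Sym2.lift ⟨f, hf⟩) l _ _ h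
  rw [pe_pair T a b hab, Finset.prod_singleton] at h1
  exact h1

end Reroot

theorem stReroot : StReroot := by
  intro U _ T a b l D' p w hab h hpw hp hw
  exact Reroot.reroot T a b hab l D' p w h hpw hp hw

theorem stSame : StSame := by
  intro U _ T a b l D' p w l' hab h hpw h'
  constructor
  · rw [List.perm_iff_count]
    intro u
    by_cases hu : u ∈ D'
    · have h1 := Reroot.count_pair T a b hab l D' h u hu
      have h2 := Reroot.count_pair T p w hpw l' D' h' u hu
      omega
    · rw [Reroot.count_zero T _ _ l h u hu, Reroot.count_zero T _ _ l' h' u hu]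
  · intro f hf
    rw [Reroot.prod_pair T a b hab l D' h f hf, Reroot.prod_pair T p w hpw l' D' h' f hf]

end Pool.Agent.Lib.GHA
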