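import Mathlib
import Pool.Agent.Lib.MP_df0165_co.Ap.Base
import Pool.Agent.Lib.MP_df0165_co.Ap.Reroot

set_option autoImplicit false
set_option linter.unusedSectionVars false

/-!
# Approximate Graham-Haggkvist: change of the root edge and use of an edge
-/

namespace Pool.Agent.Lib.GHA

open Finset Classical

namespace Root

variable {U V : Type} [Fintype U] [Fintype V]

/-- The maps extending a rooted map are the maps with prescribed values at the root edge. -/
theorem Ext_rt (v0 : V) (D' : Finset U) (a b : U) (hab : a ≠ b) (z y : V) (ψ : U → V) :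
    Ext v0 D' {a, b} (rt v0 a b z y)
      = (Ext v0 D' ∅ ψ).filter (fun φ => φ a = z ∧ φ b = y) := by
  ext φ
  rw [Finset.mem_filter, mem_Ext, mem_Ext]
  constructor
  · rintro ⟨h1, h2, h3⟩
    refine ⟨⟨h1, fun u hu => absurd hu (Finset.notMem_empty u), h3⟩, ?_, ?_⟩
    · rw [h2 a (by simp)]
      simp [rt]
    · rw [h2 b (by simp)]
      simp [rt, hab.symm]
  · rintro ⟨⟨h1, _, h3⟩, h4, h5⟩
    refine ⟨h1, ?_, h3⟩
    intro u hu
    rw [Finset.mem_insert, Finset.mem_singleton] at hu
    rcases hu with rfl | rfl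
    · simp [rt, h4]
    · simp [rt, hab.symm, h5]

/-- Summation over the images of the root edge. -/
theorem sum_root (v0 : V) (D' : Finset U) (a b : U) (hab : a ≠ b) (ψ : U → V)
    (g : V → V → ℝ) (K : (U → V) → ℝ) :
    ∑ z : V, ∑ y : V, g z y * ∑ φ ∈ Ext v0 D' {a, b} (rt v0 a b z y), K φ
      = ∑ φ ∈ Ext v0 D' ∅ ψ, g (φ a) (φ b) * K φ := by
  have h1 : ∀ z y : V, g z y * ∑ φ ∈ Ext v0 D' {a, b} (rt v0 a b z y), K φ
      = ∑ φ ∈ Ext v0 D' ∅ ψ, if φ a = z ∧ φ b = y then g z y * K φ else 0 := by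
    intro z y
    rw [Ext_rt v0 D' a b hab z y ψ, Finset.sum_filter, Finset.mul_sum]
    apply Finset.sum_congr rfl
    intro φ _
    split_ifs
    · rfl
    · rw [mul_zero]
  simp_rw [h1]
  have h2 : ∀ z : V, ∑ y : V, ∑ φ ∈ Ext v0 D' ∅ ψ,
      (if φ a = z ∧ φ b = y then g z y * K φ else 0)
      = ∑ φ ∈ Ext v0 D' ∅ ψ, ∑ y : V, (if φ a = z ∧ φ b = y then g z y * K φ else 0) :=
    fun z => Finset.sum_comm
  simp_rw [h2]
  rw [Finset.sum_comm]
  apply Finset.sum_congr rfl
  intro φ _
  rw [Finset.sum_eq_single (φ a), Finset.sum_eq_single (φ b)]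
  · simp
  · intro y _ hy
    rw [if_neg]
    rintro ⟨_, h⟩
    exact hy h.symm
  · intro h
    exact absurd (Finset.mem_univ _) h
  · intro z _ hz
    apply Finset.sum_eq_zero
    intro y _
    rw [if_neg]
    rintro ⟨h, _⟩
    exact hz h.symm
  · intro h
    exact absurd (Finset.mem_univ _) h

/-- The indicator product over a growth list of the whole tree. -/
theorem prr_hom (T : SimpleGraph U) (H : SimpleGraph V) (a b : U) (hab : T.Adj a b)
    (l : List (U × U)) (h : Grow T {a, b} l univ) (φ : U → V) :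
    rr H (φ a) (φ b) * prr H φ l
      = if ∀ x y, T.Adj x y → H.Adj (φ x) (φ y) then 1 else 0 := by
  have hf : ∀ x y : U, rr H (φ x) (φ y) = rr H (φ y) (φ x) := fun x y => rr_symm H _ _
  have h1 := Reroot.prod_pair T a b hab l univ h (fun x y => rr H (φ x) (φ y)) hf
  have h2 : rr H (φ a) (φ b) * prr H φ l
      = ∏ e ∈ Reroot.pe T univ, Sym2.lift ⟨fun x y => rr H (φ x) (φ y), hf⟩ e := h1
  rw [h2]
  split_ifs with hhom
  · apply Finset.prod_eq_one
    intro e he
    induction e using Sym2.ind with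
    | _ x y =>
      simp only [Reroot.pe, Finset.mem_filter, Finset.mem_univ, true_and,
        SimpleGraph.mem_edgeSet] at he
      exact rr_of_adj (hhom x y he.1)
  · push Not at hhom
    obtain ⟨x, y, hxy, hn⟩ := hhom
    apply Finset.prod_eq_zero (i := s(x, y))
    · simp only [Reroot.pe, Finset.mem_filter, Finset.mem_univ, true_and,
        SimpleGraph.mem_edgeSet]
      exact ⟨hxy, fun _ _ => trivial⟩
    · exact rr_of_not_adj hn

theorem count_flatMap_replicate (f : U → ℕ) (l : List U) (hl : l.Nodup) (u : U) :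
    (l.flatMap (fun u => List.replicate (f u) u)).count u = if u ∈ l then f u else 0 := by
  induction l with
  | nil => simp
  | cons v l ih =>
    rw [List.nodup_cons] at hl
    rw [List.flatMap_cons, List.count_append, ih hl.2, List.count_replicate]
    by_cases hv : v = u
    · subst hv
      simp [hl.1]
    · have hv' : ¬ u = v := fun h => hv h.symm
      simp [hv, hv']

theorem count_can (T : SimpleGraph U) (u : U) : (can T).count u = (nb T u).card - 1 := by
  unfold can
  rw [count_flatMap_replicate (fun u => (nb T u).card - 1) _ (Finset.nodup_toList _)]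
  simp

theorem perm_can (hC : StCount) (T : SimpleGraph U) (a b : U) (hab : T.Adj a b)
    (l : List (U × U)) (h : Grow T {a, b} l univ) : (l.map Prod.snd).Perm (can T) := by
  rw [List.perm_iff_count]
  intro u
  have h1 := (hC U T a b l univ hab h).2.2 u (Finset.mem_univ u)
  rw [Finset.inter_univ] at h1
  rw [count_can]
  omega

/-- The extensions of a rooted map, when all tree vertices are grown. -/
theorem gm_univ (H : SimpleGraph V) (Fn : (U → V) → (U → ℝ) → ℝ) (v0 : V) (a b : U)
    (hab : a ≠ b) (l : List (U × U)) (z y : V) (τ : U → ℝ) :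
    gm H Fn v0 univ l {a, b} (rt v0 a b z y) τ
      = ∑ φ : U → V, if Function.Injective φ ∧ φ a = z ∧ φ b = y then
          prr H φ l * LI (l.map Prod.snd) (Fn φ) τ else 0 := by
  have hE : Ext v0 univ {a, b} (rt v0 a b z y)
      = univ.filter (fun φ : U → V => Function.Injective φ ∧ φ a = z ∧ φ b = y) := by
    rw [Ext_rt v0 univ a b hab z y (fun _ => v0)]
    ext φ
    rw [Finset.mem_filter, mem_Ext, Finset.mem_filter]
    constructor
    · rintro ⟨⟨h1, _, _⟩, h4⟩
      refine ⟨Finset.mem_univ _, ?_, h4⟩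
      rw [Finset.coe_univ, Set.injOn_univ] at h1
      exact h1
    · rintro ⟨_, h1, h4⟩
      refine ⟨⟨?_, fun u hu => absurd hu (Finset.notMem_empty u),
        fun u hu => absurd (Finset.mem_univ u) hu⟩, h4⟩
      rw [Finset.coe_univ, Set.injOn_univ]
      exact h1
  unfold gm
  rw [hE, Finset.sum_filter]

/-- Sum over the darts of the tree of the indicator that the dart is mapped to the pair. -/
theorem sum_dart (T : SimpleGraph U) (φ : U → V) (hφ : Function.Injective φ) (z y : V)
    (K : ℝ) : ∑ δ : T.Dart, (if φ δ.fst = z ∧ φ δ.snd = y then K else 0)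
      = K * cov T φ z y := by
  unfold cov
  by_cases h : ∃ a b, T.Adj a b ∧ φ a = z ∧ φ b = y
  · rw [if_pos h, mul_one]
    obtain ⟨a, b, hab, ha, hb⟩ := h
    rw [Finset.sum_eq_single (⟨(a, b), hab⟩ : T.Dart)]
    · rw [if_pos ⟨ha, hb⟩]
    · intro δ _ hδ
      rw [if_neg]
      rintro ⟨h1, h2⟩
      apply hδ
      have e1 : δ.fst = a := hφ (h1.trans ha.symm)
      have e2 : δ.snd = b := hφ (h2.trans hb.symm)
      apply SimpleGraph.Dart.ext
      exact Prod.ext e1 e2
    · intro h
      exact absurd (Finset.mem_univ _) h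
  · rw [if_neg h, mul_zero]
    apply Finset.sum_eq_zero
    intro δ _
    rw [if_neg]
    rintro ⟨h1, h2⟩
    exact h ⟨δ.fst, δ.snd, δ.adj, h1, h2⟩

theorem use_aux (hC : StCount) (T : SimpleGraph U) (H : SimpleGraph V) (c : ℝ)
    (a b : U) (hab : T.Adj a b) (l : List (U × U)) (h : Grow T {a, b} l univ) (φ : U → V)
    (hφ : Function.Injective φ) (hz : H.Adj (φ a) (φ b)) :
    prr H φ l * LI (l.map Prod.snd) (FF T H c ∅ univ φ) (fun _ => 0) = WW T H c φ := by
  have h1 := prr_hom T H a b hab l h φ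
  rw [rr_of_adj hz, one_mul] at h1
  rw [h1, LI_perm _ (continuous_FF T H c ∅ univ φ) (perm_can hC T a b hab l h)]
  unfold WW
  by_cases hh : ∀ x y, T.Adj x y → H.Adj (φ x) (φ y)
  · rw [if_pos hh, if_pos ⟨hφ, hh⟩, one_mul]
  · rw [if_neg hh, if_neg (fun h' => hh h'.2), zero_mul]

end Root

theorem stRootChange (hS : StSame) (_hC : StCount) : StRootChange := by
  intro U V _ _ T H Fn v0 D' a b l p w l' hFn hab hl hpw hl'
  have key : ∀ (a b : U) (_ : a ≠ b) (l : List (U × U)),
      ∑ z : V, ∑ y : V, rr H z y * gm H Fn v0 D' l {a, b} (rt v0 a b z y) (fun _ => 0)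
        = ∑ φ ∈ Ext v0 D' ∅ (fun _ => v0), rr H (φ a) (φ b) *
            (prr H φ l * LI (l.map Prod.snd) (Fn φ) (fun _ => 0)) := by
    intro a b hab l
    exact Root.sum_root v0 D' a b hab (fun _ => v0) (rr H)
      (fun φ => prr H φ l * LI (l.map Prod.snd) (Fn φ) (fun _ => 0))
  rw [key a b hab.ne l, key p w hpw.ne l']
  apply Finset.sum_congr rfl
  intro φ _
  obtain ⟨hperm, hprod⟩ := hS U T a b l D' p w l' hab hl hpw hl'
  have h1 : rr H (φ a) (φ b) * prr H φ l = rr H (φ p) (φ w) * prr H φ l' :=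
    hprod (fun x y => rr H (φ x) (φ y)) (fun x y => rr_symm H _ _)
  rw [← mul_assoc, ← mul_assoc, h1, LI_perm _ (hFn φ) hperm]

theorem stUse (_hS : StSame) (hC : StCount) : StUse := by
  intro U V _ _ T H c v0 L _ hL z y hzy
  have h1 : ∀ δ : T.Dart, gm H (FF T H c ∅ univ) v0 univ (L δ) {δ.fst, δ.snd}
      (rt v0 δ.fst δ.snd z y) (fun _ => 0)
      = ∑ φ : U → V, if Function.Injective φ ∧ φ δ.fst = z ∧ φ δ.snd = y then
          WW T H c φ else 0 := by
    intro δ
    rw [Root.gm_univ H (FF T H c ∅ univ) v0 δ.fst δ.snd δ.adj.ne (L δ) z y]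
    apply Finset.sum_congr rfl
    intro φ _
    by_cases h : Function.Injective φ ∧ φ δ.fst = z ∧ φ δ.snd = y
    · rw [if_pos h, if_pos h]
      have hadj : H.Adj (φ δ.fst) (φ δ.snd) := by rw [h.2.1, h.2.2]; exact hzy
      exact Root.use_aux hC T H c δ.fst δ.snd δ.adj (L δ) (hL δ) φ h.1 hadj
    · rw [if_neg h, if_neg h]
  rw [Finset.sum_congr rfl (fun δ _ => h1 δ), Finset.sum_comm]
  apply Finset.sum_congr rfl
  intro φ _
  by_cases hφ : Function.Injective φ
  · rw [← Root.sum_dart T φ hφ z y (WW T H c φ)]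
    apply Finset.sum_congr rfl
    intro δ _
    by_cases h : φ δ.fst = z ∧ φ δ.snd = y
    · rw [if_pos h, if_pos ⟨hφ, h⟩]
    · rw [if_neg h, if_neg (fun h' => h h'.2)]
  · have hW : WW T H c φ = 0 := by
      unfold WW
      rw [if_neg (fun h' => hφ h'.1)]
    rw [hW, zero_mul, Finset.sum_eq_zero]
    intro δ _
    rw [if_neg (fun h' => hφ h'.1)]

end Pool.Agent.Lib.GHA
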