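import Mathlib
import Pool.Agent.Lib.MP_df0165_co.Ap.Defs
import Pool.Agent.Lib.MP_df0165_co.Ap.Stmts
import Pool.Agent.Lib.MP_df0165_co.Ap.Base

set_option autoImplicit false
set_option linter.unusedSectionVars false

/-!
# Approximate Graham-Haggkvist: the static theorem (S8)
-/

namespace Pool.Agent.Lib.GHA

open Finset Classical

namespace Static

variable {U V : Type} [Fintype U] [Fintype V]

lemma phi0_nonneg (P : Par) : 0 ≤ P.phi0 := by
  unfold Par.phi0 Par.K1 Par.I3 Par.I4 Par.w1 Par.w3 Par.w4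
  positivity

lemma rr_sum (H : SimpleGraph V) (z : V) : ∑ y : V, rr H z y = ((nb H z).card : ℝ) := by
  unfold rr nb
  rw [Finset.card_filter]
  push_cast
  rfl

lemma sum_nb (H : SimpleGraph V) (z : V) (f : V → ℝ) :
    ∑ y ∈ nb H z, f y = ∑ y : V, rr H z y * f y := by
  unfold rr nb
  rw [Finset.sum_filter]
  exact Finset.sum_congr rfl (fun y _ => by split_ifs <;> simp)

/-- The number of darts of a tree with `m` edges. -/
lemma card_dart (T : SimpleGraph U) (hT : T.IsTree) (m : ℕ) (hU : Fintype.card U = m + 1) :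
    (Fintype.card T.Dart : ℝ) = 2 * m := by
  have h1 := SimpleGraph.dart_card_eq_twice_card_edges T
  have h2 := hT.card_edgeFinset
  have h3 : T.edgeFinset.card = m := by omega
  rw [h3] at h1
  exact_mod_cast h1

/-- The mass of the growth process from a root edge outside `B`. -/
lemma root_mass (hLow : StLow) (hInit : StInit) (P : Par) (T : SimpleGraph U) (H : SimpleGraph V)
    (B : Finset V) (v0 : V) (a b : U) (l : List (U × U)) (z y : V) (hP : P.Ok) (hG : Good P H B)
    (hab : T.Adj a b) (hl : Grow T {a, b} l univ) (hU : Fintype.card U = P.m + 1)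
    (hdeg : ∀ u, (nb T u).card ≤ P.Δ) (hzy : H.Adj z y) (hz : z ∉ B) (hy : y ∉ B) :
    1 - P.phi0 ≤ gm H (FF T H P.c ∅ univ) v0 univ l {a, b} (rt v0 a b z y) (fun _ => 0)
      + hit T H P.c B l {a, b} (rt v0 a b z y) (fun _ => 0) := by
  obtain ⟨hinv, hphi⟩ := hInit U V P T H B v0 a b l z y hP hG hab hl hU hdeg hzy hz hy
  have h1 := hLow U V P T H B v0 l {a, b} (rt v0 a b z y) (fun _ => 0) hP hG hinv
    (fun x _ => by rw [av_root]; exact zero_le_one)
  have h2 : PP H {a, b} (rt v0 a b z y) (fun _ => 0) = 1 := by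
    unfold PP
    apply Finset.prod_eq_one
    intro x _
    rw [av_root]
    exact max_eq_right zero_le_one
  rw [h2] at h1
  linarith

end Static

open Static in
theorem stStatic (hLow : StLow) (hInit : StInit) (hUse : StUse) (hHit : StHit) (hG : StGrowEx)
    (hWt : StWt) (hC : StCount) : StStatic := by
  intro U V _ _ P T H B hP hgood hT hU hm hdeg
  rcases isEmpty_or_nonempty V with hV | ⟨⟨v0⟩⟩
  · have h0 : B.card = 0 := by
      rw [Finset.card_eq_zero]
      exact Finset.eq_empty_of_isEmpty B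
    have h1 : Fintype.card V = 0 := Fintype.card_eq_zero
    rw [h0, h1]
    simp
  have hc := hP.c_pos
  have hphi := phi0_nonneg P
  have hm0 : (0 : ℝ) < P.m := by exact_mod_cast hm
  have hd0 : (0 : ℝ) ≤ P.d := Nat.cast_nonneg _
  have hW := hWt U V T H P.c P.m P.Δ hc hT hU hm hdeg
  -- growth lists
  have hL : ∀ δ : T.Dart, ∃ l : List (U × U), Grow T {δ.fst, δ.snd} l univ :=
    fun δ => (hG U T hT).1 δ.fst δ.snd δ.adj
  choose L hLgrow using hL
  have hlen : ∀ δ : T.Dart, ((L δ).length : ℝ) = P.m - 1 := by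
    intro δ
    have h1 := (hC U T δ.fst δ.snd (L δ) univ δ.adj (hLgrow δ)).1
    rw [Finset.card_univ, hU] at h1
    have h2 : (L δ).length + 1 = P.m := by omega
    rw [← h2]; push_cast; ring
  set hh : T.Dart → V → V → ℝ := fun δ z y =>
    hit T H P.c B (L δ) {δ.fst, δ.snd} (rt v0 δ.fst δ.snd z y) (fun _ => 0) with hhdef
  have hh0 : ∀ δ z y, 0 ≤ hh δ z y := fun δ z y => hit_nonneg T H P.c B _ _ _ _
  have hcard := card_dart T hT P.m hU
  -- the estimate for one pair
  have key : ∀ z y : V, H.Adj z y → 1 - MM T P.m (WW T H P.c) z y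
      ≤ P.phi0 + (∑ δ : T.Dart, hh δ z y) / (2 * P.m)
        + ((if z ∈ B then 1 else 0) + (if y ∈ B then 1 else 0)) := by
    intro z y hzy
    have hMM0 : 0 ≤ MM T P.m (WW T H P.c) z y := by
      unfold MM
      apply div_nonneg _ (by positivity)
      apply Finset.sum_nonneg
      intro φ _
      apply mul_nonneg (hW.nonneg φ)
      unfold cov
      split_ifs <;> norm_num
    have hs0 : 0 ≤ (∑ δ : T.Dart, hh δ z y) / (2 * P.m) :=
      div_nonneg (Finset.sum_nonneg (fun δ _ => hh0 δ z y)) (by positivity)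
    by_cases hz : z ∈ B
    · rw [if_pos hz]
      have : (0 : ℝ) ≤ if y ∈ B then 1 else 0 := by split_ifs <;> norm_num
      linarith
    by_cases hy : y ∈ B
    · rw [if_pos hy]
      have : (0 : ℝ) ≤ if z ∈ B then 1 else 0 := by split_ifs <;> norm_num
      linarith
    rw [if_neg hz, if_neg hy]
    have h1 : ∑ φ : U → V, WW T H P.c φ * cov T φ z y
        ≥ ∑ δ : T.Dart, (1 - P.phi0 - hh δ z y) := by
      rw [hUse U V T H P.c v0 L hc hLgrow z y hzy]
      apply Finset.sum_le_sum
      intro δ _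
      have := root_mass hLow hInit P T H B v0 δ.fst δ.snd (L δ) z y hP hgood δ.adj (hLgrow δ) hU
        hdeg hzy hz hy
      simp only [hhdef]
      linarith
    rw [Finset.sum_sub_distrib, Finset.sum_const, Finset.card_univ, nsmul_eq_mul, hcard] at h1
    have h2 : MM T P.m (WW T H P.c) z y
        ≥ (2 * P.m * (1 - P.phi0) - ∑ δ : T.Dart, hh δ z y) / (2 * P.m) := by
      unfold MM
      exact div_le_div_of_nonneg_right h1 (by positivity)
    rw [sub_div, mul_div_cancel_left₀ _ (by positivity : (2 * (P.m : ℝ)) ≠ 0)] at h2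
    linarith
  -- summation
  have hsum : ∑ v : V, fv T P.m H (WW T H P.c) v
      ≤ ∑ z : V, ∑ y : V, rr H z y * (P.phi0 + (∑ δ : T.Dart, hh δ z y) / (2 * P.m)
        + ((if z ∈ B then 1 else 0) + (if y ∈ B then 1 else 0))) := by
    apply Finset.sum_le_sum
    intro z _
    unfold fv
    rw [sum_nb]
    apply Finset.sum_le_sum
    intro y _
    by_cases hzy : H.Adj z y
    · exact mul_le_mul_of_nonneg_left (key z y hzy) (rr_nonneg H z y)
    · rw [rr_of_not_adj hzy]; simp
  have hdegR : ∀ z : V, ∑ y : V, rr H z y ≤ P.d := by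
    intro z
    rw [rr_sum]
    exact_mod_cast hgood.deg_le z
  have hA : ∑ z : V, ∑ y : V, rr H z y * P.phi0 ≤ Fintype.card V * (P.d * P.phi0) := by
    calc ∑ z : V, ∑ y : V, rr H z y * P.phi0 = ∑ z : V, (∑ y : V, rr H z y) * P.phi0 := by
          exact Finset.sum_congr rfl (fun z _ => by rw [Finset.sum_mul])
      _ ≤ ∑ _z : V, (P.d * P.phi0) :=
          Finset.sum_le_sum (fun z _ => mul_le_mul_of_nonneg_right (hdegR z) hphi)
      _ = Fintype.card V * (P.d * P.phi0) := by
          rw [Finset.sum_const, Finset.card_univ, nsmul_eq_mul]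
  have hB1 : ∑ z : V, ∑ y : V, rr H z y * (if z ∈ B then (1 : ℝ) else 0) ≤ P.d * B.card := by
    calc ∑ z : V, ∑ y : V, rr H z y * (if z ∈ B then (1 : ℝ) else 0)
        = ∑ z : V, if z ∈ B then (∑ y : V, rr H z y) else 0 := by
          apply Finset.sum_congr rfl
          intro z _
          by_cases hz : z ∈ B <;> simp [hz]
      _ ≤ ∑ z : V, if z ∈ B then (P.d : ℝ) else 0 := by
          apply Finset.sum_le_sum
          intro z _
          by_cases hz : z ∈ B
          · rw [if_pos hz, if_pos hz]; exact hdegR z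
          · rw [if_neg hz, if_neg hz]
      _ = P.d * B.card := by
          rw [← Finset.sum_filter, Finset.sum_const, nsmul_eq_mul]
          have : (Finset.univ.filter (fun z : V => z ∈ B)) = B := by ext z; simp
          rw [this]; ring
  have hB2 : ∑ z : V, ∑ y : V, rr H z y * (if y ∈ B then (1 : ℝ) else 0) ≤ P.d * B.card := by
    rw [Finset.sum_comm]
    refine le_trans (le_of_eq ?_) hB1
    apply Finset.sum_congr rfl
    intro z _
    apply Finset.sum_congr rfl
    intro y _
    rw [rr_symm]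
  have hS : ∑ z : V, ∑ y : V, rr H z y * ((∑ δ : T.Dart, hh δ z y) / (2 * P.m))
      ≤ (P.m - 1) * (B.card * P.d) := by
    have h1 : ∑ z : V, ∑ y : V, rr H z y * ((∑ δ : T.Dart, hh δ z y) / (2 * P.m))
        = (∑ δ : T.Dart, ∑ z : V, ∑ y : V, rr H z y * hh δ z y) / (2 * P.m) := by
      rw [Finset.sum_comm, Finset.sum_div]
      have e1 : ∀ z y : V, rr H z y * ((∑ δ : T.Dart, hh δ z y) / (2 * P.m))
          = ∑ δ : T.Dart, rr H z y * hh δ z y / (2 * P.m) := by
        intro z y
        rw [Finset.sum_div, Finset.mul_sum]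
        exact Finset.sum_congr rfl (fun δ _ => by rw [mul_div_assoc])
      simp only [e1]
      rw [Finset.sum_comm]
      have e2 : ∀ z : V, ∑ y : V, ∑ δ : T.Dart, rr H z y * hh δ z y / (2 * P.m)
          = ∑ δ : T.Dart, ∑ y : V, rr H z y * hh δ z y / (2 * P.m) :=
        fun z => Finset.sum_comm
      simp only [e2]
      rw [Finset.sum_comm]
      apply Finset.sum_congr rfl
      intro δ _
      rw [Finset.sum_div]
      apply Finset.sum_congr rfl
      intro z _
      rw [Finset.sum_div]
    rw [h1, div_le_iff₀ (by positivity)]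
    calc ∑ δ : T.Dart, ∑ z : V, ∑ y : V, rr H z y * hh δ z y
        ≤ ∑ _δ : T.Dart, (P.m - 1) * (B.card * P.d : ℝ) := by
          apply Finset.sum_le_sum
          intro δ _
          have h2 := hHit U V T H P.c v0 B P.d δ.fst δ.snd (L δ) univ hc hgood.deg_le δ.adj
            (hLgrow δ)
          rw [hlen δ] at h2
          exact h2
      _ = (P.m - 1) * (B.card * P.d) * (2 * P.m) := by
          rw [Finset.sum_const, Finset.card_univ, nsmul_eq_mul, hcard]; ring
  have hexp : ∑ z : V, ∑ y : V, rr H z y * (P.phi0 + (∑ δ : T.Dart, hh δ z y) / (2 * P.m)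
        + ((if z ∈ B then 1 else 0) + (if y ∈ B then 1 else 0)))
      = ∑ z : V, ∑ y : V, rr H z y * P.phi0
        + ∑ z : V, ∑ y : V, rr H z y * ((∑ δ : T.Dart, hh δ z y) / (2 * P.m))
        + (∑ z : V, ∑ y : V, rr H z y * (if z ∈ B then (1 : ℝ) else 0)
        + ∑ z : V, ∑ y : V, rr H z y * (if y ∈ B then (1 : ℝ) else 0)) := by
    simp only [← Finset.sum_add_distrib]
    apply Finset.sum_congr rfl
    intro z _
    apply Finset.sum_congr rfl
    intro y _
    ring
  rw [hexp] at hsum
  have hfin : (Fintype.card V : ℝ) * (P.d * P.phi0) + (P.m - 1) * (B.card * P.d)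
      + (P.d * B.card + P.d * B.card)
      = Fintype.card V * (P.d * P.phi0) + (P.m + 1) * P.d * (B.card : ℝ) := by ring
  linarith

end Pool.Agent.Lib.GHA
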