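import Pool.Agent.Lib.MP_df0165_co.Ap.Stmts

set_option autoImplicit false

/-!
# Approximate Graham-Haggkvist: the step lemma (S1)
-/

namespace Pool.Agent.Lib.GHA

open Finset Classical

namespace Step

lemma sum_split {V : Type} (X B : Finset V) (F : V → ℝ) :
    ∑ y ∈ X, F y = ∑ y ∈ X \ B, F y + ∑ y ∈ X ∩ B, F y := by
  have h := Finset.sum_sdiff (f := F) (Finset.inter_subset_left : X ∩ B ⊆ X)
  rw [Finset.sdiff_inter_self_left] at h
  exact h.symm

/-- The inequality for the derivative. -/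
lemma key {V : Type} (X B : Finset V) (a r : V → ℝ) (f' ft : ℝ) (g : V → ℝ) (St t : ℝ)
    (hpos : ∀ x ∈ X, 0 < a x - t * r x)
    (hgen : f' + ∑ y ∈ X \ B, r y / (a y - t * r y) * (g y - ft)
      - ∑ y ∈ X ∩ B, r y / (a y - t * r y) * ft ≤ 0)
    (hS : ∑ y ∈ X \ B, r y * (∏ x ∈ X.erase y, (a x - t * r x)) * (1 - g y)
        + ∑ y ∈ X ∩ B, r y * (∏ x ∈ X.erase y, (a x - t * r x)) ≤ St) :
    0 ≤ (-∑ y ∈ X, r y * ∏ x ∈ X.erase y, (a x - t * r x)) * (1 - ft)
      + (∏ x ∈ X, (a x - t * r x)) * (-f') + St := by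
  set P : ℝ := ∏ x ∈ X, (a x - t * r x) with hP
  have hP0 : 0 < P := Finset.prod_pos hpos
  set E : V → ℝ := fun y => ∏ x ∈ X.erase y, (a x - t * r x) with hE
  have hPE : ∀ y ∈ X, P * (r y / (a y - t * r y)) = r y * E y := by
    intro y hy
    have h1 : (a y - t * r y) * E y = P := Finset.mul_prod_erase X (fun x => a x - t * r x) hy
    have h2 := hpos y hy
    rw [← h1]
    field_simp
  have h1 : P * f' + ∑ y ∈ X \ B, r y * E y * (g y - ft) - ∑ y ∈ X ∩ B, r y * E y * ft ≤ 0 := by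
    have h2 : P * (f' + ∑ y ∈ X \ B, r y / (a y - t * r y) * (g y - ft)
        - ∑ y ∈ X ∩ B, r y / (a y - t * r y) * ft) ≤ 0 :=
      mul_nonpos_of_nonneg_of_nonpos hP0.le hgen
    rw [mul_sub, mul_add, Finset.mul_sum, Finset.mul_sum] at h2
    have h3 : ∑ y ∈ X \ B, P * (r y / (a y - t * r y) * (g y - ft)) =
        ∑ y ∈ X \ B, r y * E y * (g y - ft) := by
      refine Finset.sum_congr rfl fun y hy => ?_
      rw [← mul_assoc, hPE y (Finset.mem_sdiff.mp hy).1]
    have h4 : ∑ y ∈ X ∩ B, P * (r y / (a y - t * r y) * ft) = ∑ y ∈ X ∩ B, r y * E y * ft := by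
      refine Finset.sum_congr rfl fun y hy => ?_
      rw [← mul_assoc, hPE y (Finset.mem_inter.mp hy).1]
    rw [h3, h4] at h2
    exact h2
  have e1 : ∑ y ∈ X \ B, r y * E y * (g y - ft) =
      ∑ y ∈ X \ B, r y * E y * g y - (∑ y ∈ X \ B, r y * E y) * ft := by
    rw [Finset.sum_mul, ← Finset.sum_sub_distrib]
    exact Finset.sum_congr rfl fun y _ => by ring
  have e2 : ∑ y ∈ X ∩ B, r y * E y * ft = (∑ y ∈ X ∩ B, r y * E y) * ft := by
    rw [Finset.sum_mul]
  have e3 : ∑ y ∈ X \ B, r y * E y * (1 - g y) =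
      ∑ y ∈ X \ B, r y * E y - ∑ y ∈ X \ B, r y * E y * g y := by
    rw [← Finset.sum_sub_distrib]
    exact Finset.sum_congr rfl fun y _ => by ring
  have e4 : ∑ y ∈ X, r y * E y = ∑ y ∈ X \ B, r y * E y + ∑ y ∈ X ∩ B, r y * E y :=
    sum_split X B _
  have hS' : ∑ y ∈ X \ B, r y * E y * (1 - g y) + ∑ y ∈ X ∩ B, r y * E y ≤ St := hS
  rw [e1, e2] at h1
  rw [e3] at hS'
  have e5 : ∑ y ∈ X, r y * ∏ x ∈ X.erase y, (a x - t * r x) =
      ∑ y ∈ X \ B, r y * E y + ∑ y ∈ X ∩ B, r y * E y := e4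
  rw [e5]
  nlinarith

end Step

theorem stStep : StStep := by
  intro V _ X B a r f g S ha0 ha1 hr hex hf0 hfc hSc hS0 hgen hmass
  have hInt0 : 0 ≤ ∫ t in (0 : ℝ)..1, S t :=
    intervalIntegral.integral_nonneg (by norm_num) (fun t ht => hS0 t ht)
  -- trivial cases
  by_cases hz : ∃ x ∈ X, a x = 0
  · obtain ⟨x, hx, hx0⟩ := hz
    rw [Finset.prod_eq_zero hx hx0, zero_mul]
    exact hInt0
  push Not at hz
  have hapos : ∀ x ∈ X, 0 < a x := fun x hx => lt_of_le_of_ne (ha0 x hx) (Ne.symm (hz x hx))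
  have hPa : 0 < ∏ x ∈ X, a x := Finset.prod_pos hapos
  by_cases hf1 : 1 ≤ f 0
  · exact le_trans (mul_nonpos_of_nonneg_of_nonpos hPa.le (by linarith)) hInt0
  push Not at hf1
  -- the first zero of the product
  obtain ⟨x0, hx0, hmin⟩ := Finset.exists_min_image (X.filter fun x => r x = 1) a (by
    obtain ⟨y, hy, hy1⟩ := hex
    exact ⟨y, Finset.mem_filter.mpr ⟨hy, hy1⟩⟩)
  obtain ⟨hx0X, hx01⟩ := Finset.mem_filter.mp hx0
  set t1 : ℝ := a x0 with ht1
  have ht1pos : 0 < t1 := hapos x0 hx0X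
  have ht1le : t1 ≤ 1 := ha1 x0 hx0X
  have hposn : ∀ t, 0 ≤ t → t < t1 → ∀ x ∈ X, 0 < a x - t * r x := by
    intro t _ ht x hx
    rcases hr x with h | h
    · rw [h, mul_zero, sub_zero]
      exact hapos x hx
    · rw [h, mul_one]
      have := hmin x (Finset.mem_filter.mpr ⟨hx, h⟩)
      linarith
  set P : ℝ → ℝ := fun t => ∏ x ∈ X, (a x - t * r x) with hP
  have hPc : Continuous P := by
    refine continuous_finsetProd _ fun x _ => ?_
    fun_prop
  have hPd : ∀ t, HasDerivAt P (-∑ y ∈ X, r y * ∏ x ∈ X.erase y, (a x - t * r x)) t := by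
    intro t
    have h := HasDerivAt.fun_finsetProd (u := X) (f := fun x t => a x - t * r x)
      (f' := fun x => - r x) (x := t) (fun x _ => by
        have := ((hasDerivAt_id t).mul_const (r x)).const_sub (a x)
        simpa using this)
    have e : ∑ i ∈ X, (∏ j ∈ X.erase i, (a j - t * r j)) • -r i =
        -∑ y ∈ X, r y * ∏ x ∈ X.erase y, (a x - t * r x) := by
      rw [← Finset.sum_neg_distrib]
      refine Finset.sum_congr rfl fun y _ => ?_
      rw [smul_eq_mul]
      ring
    rw [e] at h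
    exact h
  have hP0 : P 0 = ∏ x ∈ X, a x := by
    simp [hP]
  have hI : ∀ t, HasDerivAt (fun t => ∫ s in (0 : ℝ)..t, S s) (S t) t := fun t =>
    intervalIntegral.integral_hasDerivAt_right (hSc.intervalIntegrable _ _)
      (hSc.stronglyMeasurableAtFilter _ _) hSc.continuousAt
  -- the bound for every `t2 < t1`
  have main : ∀ t2, 0 ≤ t2 → t2 < t1 →
      (∏ x ∈ X, a x) * (1 - f 0) ≤ (∫ t in (0 : ℝ)..1, S t) + (t1 - t2) := by
    intro t2 ht2 ht21
    have hfc2 : ContinuousOn f (Set.Icc 0 t2) := by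
      refine hfc.mono fun t ht => ⟨⟨ht.1, by linarith [ht.2]⟩, ?_⟩
      exact hposn t ht.1 (by linarith [ht.2])
    have hts : ∃ ts, 0 ≤ ts ∧ ts ≤ t2 ∧ (∀ t, 0 ≤ t → t < ts → f t < 1) ∧
        (1 ≤ f ts ∨ ts = t2) := by
      by_cases hK : (Set.Icc 0 t2 ∩ f ⁻¹' Set.Ici 1).Nonempty
      · have hcl : IsClosed (Set.Icc 0 t2 ∩ f ⁻¹' Set.Ici 1) :=
          hfc2.preimage_isClosed_of_isClosed isClosed_Icc isClosed_Ici
        have hco : IsCompact (Set.Icc 0 t2 ∩ f ⁻¹' Set.Ici 1) :=
          isCompact_Icc.of_isClosed_subset hcl Set.inter_subset_left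
        obtain ⟨ts, hts1, hts2⟩ := hco.exists_isLeast hK
        refine ⟨ts, hts1.1.1, hts1.1.2, ?_, Or.inl hts1.2⟩
        intro t ht0 ht
        by_contra hcon
        push Not at hcon
        have := hts2 ⟨⟨ht0, by linarith [hts1.1.2]⟩, hcon⟩
        linarith
      · refine ⟨t2, ht2, le_refl _, ?_, Or.inr rfl⟩
        intro t ht0 ht
        by_contra hcon
        push Not at hcon
        exact hK ⟨t, ⟨ht0, ht.le⟩, hcon⟩
    obtain ⟨ts, hts0, hts2, hlt, hor⟩ := hts
    set Hf : ℝ → ℝ := fun t => P t * (1 - f t) + ∫ s in (0 : ℝ)..t, S s with hHf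
    have hder : ∀ t, 0 < t → t < ts → ∃ H', HasDerivAt Hf H' t ∧ 0 ≤ H' := by
      intro t ht0 ht
      have htI : t ∈ Set.Icc (0 : ℝ) 1 := ⟨ht0.le, by linarith⟩
      have hpos := hposn t ht0.le (by linarith)
      have hft := hlt t ht0.le ht
      obtain ⟨f', hf', hg⟩ := hgen t htI hpos hft
      have hm := hmass t htI hpos hft
      refine ⟨_, ((hPd t).mul (hf'.const_sub 1)).add (hI t), ?_⟩
      exact Step.key X B a r f' (f t) (fun y => g y t) (S t) t hpos hg hm
    have hmono : Hf 0 ≤ Hf ts := by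
      have hcont : ContinuousOn Hf (Set.Icc 0 ts) := by
        refine ContinuousOn.add (hPc.continuousOn.mul (continuousOn_const.sub ?_)) ?_
        · exact hfc2.mono (Set.Icc_subset_Icc_right hts2)
        · intro t _
          exact (hI t).continuousAt.continuousWithinAt
      have hm := monotoneOn_of_deriv_nonneg (convex_Icc 0 ts) hcont
        (by
          intro t ht
          rw [interior_Icc] at ht
          obtain ⟨H', h1, _⟩ := hder t ht.1 ht.2
          exact h1.differentiableAt.differentiableWithinAt)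
        (by
          intro t ht
          rw [interior_Icc] at ht
          obtain ⟨H', h1, h2⟩ := hder t ht.1 ht.2
          rw [h1.deriv]
          exact h2)
      exact hm (Set.left_mem_Icc.mpr hts0) (Set.right_mem_Icc.mpr hts0) hts0
    have hH0 : Hf 0 = (∏ x ∈ X, a x) * (1 - f 0) := by
      simp only [hHf, hP0, intervalIntegral.integral_same, add_zero]
    have hIle : ∫ s in (0 : ℝ)..ts, S s ≤ ∫ s in (0 : ℝ)..1, S s := by
      have h1 : (∫ s in (0 : ℝ)..ts, S s) + (∫ s in ts..1, S s) = ∫ s in (0 : ℝ)..1, S s :=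
        intervalIntegral.integral_add_adjacent_intervals (hSc.intervalIntegrable _ _)
          (hSc.intervalIntegrable _ _)
      have h2 : 0 ≤ ∫ s in ts..1, S s :=
        intervalIntegral.integral_nonneg (by linarith)
          (fun t ht => hS0 t ⟨by linarith [ht.1], ht.2⟩)
      linarith
    have hPts : P ts * (1 - f ts) ≤ t1 - t2 := by
      have hPn : 0 < P ts := Finset.prod_pos (hposn ts hts0 (by linarith))
      rcases hor with h | h
      · have : P ts * (1 - f ts) ≤ 0 := mul_nonpos_of_nonneg_of_nonpos hPn.le (by linarith)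
        linarith
      · have hP2 : P ts ≤ t1 - t2 := by
          have h1 : (a x0 - ts * r x0) * ∏ x ∈ X.erase x0, (a x - ts * r x) = P ts :=
            Finset.mul_prod_erase X (fun x => a x - ts * r x) hx0X
          have h2 : ∏ x ∈ X.erase x0, (a x - ts * r x) ≤ 1 := by
            refine Finset.prod_le_one ?_ ?_
            · intro x hx
              exact (hposn ts hts0 (by linarith) x (Finset.mem_of_mem_erase hx)).le
            · intro x hx
              have h3 := ha1 x (Finset.mem_of_mem_erase hx)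
              rcases hr x with h4 | h4 <;> rw [h4] <;> linarith
          rw [← h1, hx01, mul_one, ← ht1, h]
          rw [h] at h2
          nlinarith
        have hfn : 0 ≤ f ts := hf0 ts ⟨hts0, by linarith⟩
        nlinarith
    rw [← hH0]
    refine hmono.trans ?_
    simp only [hHf]
    linarith
  refine le_of_forall_pos_le_add fun ε hε => ?_
  refine (main (max 0 (t1 - ε)) (le_max_left _ _) (max_lt ht1pos (by linarith))).trans ?_
  have := le_max_right 0 (t1 - ε)
  linarith

end Pool.Agent.Lib.GHA
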