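import Mathlib
import Pool.Agent.Lib.MP_df0165_co.Ap.Base

set_option autoImplicit false
set_option linter.unusedSectionVars false

/-!
# Approximate Graham-Haggkvist: upper bound of the mass
-/

namespace Pool.Agent.Lib.GHA.Upper

open Finset Classical MeasureTheory intervalIntegral

variable {U V : Type} [Fintype U] [Fintype V]

/-! ## Calculus -/

/-- The survival polynomial. -/
noncomputable def Pp (X : Finset V) (a r : V → ℝ) (t : ℝ) : ℝ := ∏ x ∈ X, (a x - t * r x)

/-- Minus its derivative. -/
noncomputable def Qdr (X : Finset V) (a r : V → ℝ) (t : ℝ) : ℝ :=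
  ∑ y ∈ X, r y * ∏ x ∈ X.erase y, (a x - t * r x)

lemma hasDerivAt_Pp (X : Finset V) (a r : V → ℝ) (t : ℝ) :
    HasDerivAt (Pp X a r) (-Qdr X a r t) t := by
  have h : ∀ x ∈ X, HasDerivAt (fun t => a x - t * r x) (-r x) t := by
    intro x _
    have := ((hasDerivAt_id t).mul_const (r x)).const_sub (a x)
    simpa using this
  have h2 := HasDerivAt.fun_finsetProd h
  refine h2.congr_deriv ?_
  unfold Qdr
  rw [← Finset.sum_neg_distrib]
  apply Finset.sum_congr rfl
  intro y _
  rw [smul_eq_mul]
  ring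

lemma continuous_Qdr (X : Finset V) (a r : V → ℝ) : Continuous (Qdr X a r) := by
  unfold Qdr
  fun_prop

lemma integral_Qdr_le (X : Finset V) (a r : V → ℝ) (c : ℝ)
    (hc : ∀ x ∈ X, 0 ≤ a x - c * r x) :
    ∫ t in (0 : ℝ)..c, Qdr X a r t ≤ ∏ x ∈ X, a x := by
  have h : ∫ t in (0 : ℝ)..c, Qdr X a r t = -Pp X a r c - (-Pp X a r 0) := by
    apply intervalIntegral.integral_eq_sub_of_hasDerivAt
    · intro t _
      have := (hasDerivAt_Pp X a r t).fun_neg
      simpa using this
    · exact (continuous_Qdr X a r).intervalIntegrable _ _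
  have h0 : Pp X a r 0 = ∏ x ∈ X, a x := by
    unfold Pp
    simp
  rw [h, h0]
  have : 0 ≤ Pp X a r c := Finset.prod_nonneg (fun x hx => hc x hx)
  linarith

/-- The one-step integral inequality. -/
lemma calc_step (X : Finset V) (a r : V → ℝ) (S : ℝ → ℝ) (G : V → ℝ → ℝ)
    (hr : ∀ x, r x = 0 ∨ r x = 1) (hS : Continuous S)
    (hSG : ∀ t ∈ Set.Icc (0 : ℝ) 1, S t = ∑ y ∈ X, r y * G y t)
    (h0 : ∀ t ∈ Set.Icc (0 : ℝ) 1, ∀ y ∈ X, r y = 1 → a y - t * r y ≤ 0 → G y t = 0)
    (h1 : ∀ t ∈ Set.Icc (0 : ℝ) 1, ∀ y ∈ X,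
      G y t ≤ ∏ x ∈ X.erase y, max 0 (a x - t * r x)) :
    ∫ t in (0 : ℝ)..1, S t ≤ ∏ x ∈ X, max 0 (a x) := by
  have hr0 : ∀ x, 0 ≤ r x := by
    intro x; rcases hr x with h | h <;> rw [h]
    exact zero_le_one
  -- the integrand is nonpositive as soon as one of the factors vanishes
  have hneg : ∀ t ∈ Set.Icc (0 : ℝ) 1, (∃ x ∈ X, a x - t * r x ≤ 0) → S t ≤ 0 := by
    rintro t ht ⟨x, hx, hax⟩
    rw [hSG t ht]
    apply Finset.sum_nonpos
    intro y hy
    rcases hr y with hy0 | hy1
    · rw [hy0, zero_mul]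
    · by_cases hyx : y = x
      · subst hyx
        rw [h0 t ht y hy hy1 hax, mul_zero]
      · have hz : ∏ z ∈ X.erase y, max 0 (a z - t * r z) = 0 :=
          Finset.prod_eq_zero (Finset.mem_erase.mpr ⟨Ne.symm hyx, hx⟩) (max_eq_left hax)
        have := h1 t ht y hy
        rw [hz] at this
        rw [hy1, one_mul]
        exact this
  have hprod : 0 ≤ ∏ x ∈ X, max 0 (a x) := Finset.prod_nonneg (fun _ _ => le_max_left _ _)
  by_cases hA : ∃ x ∈ X, a x ≤ 0
  · obtain ⟨x, hx, hax⟩ := hA
    have hle : ∫ t in (0 : ℝ)..1, S t ≤ ∫ t in (0 : ℝ)..1, (0 : ℝ) := by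
      apply intervalIntegral.integral_mono_on zero_le_one (hS.intervalIntegrable _ _)
        (continuous_const.intervalIntegrable _ _)
      intro t ht
      apply hneg t ht ⟨x, hx, ?_⟩
      have := mul_nonneg ht.1 (hr0 x)
      linarith
    simp only [intervalIntegral.integral_zero] at hle
    exact hle.trans hprod
  · simp only [not_exists, not_and, not_le] at hA
    have hmax : ∏ x ∈ X, max 0 (a x) = ∏ x ∈ X, a x :=
      Finset.prod_congr rfl (fun x hx => max_eq_right (hA x hx).le)
    by_cases hB : (X.filter (fun y => r y = 1)).Nonempty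
    · obtain ⟨y1, hy1, hmin⟩ := Finset.exists_min_image _ a hB
      rw [Finset.mem_filter] at hy1
      have hc0 : 0 ≤ min (a y1) 1 := le_min (hA y1 hy1.1).le zero_le_one
      have hc1 : min (a y1) 1 ≤ 1 := min_le_right _ _
      have hsplit : ∫ t in (0 : ℝ)..1, S t
          = (∫ t in (0 : ℝ)..(min (a y1) 1), S t) + ∫ t in (min (a y1) 1)..1, S t :=
        (intervalIntegral.integral_add_adjacent_intervals (hS.intervalIntegrable _ _)
          (hS.intervalIntegrable _ _)).symm
      have hpos : ∀ t, t ≤ a y1 → ∀ x ∈ X, 0 ≤ a x - t * r x := by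
        intro t ht x hx
        rcases hr x with h | h
        · rw [h, mul_zero, sub_zero]; exact (hA x hx).le
        · rw [h, mul_one]
          have := hmin x (Finset.mem_filter.mpr ⟨hx, h⟩)
          linarith
      have hfirst : ∫ t in (0 : ℝ)..(min (a y1) 1), S t ≤ ∏ x ∈ X, a x := by
        refine le_trans ?_ (integral_Qdr_le X a r (min (a y1) 1)
          (fun x hx => hpos _ (min_le_left _ _) x hx))
        apply intervalIntegral.integral_mono_on hc0 (hS.intervalIntegrable _ _)
          ((continuous_Qdr X a r).intervalIntegrable _ _)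
        intro t ht
        have ht1 : t ∈ Set.Icc (0 : ℝ) 1 := ⟨ht.1, ht.2.trans hc1⟩
        rw [hSG t ht1]
        unfold Qdr
        apply Finset.sum_le_sum
        intro y hy
        apply mul_le_mul_of_nonneg_left _ (hr0 y)
        refine (h1 t ht1 y hy).trans (le_of_eq ?_)
        apply Finset.prod_congr rfl
        intro x hx
        exact max_eq_right (hpos t (ht.2.trans (min_le_left _ _)) x (Finset.mem_of_mem_erase hx))
      have hsecond : ∫ t in (min (a y1) 1)..1, S t ≤ 0 := by
        rcases le_total 1 (a y1) with h | h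
        · rw [min_eq_right h, intervalIntegral.integral_same]
        · rw [min_eq_left h]
          have hle : ∫ t in (a y1)..1, S t ≤ ∫ t in (a y1)..1, (0 : ℝ) := by
            apply intervalIntegral.integral_mono_on h (hS.intervalIntegrable _ _)
              (continuous_const.intervalIntegrable _ _)
            intro t ht
            apply hneg t ⟨(hA y1 hy1.1).le.trans ht.1, ht.2⟩ ⟨y1, hy1.1, ?_⟩
            rw [hy1.2, mul_one]
            linarith [ht.1]
          simpa only [intervalIntegral.integral_zero] using hle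
      rw [hsplit, hmax]
      linarith
    · have hle : ∫ t in (0 : ℝ)..1, S t ≤ ∫ t in (0 : ℝ)..1, (0 : ℝ) := by
        apply intervalIntegral.integral_mono_on zero_le_one (hS.intervalIntegrable _ _)
          (continuous_const.intervalIntegrable _ _)
        intro t ht
        rw [hSG t ht]
        apply Finset.sum_nonpos
        intro y hy
        rcases hr y with h | h
        · rw [h, zero_mul]
        · exact absurd ⟨y, Finset.mem_filter.mpr ⟨hy, h⟩⟩ hB
      simp only [intervalIntegral.integral_zero] at hle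
      exact hle.trans hprod

/-! ## The zero lemma -/

lemma gm_eq_zero (T : SimpleGraph U) (H : SimpleGraph V) (c : ℝ) (hc : 0 < c) (v0 : V)
    (E D' : Finset U) (l : List (U × U)) (D : Finset U) (ψ : U → V) (τ : U → ℝ) {w p : U}
    (hw : w ∈ D) (hwE : w ∉ E) (hp : p ∈ D) (hadj : T.Adj p w) (hD : D ⊆ D')
    (hτ : ∀ u, 0 ≤ τ u) (h : 1 ≤ Exn T H D ψ τ w + τ p) :
    gm H (FF T H c E D') v0 D' l D ψ τ = 0 := by
  unfold gm
  apply Finset.sum_eq_zero
  intro φ hφ
  rw [mem_Ext] at hφ
  have hzero : LI (l.map Prod.snd) (FF T H c E D' φ) τ = 0 := by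
    apply LI_eq_zero
    intro σ hσ
    unfold FF CC
    have hwD : w ∈ D' \ E := Finset.mem_sdiff.mpr ⟨hD hw, hwE⟩
    have hpD : p ∈ D'.filter (fun p => T.Adj p w) := Finset.mem_filter.mpr ⟨hD hp, hadj⟩
    have hge : Exn T H D ψ τ w ≤ Exn T H D' φ σ w := by
      unfold Exn
      calc ∑ u ∈ D.filter (fun u => ¬ T.Adj u w), τ u * rr H (ψ u) (ψ w)
          ≤ ∑ u ∈ D.filter (fun u => ¬ T.Adj u w), σ u * rr H (φ u) (φ w) := by
            apply Finset.sum_le_sum
            intro u hu
            rw [hφ.2.1 u (Finset.mem_filter.mp hu).1, hφ.2.1 w hw]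
            exact mul_le_mul_of_nonneg_right (hσ u) (rr_nonneg _ _ _)
        _ ≤ ∑ u ∈ D'.filter (fun u => ¬ T.Adj u w), σ u * rr H (φ u) (φ w) := by
            apply Finset.sum_le_sum_of_subset_of_nonneg
            · intro u hu
              rw [Finset.mem_filter] at hu ⊢
              exact ⟨hD hu.1, hu.2⟩
            · intro u _ _
              exact mul_nonneg ((hτ u).trans (hσ u)) (rr_nonneg _ _ _)
    have hcut : cut c (Exn T H D' φ σ w + σ p) = 0 :=
      cut_eq_zero hc (by linarith [hσ p])
    rw [Finset.prod_eq_zero hwD (Finset.prod_eq_zero hpD hcut), mul_zero]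
  rw [hzero, mul_zero]

/-- Exposure at the time of capture. -/
lemma exposure (T : SimpleGraph U) (H : SimpleGraph V) {D : Finset U} (ψ : U → V) {τ : U → ℝ}
    {w p : U} (hw : w ∉ D) (hp : p ∈ D) (hnbr : ∀ u ∈ D, T.Adj u w ↔ u = p)
    (hτ : ∀ u, 0 ≤ τ u) (y : V) :
    Ex H D ψ τ y ≤ Exn T H (insert w D) (Function.update ψ w y) τ w + τ p := by
  have h1 : Ex H D ψ τ y
      = τ p * rr H (ψ p) y + ∑ u ∈ D.erase p, τ u * rr H (ψ u) y := by
    unfold Ex
    rw [← Finset.add_sum_erase D _ hp]
  have h2 : ∑ u ∈ D.erase p, τ u * rr H (ψ u) y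
      ≤ Exn T H (insert w D) (Function.update ψ w y) τ w := by
    unfold Exn
    calc ∑ u ∈ D.erase p, τ u * rr H (ψ u) y
        = ∑ u ∈ D.erase p, τ u * rr H (Function.update ψ w y u) (Function.update ψ w y w) := by
          apply Finset.sum_congr rfl
          intro u hu
          have hu' : u ≠ w := fun h => hw (h ▸ Finset.mem_of_mem_erase hu)
          rw [Function.update_self, Function.update_of_ne hu']
      _ ≤ _ := by
          apply Finset.sum_le_sum_of_subset_of_nonneg
          · intro u hu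
            rw [Finset.mem_erase] at hu
            rw [Finset.mem_filter, Finset.mem_insert]
            exact ⟨Or.inr hu.2, fun h => hu.1 ((hnbr u hu.2).1 h)⟩
          · intro u _ _
            exact mul_nonneg (hτ u) (rr_nonneg _ _ _)
  have h3 : τ p * rr H (ψ p) y ≤ τ p := by
    have := mul_le_mul_of_nonneg_left (rr_le_one H (ψ p) y) (hτ p)
    linarith
  linarith

end Pool.Agent.Lib.GHA.Upper

namespace Pool.Agent.Lib.GHA

open Finset Classical MeasureTheory intervalIntegral

theorem stUpper : StUpper := by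
  intro U V _ _ T H c v0 E D' l
  induction l with
  | nil =>
    intro D ψ τ _ hg hψ _ _ _
    have hD : D = D' := hg
    subst hD
    rw [gm_nil H _ v0 D ψ τ hψ]
    refine (FF_le_PP T H c E D _ τ).trans (le_of_eq ?_)
    exact PP_congr H (fun u hu => if_pos hu) τ
  | cons s l ih =>
    intro D ψ τ hc hg hψ hτ hz hE
    obtain ⟨w, p⟩ := s
    obtain ⟨hw, hp, hnbr, hg'⟩ := hg
    simp only at hw hp hnbr hg'
    have hsub : insert w D ⊆ D' := hg'.subset
    have hwD' : w ∈ D' := hsub (Finset.mem_insert_self _ _)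
    have hDD' : D ⊆ D' := (Finset.subset_insert _ _).trans hsub
    have hwE : w ∉ E := hE (w, p) (List.mem_cons_self ..)
    have hpw : p ≠ w := fun h => hw (h ▸ hp)
    have hFn : ∀ φ : U → V, Continuous (FF T H c E D' φ) := fun φ => continuous_FF T H c E D' φ
    rw [gm_cons H _ hFn v0 D' w p l D ψ τ hw hp hwD' hDD']
    have hzt : ∀ t : ℝ, ∀ u, u ∉ D → bump τ p t u = 0 := by
      intro t u hu
      rw [bump_of_ne _ _ _ (fun h : u = p => hu (h ▸ hp))]
      exact hz u hu
    have hmain := Upper.calc_step ((D.image ψ)ᶜ) (fun x => av H D ψ τ x) (fun x => rr H (ψ p) x)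
      (fun t => ∑ y ∈ (D.image ψ)ᶜ, rr H (ψ p) y *
        gm H (FF T H c E D') v0 D' l (insert w D) (Function.update ψ w y) (bump τ p t))
      (fun y t => gm H (FF T H c E D') v0 D' l (insert w D) (Function.update ψ w y) (bump τ p t))
      (fun x => rr_zero_or_one H (ψ p) x) ?_ (fun _ _ => rfl) ?_ ?_
    · exact hmain
    · apply continuous_finsetSum
      intro y _
      exact continuous_const.mul
        ((continuous_gm H _ hFn v0 D' l (insert w D) (Function.update ψ w y)).comp
          (continuous_bump τ p))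
    · intro t ht y hy hry hav
      have hτt : ∀ u, 0 ≤ bump τ p t u := bump_nonneg hτ p ht.1
      apply Upper.gm_eq_zero T H c hc v0 E D' l (insert w D) (Function.update ψ w y) (bump τ p t)
        (Finset.mem_insert_self w D) hwE (Finset.mem_insert_of_mem hp) ((hnbr p hp).2 rfl) hsub hτt
      have h1 := Upper.exposure T H ψ hw hp hnbr hτt y
      have h2 := av_bump H D ψ τ hp t y
      have h3 : av H D ψ (bump τ p t) y = 1 - Ex H D ψ (bump τ p t) y := rfl
      linarith
    · intro t ht y hy
      have hτt : ∀ u, 0 ≤ bump τ p t u := bump_nonneg hτ p ht.1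
      have hyD : y ∉ D.image ψ := Finset.mem_compl.mp hy
      have hI := ih (insert w D) (Function.update ψ w y) (bump τ p t) hc hg'
        (injOn_update hw hψ hyD) hτt
        (fun u hu => hzt t u (fun h => hu (Finset.mem_insert_of_mem h)))
        (fun s hs => hE s (List.mem_cons_of_mem _ hs))
      refine hI.trans (le_of_eq ?_)
      rw [PP_next H ψ hw (hzt t w hw) y]
      apply Finset.prod_congr rfl
      intro x _
      rw [av_bump H D ψ τ hp]

end Pool.Agent.Lib.GHA
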