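import Mathlib
import Pool.Agent.Lib.MP_df0165_co.Ap.Base

set_option autoImplicit false
set_option linter.unusedSectionVars false

/-!
# Approximate Graham-Haggkvist: the weights of the copies (M8)
-/

namespace Pool.Agent.Lib.GHA

open Finset Classical MeasureTheory intervalIntegral

namespace WtP

variable {U V : Type} [Fintype U] [Fintype V]

lemma count_can (T : SimpleGraph U) (x : U) : (can T).count x = (nb T x).card - 1 := by
  unfold can
  rw [List.count_flatMap]
  have h1 : (List.map (List.count x ∘ fun u => List.replicate ((nb T u).card - 1) u)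
      (Finset.univ : Finset U).toList) =
      List.map (fun u => if u = x then (nb T u).card - 1 else 0)
        (Finset.univ : Finset U).toList := by
    apply List.map_congr_left
    intro u _
    simp only [Function.comp_apply, List.count_replicate, beq_iff_eq]
  rw [h1, Finset.sum_map_toList]
  simp

lemma perm_can (hC : StCount) (T : SimpleGraph U) {a b : U} {l : List (U × U)}
    (hab : T.Adj a b) (hl : Grow T {a, b} l univ) : (can T).Perm (l.map Prod.snd) := by
  rw [List.perm_iff_count]
  intro x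
  have h := (hC U T a b l univ hab hl).2.2 x (Finset.mem_univ _)
  rw [Finset.inter_univ] at h
  rw [count_can]
  omega

lemma grow_adj (T : SimpleGraph U) : ∀ (l : List (U × U)) (D D' : Finset U),
    Grow T D l D' → ∀ s ∈ l, T.Adj s.2 s.1 := by
  intro l
  induction l with
  | nil => intro D D' _ s hs; simp at hs
  | cons t l ih =>
    intro D D' h s hs
    rcases List.mem_cons.1 hs with rfl | hs
    · exact h.adj
    · exact ih _ _ h.2.2.2 s hs

lemma prr_hom {T : SimpleGraph U} {H : SimpleGraph V} {φ : U → V}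
    (hφ : ∀ a b, T.Adj a b → H.Adj (φ a) (φ b)) {l : List (U × U)}
    (hl : ∀ s ∈ l, T.Adj s.2 s.1) : prr H φ l = 1 := by
  induction l with
  | nil => rfl
  | cons s l ih =>
    rw [prr_cons, ih (fun t ht => hl t (List.mem_cons_of_mem _ ht)),
      rr_of_adj (hφ _ _ (hl s List.mem_cons_self)), one_mul]

lemma WW_nonneg (T : SimpleGraph U) (H : SimpleGraph V) (c : ℝ) (φ : U → V) :
    0 ≤ WW T H c φ := by
  unfold WW
  split_ifs
  · exact LI_nonneg _ _ _ (fun σ _ => FF_nonneg _ _ _ _ _ _ _)
  · exact le_refl _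

lemma WW_eq (hC : StCount) {T : SimpleGraph U} {H : SimpleGraph V} {c : ℝ} {φ : U → V}
    (hinj : Function.Injective φ) (hφ : ∀ a b, T.Adj a b → H.Adj (φ a) (φ b))
    {a b : U} {l : List (U × U)} (hab : T.Adj a b) (hl : Grow T {a, b} l univ) :
    WW T H c φ = prr H φ l * LI (l.map Prod.snd) (FF T H c ∅ univ φ) (fun _ => 0) := by
  unfold WW
  rw [if_pos ⟨hinj, hφ⟩, prr_hom hφ (grow_adj T l _ _ hl), one_mul]
  exact LI_perm _ (continuous_FF T H c ∅ univ φ) (perm_can hC T hab hl) _

lemma card_dart {T : SimpleGraph U} (hT : T.IsTree) {m : ℕ} (hm : Fintype.card U = m + 1) :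
    Fintype.card T.Dart = 2 * m := by
  have h1 := T.dart_card_eq_twice_card_edges
  have h2 := hT.card_edgeFinset
  have h3 : #T.edgeFinset = m := by omega
  rw [← h3]
  convert h1 using 1

/-- the survival product of the root state is `1` -/
lemma PP_root (H : SimpleGraph V) (D : Finset U) (ψ : U → V) : PP H D ψ (fun _ => 0) = 1 := by
  unfold PP
  apply Finset.prod_eq_one
  intro x _
  rw [av_root]
  norm_num

lemma rt_inj {v0 : V} {a b : U} {z y : V} (hab : a ≠ b) (hzy : z ≠ y) :
    Set.InjOn (rt v0 a b z y) (({a, b} : Finset U) : Set U) := by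
  intro u hu v hv huv
  rw [Finset.mem_coe, Finset.mem_insert, Finset.mem_singleton] at hu hv
  unfold rt at huv
  rcases hu with rfl | rfl <;> rcases hv with rfl | rfl
  · rfl
  · rw [if_pos rfl, if_neg hab.symm, if_pos rfl] at huv
    exact absurd huv hzy
  · rw [if_neg hab.symm, if_pos rfl, if_pos rfl] at huv
    exact absurd huv.symm hzy
  · rfl

lemma rt_image {v0 : V} {a b : U} {z y : V} (hab : a ≠ b) :
    ({a, b} : Finset U).image (rt v0 a b z y) = {z, y} := by
  rw [Finset.image_insert, Finset.image_singleton]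
  unfold rt
  rw [if_pos rfl, if_neg hab.symm, if_pos rfl]

lemma rt_fst {v0 : V} {a b : U} {z y : V} : rt v0 a b z y a = z := by
  unfold rt; rw [if_pos rfl]

lemma rt_snd {v0 : V} {a b : U} {z y : V} (hab : a ≠ b) : rt v0 a b z y b = y := by
  unfold rt; rw [if_neg hab.symm, if_pos rfl]

theorem use_le (hU : StUpper) (hG : StGrowEx) (hUse : StUse) (T : SimpleGraph U)
    (H : SimpleGraph V) (c : ℝ) (m : ℕ) (hc : 0 < c) (hT : T.IsTree)
    (hm : Fintype.card U = m + 1) (x y : V) (hxy : H.Adj x y) :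
    ∑ φ : U → V, WW T H c φ * cov T φ x y ≤ 2 * m := by
  have hL : ∀ δ : T.Dart, ∃ l : List (U × U), Grow T {δ.fst, δ.snd} l univ :=
    fun δ => (hG U T hT).1 δ.fst δ.snd δ.adj
  choose L hL using hL
  rw [hUse U V T H c x L hc hL x y hxy]
  have h1 : ∀ δ ∈ (Finset.univ : Finset T.Dart),
      gm H (FF T H c ∅ univ) x univ (L δ) {δ.fst, δ.snd} (rt x δ.fst δ.snd x y) (fun _ => 0)
        ≤ 1 := by
    intro δ _
    have h2 := hU U V T H c x ∅ univ (L δ) {δ.fst, δ.snd} (rt x δ.fst δ.snd x y) (fun _ => 0)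
      hc (hL δ) (rt_inj δ.adj.ne hxy.ne) (fun _ => le_refl _) (fun _ _ => rfl)
      (fun s _ => Finset.notMem_empty _)
    rwa [PP_root] at h2
  refine (Finset.sum_le_sum h1).trans ?_
  rw [Finset.sum_const, Finset.card_univ, card_dart hT hm, nsmul_eq_mul, mul_one]
  push_cast
  exact le_refl _

/-- the survival product after the first broadcast -/
lemma prod_le {H : SimpleGraph V} {u x v : V} (huv : u ≠ v) (hu : H.Adj u x) (hv : H.Adj v x)
    {t : ℝ} (ht : t ≤ 1) :
    ∏ y ∈ (({u, x} : Finset V)ᶜ.erase v), max 0 (1 - t * rr H x y) =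
      (1 - t) ^ ((nb H x).card - 2) := by
  have h1 : ∀ y ∈ (({u, x} : Finset V)ᶜ.erase v), max 0 (1 - t * rr H x y) =
      if y ∈ nb H x then (1 - t) else 1 := by
    intro y _
    by_cases h : H.Adj x y
    · rw [if_pos (mem_nb.2 h), rr_of_adj h, mul_one, max_eq_right (by linarith)]
    · rw [if_neg (fun h' => h (mem_nb.1 h')), rr_of_not_adj h, mul_zero, sub_zero,
        max_eq_right zero_le_one]
  rw [Finset.prod_congr rfl h1, Finset.prod_ite, Finset.prod_const_one, mul_one,
    Finset.prod_const]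
  congr 1
  have h2 : ((({u, x} : Finset V)ᶜ.erase v).filter fun y => y ∈ nb H x) =
      ((nb H x).erase u).erase v := by
    ext y
    simp only [Finset.mem_filter, Finset.mem_erase, Finset.mem_compl, Finset.mem_insert,
      Finset.mem_singleton, mem_nb, not_or]
    constructor
    · rintro ⟨⟨h1, h2, h3⟩, h4⟩
      exact ⟨h1, h2, h4⟩
    · rintro ⟨h1, h2, h4⟩
      exact ⟨⟨h1, h2, h4.ne'⟩, h4⟩
  rw [h2, Finset.card_erase_of_mem, Finset.card_erase_of_mem (mem_nb.2 hu.symm)]
  · omega
  · exact Finset.mem_erase.2 ⟨huv.symm, mem_nb.2 hv.symm⟩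

lemma int_pow (k : ℕ) : ∫ t in (0 : ℝ)..1, (1 - t) ^ k = 1 / ((k : ℝ) + 1) := by
  have h := intervalIntegral.integral_comp_sub_left (a := (0 : ℝ)) (b := 1)
    (fun t : ℝ => t ^ k) 1
  simp only [sub_self, sub_zero] at h
  rw [h, _root_.integral_pow]
  simp

/-- one cherry of the tree at a fixed place of the host graph -/
theorem cherry_one (hU : StUpper) (hG : StGrowEx) (hC : StCount) (T : SimpleGraph U)
    (H : SimpleGraph V) (c : ℝ) (hc : 0 < c) (hT : T.IsTree) {u x v : V} (huv : u ≠ v)
    (hu : H.Adj u x) (hv : H.Adj v x) {a b e : U} (hab : T.Adj a b) (hbe : T.Adj b e)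
    (hea : e ≠ a) :
    (((nb H x).card : ℝ) - 1) * ∑ φ : U → V,
      (if φ a = u ∧ φ b = x ∧ φ e = v then WW T H c φ else 0) ≤ 1 := by
  obtain ⟨l, hl⟩ := (hG U T hT).2 a b e hab hbe hea
  have hl' : Grow T (insert e {a, b}) l univ := hl.2.2.2
  have heD : e ∉ ({a, b} : Finset U) := hl.1
  set ψ := rt x a b u x with hψ
  set ψ' := Function.update ψ e v with hψ'
  have hψb : ψ b = x := rt_snd hab.ne
  have hψa : ψ a = u := rt_fst
  have himg : ({a, b} : Finset U).image ψ = {u, x} := rt_image hab.ne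
  have hvimg : v ∉ ({a, b} : Finset U).image ψ := by
    rw [himg, Finset.mem_insert, Finset.mem_singleton, not_or]
    exact ⟨huv.symm, hv.ne⟩
  have hinjψ : Set.InjOn ψ (({a, b} : Finset U) : Set U) := rt_inj hab.ne hu.ne
  have hinj' : Set.InjOn ψ' ((insert e {a, b} : Finset U) : Set U) :=
    injOn_update heD hinjψ hvimg
  -- comparison with the extensions
  have h1 : ∑ φ : U → V, (if φ a = u ∧ φ b = x ∧ φ e = v then WW T H c φ else 0) ≤
      ∑ φ ∈ Ext x univ (insert e {a, b}) ψ',
        prr H φ ((e, b) :: l) * LI (((e, b) :: l).map Prod.snd) (FF T H c ∅ univ φ)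
          (fun _ => 0) := by
    rw [← Finset.sum_filter]
    have h2 : ∀ φ : U → V, φ ∉ Ext x univ (insert e {a, b}) ψ' →
        (φ a = u ∧ φ b = x ∧ φ e = v) → WW T H c φ = 0 := by
      intro φ hφ hφ'
      unfold WW
      rw [if_neg]
      rintro ⟨hi, _⟩
      apply hφ
      rw [mem_Ext]
      refine ⟨hi.injOn, ?_, fun w hw => absurd (Finset.mem_univ w) hw⟩
      intro w hw
      rw [Finset.mem_insert] at hw
      rcases hw with rfl | hw
      · rw [hψ', Function.update_self]; exact hφ'.2.2
      · have hwe : w ≠ e := fun h => heD (h ▸ hw)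
        rw [hψ', Function.update_of_ne hwe]
        rw [Finset.mem_insert, Finset.mem_singleton] at hw
        rcases hw with rfl | rfl
        · rw [hψa]; exact hφ'.1
        · rw [hψb]; exact hφ'.2.1
    have h3 : ∑ φ ∈ Finset.univ.filter (fun φ : U → V => φ a = u ∧ φ b = x ∧ φ e = v),
        WW T H c φ ≤ ∑ φ ∈ Ext x univ (insert e {a, b}) ψ', WW T H c φ := by
      rw [← Finset.sum_filter_add_sum_filter_not
        (Finset.univ.filter (fun φ : U → V => φ a = u ∧ φ b = x ∧ φ e = v))
        (fun φ => φ ∈ Ext x univ (insert e {a, b}) ψ')]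
      have h4 : ∑ φ ∈ (Finset.univ.filter (fun φ : U → V => φ a = u ∧ φ b = x ∧ φ e = v)).filter
          (fun φ => φ ∉ Ext x univ (insert e {a, b}) ψ'), WW T H c φ = 0 := by
        apply Finset.sum_eq_zero
        intro φ hφ
        rw [Finset.mem_filter, Finset.mem_filter] at hφ
        exact h2 φ hφ.2 hφ.1.2
      rw [h4, add_zero]
      apply Finset.sum_le_sum_of_subset_of_nonneg
      · intro φ hφ
        exact (Finset.mem_filter.1 hφ).2
      · intro φ _ _
        exact WW_nonneg T H c φ
    refine h3.trans (Finset.sum_le_sum ?_)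
    intro φ _
    by_cases hgood : Function.Injective φ ∧ ∀ a b, T.Adj a b → H.Adj (φ a) (φ b)
    · rw [WW_eq hC hgood.1 hgood.2 hab hl]
    · unfold WW
      rw [if_neg hgood]
      exact mul_nonneg (prr_nonneg _ _ _)
        (LI_nonneg _ _ _ (fun σ _ => FF_nonneg _ _ _ _ _ _ _))
  -- the sum over the extensions as an integral
  have h2 : ∑ φ ∈ Ext x univ (insert e {a, b}) ψ',
        prr H φ ((e, b) :: l) * LI (((e, b) :: l).map Prod.snd) (FF T H c ∅ univ φ)
          (fun _ => 0) =
      ∫ t in (0 : ℝ)..1, gm H (FF T H c ∅ univ) x univ l (insert e {a, b}) ψ'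
        (bump (fun _ => 0) b t) := by
    unfold gm
    rw [intervalIntegral.integral_finsetSum]
    · apply Finset.sum_congr rfl
      intro φ hφ
      rw [mem_Ext] at hφ
      have e1 : φ e = v := by
        rw [hφ.2.1 e (Finset.mem_insert_self _ _), hψ', Function.update_self]
      have e2 : φ b = x := by
        rw [hφ.2.1 b (Finset.mem_insert_of_mem (by simp)), hψ',
          Function.update_of_ne (fun h : b = e => heD (h ▸ by simp)), hψb]
      rw [prr_cons]
      simp only [List.map_cons, LI, e1, e2]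
      rw [rr_of_adj hv.symm, one_mul, intervalIntegral.integral_const_mul]
    · intro φ _
      apply Continuous.intervalIntegrable
      have := continuous_LI_bump (FF T H c ∅ univ φ) (continuous_FF T H c ∅ univ φ)
        (l.map Prod.snd) (fun _ => 0) b
      fun_prop
  have hbe' : e ≠ b := hbe.ne'
  have hbD : b ∈ ({a, b} : Finset U) := by simp
  -- the bound of the integrand
  have h3 : ∫ t in (0 : ℝ)..1, gm H (FF T H c ∅ univ) x univ l (insert e {a, b}) ψ'
        (bump (fun _ => 0) b t) ≤ ∫ t in (0 : ℝ)..1, (1 - t) ^ ((nb H x).card - 2) := by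
    apply intervalIntegral.integral_mono_on zero_le_one
    · apply Continuous.intervalIntegrable
      exact (continuous_gm H _ (fun φ => continuous_FF T H c ∅ univ φ) x univ l _ _).comp
        (continuous_bump _ _)
    · apply Continuous.intervalIntegrable
      fun_prop
    · intro t ht
      have h4 := hU U V T H c x ∅ univ l (insert e {a, b}) ψ' (bump (fun _ => 0) b t) hc hl'
        hinj' (fun w => bump_nonneg (fun _ => le_refl _) b ht.1 w)
        (fun w hw => by
          have : w ≠ b := by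
            rintro rfl
            exact hw (Finset.mem_insert_of_mem hbD)
          rw [bump_of_ne _ _ _ this])
        (fun s _ => Finset.notMem_empty _)
      refine h4.trans (le_of_eq ?_)
      rw [hψ', PP_next H ψ heD (by rw [bump_of_ne _ _ _ hbe']) v, himg,
        ← prod_le huv hu hv ht.2]
      apply Finset.prod_congr rfl
      intro y _
      rw [av_bump H {a, b} ψ _ hbD, av_root, hψb]
  have hdeg : 2 ≤ (nb H x).card := by
    have : ({u, v} : Finset V) ⊆ nb H x := by
      intro y hy
      rw [Finset.mem_insert, Finset.mem_singleton] at hy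
      rcases hy with rfl | rfl
      · exact mem_nb.2 hu.symm
      · exact mem_nb.2 hv.symm
    have h5 := Finset.card_le_card this
    rwa [Finset.card_pair huv] at h5
  have hpos : (0 : ℝ) < ((nb H x).card : ℝ) - 1 := by
    have : (2 : ℝ) ≤ (nb H x).card := by exact_mod_cast hdeg
    linarith
  have hcast : (((nb H x).card - 2 : ℕ) : ℝ) + 1 = ((nb H x).card : ℝ) - 1 := by
    rw [Nat.cast_sub hdeg]
    push_cast
    ring
  rw [int_pow, hcast] at h3
  calc (((nb H x).card : ℝ) - 1) * ∑ φ : U → V,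
      (if φ a = u ∧ φ b = x ∧ φ e = v then WW T H c φ else 0)
      ≤ (((nb H x).card : ℝ) - 1) * (1 / (((nb H x).card : ℝ) - 1)) :=
        mul_le_mul_of_nonneg_left (h1.trans (h2.le.trans h3)) hpos.le
    _ = 1 := by field_simp

/-- the cherries of the tree -/
noncomputable def ch (T : SimpleGraph U) : Finset (U × U × U) :=
  Finset.univ.filter (fun q => T.Adj q.1 q.2.1 ∧ T.Adj q.2.1 q.2.2 ∧ q.2.2 ≠ q.1)

lemma sum_deg {T : SimpleGraph U} (hT : T.IsTree) {m : ℕ} (hm : Fintype.card U = m + 1) :
    ∑ b : U, (nb T b).card = 2 * m := by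
  have h1 := T.sum_degrees_eq_twice_card_edges
  have h2 := hT.card_edgeFinset
  have h3 : #T.edgeFinset = m := by omega
  have h4 : ∑ b : U, (nb T b).card = ∑ b : U, T.degree b := by
    apply Finset.sum_congr rfl
    intro b _
    unfold nb
    rw [← T.card_neighborFinset_eq_degree]
    congr 1
    ext y
    simp
  rw [h4, h1]
  congr 1

lemma card_ch {T : SimpleGraph U} (hT : T.IsTree) {m Δ : ℕ} (hm : Fintype.card U = m + 1)
    (hΔ : ∀ u, (nb T u).card ≤ Δ) : (ch T).card ≤ 2 * m * Δ := by
  have h1 : ch T ⊆ (Finset.univ : Finset U).biUnion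
      (fun b => ((nb T b) ×ˢ (nb T b)).image (fun r => (r.1, b, r.2))) := by
    intro q hq
    unfold ch at hq
    rw [Finset.mem_filter] at hq
    rw [Finset.mem_biUnion]
    refine ⟨q.2.1, Finset.mem_univ _, Finset.mem_image.2 ⟨(q.1, q.2.2), ?_, rfl⟩⟩
    rw [Finset.mem_product]
    exact ⟨mem_nb.2 hq.2.1.symm, mem_nb.2 hq.2.2.1⟩
  refine (Finset.card_le_card h1).trans (Finset.card_biUnion_le.trans ?_)
  calc ∑ b : U, (((nb T b) ×ˢ (nb T b)).image (fun r => (r.1, b, r.2))).card
      ≤ ∑ b : U, (nb T b).card * Δ := by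
        apply Finset.sum_le_sum
        intro b _
        refine Finset.card_image_le.trans ?_
        rw [Finset.card_product]
        exact Nat.mul_le_mul_left _ (hΔ b)
    _ = 2 * m * Δ := by rw [← Finset.sum_mul, sum_deg hT hm]

theorem cherry_le (hU : StUpper) (hG : StGrowEx) (hC : StCount) (T : SimpleGraph U)
    (H : SimpleGraph V) (c : ℝ) (m Δ : ℕ) (hc : 0 < c) (hT : T.IsTree)
    (hm : Fintype.card U = m + 1) (hΔ : ∀ u, (nb T u).card ≤ Δ) (u x v : V) (huv : u ≠ v)
    (hu : H.Adj u x) (hv : H.Adj v x) :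
    (((nb H x).card : ℝ) - 1) * ∑ φ : U → V, WW T H c φ * (cov T φ u x * cov T φ v x) ≤
      2 * m * Δ := by
  have hpos : (0 : ℝ) ≤ ((nb H x).card : ℝ) - 1 := by
    have h1 : 0 < (nb H x).card := Finset.card_pos.2 ⟨u, mem_nb.2 hu.symm⟩
    have : (1 : ℝ) ≤ (nb H x).card := by exact_mod_cast h1
    linarith
  have h1 : ∀ φ : U → V, WW T H c φ * (cov T φ u x * cov T φ v x) ≤
      ∑ q ∈ ch T, (if φ q.1 = u ∧ φ q.2.1 = x ∧ φ q.2.2 = v then WW T H c φ else 0) := by
    intro φ
    have hnn : ∀ q ∈ ch T, 0 ≤ (if φ q.1 = u ∧ φ q.2.1 = x ∧ φ q.2.2 = v then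
        WW T H c φ else 0) := by
      intro q _
      split_ifs
      · exact WW_nonneg T H c φ
      · exact le_refl _
    by_cases hgood : Function.Injective φ ∧ ∀ a b, T.Adj a b → H.Adj (φ a) (φ b)
    · unfold cov
      by_cases h2 : ∃ a b, T.Adj a b ∧ φ a = u ∧ φ b = x
      · by_cases h3 : ∃ a b, T.Adj a b ∧ φ a = v ∧ φ b = x
        · rw [if_pos h2, if_pos h3, mul_one, mul_one]
          obtain ⟨a, b, hab, ha, hb⟩ := h2
          obtain ⟨a', b', hab', ha', hb'⟩ := h3
          have hbb : b' = b := hgood.1 (hb'.trans hb.symm)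
          subst hbb
          have hmem : (a, b', a') ∈ ch T := by
            unfold ch
            rw [Finset.mem_filter]
            refine ⟨Finset.mem_univ _, hab, hab'.symm, ?_⟩
            intro h4
            simp only at h4
            rw [h4] at ha'
            exact huv (ha.symm.trans ha')
          refine le_trans (le_of_eq ?_) (Finset.single_le_sum hnn hmem)
          rw [if_pos ⟨ha, hb, ha'⟩]
        · rw [if_neg h3, mul_zero, mul_zero]
          exact Finset.sum_nonneg hnn
      · rw [if_neg h2, zero_mul, mul_zero]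
        exact Finset.sum_nonneg hnn
    · have : WW T H c φ = 0 := by unfold WW; rw [if_neg hgood]
      rw [this, zero_mul]
      exact (Finset.sum_nonneg hnn).trans (le_of_eq (by rw [this]))
  calc (((nb H x).card : ℝ) - 1) * ∑ φ : U → V, WW T H c φ * (cov T φ u x * cov T φ v x)
      ≤ (((nb H x).card : ℝ) - 1) * ∑ φ : U → V, ∑ q ∈ ch T,
        (if φ q.1 = u ∧ φ q.2.1 = x ∧ φ q.2.2 = v then WW T H c φ else 0) :=
        mul_le_mul_of_nonneg_left (Finset.sum_le_sum (fun φ _ => h1 φ)) hpos
    _ = ∑ q ∈ ch T, (((nb H x).card : ℝ) - 1) * ∑ φ : U → V,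
        (if φ q.1 = u ∧ φ q.2.1 = x ∧ φ q.2.2 = v then WW T H c φ else 0) := by
        rw [Finset.sum_comm, Finset.mul_sum]
    _ ≤ ∑ q ∈ ch T, (1 : ℝ) := by
        apply Finset.sum_le_sum
        intro q hq
        unfold ch at hq
        rw [Finset.mem_filter] at hq
        exact cherry_one hU hG hC T H c hc hT huv hu hv hq.2.1 hq.2.2.1 hq.2.2.2
    _ = (ch T).card := by simp
    _ ≤ 2 * m * Δ := by exact_mod_cast card_ch hT hm hΔ

end WtP

theorem stWt (hU : StUpper) (hG : StGrowEx) (hUse : StUse) (hC : StCount) (_hS : StSame) :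
    StWt := by
  intro U V _ _ T H c m Δ hc hT hm _ hΔ
  refine ⟨fun φ => WtP.WW_nonneg T H c φ, ?_, ?_, ?_⟩
  · intro φ hφ
    by_contra hcon
    apply hφ
    unfold WW
    rw [if_neg hcon]
  · intro x y hxy
    exact WtP.use_le hU hG hUse T H c m hc hT hm x y hxy
  · intro u x v huv hu hv
    exact WtP.cherry_le hU hG hC T H c m Δ hc hT hm hΔ u x v huv hu hv

end Pool.Agent.Lib.GHA
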