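import Pool.Agent.Lib.MP_df0165_co.Ap.Num
import Pool.Agent.Lib.MP_df0165_co.Ap.Wt
import Pool.Agent.Lib.MP_df0165_co.Ap.Static
import Pool.Agent.Lib.MP_df0165_co.Ap.Low
import Pool.Agent.Lib.MP_df0165_co.Ap.Init
import Pool.Agent.Lib.MP_df0165_co.Ap.Hit
import Pool.Agent.Lib.MP_df0165_co.Ap.Root
import Pool.Agent.Lib.MP_df0165_co.Ap.Upper
import Pool.Agent.Lib.MP_df0165_co.Ap.GrowEx
import Pool.Agent.Lib.MP_df0165_co.Ap.Reroot
import Pool.Agent.Lib.MP_df0165_co.Ap.Step
import Pool.Agent.Lib.MP_df0165_co.Ap.GS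
import Pool.Agent.Lib.MP_df0165_co.Ap.GenA
import Pool.Agent.Lib.MP_df0165_co.Ap.Gen3
import Pool.Agent.Lib.MP_df0165_co.Ap.Gen4
import Pool.Agent.Lib.MP_df0165_co.Ap.PhiCont

set_option autoImplicit false

/-!
# Approximate Graham-Haggkvist theorem: assembly of the static part
-/

namespace Pool.Agent.Lib.GHA

theorem rootChange : StRootChange := stRootChange stSame stCount

theorem useThm : StUse := stUse stSame stCount

theorem hitThm : StHit := stHit stUpper stReroot rootChange

theorem wtThm : StWt := stWt stUpper stGrowEx useThm stCount stSame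

theorem lowThm : StLow := stLow stStep stGS stGenA stGen3 stGen4 stPhiCont

theorem initThm : StInit := stInit stCount

theorem staticThm : StStatic := stStatic lowThm initThm useThm hitThm stGrowEx wtThm stCount

end Pool.Agent.Lib.GHA
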