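import Pool.Agent.Lib.MP_df0165_co.Ap.Adapter
import Pool.Agent.Lib.MP_df0165_co.Ap.AllS

set_option autoImplicit false

/-!
# Approximate Graham-Haggkvist theorem: assembly
-/

namespace Pool.Agent.Lib.GHA

/-- The approximate Graham-Haggkvist theorem for all hosts. -/
theorem stMain : StMain := stMain_of wtThm staticThm stNum

end Pool.Agent.Lib.GHA
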