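import Mathlib
import Pool.Agent.Lib.MP_df0165_co.Ap.Base

set_option autoImplicit false
set_option linter.unusedSectionVars false
set_option linter.unusedVariables false

/-!
# Approximate Graham-Haggkvist: consequences of `PHI < 1` (module GS)
-/

namespace Pool.Agent.Lib.GHA.GSm

open Finset Classical
open Pool.Agent.Lib.GHA

variable {U V : Type} [Fintype U] [Fintype V]

/-! ## Sums of terms `f i - 1` -/

lemma sum_ge {ι : Type} (I J : Finset ι) (f : ι → ℝ) (hf : ∀ i ∈ I, 0 ≤ f i)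
    (hJ : ∀ i ∈ I, i ∉ J → f i = 1) : -(J.card : ℝ) ≤ ∑ i ∈ I, (f i - 1) := by
  have h1 : ∑ i ∈ I, (if i ∈ J then (-1 : ℝ) else 0) ≤ ∑ i ∈ I, (f i - 1) := by
    refine Finset.sum_le_sum (fun i hi => ?_)
    by_cases h : i ∈ J
    · rw [if_pos h]; linarith [hf i hi]
    · rw [if_neg h, hJ i hi h]; norm_num
  have h2 : ∑ i ∈ I, (if i ∈ J then (-1 : ℝ) else 0) = -(((I.filter (fun i => i ∈ J)).card : ℕ) : ℝ) := by
    rw [← Finset.sum_filter, Finset.sum_const, nsmul_eq_mul]; ring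
  have h3 : (I.filter (fun i => i ∈ J)).card ≤ J.card := by
    refine Finset.card_le_card (fun i hi => ?_)
    exact (Finset.mem_filter.1 hi).2
  have h4 : (((I.filter (fun i => i ∈ J)).card : ℕ) : ℝ) ≤ (J.card : ℝ) := by exact_mod_cast h3
  linarith

lemma sum_ge' {ι : Type} (I J : Finset ι) (f : ι → ℝ) (hf : ∀ i ∈ I, 0 ≤ f i)
    (hJ : ∀ i ∈ I, i ∉ J → f i = 1) {i0 : ι} (h0 : i0 ∈ I) (h1 : i0 ∈ J) :
    f i0 - (J.card : ℝ) ≤ ∑ i ∈ I, (f i - 1) := by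
  have h2 := sum_ge (I.erase i0) (J.erase i0) f (fun i hi => hf i (Finset.mem_of_mem_erase hi))
    (fun i hi hj => hJ i (Finset.mem_of_mem_erase hi)
      (fun hj' => hj (Finset.mem_erase.2 ⟨Finset.ne_of_mem_erase hi, hj'⟩)))
  have h3 : ((J.erase i0).card : ℝ) = (J.card : ℝ) - 1 := by
    have h4 := Finset.card_erase_add_one h1
    have h5 : (((J.erase i0).card + 1 : ℕ) : ℝ) = (J.card : ℝ) := by rw [h4]
    push_cast at h5
    linarith
  rw [h3] at h2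
  have h6 : ∑ i ∈ I, (f i - 1) = (f i0 - 1) + ∑ i ∈ I.erase i0, (f i - 1) :=
    (Finset.add_sum_erase I (fun i => f i - 1) h0).symm
  rw [h6]
  linarith

/-! ## The zone of the captured vertices -/

/-- The captured host vertices and their neighbours. -/
noncomputable def zone (H : SimpleGraph V) (D : Finset U) (ψ : U → V) : Finset V :=
  D.biUnion (fun u => insert (ψ u) (nb H (ψ u)))

lemma card_zone {H : SimpleGraph V} {d : ℕ} (hd : ∀ v, (nb H v).card ≤ d) (D : Finset U)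
    (ψ : U → V) : (zone H D ψ).card ≤ D.card * (d + 1) := by
  unfold zone
  refine Finset.card_biUnion_le_card_mul D _ (d + 1) (fun u _ => ?_)
  exact (Finset.card_insert_le _ _).trans (Nat.succ_le_succ (hd _))

lemma notMem_image {H : SimpleGraph V} {D : Finset U} {ψ : U → V} {y : V}
    (hy : y ∉ zone H D ψ) : y ∉ D.image ψ := by
  intro h
  obtain ⟨u, hu, rfl⟩ := Finset.mem_image.1 h
  exact hy (Finset.mem_biUnion.2 ⟨u, hu, Finset.mem_insert_self _ _⟩)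

lemma Ex_eq_zero {H : SimpleGraph V} {D : Finset U} {ψ : U → V} (τ : U → ℝ) {y : V}
    (hy : ∀ u ∈ D, ¬ H.Adj (ψ u) y) : Ex H D ψ τ y = 0 := by
  unfold Ex
  refine Finset.sum_eq_zero (fun u hu => ?_)
  rw [rr_of_not_adj (hy u hu), mul_zero]

lemma av_zone {H : SimpleGraph V} {D : Finset U} {ψ : U → V} (τ : U → ℝ) {y : V}
    (hy : y ∉ zone H D ψ) : av H D ψ τ y = 1 := by
  unfold av
  rw [Ex_eq_zero τ, sub_zero]
  intro u hu h
  exact hy (Finset.mem_biUnion.2 ⟨u, hu, Finset.mem_insert_of_mem (mem_nb.2 h)⟩)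

lemma hv_zone {H : SimpleGraph V} {D : Finset U} {ψ : U → V} (τ : U → ℝ) {y : V}
    (hy : y ∉ zone H D ψ) : hv H D ψ τ y = 0 := by
  unfold hv
  rw [if_neg (notMem_image hy), av_zone τ hy]; norm_num

lemma eb_zone {H : SimpleGraph V} {D : Finset U} {ψ : U → V} (τ : U → ℝ) {y : V}
    (hy : y ∉ zone H D ψ) : eb H D ψ τ y = 0 := by
  unfold eb
  rw [if_neg (notMem_image hy), av_zone τ hy]; norm_num

lemma sum_hv_zone {H : SimpleGraph V} {D : Finset U} {ψ : U → V} (τ : U → ℝ) {A : Finset V}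
    (hA : ∀ y ∈ A, y ∉ zone H D ψ) : ∑ y ∈ A, hv H D ψ τ y = 0 :=
  Finset.sum_eq_zero (fun y hy => hv_zone τ (hA y hy))

lemma At_zone {H : SimpleGraph V} {D : Finset U} {ψ : U → V} (s e1 ka : ℝ) (τ : U → ℝ)
    {A : Finset V} (hA : ∀ y ∈ A, y ∉ zone H D ψ) : At H s e1 ka A D ψ τ = 1 := by
  unfold At
  rw [sum_hv_zone τ hA, Finset.sum_eq_zero (fun y hy => eb_zone τ (hA y hy))]
  simp

lemma At_nonneg (H : SimpleGraph V) (s e1 ka : ℝ) (A : Finset V) (D : Finset U)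
    (ψ : U → V) (τ : U → ℝ) : 0 ≤ At H s e1 ka A D ψ τ := (Real.exp_pos _).le

/-- Vertices adjacent to the zone. -/
noncomputable def J1 (H : SimpleGraph V) (D : Finset U) (ψ : U → V) : Finset V :=
  (zone H D ψ).biUnion (fun y => nb H y)

/-- Pairs of vertices adjacent to a common vertex of the zone. -/
noncomputable def J2 (H : SimpleGraph V) (D : Finset U) (ψ : U → V) : Finset (Σ _ : V, V) :=
  (zone H D ψ).biUnion (fun y => (nb H y).sigma (fun _ => nb H y))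

lemma card_J1 {H : SimpleGraph V} {d : ℕ} (hd : ∀ v, (nb H v).card ≤ d) (D : Finset U)
    (ψ : U → V) : (J1 H D ψ).card ≤ (zone H D ψ).card * d :=
  Finset.card_biUnion_le_card_mul _ _ d (fun u _ => hd u)

lemma card_J2 {H : SimpleGraph V} {d : ℕ} (hd : ∀ v, (nb H v).card ≤ d) (D : Finset U)
    (ψ : U → V) : (J2 H D ψ).card ≤ (zone H D ψ).card * d ^ 2 := by
  refine Finset.card_biUnion_le_card_mul _ _ (d ^ 2) (fun u _ => ?_)
  rw [Finset.card_sigma, Finset.sum_const, smul_eq_mul, pow_two]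
  exact Nat.mul_le_mul (hd u) (hd u)

lemma card_J {P : Par} {H : SimpleGraph V} (hd : ∀ v, (nb H v).card ≤ P.d) {D : Finset U}
    (ψ : U → V) (hD : D.card ≤ P.m + 1) :
    ((J1 H D ψ).card : ℝ) + ((J2 H D ψ).card : ℝ) ≤ P.K1 := by
  have h1 := card_J1 hd D ψ
  have h2 := card_J2 hd D ψ
  have h3 := card_zone hd D ψ
  have h4 : (zone H D ψ).card ≤ (P.m + 1) * (P.d + 1) :=
    h3.trans (Nat.mul_le_mul_right _ hD)
  have h5 : (J1 H D ψ).card + (J2 H D ψ).card ≤ (P.m + 1) * (P.d + 1) * (P.d + P.d ^ 2) := by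
    calc (J1 H D ψ).card + (J2 H D ψ).card
        ≤ (zone H D ψ).card * P.d + (zone H D ψ).card * P.d ^ 2 := add_le_add h1 h2
      _ = (zone H D ψ).card * (P.d + P.d ^ 2) := by ring
      _ ≤ _ := Nat.mul_le_mul_right _ h4
  unfold Par.K1
  exact_mod_cast h5

lemma J1_spec {H : SimpleGraph V} {D : Finset U} {ψ : U → V} {v : V} (hv : v ∉ J1 H D ψ)
    (B : Finset V) : ∀ y ∈ nb H v \ B, y ∉ zone H D ψ := by
  intro y hy hz
  have h1 : H.Adj v y := mem_nb.1 (Finset.mem_sdiff.1 hy).1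
  exact hv (Finset.mem_biUnion.2 ⟨y, hz, mem_nb.2 h1.symm⟩)

lemma J2_spec {H : SimpleGraph V} {D : Finset U} {ψ : U → V} {v x : V}
    (hv : (⟨v, x⟩ : Σ _ : V, V) ∉ J2 H D ψ) (B : Finset V) :
    ∀ y ∈ (nb H v ∩ nb H x) \ B, y ∉ zone H D ψ := by
  intro y hy hz
  have h0 := Finset.mem_inter.1 (Finset.mem_sdiff.1 hy).1
  have h1 : H.Adj v y := mem_nb.1 h0.1
  have h2 : H.Adj x y := mem_nb.1 h0.2
  refine hv (Finset.mem_biUnion.2 ⟨y, hz, ?_⟩)
  rw [Finset.mem_sigma]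
  exact ⟨mem_nb.2 h1.symm, mem_nb.2 h2.symm⟩

lemma AP_eq (H : SimpleGraph V) (B : Finset V) (e1 ka K1 : ℝ) (D : Finset U)
    (ψ : U → V) (τ : U → ℝ) :
    AP H B e1 ka K1 D ψ τ = ∑ v ∈ Bᶜ, (At H (-1) e1 ka (nb H v \ B) D ψ τ - 1)
      + ∑ p ∈ Bᶜ.sigma (fun v => Bᶜ.erase v),
          (At H 1 e1 ka ((nb H p.1 ∩ nb H p.2) \ B) D ψ τ - 1) + K1 := by
  unfold AP
  rw [Finset.sum_sigma]

section bounds

variable {P : Par} {T : SimpleGraph U} {H : SimpleGraph V} {B : Finset V} {l : List (U × U)}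
  {D : Finset U} {ψ : U → V} {τ : U → ℝ}

lemma card_D (hI : Inv P T H B l D ψ τ) : D.card ≤ P.m + 1 := by
  have h := hI.card
  omega

lemma sum1_ge (hG : Good P H B) : -((J1 H D ψ).card : ℝ) ≤
    ∑ v ∈ Bᶜ, (At H (-1) P.e1 P.ka (nb H v \ B) D ψ τ - 1) :=
  sum_ge Bᶜ (J1 H D ψ) (fun v => At H (-1) P.e1 P.ka (nb H v \ B) D ψ τ)
    (fun v _ => At_nonneg _ _ _ _ _ _ _ _)
    (fun v _ hv => At_zone _ _ _ τ (J1_spec hv B))

lemma sum2_ge (hG : Good P H B) : -((J2 H D ψ).card : ℝ) ≤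
    ∑ p ∈ Bᶜ.sigma (fun v => Bᶜ.erase v),
          (At H 1 P.e1 P.ka ((nb H p.1 ∩ nb H p.2) \ B) D ψ τ - 1) :=
  sum_ge (Bᶜ.sigma (fun v => Bᶜ.erase v)) (J2 H D ψ)
    (fun p => At H 1 P.e1 P.ka ((nb H p.1 ∩ nb H p.2) \ B) D ψ τ)
    (fun v _ => At_nonneg _ _ _ _ _ _ _ _)
    (fun v _ hv => At_zone _ _ _ τ (J2_spec hv B))

lemma AP_nonneg (hG : Good P H B) (hI : Inv P T H B l D ψ τ) :
    0 ≤ AP H B P.e1 P.ka P.K1 D ψ τ := by
  rw [AP_eq]
  have h1 := sum1_ge (D := D) (ψ := ψ) (τ := τ) hG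
  have h2 := sum2_ge (D := D) (ψ := ψ) (τ := τ) hG
  have h3 := card_J hG.deg_le ψ (card_D hI)
  linarith

lemma AP_ge1 (hG : Good P H B) (hI : Inv P T H B l D ψ τ) {v : V} (hv : v ∉ B)
    (hJ : v ∈ J1 H D ψ) :
    At H (-1) P.e1 P.ka (nb H v \ B) D ψ τ ≤ AP H B P.e1 P.ka P.K1 D ψ τ := by
  rw [AP_eq]
  have h1 := sum_ge' Bᶜ (J1 H D ψ) (fun v => At H (-1) P.e1 P.ka (nb H v \ B) D ψ τ)
    (fun v _ => At_nonneg _ _ _ _ _ _ _ _)
    (fun v _ hv => At_zone _ _ _ τ (J1_spec hv B)) (Finset.mem_compl.2 hv) hJ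
  have h2 := sum2_ge (D := D) (ψ := ψ) (τ := τ) hG
  have h3 := card_J hG.deg_le ψ (card_D hI)
  linarith

lemma AP_ge2 (hG : Good P H B) (hI : Inv P T H B l D ψ τ) {v x : V} (hv : v ∉ B) (hx : x ∉ B)
    (hne : x ≠ v) (hJ : (⟨v, x⟩ : Σ _ : V, V) ∈ J2 H D ψ) :
    At H 1 P.e1 P.ka ((nb H v ∩ nb H x) \ B) D ψ τ ≤ AP H B P.e1 P.ka P.K1 D ψ τ := by
  rw [AP_eq]
  have hmem : (⟨v, x⟩ : Σ _ : V, V) ∈ Bᶜ.sigma (fun v => Bᶜ.erase v) := by
    rw [Finset.mem_sigma]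
    exact ⟨Finset.mem_compl.2 hv, Finset.mem_erase.2 ⟨hne, Finset.mem_compl.2 hx⟩⟩
  have h1 := sum_ge' (Bᶜ.sigma (fun v => Bᶜ.erase v)) (J2 H D ψ)
    (fun p => At H 1 P.e1 P.ka ((nb H p.1 ∩ nb H p.2) \ B) D ψ τ)
    (fun v _ => At_nonneg _ _ _ _ _ _ _ _)
    (fun v _ hv => At_zone _ _ _ τ (J2_spec hv B)) hmem hJ
  have h2 := sum1_ge (D := D) (ψ := ψ) (τ := τ) hG
  have h3 := card_J hG.deg_le ψ (card_D hI)
  linarith

lemma P3_nonneg (x : V) : 0 ≤ P3 T H P.e2 P.ρ P.ρ' l D ψ τ x := by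
  unfold P3
  split_ifs
  · exact (Real.exp_pos _).le
  · exact le_rfl

lemma P4_nonneg (u : U) : 0 ≤ P4 P.e2 P.ρ l τ u := (Real.exp_pos _).le

lemma extra3_nonneg : 0 ≤ (P.d : ℝ) * P.I3 * (l.length : ℝ) :=
  mul_nonneg (mul_nonneg (Nat.cast_nonneg _) (Real.exp_pos _).le) (Nat.cast_nonneg _)

lemma extra4_nonneg : 0 ≤ P.I4 * (l.length : ℝ) :=
  mul_nonneg (Real.exp_pos _).le (Nat.cast_nonneg _)

lemma G3_nonneg : 0 ≤ G3 P T H B l D ψ τ := by
  unfold G3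
  exact add_nonneg (Finset.sum_nonneg (fun x _ => P3_nonneg x)) extra3_nonneg

lemma G4_nonneg : 0 ≤ G4 P l D τ := by
  unfold G4
  exact add_nonneg (Finset.sum_nonneg (fun x _ => P4_nonneg x)) extra4_nonneg

lemma P3_le_G3 {x : V} (hx : x ∉ B) : P3 T H P.e2 P.ρ P.ρ' l D ψ τ x ≤ G3 P T H B l D ψ τ := by
  unfold G3
  have h1 : P3 T H P.e2 P.ρ P.ρ' l D ψ τ x ≤ ∑ x ∈ Bᶜ, P3 T H P.e2 P.ρ P.ρ' l D ψ τ x :=
    Finset.single_le_sum (f := fun x => P3 T H P.e2 P.ρ P.ρ' l D ψ τ x)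
      (fun x _ => P3_nonneg x) (Finset.mem_compl.2 hx)
  have h2 := extra3_nonneg (P := P) (l := l)
  linarith

lemma P4_le_G4 {u : U} (hu : u ∈ D) : P4 P.e2 P.ρ l τ u ≤ G4 P l D τ := by
  unfold G4
  have h1 : P4 P.e2 P.ρ l τ u ≤ ∑ u ∈ D, P4 P.e2 P.ρ l τ u :=
    Finset.single_le_sum (f := fun u => P4 P.e2 P.ρ l τ u) (fun x _ => P4_nonneg x) hu
  have h2 := extra4_nonneg (P := P) (l := l)
  linarith

lemma exp_lt {a b x : ℝ} (h : Real.exp (-a) * x < 1) (hb : Real.exp b ≤ x) : b < a := by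
  have h1 : Real.exp (-a) * Real.exp b < 1 :=
    lt_of_le_of_lt (mul_le_mul_of_nonneg_left hb (Real.exp_pos _).le) h
  rw [← Real.exp_add, Real.exp_lt_one_iff] at h1
  linarith

/-- The three groups are small. -/
lemma groups (hP : P.Ok) (hG : Good P H B) (hI : Inv P T H B l D ψ τ)
    (h : PHI P T H B l D ψ τ < 1) :
    P.w1 * AP H B P.e1 P.ka P.K1 D ψ τ < 1 ∧ P.w3 * G3 P T H B l D ψ τ < 1 ∧
      P.w4 * G4 P l D τ < 1 := by
  unfold PHI at h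
  have h1 : 0 ≤ P.w1 * AP H B P.e1 P.ka P.K1 D ψ τ :=
    mul_nonneg (Real.exp_pos _).le (AP_nonneg hG hI)
  have h2 : 0 ≤ P.w3 * G3 P T H B l D ψ τ := mul_nonneg (Real.exp_pos _).le G3_nonneg
  have h3 : 0 ≤ P.w4 * G4 P l D τ := mul_nonneg (Real.exp_pos _).le G4_nonneg
  refine ⟨?_, ?_, ?_⟩ <;> linarith

lemma q_le (hP : P.Ok) (hG : Good P H B) (hI : Inv P T H B l D ψ τ)
    (h : PHI P T H B l D ψ τ < 1) {x : V} (hx : x ∉ B) :
    Qx T H D ψ τ x ≤ 1 - 2 * P.c := by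
  by_cases ha : act H D ψ x
  · obtain ⟨-, h3, -⟩ := groups hP hG hI h
    have h4 := P3_le_G3 (P := P) (T := T) (H := H) (l := l) (D := D) (ψ := ψ) (τ := τ) hx
    unfold P3 at h4
    rw [if_pos ha] at h4
    unfold Par.w3 at h3
    have h5 := exp_lt h3 h4
    have h6 : P.e2 * (Qx T H D ψ τ x + P.ρ * (pend T H l D ψ x : ℝ) + P.ρ' * (rest l D : ℝ)
        - (1 - 2 * P.c)) < 0 := by linarith
    have h7 : Qx T H D ψ τ x + P.ρ * (pend T H l D ψ x : ℝ) + P.ρ' * (rest l D : ℝ)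
        - (1 - 2 * P.c) < 0 := by
      by_contra hcon
      push Not at hcon
      have := mul_nonneg hP.e2_nonneg hcon
      linarith
    have h8 : 0 ≤ P.ρ * (pend T H l D ψ x : ℝ) :=
      mul_nonneg hP.ρ_pos.le (Nat.cast_nonneg _)
    have h9 : 0 ≤ P.ρ' * (rest l D : ℝ) := mul_nonneg hP.ρ'_pos.le (Nat.cast_nonneg _)
    linarith
  · have h0 : Qx T H D ψ τ x = 0 := by
      unfold Qx
      refine Finset.sum_eq_zero (fun u hu => ?_)
      have hu' := (Finset.mem_filter.1 hu).1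
      rw [rr_of_not_adj, mul_zero]
      intro hadj
      exact ha (Or.inr ⟨u, hu', hadj⟩)
    rw [h0]
    have := hP.c_le
    linarith

lemma tau_le (hP : P.Ok) (hG : Good P H B) (hI : Inv P T H B l D ψ τ)
    (h : PHI P T H B l D ψ τ < 1) {u : U} (hu : u ∈ D) : τ u ≤ P.c := by
  obtain ⟨-, -, h3⟩ := groups hP hG hI h
  have h4 := P4_le_G4 (P := P) (l := l) (D := D) (τ := τ) hu
  unfold P4 at h4
  unfold Par.w4 at h3
  have h5 := exp_lt h3 h4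
  have h6 : P.e2 * (τ u + P.ρ * (rem l u : ℝ) - P.c) < 0 := by linarith
  have h7 : τ u + P.ρ * (rem l u : ℝ) - P.c < 0 := by
    by_contra hcon
    push Not at hcon
    have := mul_nonneg hP.e2_nonneg hcon
    linarith
  have h8 : 0 ≤ P.ρ * (rem l u : ℝ) := mul_nonneg hP.ρ_pos.le (Nat.cast_nonneg _)
  linarith

lemma Qx_eq_Ex {y : V} (hy : y ∉ D.image ψ) : Qx T H D ψ τ y = Ex H D ψ τ y := by
  unfold Qx Ex
  rw [Finset.filter_true_of_mem]
  intro u _ w hw he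
  exact absurd (Finset.mem_image.2 ⟨w, hw, he⟩) hy

lemma av_ge (hP : P.Ok) (hG : Good P H B) (hI : Inv P T H B l D ψ τ)
    (h : PHI P T H B l D ψ τ < 1) {y : V} (hy : y ∉ B) (hy' : y ∉ D.image ψ) :
    2 * P.c ≤ av H D ψ τ y := by
  have h1 := q_le hP hG hI h hy
  rw [Qx_eq_Ex hy'] at h1
  unfold av
  linarith

lemma eb_le_one (hP : P.Ok) (hG : Good P H B) (hI : Inv P T H B l D ψ τ)
    (h : PHI P T H B l D ψ τ < 1) {y : V} (hy : y ∉ B) : eb H D ψ τ y ≤ 1 := by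
  unfold eb
  by_cases hy' : y ∈ D.image ψ
  · rw [if_pos hy']
  · rw [if_neg hy']
    have h1 := av_ge hP hG hI h hy hy'
    have h2 := hP.c_pos
    linarith

lemma sum_eb_le (hP : P.Ok) (hG : Good P H B) (hI : Inv P T H B l D ψ τ)
    (h : PHI P T H B l D ψ τ < 1) {A : Finset V} (hA : ∀ y ∈ A, y ∉ B) :
    ∑ y ∈ A, eb H D ψ τ y ≤ A.card := by
  have h1 : ∑ y ∈ A, eb H D ψ τ y ≤ ∑ y ∈ A, (1 : ℝ) :=
    Finset.sum_le_sum (fun y hy => eb_le_one hP hG hI h (hA y hy))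
  simpa using h1

/-- From a bound of the exponential term to a bound of the sum of `hv`. -/
lemma hv_bound (hP : P.Ok) (hG : Good P H B) (hI : Inv P T H B l D ψ τ)
    (h : PHI P T H B l D ψ τ < 1) {A : Finset V} (hA : ∀ y ∈ A, y ∉ B) (hcard : A.card ≤ P.d)
    {s : ℝ} (hs : At H s P.e1 P.ka A D ψ τ ≤ AP H B P.e1 P.ka P.K1 D ψ τ) :
    s * ∑ y ∈ A, hv H D ψ τ y ≤ P.δ * P.d := by
  obtain ⟨h1, -, -⟩ := groups hP hG hI h
  unfold At at hs
  unfold Par.w1 at h1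
  have h2 := exp_lt h1 hs
  have h3 := sum_eb_le hP hG hI h hA
  have hd : (A.card : ℝ) ≤ P.d := by exact_mod_cast hcard
  have hka := hP.ka_pos
  have he1 := hP.e1_pos
  have hδ := hP.δ_pos
  have hc := hP.c_pos
  have h4 : P.ka * ∑ y ∈ A, eb H D ψ τ y ≤ P.ka * P.d :=
    mul_le_mul_of_nonneg_left (h3.trans hd) hka.le
  have hkae : P.ka = P.e1 * (P.δ / 4) := by
    unfold Par.ka
    have hc3 : P.c ^ 3 ≠ 0 := pow_ne_zero _ hc.ne'
    have h5 : P.e1 ^ 2 / P.c ^ 3 = P.e1 * (P.e1 / P.c ^ 3) := by ring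
    rw [h5]
    congr 1
    unfold Par.e1
    field_simp
  have hc2 : P.c2 = P.e1 * (P.δ / 2) := by unfold Par.c2; ring
  rw [hkae] at h4
  rw [hc2] at h2
  rw [hkae] at h2
  have hdd : (0 : ℝ) ≤ P.d := Nat.cast_nonneg _
  have h6 : P.e1 * (s * ∑ y ∈ A, hv H D ψ τ y) ≤ P.e1 * (P.δ * P.d) := by
    have h7 : s * P.e1 * ∑ y ∈ A, hv H D ψ τ y ≤ P.e1 * (P.δ / 2) * P.d
        + P.e1 * (P.δ / 4) * P.d := by linarith
    have h8 : 0 ≤ P.e1 * P.δ * P.d := mul_nonneg (mul_nonneg he1.le hδ.le) hdd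
    nlinarith
  exact le_of_mul_le_mul_left h6 he1

lemma sum_inv (A : Finset V) :
    ∑ y ∈ A \ D.image ψ, 1 / av H D ψ τ y = (A.card : ℝ) + ∑ y ∈ A, hv H D ψ τ y := by
  have h1 : ∑ y ∈ A, (1 + hv H D ψ τ y) = (A.card : ℝ) + ∑ y ∈ A, hv H D ψ τ y := by
    rw [Finset.sum_add_distrib]; simp
  rw [← h1]
  have h2 : ∀ y ∈ A, 1 + hv H D ψ τ y = if y ∉ D.image ψ then 1 / av H D ψ τ y else 0 := by
    intro y _
    unfold hv
    by_cases hy : y ∈ D.image ψ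
    · rw [if_pos hy, if_neg (not_not.2 hy)]; norm_num
    · rw [if_neg hy, if_pos hy]; ring
  rw [Finset.sum_congr rfl h2, ← Finset.sum_filter, Finset.sdiff_eq_filter]

end bounds

end Pool.Agent.Lib.GHA.GSm

namespace Pool.Agent.Lib.GHA

open Finset Classical GSm

/-- (S2) the potential is nonnegative (each group is) and `PHI < 1` implies the good
inequalities. -/
theorem stGS : StGS := by
  intro U V _ _ P T H B l D ψ τ hP hG hI
  refine ⟨⟨AP_nonneg hG hI, G3_nonneg, G4_nonneg⟩, fun h => ?_⟩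
  refine ⟨fun x hx => q_le hP hG hI h hx, fun u hu => tau_le hP hG hI h hu,
    fun y hy hy' => av_ge hP hG hI h hy hy', ?_, ?_⟩
  · intro v hv'
    obtain ⟨u, hu, rfl⟩ := Finset.mem_image.1 hv'
    have hvB := hI.disj u hu
    have hA : ∀ y ∈ nb H (ψ u) \ B, y ∉ B := fun y hy => (Finset.mem_sdiff.1 hy).2
    have hcard : (nb H (ψ u) \ B).card ≤ P.d :=
      (Finset.card_le_card Finset.sdiff_subset).trans (hG.deg_le _)
    have hdd : (0 : ℝ) ≤ P.d := Nat.cast_nonneg _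
    have hsum : -(P.δ * P.d) ≤ ∑ y ∈ nb H (ψ u) \ B, hv H D ψ τ y := by
      by_cases hJ : ψ u ∈ J1 H D ψ
      · have h1 := hv_bound hP hG hI h hA hcard (AP_ge1 hG hI hvB hJ)
        linarith
      · rw [sum_hv_zone τ (J1_spec hJ B)]
        have := mul_nonneg hP.δ_pos.le hdd
        linarith
    rw [sum_inv]
    have h2 : ((nb H (ψ u) \ B).card : ℝ) + ((nb H (ψ u) ∩ B).card : ℝ)
        = ((nb H (ψ u)).card : ℝ) := by
      exact_mod_cast Finset.card_sdiff_add_card_inter (nb H (ψ u)) B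
    have h3 := hG.deg _ hvB
    nlinarith
  · intro v hv' x hx hne
    obtain ⟨u, hu, rfl⟩ := Finset.mem_image.1 hv'
    have hvB := hI.disj u hu
    have hA : ∀ y ∈ (nb H (ψ u) ∩ nb H x) \ B, y ∉ B := fun y hy => (Finset.mem_sdiff.1 hy).2
    have hsub : (nb H (ψ u) ∩ nb H x) \ B ⊆ nb H (ψ u) :=
      Finset.sdiff_subset.trans Finset.inter_subset_left
    have hcard : ((nb H (ψ u) ∩ nb H x) \ B).card ≤ P.d :=
      (Finset.card_le_card hsub).trans (hG.deg_le _)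
    have hdd : (0 : ℝ) ≤ P.d := Nat.cast_nonneg _
    have hsum : ∑ y ∈ (nb H (ψ u) ∩ nb H x) \ B, hv H D ψ τ y ≤ P.δ * P.d := by
      by_cases hJ : (⟨ψ u, x⟩ : Σ _ : V, V) ∈ J2 H D ψ
      · have h1 := hv_bound hP hG hI h hA hcard (AP_ge2 hG hI hvB hx hne hJ)
        linarith
      · rw [sum_hv_zone τ (J2_spec hJ B)]
        exact mul_nonneg hP.δ_pos.le hdd
    rw [sum_inv]
    have h2 : (((nb H (ψ u) ∩ nb H x) \ B).card : ℝ) ≤ ((nb H (ψ u) ∩ nb H x).card : ℝ) := by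
      exact_mod_cast Finset.card_le_card Finset.sdiff_subset
    have h3 := hG.codeg _ _ hvB hx (Ne.symm hne)
    nlinarith

end Pool.Agent.Lib.GHA
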