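import Mathlib
import Pool.Agent.Lib.MP_df0165_co.Ap.Stmts

set_option autoImplicit false

/-!
# Approximate Graham-Haggkvist: numerical choice of the parameters
-/

namespace Pool.Agent.Lib.GHA

namespace Num

/-- From `Δ log (d+1) ≤ κ d` with `κ = s / R`. -/
lemma exp_le (s : ℝ) (hs : 0 < s) (R : ℕ) (hR : 0 < R) (D x : ℝ) (hD : 0 < D) (hx : 0 < x)
    (h : Real.log D ≤ s / R * x) : Real.exp (-(s * x)) * D ^ R ≤ 1 := by
  have hR' : (0 : ℝ) < R := by exact_mod_cast hR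
  have h1 : D ^ R = Real.exp (R * Real.log D) := by
    rw [mul_comm, Real.exp_mul, Real.exp_log hD, Real.rpow_natCast]
  rw [h1, ← Real.exp_add, Real.exp_le_one_iff]
  have h2 : (R : ℝ) * Real.log D ≤ R * (s / R * x) := mul_le_mul_of_nonneg_left h hR'.le
  have h3 : (R : ℝ) * (s / R * x) = s * x := by
    field_simp
  linarith

lemma poly_le (d m : ℝ) (Q : ℕ) (hd : 1 ≤ d) (hm : 0 ≤ m) (hmd : m ≤ d) :
    d * (3 * (2 * ((m + 1) * (d + 1) * (d + d ^ 2)) + (2 * d + 2 + d * m) + (m + 2))) *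
      (d + 1) ^ Q ≤ (d + 1) ^ (Q + 10) := by
  set D := d + 1 with hD
  have hD2 : 2 ≤ D := by linarith
  have hD0 : 0 ≤ D := by linarith
  have hdD : d ≤ D := by linarith
  have hmD : m + 1 ≤ D := by linarith
  have e1 : (m + 1) * D * (d + d ^ 2) ≤ D ^ 4 := by
    have h1 : d + d ^ 2 ≤ D ^ 2 := by
      rw [hD]; nlinarith
    have h2 : (m + 1) * D ≤ D ^ 2 := by nlinarith
    have h3 : 0 ≤ (m + 1) * D := by positivity
    calc (m + 1) * D * (d + d ^ 2) ≤ (m + 1) * D * D ^ 2 := mul_le_mul_of_nonneg_left h1 h3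
      _ ≤ D ^ 2 * D ^ 2 := mul_le_mul_of_nonneg_right h2 (by positivity)
      _ = D ^ 4 := by ring
  have e2 : 2 * d + 2 + d * m ≤ 2 * D ^ 2 := by
    have h1 : d * m ≤ d * d := mul_le_mul_of_nonneg_left hmd (by linarith)
    rw [hD]
    nlinarith
  have e3 : m + 2 ≤ D ^ 2 := by nlinarith
  have e4 : D ^ 2 * 4 ≤ D ^ 4 := by
    have h1 : (4 : ℝ) ≤ D ^ 2 := by nlinarith
    calc D ^ 2 * 4 ≤ D ^ 2 * D ^ 2 := mul_le_mul_of_nonneg_left h1 (by positivity)
      _ = D ^ 4 := by ring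
  have e5 : 3 * (2 * ((m + 1) * D * (d + d ^ 2)) + (2 * d + 2 + d * m) + (m + 2)) ≤ D ^ 9 := by
    have h1 : 3 * (2 * ((m + 1) * D * (d + d ^ 2)) + (2 * d + 2 + d * m) + (m + 2)) ≤
        9 * D ^ 4 := by linarith
    have h2 : (32 : ℝ) ≤ D ^ 5 := by
      calc (32 : ℝ) = 2 ^ 5 := by norm_num
        _ ≤ D ^ 5 := pow_le_pow_left₀ (by norm_num) hD2 5
    have h3 : 0 ≤ D ^ 4 := by positivity
    calc _ ≤ 9 * D ^ 4 := h1
      _ ≤ D ^ 5 * D ^ 4 := mul_le_mul_of_nonneg_right (by linarith) h3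
      _ = D ^ 9 := by ring
  have e6 : 0 ≤ 3 * (2 * ((m + 1) * D * (d + d ^ 2)) + (2 * d + 2 + d * m) + (m + 2)) := by
    have : 0 ≤ d := by linarith
    positivity
  calc d * (3 * (2 * ((m + 1) * D * (d + d ^ 2)) + (2 * d + 2 + d * m) + (m + 2))) * D ^ Q
      ≤ D * D ^ 9 * D ^ Q := by
        refine mul_le_mul_of_nonneg_right ?_ (by positivity)
        exact mul_le_mul hdD e5 e6 hD0
    _ = D ^ (Q + 10) := by ring

end Num

theorem stNum : StNum := by
  intro ε η hε hε1 hη hη1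
  refine ⟨η / 8, η / 8 * ε ^ 2 / 12, by positivity, by positivity, ?_⟩
  intro Q
  set c : ℝ := η / 8 with hc
  have hc0 : 0 < c := by positivity
  set δ : ℝ := c * ε ^ 2 / 12 with hδ
  have hδ0 : 0 < δ := by positivity
  set s : ℝ := min (δ * (δ * c ^ 3 / 4) / 2) (c * c * ε ^ 3 / 16 * c) with hs
  have hs0 : 0 < s := lt_min (by positivity) (by positivity)
  refine ⟨s / (Q + 10 : ℕ), by positivity, ?_⟩
  intro d m Δ γ hm hmd hΔ hlog hεγ hγ
  have hm' : (1 : ℝ) ≤ m := by exact_mod_cast hm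
  have hΔ' : (1 : ℝ) ≤ Δ := by exact_mod_cast hΔ
  have hd0 : (0 : ℝ) < d := by
    by_contra h
    push Not at h
    have h1 : (1 - η) * (d : ℝ) ≤ 0 := mul_nonpos_of_nonneg_of_nonpos (by linarith) h
    linarith
  have hd1 : 1 ≤ d := by exact_mod_cast hd0
  have hd1' : (1 : ℝ) ≤ d := by exact_mod_cast hd1
  have hmd' : (m : ℝ) ≤ d := by nlinarith
  have hγ0 : 0 < γ := lt_of_lt_of_le hε hεγ
  set e2 : ℝ := c * c * ε ^ 3 / 16 * (d / Δ) with he2
  have hx0 : (0 : ℝ) < d / Δ := by positivity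
  have he20 : 0 ≤ e2 := by positivity
  let P : Par := { d := d, Δ := Δ, m := m, γ := γ, α := δ, δ := δ, c := c, d1 := c, e2 := e2 }
  have htheta : e2 * ((1 + c) / (γ * d)) * Δ ≤ c * c * γ ^ 2 / 8 := by
    have h1 : e2 * ((1 + c) / (γ * d)) * Δ = c * c * ε ^ 3 * (1 + c) / (16 * γ) := by
      rw [he2]
      field_simp
    rw [h1, div_le_div_iff₀ (by positivity) (by norm_num)]
    have h2 : ε ^ 3 ≤ γ ^ 3 := pow_le_pow_left₀ hε.le hεγ 3
    have h3 : ε ^ 3 * (1 + c) ≤ γ ^ 3 * 2 := by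
      refine mul_le_mul h2 ?_ (by positivity) (by positivity)
      rw [hc]
      linarith
    have h4 : 0 ≤ c * c * 8 := by positivity
    nlinarith [mul_le_mul_of_nonneg_left h3 h4]
  have htheta1 : e2 * ((1 + c) / (γ * d)) * Δ ≤ 1 / 2 := by
    refine htheta.trans ?_
    have h1 : c ≤ 1 / 8 := by rw [hc]; linarith
    have h2 : γ ^ 2 ≤ 1 := by nlinarith
    have h3 : c * c ≤ 1 := by nlinarith
    nlinarith [mul_le_mul h3 h2 (by positivity) (by norm_num)]
  refine ⟨P, rfl, rfl, rfl, rfl, rfl, rfl, ?_, ?_⟩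
  · refine ⟨hd1, hΔ, ?_, hγ0, hγ, hδ0.le, hδ0, hc0, ?_, hc0, ?_, ?_, he20, ?_⟩
    · change m ≤ d
      exact_mod_cast hmd'
    · change c ≤ 1 / 8
      rw [hc]; linarith
    · change c ≤ 1 / 8
      rw [hc]; linarith
    · change 6 * (δ + δ) ≤ c * γ ^ 2
      have h1 : ε ^ 2 ≤ γ ^ 2 := pow_le_pow_left₀ hε.le hεγ 2
      rw [hδ]
      nlinarith [mul_le_mul_of_nonneg_left h1 hc0.le]
    · exact htheta
  · -- the estimate
    set D : ℝ := (d : ℝ) + 1 with hD
    have hD0 : 0 < D := by positivity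
    set E : ℝ := Real.exp (-(s * (d / Δ))) with hE
    have hE0 : 0 < E := Real.exp_pos _
    have hlog' : Real.log D ≤ s / (Q + 10 : ℕ) * (d / Δ) := by
      rw [← mul_div_assoc, le_div_iff₀ (by positivity), mul_comm]
      exact hlog
    have hED : E * D ^ (Q + 10) ≤ 1 := Pool.Agent.Lib.GHA.Num.exp_le s hs0 (Q + 10) (by omega) D (d / Δ) hD0 hx0 hlog'
    have hexp1 : Real.exp 1 ≤ 3 := by
      have := Real.exp_one_lt_d9
      linarith
    -- the three exponentials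
    have hw1 : P.w1 ≤ 3 * E := by
      have h1 : P.w1 = Real.exp (-(δ * (δ * c ^ 3 / 4) / 2 * d)) := rfl
      rw [h1]
      have h2 : Real.exp (-(δ * (δ * c ^ 3 / 4) / 2 * d)) ≤ E := by
        rw [hE, Real.exp_le_exp, neg_le_neg_iff]
        have h3 : (d : ℝ) / Δ ≤ d := div_le_self hd0.le hΔ'
        have h4 : s ≤ δ * (δ * c ^ 3 / 4) / 2 := min_le_left _ _
        exact mul_le_mul h4 h3 hx0.le (by positivity)
      linarith
    have hse : s * (d / Δ) ≤ e2 * c := by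
      have h4 : s ≤ c * c * ε ^ 3 / 16 * c := min_le_right _ _
      calc s * (d / Δ) ≤ c * c * ε ^ 3 / 16 * c * (d / Δ) := mul_le_mul_of_nonneg_right h4 hx0.le
        _ = e2 * c := by rw [he2]; ring
    have hw4 : P.w4 * P.I4 ≤ 3 * E := by
      have h1 : P.w4 * P.I4 = Real.exp (-(e2 * c)) *
        Real.exp (2 * (e2 * ((1 + c) / (γ * d))) * Δ) := rfl
      rw [h1, ← Real.exp_add]
      calc Real.exp (-(e2 * c) + 2 * (e2 * ((1 + c) / (γ * d))) * Δ)
          ≤ Real.exp (1 + -(s * (d / Δ))) := by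
            rw [Real.exp_le_exp]
            linarith
        _ = Real.exp 1 * E := by rw [Real.exp_add, hE]
        _ ≤ 3 * E := mul_le_mul_of_nonneg_right hexp1 hE0.le
    have hw3 : P.w3 * P.I3 ≤ 3 * E := by
      have h1 : P.w3 * P.I3 = Real.exp (-(e2 * (1 - 2 * c))) *
        Real.exp (e2 * (2 * ((1 + c) / (γ * d)) * Δ + (γ * (1 + c) * ((1 + c) / (γ * d))) * m)) :=
        rfl
      have h2 : (γ * (1 + c) * ((1 + c) / (γ * d))) * m ≤ 1 - 3 * c := by
        have h3 : (γ * (1 + c) * ((1 + c) / (γ * d))) * m = (1 + c) ^ 2 * m / d := by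
          field_simp
        rw [h3, div_le_iff₀ hd0]
        calc (1 + c) ^ 2 * m ≤ (1 + c) ^ 2 * ((1 - η) * d) :=
              mul_le_mul_of_nonneg_left hmd (by positivity)
          _ = ((1 + c) ^ 2 * (1 - η)) * d := by ring
          _ ≤ (1 - 3 * c) * d := by
              refine mul_le_mul_of_nonneg_right ?_ hd0.le
              rw [hc]
              nlinarith [sq_nonneg η, mul_pos hη hη, pow_pos hη 3]
      have h5 : e2 * ((γ * (1 + c) * ((1 + c) / (γ * d))) * m) ≤ e2 * (1 - 3 * c) :=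
        mul_le_mul_of_nonneg_left h2 he20
      rw [h1, ← Real.exp_add]
      calc _ ≤ Real.exp (1 + -(s * (d / Δ))) := by
            rw [Real.exp_le_exp]
            nlinarith
        _ = Real.exp 1 * E := by rw [Real.exp_add, hE]
        _ ≤ 3 * E := mul_le_mul_of_nonneg_right hexp1 hE0.le
    have hK : P.K1 = ((m : ℝ) + 1) * (d + 1) * (d + d ^ 2) := rfl
    have hphi : P.phi0 ≤ E * (3 * (2 * (((m : ℝ) + 1) * (d + 1) * (d + d ^ 2)) +
        (2 * d + 2 + d * m) + (m + 2))) := by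
      have hphi0 : P.phi0 = P.w1 * (2 * P.K1) + P.w3 * P.I3 * (2 * (d : ℝ) + 2 + d * m) +
        P.w4 * P.I4 * (m + 2) := rfl
      rw [hphi0, hK]
      have a1 := mul_le_mul_of_nonneg_right hw1
        (show 0 ≤ 2 * (((m : ℝ) + 1) * (d + 1) * (d + d ^ 2)) by positivity)
      have a2 := mul_le_mul_of_nonneg_right hw3 (show 0 ≤ 2 * (d : ℝ) + 2 + d * m by positivity)
      have a3 := mul_le_mul_of_nonneg_right hw4 (show 0 ≤ (m : ℝ) + 2 by positivity)
      linarith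
    have hpoly := Pool.Agent.Lib.GHA.Num.poly_le d m Q hd1' (by linarith) hmd'
    calc (d : ℝ) * P.phi0 * D ^ Q ≤ d * (E * (3 * (2 * (((m : ℝ) + 1) * (d + 1) * (d + d ^ 2)) +
        (2 * d + 2 + d * m) + (m + 2)))) * D ^ Q := by
          refine mul_le_mul_of_nonneg_right ?_ (by positivity)
          exact mul_le_mul_of_nonneg_left hphi hd0.le
      _ = E * (d * (3 * (2 * (((m : ℝ) + 1) * (d + 1) * (d + d ^ 2)) +
        (2 * d + 2 + d * m) + (m + 2))) * (d + 1) ^ Q) := by rw [hD]; ring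
      _ ≤ E * (d + 1) ^ (Q + 10) := mul_le_mul_of_nonneg_left hpoly hE0.le
      _ ≤ 1 := hED

end Pool.Agent.Lib.GHA
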