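import Mathlib
import Pool.Agent.Lib.MP_df0165_co.Ap.Stmts

set_option autoImplicit false
set_option linter.unusedSectionVars false

/-!
# One step of the dynamics
-/

namespace Pool.Agent.Lib.GHA

open Finset Classical

namespace One

theorem exp_le {z : ℝ} (h : |z| ≤ 1) : Real.exp z ≤ 1 + z + z ^ 2 := by
  have h1 := abs_le.mp (Real.abs_exp_sub_one_sub_id_le h)
  linarith [h1.2]

/-- averaging lemma: a centred bounded variable -/
theorem avg {ι : Type} [Fintype ι] (p N : ι → ℝ) (κ K M : ℝ) (hp : ∀ i, 0 ≤ p i)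
    (hp1 : ∑ i, p i ≤ 1) (hN : ∀ i, 0 ≤ N i) (hK : ∀ i, p i ≠ 0 → N i ≤ K)
    (hM : ∑ i, p i * N i = M) (hκ : |κ| * K ≤ 1) (hK0 : 0 ≤ K) :
    ∑ i, p i * Real.exp (κ * (M - N i)) + (1 - ∑ i, p i) * Real.exp (κ * M)
      ≤ 1 + κ ^ 2 * (K * M) := by
  have hM0 : 0 ≤ M := by
    rw [← hM]
    exact Finset.sum_nonneg (fun i _ => mul_nonneg (hp i) (hN i))
  have hle : ∀ i, p i * N i ≤ p i * K := by
    intro i
    by_cases h0 : p i = 0
    · rw [h0]; simp
    · exact mul_le_mul_of_nonneg_left (hK i h0) (hp i)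
  have hMK : M ≤ K := by
    rw [← hM]
    calc ∑ i, p i * N i ≤ ∑ i, p i * K := Finset.sum_le_sum (fun i _ => hle i)
      _ = (∑ i, p i) * K := by rw [Finset.sum_mul]
      _ ≤ 1 * K := mul_le_mul_of_nonneg_right hp1 hK0
      _ = K := one_mul K
  have hz0 : |κ * M| ≤ 1 := by
    rw [abs_mul, abs_of_nonneg hM0]
    exact (mul_le_mul_of_nonneg_left hMK (abs_nonneg κ)).trans hκ
  have hterm : ∀ i, p i * Real.exp (κ * (M - N i)) ≤
      p i * (1 + κ * M + κ ^ 2 * M ^ 2) - (κ + 2 * κ ^ 2 * M) * (p i * N i)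
        + κ ^ 2 * (p i * N i ^ 2) := by
    intro i
    by_cases h0 : p i = 0
    · rw [h0]; simp
    · have h1 : |κ * (M - N i)| ≤ 1 := by
        rw [abs_mul]
        have h2 : |M - N i| ≤ K := by
          rw [abs_le]
          have := hK i h0
          have := hN i
          constructor <;> linarith
        exact (mul_le_mul_of_nonneg_left h2 (abs_nonneg κ)).trans hκ
      have h2 := mul_le_mul_of_nonneg_left (exp_le h1) (hp i)
      refine h2.trans (le_of_eq ?_)
      ring
  have hlast : (1 - ∑ i, p i) * Real.exp (κ * M) ≤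
      (1 - ∑ i, p i) * (1 + κ * M + κ ^ 2 * M ^ 2) := by
    refine mul_le_mul_of_nonneg_left ?_ (by linarith)
    refine (exp_le hz0).trans (le_of_eq ?_)
    ring
  have hsq : ∑ i, p i * N i ^ 2 ≤ K * M := by
    rw [← hM, Finset.mul_sum]
    refine Finset.sum_le_sum (fun i _ => ?_)
    have h1 := mul_le_mul_of_nonneg_right (hle i) (hN i)
    calc p i * N i ^ 2 = p i * N i * N i := by ring
      _ ≤ p i * K * N i := h1
      _ = K * (p i * N i) := by ring
  have hsum : ∑ i, p i * Real.exp (κ * (M - N i)) ≤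
      (∑ i, p i) * (1 + κ * M + κ ^ 2 * M ^ 2) - (κ + 2 * κ ^ 2 * M) * M
        + κ ^ 2 * ∑ i, p i * N i ^ 2 := by
    refine (Finset.sum_le_sum (fun i _ => hterm i)).trans (le_of_eq ?_)
    rw [Finset.sum_add_distrib, Finset.sum_sub_distrib, ← Finset.sum_mul, ← Finset.mul_sum,
      ← Finset.mul_sum, hM]
  have hκ2 : 0 ≤ κ ^ 2 := sq_nonneg κ
  have h5 := mul_le_mul_of_nonneg_left hsq hκ2
  have h6 : 0 ≤ κ ^ 2 * M ^ 2 := by positivity
  nlinarith [hsum, hlast, h5, h6]

variable {U V : Type} [Fintype U] [Fintype V]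

theorem cov_cases (T : SimpleGraph U) (φ : U → V) (x y : V) :
    cov T φ x y = 0 ∨ cov T φ x y = 1 := by
  unfold cov
  split_ifs
  · exact Or.inr rfl
  · exact Or.inl rfl

theorem cov_nonneg (T : SimpleGraph U) (φ : U → V) (x y : V) : 0 ≤ cov T φ x y := by
  rcases cov_cases T φ x y with h | h <;> rw [h] <;> norm_num

theorem cov_le (T : SimpleGraph U) (φ : U → V) (x y : V) : cov T φ x y ≤ 1 := by
  rcases cov_cases T φ x y with h | h <;> rw [h] <;> norm_num

theorem mem_nb (H : SimpleGraph V) (v x : V) : x ∈ nb H v ↔ H.Adj v x := by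
  simp [nb]

/-- number of removed edges at `v` -/
noncomputable def cN (T : SimpleGraph U) (H : SimpleGraph V) (φ : U → V) (v : V) : ℝ :=
  ∑ x ∈ nb H v, cov T φ v x

/-- number of common neighbours destroyed -/
noncomputable def cR (T : SimpleGraph U) (H : SimpleGraph V) (φ : U → V) (u v : V) : ℝ :=
  ∑ x ∈ nb H u ∩ nb H v, (cov T φ u x + cov T φ v x - cov T φ u x * cov T φ v x)

theorem cN_nonneg (T : SimpleGraph U) (H : SimpleGraph V) (φ : U → V) (v : V) :
    0 ≤ cN T H φ v := Finset.sum_nonneg (fun x _ => cov_nonneg T φ v x)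

theorem cR_nonneg (T : SimpleGraph U) (H : SimpleGraph V) (φ : U → V) (u v : V) :
    0 ≤ cR T H φ u v := by
  refine Finset.sum_nonneg (fun x _ => ?_)
  rcases cov_cases T φ u x with h | h <;> rcases cov_cases T φ v x with h' | h' <;>
    rw [h, h'] <;> norm_num

theorem one_sub_cov (T : SimpleGraph U) (φ : U → V) (x y : V) :
    1 - cov T φ x y = if ¬ ∃ a b, T.Adj a b ∧ φ a = x ∧ φ b = y then 1 else 0 := by
  unfold cov
  by_cases h : ∃ a b, T.Adj a b ∧ φ a = x ∧ φ b = y
  · rw [if_pos h, if_neg (not_not.mpr h)]; norm_num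
  · rw [if_neg h, if_pos h]; norm_num

theorem card_del (T : SimpleGraph U) (H : SimpleGraph V) (φ : U → V) (v : V) :
    ((nb (del T H φ) v).card : ℝ) = (nb H v).card - cN T H φ v := by
  have h1 : nb (del T H φ) v =
      (nb H v).filter (fun x => ¬ ∃ a b, T.Adj a b ∧ φ a = v ∧ φ b = x) := by
    ext x
    simp only [nb, del, Finset.mem_filter, Finset.mem_univ, true_and]
  rw [h1, Finset.card_filter, Nat.cast_sum]
  have h2 : ((nb H v).card : ℝ) = ∑ x ∈ nb H v, (1 : ℝ) := by simp
  rw [h2, cN, ← Finset.sum_sub_distrib]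
  refine Finset.sum_congr rfl (fun x _ => ?_)
  rw [one_sub_cov]
  split_ifs <;> simp

theorem codeg_del (T : SimpleGraph U) (H : SimpleGraph V) (φ : U → V) (u v : V) :
    ((nb (del T H φ) u ∩ nb (del T H φ) v).card : ℝ) =
      (nb H u ∩ nb H v).card - cR T H φ u v := by
  have h1 : nb (del T H φ) u ∩ nb (del T H φ) v =
      (nb H u ∩ nb H v).filter (fun x => (¬ ∃ a b, T.Adj a b ∧ φ a = u ∧ φ b = x) ∧
        ¬ ∃ a b, T.Adj a b ∧ φ a = v ∧ φ b = x) := by
    ext x
    simp only [nb, del, Finset.mem_filter, Finset.mem_univ, true_and, Finset.mem_inter]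
    tauto
  rw [h1, Finset.card_filter, Nat.cast_sum]
  have h2 : ((nb H u ∩ nb H v).card : ℝ) = ∑ x ∈ nb H u ∩ nb H v, (1 : ℝ) := by simp
  rw [h2, cR, ← Finset.sum_sub_distrib]
  refine Finset.sum_congr rfl (fun x _ => ?_)
  have h3 : (1 : ℝ) - (cov T φ u x + cov T φ v x - cov T φ u x * cov T φ v x) =
      (1 - cov T φ u x) * (1 - cov T φ v x) := by ring
  rw [h3, one_sub_cov, one_sub_cov]
  by_cases h4 : ∃ a b, T.Adj a b ∧ φ a = u ∧ φ b = x
  · rw [if_neg (fun h => h.1 h4), if_neg (not_not.mpr h4)]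
    simp
  · by_cases h5 : ∃ a b, T.Adj a b ∧ φ a = v ∧ φ b = x
    · rw [if_neg (fun h => h.2 h5), if_pos h4, if_neg (not_not.mpr h5)]
      simp
    · rw [if_pos ⟨h4, h5⟩, if_pos h4, if_pos h5]
      simp

/-- the row sums of the covering indicator -/
theorem row (T : SimpleGraph U) {φ : U → V} (hφ : Function.Injective φ) (a : U) :
    ∑ x : V, cov T φ (φ a) x = (nb T a).card := by
  have h1 : ∑ x : V, cov T φ (φ a) x =
      ((univ.filter (fun x : V => ∃ a' b, T.Adj a' b ∧ φ a' = φ a ∧ φ b = x)).card : ℝ) := by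
    rw [Finset.card_filter, Nat.cast_sum]
    refine Finset.sum_congr rfl (fun x _ => ?_)
    unfold cov
    split_ifs <;> simp
  rw [h1]
  congr 1
  have h2 : (univ.filter (fun x : V => ∃ a' b, T.Adj a' b ∧ φ a' = φ a ∧ φ b = x)) =
      (nb T a).image φ := by
    ext x
    simp only [Finset.mem_filter, Finset.mem_univ, true_and, Finset.mem_image, nb]
    constructor
    · rintro ⟨a', b, h, ha, hb⟩
      rw [hφ ha] at h
      exact ⟨b, h, hb⟩
    · rintro ⟨b, h, hb⟩
      exact ⟨a, b, h, rfl, hb⟩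
  rw [h2, Finset.card_image_of_injective _ hφ]

theorem row_zero (T : SimpleGraph U) {φ : U → V} {v : V} (hv : ∀ a, φ a ≠ v) (x : V) :
    cov T φ v x = 0 := by
  unfold cov
  rw [if_neg]
  rintro ⟨a, b, _, ha, _⟩
  exact hv a ha

theorem cN_le (T : SimpleGraph U) (H : SimpleGraph V) {φ : U → V} (hφ : Function.Injective φ)
    {Δ : ℕ} (hΔ : ∀ u, (nb T u).card ≤ Δ) (v : V) : cN T H φ v ≤ Δ := by
  by_cases hv : ∃ a, φ a = v
  · obtain ⟨a, rfl⟩ := hv
    calc cN T H φ (φ a) ≤ ∑ x : V, cov T φ (φ a) x :=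
          Finset.sum_le_sum_of_subset_of_nonneg (Finset.subset_univ _)
            (fun x _ _ => cov_nonneg T φ (φ a) x)
      _ = (nb T a).card := row T hφ a
      _ ≤ Δ := by exact_mod_cast hΔ a
  · push Not at hv
    have : cN T H φ v = 0 := Finset.sum_eq_zero (fun x _ => row_zero T hv x)
    rw [this]
    exact Nat.cast_nonneg Δ

theorem cR_le (T : SimpleGraph U) (H : SimpleGraph V) {φ : U → V} (hφ : Function.Injective φ)
    {Δ : ℕ} (hΔ : ∀ u, (nb T u).card ≤ Δ) (u v : V) : cR T H φ u v ≤ 2 * Δ := by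
  have h1 : cR T H φ u v ≤ cN T H φ u + cN T H φ v := by
    calc cR T H φ u v ≤ ∑ x ∈ nb H u ∩ nb H v, (cov T φ u x + cov T φ v x) := by
          refine Finset.sum_le_sum (fun x _ => ?_)
          have := mul_nonneg (cov_nonneg T φ u x) (cov_nonneg T φ v x)
          linarith
      _ = ∑ x ∈ nb H u ∩ nb H v, cov T φ u x + ∑ x ∈ nb H u ∩ nb H v, cov T φ v x :=
          Finset.sum_add_distrib
      _ ≤ cN T H φ u + cN T H φ v := by
          refine add_le_add ?_ ?_
          · exact Finset.sum_le_sum_of_subset_of_nonneg Finset.inter_subset_left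
              (fun x _ _ => cov_nonneg T φ u x)
          · exact Finset.sum_le_sum_of_subset_of_nonneg Finset.inter_subset_right
              (fun x _ _ => cov_nonneg T φ v x)
  have h2 := cN_le T H hφ hΔ u
  have h3 := cN_le T H hφ hΔ v
  linarith

/-- total number of covered ordered pairs -/
theorem total (T : SimpleGraph U) (hT : T.IsTree) {m : ℕ} (hU : Fintype.card U = m + 1)
    {φ : U → V} (hφ : Function.Injective φ) : ∑ x : V, ∑ y : V, cov T φ x y = 2 * m := by
  have h1 : ∑ a : U, ((nb T a).card : ℝ) = ∑ x : V, ∑ y : V, cov T φ x y := by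
    refine Fintype.sum_of_injective φ hφ _ _ ?_ ?_
    · intro x hx
      refine Finset.sum_eq_zero (fun y _ => row_zero T (fun a ha => hx ⟨a, ha⟩) y)
    · intro a
      exact (row T hφ a).symm
  rw [← h1]
  have h2 : ∀ a, (nb T a).card = T.degree a := by
    intro a
    rw [← SimpleGraph.card_neighborFinset_eq_degree]
    congr 1
    ext x
    simp [nb]
  have h3 := SimpleGraph.sum_degrees_eq_twice_card_edges T
  have h4 := hT.card_edgeFinset
  have h5 : ∑ a : U, (nb T a).card = 2 * m := by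
    simp_rw [h2]
    rw [h3]
    omega
  exact_mod_cast h5

theorem cov_adj {T : SimpleGraph U} {H : SimpleGraph V} {φ : U → V}
    (hom : ∀ a b, T.Adj a b → H.Adj (φ a) (φ b)) {x y : V} (h : ¬ H.Adj x y) :
    cov T φ x y = 0 := by
  unfold cov
  rw [if_neg]
  rintro ⟨a, b, hab, rfl, rfl⟩
  exact h (hom a b hab)

/-- total mass -/
theorem mass {T : SimpleGraph U} {m Δ d : ℕ} {H : SimpleGraph V} {W : (U → V) → ℝ}
    (hW : Wt T m Δ H W) (hT : T.IsTree) (hU : Fintype.card U = m + 1) (hm : 1 ≤ m)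
    (hd : ∀ v, (nb H v).card ≤ d) : ∑ φ : U → V, W φ ≤ d * Fintype.card V := by
  have h1 : (2 * m : ℝ) * ∑ φ : U → V, W φ = ∑ x : V, ∑ y : V, ∑ φ : U → V, W φ * cov T φ x y := by
    have e1 : ∀ φ : U → V, (2 * m : ℝ) * W φ = ∑ x : V, ∑ y : V, W φ * cov T φ x y := by
      intro φ
      by_cases h0 : W φ = 0
      · rw [h0]; simp
      · rw [← total T hT hU (hW.hom φ h0).1, mul_comm, Finset.mul_sum]
        refine Finset.sum_congr rfl (fun x _ => ?_)
        rw [Finset.mul_sum]
    rw [Finset.mul_sum]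
    simp_rw [e1]
    rw [Finset.sum_comm]
    refine Finset.sum_congr rfl (fun x _ => ?_)
    rw [Finset.sum_comm]
  have h2 : ∀ x : V, ∑ y : V, ∑ φ : U → V, W φ * cov T φ x y ≤ (d : ℝ) * (2 * m) := by
    intro x
    have e1 : ∑ y : V, ∑ φ : U → V, W φ * cov T φ x y =
        ∑ y ∈ nb H x, ∑ φ : U → V, W φ * cov T φ x y := by
      symm
      refine Finset.sum_subset (Finset.subset_univ _) ?_
      intro y _ hy
      rw [mem_nb] at hy
      refine Finset.sum_eq_zero (fun φ _ => ?_)
      by_cases h0 : W φ = 0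
      · rw [h0, zero_mul]
      · rw [cov_adj (hW.hom φ h0).2 hy, mul_zero]
    rw [e1]
    calc ∑ y ∈ nb H x, ∑ φ : U → V, W φ * cov T φ x y ≤ ∑ y ∈ nb H x, (2 * m : ℝ) :=
          Finset.sum_le_sum (fun y hy => hW.use x y ((mem_nb H x y).mp hy))
      _ = (nb H x).card * (2 * m : ℝ) := by rw [Finset.sum_const, nsmul_eq_mul]
      _ ≤ (d : ℝ) * (2 * m) := by
          refine mul_le_mul_of_nonneg_right ?_ (by positivity)
          exact_mod_cast hd x
  have h3 : (2 * m : ℝ) * ∑ φ : U → V, W φ ≤ Fintype.card V * ((d : ℝ) * (2 * m)) := by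
    rw [h1]
    calc _ ≤ ∑ _x : V, (d : ℝ) * (2 * m) := Finset.sum_le_sum (fun x _ => h2 x)
      _ = _ := by rw [Finset.sum_const, nsmul_eq_mul, Finset.card_univ]
  have hm' : (0 : ℝ) < 2 * m := by
    have : (1 : ℝ) ≤ m := by exact_mod_cast hm
    linarith
  have h4 : (2 * m : ℝ) * ∑ φ : U → V, W φ ≤ (2 * m : ℝ) * (d * Fintype.card V) := by
    refine h3.trans (le_of_eq ?_)
    ring
  exact le_of_mul_le_mul_left h4 hm'

end One

open One in
theorem stOne : StOne := by
  intro U V _ _ T m Δ d H W Pr A A2 g e lam hW hT hU hm hmd hdn hΔ hΔ1 hd hlam hlam2 hg hg1 he hel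
  have hdpos : (0 : ℝ) < d := by
    have : 1 ≤ d := le_trans hm hmd
    exact_mod_cast this
  have hnpos : (0 : ℝ) < Fintype.card V := by
    have : 1 ≤ Fintype.card V := by omega
    exact_mod_cast this
  have hmpos : (0 : ℝ) < m := by exact_mod_cast hm
  have hDpos : (0 : ℝ) < d * Fintype.card V := mul_pos hdpos hnpos
  have hlam0 : 0 ≤ lam := by rw [hlam]; positivity
  set n : ℝ := (Fintype.card V : ℝ) with hn
  set g' : ℝ := g * (1 - lam) with hg'
  have hg'pos : 0 < g' := mul_pos hg (by linarith)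
  have hg'1 : g' ≤ 1 := by
    rw [hg']
    nlinarith
  -- probabilities
  let p : (U → V) → ℝ := fun φ => W φ / (d * n)
  have hp : ∀ φ, 0 ≤ p φ := fun φ => div_nonneg (hW.nonneg φ) hDpos.le
  have hp1 : ∑ φ : U → V, p φ ≤ 1 := by
    have h1 := mass hW hT hU hm hd
    have h2 : ∑ φ : U → V, p φ = (∑ φ : U → V, W φ) / (d * n) := by
      rw [Finset.sum_div]
    rw [h2, div_le_one hDpos]
    exact h1
  refine ⟨hp1, ?_⟩
  have hpW : ∀ φ, p φ ≠ 0 → W φ ≠ 0 := by
    intro φ h h0
    apply h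
    show W φ / (d * n) = 0
    rw [h0, zero_div]
  -- means
  have hmean : ∀ x y : V, ∑ φ : U → V, p φ * cov T φ x y = lam * MM T m W x y := by
    intro x y
    have : ∀ φ : U → V, p φ * cov T φ x y = (W φ * cov T φ x y) / (d * n) := by
      intro φ
      show W φ / (d * n) * cov T φ x y = _
      ring
    simp_rw [this]
    rw [← Finset.sum_div, MM, hlam]
    field_simp
  have hmean2 : ∀ u x v : V, ∑ φ : U → V, p φ * (cov T φ u x * cov T φ v x) =
      lam * bb T m W u x v := by
    intro u x v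
    have : ∀ φ : U → V, p φ * (cov T φ u x * cov T φ v x) =
        (W φ * (cov T φ u x * cov T φ v x)) / (d * n) := by
      intro φ
      show W φ / (d * n) * (cov T φ u x * cov T φ v x) = _
      ring
    simp_rw [this]
    rw [← Finset.sum_div, bb, hlam]
    field_simp
  have hMM : ∀ x y : V, H.Adj x y → MM T m W x y ≤ 1 := by
    intro x y hxy
    rw [MM, div_le_one (by positivity)]
    exact hW.use x y hxy
  have hbb : ∀ u x v : V, 0 ≤ bb T m W u x v := by
    intro u x v
    rw [bb]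
    refine div_nonneg (Finset.sum_nonneg (fun φ _ => ?_)) (by positivity)
    exact mul_nonneg (hW.nonneg φ) (mul_nonneg (cov_nonneg _ _ _ _) (cov_nonneg _ _ _ _))
  have hEN : ∀ v : V, ∑ φ : U → V, p φ * cN T H φ v = lam * ((nb H v).card - fv T m H W v) := by
    intro v
    have e1 : ∀ φ : U → V, p φ * cN T H φ v = ∑ x ∈ nb H v, p φ * cov T φ v x := by
      intro φ; rw [cN, Finset.mul_sum]
    simp_rw [e1]
    rw [Finset.sum_comm]
    simp_rw [hmean]
    rw [← Finset.mul_sum, fv, Finset.sum_sub_distrib]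
    simp
  have hER : ∀ u v : V, ∑ φ : U → V, p φ * cR T H φ u v =
      lam * (2 * (nb H u ∩ nb H v).card - f2 T m H W u v) := by
    intro u v
    have e1 : ∀ φ : U → V, p φ * cR T H φ u v = ∑ x ∈ nb H u ∩ nb H v,
        (p φ * cov T φ u x + p φ * cov T φ v x - p φ * (cov T φ u x * cov T φ v x)) := by
      intro φ
      rw [cR, Finset.mul_sum]
      refine Finset.sum_congr rfl (fun x _ => ?_)
      ring
    simp_rw [e1]
    rw [Finset.sum_comm]
    simp_rw [Finset.sum_sub_distrib, Finset.sum_add_distrib]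
    simp_rw [hmean, hmean2]
    rw [f2]
    simp_rw [Finset.sum_add_distrib, Finset.sum_sub_distrib]
    simp only [← Finset.mul_sum, Finset.sum_const, nsmul_eq_mul, mul_one]
    ring
  have hfv : ∀ v, 0 ≤ fv T m H W v := by
    intro v
    refine Finset.sum_nonneg (fun x hx => ?_)
    have := hMM v x ((mem_nb H v x).mp hx)
    linarith
  have hf2 : ∀ u v, 0 ≤ f2 T m H W u v := by
    intro u v
    refine Finset.sum_nonneg (fun x hx => ?_)
    rw [Finset.mem_inter, mem_nb, mem_nb] at hx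
    have h1 := hMM u x hx.1
    have h2 := hMM v x hx.2
    have h3 := hbb u x v
    linarith
  have hdeg : ∀ v, ((nb H v).card : ℝ) ≤ d := fun v => by exact_mod_cast hd v
  have hcod : ∀ u v, ((nb H u ∩ nb H v).card : ℝ) ≤ d := by
    intro u v
    have h1 : (nb H u ∩ nb H v).card ≤ (nb H u).card :=
      Finset.card_le_card Finset.inter_subset_left
    exact_mod_cast h1.trans (hd u)
  -- the factor
  have hΔ0 : (0 : ℝ) ≤ Δ := Nat.cast_nonneg Δ
  set q : ℝ := e / g' ^ 2 with hq
  have hq0 : 0 ≤ q := by positivity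
  have hqΔ : q * (2 * Δ) ≤ 1 := by
    rw [hq, div_mul_eq_mul_div, div_le_one (by positivity)]
    nlinarith
  set r : ℝ := e / g' with hr
  have hr0 : 0 ≤ r := by positivity
  have hrq : r ≤ q := by
    rw [hr, hq]
    refine div_le_div_of_nonneg_left he (by positivity) ?_
    nlinarith
  have hrΔ : r * Δ ≤ 1 := by nlinarith
  set F : ℝ := 4 * q ^ 2 * lam * Δ * d with hF
  have hF0 : 0 ≤ F := by positivity
  -- vertex terms
  have hv : ∀ (v : V) (s : ℝ), (s = 1 ∨ s = -1) →
      ∑ φ : U → V, p φ * Real.exp (s * (e * ((nb (del T H φ) v).card / g'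
        - (A v + lam * fv T m H W v / g') - d)))
      + (1 - ∑ φ : U → V, p φ) * Real.exp (s * (e * ((nb H v).card / g'
        - (A v + lam * fv T m H W v / g') - d)))
      ≤ (1 + F) * Real.exp (s * (e * ((nb H v).card / g - A v - d))) := by
    intro v s hs
    have hsabs : |s * r| = r := by
      rcases hs with rfl | rfl
      · rw [one_mul, abs_of_nonneg hr0]
      · rw [neg_one_mul, abs_neg, abs_of_nonneg hr0]
    have hs2 : (s * r) ^ 2 = r ^ 2 := by
      rcases hs with rfl | rfl <;> ring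
    have h1 := avg p (fun φ => cN T H φ v) (s * r) Δ _ hp hp1
      (fun φ => cN_nonneg T H φ v)
      (fun φ h => cN_le T H (hW.hom φ (hpW φ h)).1 hΔ v) (hEN v) (by rw [hsabs]; exact hrΔ) hΔ0
    rw [hs2] at h1
    have hMle : lam * (((nb H v).card : ℝ) - fv T m H W v) ≤ lam * d := by
      refine mul_le_mul_of_nonneg_left ?_ hlam0
      have := hdeg v
      have := hfv v
      linarith
    have h2 : r ^ 2 * (Δ * (lam * (((nb H v).card : ℝ) - fv T m H W v))) ≤ F := by
      have e1 : r ^ 2 ≤ q ^ 2 := by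
        exact pow_le_pow_left₀ hr0 hrq 2
      have e2 : (Δ : ℝ) * (lam * (((nb H v).card : ℝ) - fv T m H W v)) ≤ Δ * (lam * d) :=
        mul_le_mul_of_nonneg_left hMle hΔ0
      calc r ^ 2 * (Δ * (lam * (((nb H v).card : ℝ) - fv T m H W v)))
          ≤ r ^ 2 * (Δ * (lam * d)) := mul_le_mul_of_nonneg_left e2 (by positivity)
        _ ≤ q ^ 2 * (Δ * (lam * d)) := mul_le_mul_of_nonneg_right e1 (by positivity)
        _ ≤ 4 * (q ^ 2 * (Δ * (lam * d))) := by
            have : 0 ≤ q ^ 2 * (Δ * (lam * d)) := by positivity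
            linarith
        _ = F := by rw [hF]; ring
    have hE0 : 0 ≤ Real.exp (s * (e * ((nb H v).card / g - A v - d))) := (Real.exp_pos _).le
    have h3 : (∑ φ : U → V, p φ * Real.exp (s * r * (lam * (((nb H v).card : ℝ) - fv T m H W v)
          - cN T H φ v)) + (1 - ∑ φ : U → V, p φ) *
          Real.exp (s * r * (lam * (((nb H v).card : ℝ) - fv T m H W v)))) *
          Real.exp (s * (e * ((nb H v).card / g - A v - d)))
        ≤ (1 + F) * Real.exp (s * (e * ((nb H v).card / g - A v - d))) :=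
      mul_le_mul_of_nonneg_right (by linarith) hE0
    refine le_trans (le_of_eq ?_) h3
    rw [add_mul, Finset.sum_mul]
    have hid : ∀ x : ℝ, s * (e * ((((nb H v).card : ℝ) - x) / g'
        - (A v + lam * fv T m H W v / g') - d)) =
        s * r * (lam * (((nb H v).card : ℝ) - fv T m H W v) - x)
          + s * (e * ((nb H v).card / g - A v - d)) := by
      intro x
      have e1 : ((nb H v).card : ℝ) / g = ((nb H v).card : ℝ) * (1 - lam) / g' := by
        rw [hg']
        have : (1 - lam) ≠ 0 := by linarith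
        field_simp
      rw [e1, hr]
      field_simp
      ring
    congr 1
    · refine Finset.sum_congr rfl (fun φ _ => ?_)
      rw [card_del, hid, Real.exp_add]
      ring
    · have := hid 0
      rw [sub_zero, sub_zero] at this
      rw [this, Real.exp_add]
      ring
  -- pair terms
  have hpr : ∀ u v : V,
      ∑ φ : U → V, p φ * Real.exp (e * ((nb (del T H φ) u ∩ nb (del T H φ) v).card / g' ^ 2
        - (A2 u v + lam * f2 T m H W u v / g' ^ 2) - d))
      + (1 - ∑ φ : U → V, p φ) * Real.exp (e * ((nb H u ∩ nb H v).card / g' ^ 2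
        - (A2 u v + lam * f2 T m H W u v / g' ^ 2) - d))
      ≤ (1 + F) * Real.exp (e * ((nb H u ∩ nb H v).card / g ^ 2 - A2 u v - d)) := by
    intro u v
    have h1 := avg p (fun φ => cR T H φ u v) q (2 * Δ) _ hp hp1
      (fun φ => cR_nonneg T H φ u v)
      (fun φ h => cR_le T H (hW.hom φ (hpW φ h)).1 hΔ u v) (hER u v)
      (by rw [abs_of_nonneg hq0]; exact hqΔ) (by positivity)
    have hMle : lam * (2 * ((nb H u ∩ nb H v).card : ℝ) - f2 T m H W u v) ≤ lam * (2 * d) := by
      refine mul_le_mul_of_nonneg_left ?_ hlam0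
      have := hcod u v
      have := hf2 u v
      linarith
    have h2 : q ^ 2 * (2 * Δ * (lam * (2 * ((nb H u ∩ nb H v).card : ℝ) - f2 T m H W u v))) ≤ F := by
      have e2 : (2 * Δ : ℝ) * (lam * (2 * ((nb H u ∩ nb H v).card : ℝ) - f2 T m H W u v)) ≤
          2 * Δ * (lam * (2 * d)) := mul_le_mul_of_nonneg_left hMle (by positivity)
      calc _ ≤ q ^ 2 * (2 * Δ * (lam * (2 * d))) := mul_le_mul_of_nonneg_left e2 (by positivity)
        _ = F := by rw [hF]; ring
    have hE0 : 0 ≤ Real.exp (e * ((nb H u ∩ nb H v).card / g ^ 2 - A2 u v - d)) :=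
      (Real.exp_pos _).le
    have h3 : (∑ φ : U → V, p φ * Real.exp (q * (lam * (2 * ((nb H u ∩ nb H v).card : ℝ)
          - f2 T m H W u v) - cR T H φ u v)) + (1 - ∑ φ : U → V, p φ) *
          Real.exp (q * (lam * (2 * ((nb H u ∩ nb H v).card : ℝ) - f2 T m H W u v)))) *
          Real.exp (e * ((nb H u ∩ nb H v).card / g ^ 2 - A2 u v - d))
        ≤ (1 + F) * Real.exp (e * ((nb H u ∩ nb H v).card / g ^ 2 - A2 u v - d)) :=
      mul_le_mul_of_nonneg_right (by linarith) hE0
    refine le_trans ?_ h3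
    rw [add_mul, Finset.sum_mul]
    have hid : ∀ x : ℝ, e * ((((nb H u ∩ nb H v).card : ℝ) - x) / g' ^ 2
        - (A2 u v + lam * f2 T m H W u v / g' ^ 2) - d) ≤
        q * (lam * (2 * ((nb H u ∩ nb H v).card : ℝ) - f2 T m H W u v) - x)
          + e * ((nb H u ∩ nb H v).card / g ^ 2 - A2 u v - d) := by
      intro x
      have e1 : ((nb H u ∩ nb H v).card : ℝ) / g ^ 2 =
          ((nb H u ∩ nb H v).card : ℝ) * (1 - lam) ^ 2 / g' ^ 2 := by
        rw [hg']
        have : (1 - lam) ≠ 0 := by linarith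
        field_simp
      have e2 : q * (lam * (2 * ((nb H u ∩ nb H v).card : ℝ) - f2 T m H W u v) - x)
          + e * ((nb H u ∩ nb H v).card / g ^ 2 - A2 u v - d)
          - e * ((((nb H u ∩ nb H v).card : ℝ) - x) / g' ^ 2
        - (A2 u v + lam * f2 T m H W u v / g' ^ 2) - d) =
          q * (lam ^ 2 * ((nb H u ∩ nb H v).card : ℝ)) := by
        rw [e1, hq]
        field_simp
        ring
      have e3 : 0 ≤ q * (lam ^ 2 * ((nb H u ∩ nb H v).card : ℝ)) := by positivity
      linarith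
    refine add_le_add ?_ ?_
    · refine Finset.sum_le_sum (fun φ _ => ?_)
      rw [mul_assoc, ← Real.exp_add]
      refine mul_le_mul_of_nonneg_left (Real.exp_le_exp.mpr ?_) (hp φ)
      rw [codeg_del]
      exact hid _
    · rw [mul_assoc, ← Real.exp_add]
      refine mul_le_mul_of_nonneg_left (Real.exp_le_exp.mpr ?_) (by linarith)
      have := hid 0
      rw [sub_zero, sub_zero] at this
      exact this
  -- assembling
  have e1 : ∀ X Y : (U → V) → ℝ, ∑ φ : U → V, p φ * (X φ + Y φ) =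
      ∑ φ : U → V, p φ * X φ + ∑ φ : U → V, p φ * Y φ := by
    intro X Y
    rw [← Finset.sum_add_distrib]
    exact Finset.sum_congr rfl (fun φ _ => mul_add _ _ _)
  have hvp : ∀ v : V,
      ∑ φ : U → V, p φ * (Real.exp (e * ((nb (del T H φ) v).card / g'
        - (A v + lam * fv T m H W v / g') - d)) +
        Real.exp (-(e * ((nb (del T H φ) v).card / g'
        - (A v + lam * fv T m H W v / g') - d))))
      + (1 - ∑ φ : U → V, p φ) * (Real.exp (e * ((nb H v).card / g'
        - (A v + lam * fv T m H W v / g') - d)) + Real.exp (-(e * ((nb H v).card / g'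
        - (A v + lam * fv T m H W v / g') - d))))
      ≤ (1 + F) * (Real.exp (e * ((nb H v).card / g - A v - d)) +
        Real.exp (-(e * ((nb H v).card / g - A v - d)))) := by
    intro v
    have h1 := hv v 1 (Or.inl rfl)
    have h2 := hv v (-1) (Or.inr rfl)
    simp only [one_mul, neg_mul] at h1 h2
    rw [e1]
    linarith
  unfold Xi
  have hFeq : 1 + 4 * (e / g' ^ 2) ^ 2 * lam * Δ * d = 1 + F := by rw [hF, hq]
  rw [hFeq]
  have key1 : ∑ φ : U → V, p φ * (∑ v : V, (Real.exp (e * ((nb (del T H φ) v).card / g'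
        - (A v + lam * fv T m H W v / g') - d)) +
        Real.exp (-(e * ((nb (del T H φ) v).card / g'
        - (A v + lam * fv T m H W v / g') - d)))))
      + (1 - ∑ φ : U → V, p φ) * (∑ v : V, (Real.exp (e * ((nb H v).card / g'
        - (A v + lam * fv T m H W v / g') - d)) + Real.exp (-(e * ((nb H v).card / g'
        - (A v + lam * fv T m H W v / g') - d)))))
      ≤ (1 + F) * ∑ v : V, (Real.exp (e * ((nb H v).card / g - A v - d)) +
        Real.exp (-(e * ((nb H v).card / g - A v - d)))) := by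
    have h1 := Finset.sum_le_sum (fun v (_ : v ∈ (Finset.univ : Finset V)) => hvp v)
    rw [Finset.sum_add_distrib, Finset.sum_comm, ← Finset.mul_sum, ← Finset.mul_sum] at h1
    simp_rw [← Finset.mul_sum] at h1
    exact h1
  have key2 : ∑ φ : U → V, p φ * (∑ pr ∈ Pr,
        Real.exp (e * ((nb (del T H φ) pr.1 ∩ nb (del T H φ) pr.2).card / g' ^ 2
        - (A2 pr.1 pr.2 + lam * f2 T m H W pr.1 pr.2 / g' ^ 2) - d)))
      + (1 - ∑ φ : U → V, p φ) * (∑ pr ∈ Pr,
        Real.exp (e * ((nb H pr.1 ∩ nb H pr.2).card / g' ^ 2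
        - (A2 pr.1 pr.2 + lam * f2 T m H W pr.1 pr.2 / g' ^ 2) - d)))
      ≤ (1 + F) * ∑ pr ∈ Pr,
        Real.exp (e * ((nb H pr.1 ∩ nb H pr.2).card / g ^ 2 - A2 pr.1 pr.2 - d)) := by
    have h1 := Finset.sum_le_sum (fun pr (_ : pr ∈ Pr) => hpr pr.1 pr.2)
    rw [Finset.sum_add_distrib, Finset.sum_comm, ← Finset.mul_sum, ← Finset.mul_sum] at h1
    simp_rw [← Finset.mul_sum] at h1
    exact h1
  have e3 := e1 (fun φ => ∑ v : V, (Real.exp (e * ((nb (del T H φ) v).card / g'
        - (A v + lam * fv T m H W v / g') - d)) +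
        Real.exp (-(e * ((nb (del T H φ) v).card / g'
        - (A v + lam * fv T m H W v / g') - d))))) (fun φ => ∑ pr ∈ Pr,
        Real.exp (e * ((nb (del T H φ) pr.1 ∩ nb (del T H φ) pr.2).card / g' ^ 2
        - (A2 pr.1 pr.2 + lam * f2 T m H W pr.1 pr.2 / g' ^ 2) - d)))
  beta_reduce at e3 ⊢
  have e4 := add_le_add key1 key2
  rw [← mul_add] at e4
  refine le_trans (le_of_eq ?_) e4
  rw [mul_add (1 - ∑ φ : U → V, p φ)] 
  have e5 : ∀ a b c d' x : ℝ, x = a + b → x + (c + d') = a + c + (b + d') := by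
    intro a b c d' x h
    rw [h]; ring
  exact e5 _ _ _ _ _ e3

end Pool.Agent.Lib.GHA
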